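import Pool.Agent.RNP.Same

/-! # Back to the model: the metric (package W19)

(problem MP_9bfcae_gt, Part II)

`D` is a Boolean valued lower semicontinuous fragmenting metric (`IsBig`); `dR x y` is `D x y` on `p` and `0` outside, `dMn` the name of the
function `(nx x, nx y) ↦ nr (dR x y)` (`RVI.gr2`).
* `bk_ap`: `RVI.gr2_ap` (`RVI.Ap` and `CPI.Ap` are the same notion). Its hypothesis: `eq (nx x) (nx x') ⊓ eq (nx y) (nx y') ≤ eq (nr (dR x y)) (nr (dR x' y'))`. Let `q` be a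
  condition in the left side (`RO.le_def`); the right side is `cl μ {dR x y = dR x' y'}` (`RVI.eq_nr`), so show that `dR x y = dR x' y'` almost
  everywhere on `q` (`RVI.mem_cl_ae`). Outside `p` both are `0`. If `q ∩ p` has positive measure it is a condition `q' ≤ p` which forces
  `nx x = nx x'`, `nx y = nx y'`. By `same_of_eq` and `IsBig.ext`: `D x x' = 0`, `D y y' = 0` on `q'`, and by `tri`, `symm`: `D x y ≤ D x x' + D x' y' + D y' y`
  and conversely.
* `bk_met`: the conjuncts of `RNC.IsMet` with `Y = al nx`: reduce to `x = nx x0`, `y = nx y0` (`F_all_al`, reorder the quantifiers, or `RVI.st_all`), then `t = nr (dR x0 y0)` by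
  `bk_ap`. `CPI.CEv`: `RVI.al_mem`. `¬ Val l t o`: `nonneg`, `F_nlt`. `t = o ↔ x = y`: as an equivalence of forced statements (`F.imp` in both directions): if
  `q ≤ p` forces `nr (dR x0 y0) = nr 0` then `D x0 y0 = 0` on `q`, by `IsBig.sep` and `eq_of_same` `q` forces `nx x0 = nx y0`; conversely `same_of_eq` and `IsBig.ext`.
  Symmetry: `IsBig.symm`, `F_eqr`. Triangle inequality: `w = nr (addR ..)` by `RVI.nr_add`, `IsBig.tri`, `F_nlt`. -/

set_option autoImplicit false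

namespace RNP

open MeasureTheory STP STP.BSet RVI
open CPI (F TV tv kn)

variable {Ω : Type} [MeasurableSpace Ω] {μ : Measure Ω} [IsProbabilityMeasure μ] {X C : Type}

/-- the random variable `D x y` on `p`, `0` outside -/
noncomputable def dR (p : Ps μ) {D : X → X → Ω → ℝ} (hD : ∀ x y, Measurable (D x y))
    (x y : X) : RR Ω := ⟨p.1.indicator (D x y), (hD x y).indicator p.2.1⟩

/-- the name of the metric -/
noncomputable def dMn (p : Ps μ) (nx : X → BSet (RO (Ps μ))) {D : X → X → Ω → ℝ}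
    (hD : ∀ x y, Measurable (D x y)) : BSet (RO (Ps μ)) := gr2 nx nx (nr μ) (dR p hD)

variable {p : Ps μ} {S : BCd (nu p) X C} {nx : X → BSet (RO (Ps μ))}
  {nb : C → BSet (RO (Ps μ))} {h : BSet (RO (Ps μ))} {D : X → X → Ω → ℝ}

omit [IsProbabilityMeasure μ] in
private theorem bka_mu {A : Ω → Prop} (h : ∀ᵐ ω ∂(nu p), A ω) : ∀ᵐ ω ∂μ, ω ∈ p.1 → A ω :=
  (ae_restrict_iff' p.2.1).1 h

omit [IsProbabilityMeasure μ] in
private theorem bka_in (hD : ∀ x y, Measurable (D x y)) (x y : X) {ω : Ω} (h : ω ∈ p.1) :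
    (dR p hD x y).1 ω = D x y ω := Set.indicator_of_mem h _

omit [IsProbabilityMeasure μ] in
private theorem bka_out (hD : ∀ x y, Measurable (D x y)) (x y : X) {ω : Ω} (h : ω ∉ p.1) :
    (dR p hD x y).1 ω = 0 := Set.indicator_of_notMem h _

private theorem bka_ext (hS : S.hv = ihv nx nb h) (hD : IsBig S.sp D) {q : Ps μ} (hq : q ≤ p)
    {x y : X} (hxy : F q fun G => NG.mk G (nx x) = NG.mk G (nx y)) :
    ∀ᵐ ω ∂μ, ω ∈ q.1 → D x y ω = 0 := by
  have h1 : On (nu p) q.1 fun ω => D x y ω = 0 :=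
    hD.ext x y q.1 (pos_of_le hq) fun U => same_of_eq hS hq hxy U
  exact (on_of_le hq).1 h1

private theorem bka_hf (hS : S.hv = ihv nx nb h) (hD : IsBig S.sp D) (x x' y y' : X) :
    BSet.eq (nx x) (nx x') ⊓ BSet.eq (nx y) (nx y') ≤
      BSet.eq (nr μ (dR p hD.meas x y)) (nr μ (dR p hD.meas x' y')) := by
  rw [eq_nr]
  refine RO.le_def.2 fun q hq => ?_
  have hm : NullMeasurableSet {ω | (dR p hD.meas x y).1 ω = (dR p hD.meas x' y').1 ω} μ :=
    (measurableSet_eq_fun (dR p hD.meas x y).2 (dR p hD.meas x' y').2).nullMeasurableSet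
  rw [mem_cl_ae hm]
  obtain ⟨hq1, hq2⟩ := RO.mem_inf.1 hq
  rcases eq_or_ne (μ (q.1 ∩ p.1)) 0 with h0 | h0
  · have h1 : ∀ᵐ ω ∂μ, ω ∉ q.1 ∩ p.1 := measure_eq_zero_iff_ae_notMem.1 h0
    filter_upwards [h1] with ω h2 h3
    have h4 : ω ∉ p.1 := fun h4 => h2 ⟨h3, h4⟩
    change (dR p hD.meas x y).1 ω = (dR p hD.meas x' y').1 ω
    rw [bka_out hD.meas x y h4, bka_out hD.meas x' y' h4]
  · have hr : ∃ r : Ps μ, r.1 = q.1 ∩ p.1 :=
      ⟨⟨q.1 ∩ p.1, q.2.1.inter p.2.1, pos_iff_ne_zero.2 h0⟩, rfl⟩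
    obtain ⟨r, hr⟩ := hr
    have hrp : r ≤ p := by
      rw [Ps.le_def, hr]
      exact Set.inter_subset_right
    have hrq : r ≤ q := by
      rw [Ps.le_def, hr]
      exact Set.inter_subset_left
    have e1 := bka_ext hS hD hrp (F.eq.2 (RO.down _ hrq hq1))
    have e2 := bka_ext hS hD hrp (F.eq.2 (RO.down _ hrq hq2))
    filter_upwards [e1, e2, bka_mu (hD.tri x x' y), bka_mu (hD.tri x' y' y),
      bka_mu (hD.tri x' x y'), bka_mu (hD.tri x y y'), bka_mu (hD.symm x x'),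
      bka_mu (hD.symm y y')] with ω e1 e2 t1 t2 t3 t4 s1 s2 h3
    change (dR p hD.meas x y).1 ω = (dR p hD.meas x' y').1 ω
    by_cases h4 : ω ∈ p.1
    · rw [bka_in hD.meas x y h4, bka_in hD.meas x' y' h4]
      have hω : ω ∈ r.1 := by
        rw [hr]
        exact ⟨h3, h4⟩
      have e1 := e1 hω
      have e2 := e2 hω
      have t1 := t1 h4
      have t2 := t2 h4
      have t3 := t3 h4
      have t4 := t4 h4
      have s1 := s1 h4
      have s2 := s2 h4
      linarith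
    · rw [bka_out hD.meas x y h4, bka_out hD.meas x' y' h4]

theorem bk_ap (hS : S.hv = ihv nx nb h) (hD : IsBig S.sp D) (G : Ult (RO (Ps μ))) (x y : X)
    (t : NG G) : CPI.Ap (EG G) (NG.mk G (dMn p nx hD.meas)) (NG.mk G (nx x)) (NG.mk G (nx y)) t ↔
      t = NG.mk G (nr μ (dR p hD.meas x y)) := by
  have h1 := gr2_ap (na := nx) (nc := nx) (nd := nr μ) (f := dR p hD.meas)
    (fun a a' c c' => bka_hf hS hD a a' c c') G x y t
  exact h1

private theorem bka_add (G : Ult (RO (Ps μ))) {f g : RR Ω} {t : NG G} :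
    CPI.Ap (EG G) (NG.mk G (sN μ)) (NG.mk G (nr μ f)) (NG.mk G (nr μ g)) t ↔
      t = NG.mk G (nr μ (addR f g)) := nr_add G

private theorem bka_ev (hS : S.hv = ihv nx nb h) (hD : IsBig S.sp D) (G : Ult (RO (Ps μ))) :
    CPI.CEv (EG G) (NG.mk G (RVI.RN μ)) (NG.mk G (al nx)) (NG.mk G (al nx))
      (NG.mk G (dMn p nx hD.meas)) := by
  refine ⟨?_, ?_⟩
  · intro z y hz hy
    refine st_all nx (fun _ => ⊤) (fun G z => ∀ y, EG G y (NG.mk G (al nx)) →
      ∃ t, EG G t (NG.mk G (RVI.RN μ)) ∧ CPI.Ap (EG G) (NG.mk G (dMn p nx hD.meas)) z y t)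
      (fun a G _ y hy => ?_) G z hz y hy
    refine st_all nx (fun _ => ⊤) (fun G y =>
      ∃ t, EG G t (NG.mk G (RVI.RN μ)) ∧
        CPI.Ap (EG G) (NG.mk G (dMn p nx hD.meas)) (NG.mk G (nx a)) y t)
      (fun b G _ => ?_) G y hy
    exact ⟨_, (mem_RN G).2 ⟨_, rfl⟩, (bk_ap hS hD G a b _).2 rfl⟩
  · intro z y t t' hz hy
    refine st_all nx (fun _ => ⊤) (fun G z => ∀ y, EG G y (NG.mk G (al nx)) →
      ∀ t t', CPI.Ap (EG G) (NG.mk G (dMn p nx hD.meas)) z y t →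
        CPI.Ap (EG G) (NG.mk G (dMn p nx hD.meas)) z y t' → t = t')
      (fun a G _ y hy => ?_) G z hz y hy t t'
    refine st_all nx (fun _ => ⊤) (fun G y =>
      ∀ t t', CPI.Ap (EG G) (NG.mk G (dMn p nx hD.meas)) (NG.mk G (nx a)) y t →
        CPI.Ap (EG G) (NG.mk G (dMn p nx hD.meas)) (NG.mk G (nx a)) y t' → t = t')
      (fun b G _ t t' h1 h2 => ?_) G y hy
    exact ((bk_ap hS hD G a b _).1 h1).trans ((bk_ap hS hD G a b _).1 h2).symm

private theorem bka_two (hS : S.hv = ihv nx nb h) (hD : IsBig S.sp D)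
    (h2 : F p fun G => CPI.CHd (EG G) (NG.mk G (al nx)) (NG.mk G (al nb)) (NG.mk G h))
    (a b : X) :
    (F p fun G => ¬ Val (EG G) (NG.mk G (lN μ)) (NG.mk G (nr μ (dR p hD.meas a b)))
      (NG.mk G (nr μ (cR 0)))) ∧
    (F p fun G => (NG.mk G (nr μ (dR p hD.meas a b)) = NG.mk G (nr μ (cR 0)) ↔
      NG.mk G (nx a) = NG.mk G (nx b))) ∧
    F p fun G => NG.mk G (nr μ (dR p hD.meas a b)) = NG.mk G (nr μ (dR p hD.meas b a)) := by
  refine ⟨?_, ?_, ?_⟩
  · rw [F_nlt]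
    refine Filter.Eventually.of_forall fun ω hω => ?_
    rw [bka_in hD.meas a b hω]
    exact hD.nonneg a b ω
  · have h3 : F p fun G => NG.mk G (nr μ (dR p hD.meas a b)) = NG.mk G (nr μ (cR 0)) →
        NG.mk G (nx a) = NG.mk G (nx b) := by
      refine F.imp.2 fun q hq h4 => ?_
      rw [F_eqr] at h4
      refine eq_of_same hS h2 hq ?_
      refine hD.sep a b q.1 (pos_of_le hq) ?_
      refine (on_of_le hq).2 ?_
      filter_upwards [h4] with ω h5 h6
      have h7 := h5 h6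
      rw [bka_in hD.meas a b (hq h6)] at h7
      exact h7
    have h5 : F p fun G => NG.mk G (nx a) = NG.mk G (nx b) →
        NG.mk G (nr μ (dR p hD.meas a b)) = NG.mk G (nr μ (cR 0)) := by
      refine F.imp.2 fun q hq h4 => ?_
      rw [F_eqr]
      filter_upwards [bka_ext hS hD hq h4] with ω h6 h7
      rw [bka_in hD.meas a b (hq h7)]
      exact h6 h7
    exact fun G hG => ⟨h3 G hG, h5 G hG⟩
  · rw [F_eqr]
    filter_upwards [bka_mu (hD.symm a b)] with ω h3 h4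
    rw [bka_in hD.meas a b h4, bka_in hD.meas b a h4]
    exact h3 h4

private theorem bka_tri (hD : IsBig S.sp D) (a b c : X) :
    F p fun G => ¬ Val (EG G) (NG.mk G (lN μ))
      (NG.mk G (nr μ (addR (dR p hD.meas a b) (dR p hD.meas b c))))
      (NG.mk G (nr μ (dR p hD.meas a c))) := by
  rw [F_nlt]
  filter_upwards [bka_mu (hD.tri a b c)] with ω h3 h4
  change (dR p hD.meas a c).1 ω ≤ (dR p hD.meas a b).1 ω + (dR p hD.meas b c).1 ω
  rw [bka_in hD.meas a b h4, bka_in hD.meas b c h4, bka_in hD.meas a c h4]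
  exact h3 h4

theorem bk_met (hS : S.hv = ihv nx nb h) (hD : IsBig S.sp D)
    (h2 : F p fun G => CPI.CHd (EG G) (NG.mk G (al nx)) (NG.mk G (al nb)) (NG.mk G h)) :
    F p fun G => RNC.IsMet (EG G) (NG.mk G (RVI.RN μ)) (NG.mk G (RVI.lN μ))
      (NG.mk G (RVI.sN μ)) (NG.mk G (nr μ (cR 0))) (NG.mk G (al nx))
      (NG.mk G (dMn p nx hD.meas)) := by
  have key2 : F p fun G => ∀ x, EG G x (NG.mk G (al nx)) → ∀ y, EG G y (NG.mk G (al nx)) →
      ∀ t, CPI.Ap (EG G) (NG.mk G (dMn p nx hD.meas)) x y t →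
        ¬ Val (EG G) (NG.mk G (lN μ)) t (NG.mk G (nr μ (cR 0))) ∧
        (t = NG.mk G (nr μ (cR 0)) ↔ x = y) ∧
        CPI.Ap (EG G) (NG.mk G (dMn p nx hD.meas)) y x t := by
    refine (F_all_al (nm := nx) (S := fun G x => ∀ y, EG G y (NG.mk G (al nx)) →
      ∀ t, CPI.Ap (EG G) (NG.mk G (dMn p nx hD.meas)) x y t →
        ¬ Val (EG G) (NG.mk G (lN μ)) t (NG.mk G (nr μ (cR 0))) ∧
        (t = NG.mk G (nr μ (cR 0)) ↔ x = y) ∧
        CPI.Ap (EG G) (NG.mk G (dMn p nx hD.meas)) y x t)).2 fun a => ?_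
    refine (F_all_al (nm := nx) (S := fun G y =>
      ∀ t, CPI.Ap (EG G) (NG.mk G (dMn p nx hD.meas)) (NG.mk G (nx a)) y t →
        ¬ Val (EG G) (NG.mk G (lN μ)) t (NG.mk G (nr μ (cR 0))) ∧
        (t = NG.mk G (nr μ (cR 0)) ↔ NG.mk G (nx a) = y) ∧
        CPI.Ap (EG G) (NG.mk G (dMn p nx hD.meas)) y (NG.mk G (nx a)) t)).2 fun b => ?_
    obtain ⟨k1, k2, k3⟩ := bka_two hS hD h2 a b
    intro G hG t ht
    have ht' := (bk_ap hS hD G a b t).1 ht
    subst ht'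
    exact ⟨k1 G hG, k2 G hG, (bk_ap hS hD G b a _).2 (k3 G hG)⟩
  have key3 : F p fun G => ∀ x, EG G x (NG.mk G (al nx)) → ∀ y, EG G y (NG.mk G (al nx)) →
      ∀ z, EG G z (NG.mk G (al nx)) → ∀ s t u w,
      CPI.Ap (EG G) (NG.mk G (dMn p nx hD.meas)) x y s →
      CPI.Ap (EG G) (NG.mk G (dMn p nx hD.meas)) y z t →
      CPI.Ap (EG G) (NG.mk G (dMn p nx hD.meas)) x z u →
      CPI.Ap (EG G) (NG.mk G (sN μ)) s t w → ¬ Val (EG G) (NG.mk G (lN μ)) w u := by
    refine (F_all_al (nm := nx) (S := fun G x => ∀ y, EG G y (NG.mk G (al nx)) →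
      ∀ z, EG G z (NG.mk G (al nx)) → ∀ s t u w,
      CPI.Ap (EG G) (NG.mk G (dMn p nx hD.meas)) x y s →
      CPI.Ap (EG G) (NG.mk G (dMn p nx hD.meas)) y z t →
      CPI.Ap (EG G) (NG.mk G (dMn p nx hD.meas)) x z u →
      CPI.Ap (EG G) (NG.mk G (sN μ)) s t w → ¬ Val (EG G) (NG.mk G (lN μ)) w u)).2
      fun a => ?_
    refine (F_all_al (nm := nx) (S := fun G y =>
      ∀ z, EG G z (NG.mk G (al nx)) → ∀ s t u w,
      CPI.Ap (EG G) (NG.mk G (dMn p nx hD.meas)) (NG.mk G (nx a)) y s →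
      CPI.Ap (EG G) (NG.mk G (dMn p nx hD.meas)) y z t →
      CPI.Ap (EG G) (NG.mk G (dMn p nx hD.meas)) (NG.mk G (nx a)) z u →
      CPI.Ap (EG G) (NG.mk G (sN μ)) s t w → ¬ Val (EG G) (NG.mk G (lN μ)) w u)).2
      fun b => ?_
    refine (F_all_al (nm := nx) (S := fun G z => ∀ s t u w,
      CPI.Ap (EG G) (NG.mk G (dMn p nx hD.meas)) (NG.mk G (nx a)) (NG.mk G (nx b)) s →
      CPI.Ap (EG G) (NG.mk G (dMn p nx hD.meas)) (NG.mk G (nx b)) z t →
      CPI.Ap (EG G) (NG.mk G (dMn p nx hD.meas)) (NG.mk G (nx a)) z u →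
      CPI.Ap (EG G) (NG.mk G (sN μ)) s t w → ¬ Val (EG G) (NG.mk G (lN μ)) w u)).2
      fun c => ?_
    intro G hG s t u w k1 k2 k3 k4
    have e1 := (bk_ap hS hD G a b s).1 k1
    have e2 := (bk_ap hS hD G b c t).1 k2
    have e3 := (bk_ap hS hD G a c u).1 k3
    subst e1
    subst e2
    subst e3
    have e4 := (bka_add G).1 k4
    subst e4
    exact bka_tri hD a b c G hG
  intro G hG
  refine ⟨bka_ev hS hD G, ?_, ?_⟩
  · intro x y t hx hy ht
    exact key2 G hG x hx y hy t ht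
  · intro x y z s t u w hx hy hz k1 k2 k3 k4
    exact key3 G hG x hx y hy z hz s t u w k1 k2 k3 k4

end RNP
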