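import Pool.Agent.RNP.BkA

/-! # Back to the model: lower semicontinuity (package W20)

(problem MP_9bfcae_gt, Part II)

`RNC.IsLsc` for `Y = al nx`, `B = al nb`. Reduce to `x = nx x0`, `y = nx y0`, `r = nr f` (`R = al (nr μ)`; `F_all_al`), `t = nr (dR x0 y0)` (`bk_ap`). Let `q ≤ p` force
`Val l (nr f) (nr (dR x0 y0))`: `f < D x0 y0` almost everywhere on `q` (`F_lt`; `dR = D` on `p`). By `F.loc` it is enough to find below an arbitrary
`q' ≤ q` a condition which forces the conclusion. For some rational `ρ` the set `q1 := {ω ∈ q' | f ω < ρ < D x0 y0 ω}` has positive measure. `IsBig.lsc` gives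
`q2 ⊆ q1` and open `V`, `W` with `x0 ∈ V`, `y0 ∈ W` on `q2` and `ρ < D x' y'` on `q2` whenever `x' ∈ V`, `y' ∈ W`. `V.2`, `W.2` (`IsOp`) give `q3 ⊆ q2` and codes `b`, `c` with
`x0 ∈ b`, `y0 ∈ c` on `q3` and `z ∈ b → z ∈ V`, `z ∈ c → z ∈ W` on `q3`. The condition `q3 ∩ p` forces `Val h (nx x0) (nb b)`, `Val h (nx y0) (nb c)` (`S.hv = ihv`, `F_ts`) and for all
`x'`, `y'`: `Val h (nx x') (nb b) → Val h (nx y') (nb c) → Val l (nr f) (nr (dR x' y'))` (`F.imp`: a smaller condition which forces the premises is almost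
contained in `S.hv x' b ∩ S.hv y' c`, so `f < ρ < D x' y'` on it). -/

set_option autoImplicit false

namespace RNP

open MeasureTheory STP STP.BSet RVI
open CPI (F TV tv kn)

variable {Ω : Type} [MeasurableSpace Ω] {μ : Measure Ω} [IsProbabilityMeasure μ] {X C : Type}
  {p : Ps μ} {S : BCd (nu p) X C} {nx : X → BSet (RO (Ps μ))}
  {nb : C → BSet (RO (Ps μ))} {h : BSet (RO (Ps μ))} {D : X → X → Ω → ℝ}

theorem bk_lsc (hS : S.hv = ihv nx nb h) (hD : IsBig S.sp D) :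
    F p fun G => RNC.IsLsc (EG G) (NG.mk G (RVI.RN μ)) (NG.mk G (RVI.lN μ))
      (NG.mk G (al nx)) (NG.mk G (al nb)) (NG.mk G h) (NG.mk G (dMn p nx hD.meas)) := by
  unfold RNC.IsLsc
  refine F.all.2 fun X1 => F.all.2 fun X2 => F.all.2 fun T1 => F.all.2 fun R1 => ?_
  refine F.imp.2 fun q1 hq1 h1 => F.imp.2 fun q2 hq2 h2 => F.imp.2 fun q3 hq3 h3 =>
    F.imp.2 fun q4 hq4 h4 => F.imp.2 fun q5 hq5 h5 => ?_
  have hq51 : q5 ≤ q1 := hq5.trans (hq4.trans (hq3.trans hq2))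
  have hq5p : q5 ≤ p := hq51.trans hq1
  refine elim_st (F.mono hq51 h1) fun r1 hr1 x0 _ e1 => ?_
  refine elim_st (F.mono (hr1.trans (hq5.trans (hq4.trans hq3))) h2) fun r2 hr2 y0 _ e2 => ?_
  refine elim_st (F.mono (hr2.trans (hr1.trans (hq5.trans hq4))) h3) fun r3 hr3 f _ e3 => ?_
  have hr35 : r3 ≤ q5 := hr3.trans (hr2.trans hr1)
  have hr3p : r3 ≤ p := hr35.trans hq5p
  have e1' : F r3 fun G => NG.mk G X1 = NG.mk G (nx x0) := F.mono (hr3.trans hr2) e1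
  have e2' : F r3 fun G => NG.mk G X2 = NG.mk G (nx y0) := F.mono hr3 e2
  have hlt : F r3 fun G => Val (EG G) (NG.mk G (RVI.lN μ)) (NG.mk G (nr μ f))
      (NG.mk G (nr μ (dR p hD.meas x0 y0))) := by
    intro G hG
    have g4 := F.mono (hr35.trans hq5) h4 G hG
    have g5 := F.mono hr35 h5 G hG
    rw [e1' G hG, e2' G hG, bk_ap hS hD] at g4
    rw [g4, e3 G hG] at g5
    exact g5
  rw [F_lt] at hlt
  refine F.loc fun q' hq' => ?_
  have hq'p : q' ≤ p := hq'.trans hr3p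
  obtain ⟨ρ, hρ⟩ : ∃ ρ : ℚ, nu p (q'.1 ∩ {ω | f.1 ω < ρ ∧ (ρ : ℝ) < D x0 y0 ω}) ≠ 0 := by
    by_contra hcon
    push Not at hcon
    have h6 : nu p (⋃ ρ : ℚ, q'.1 ∩ {ω | f.1 ω < ρ ∧ (ρ : ℝ) < D x0 y0 ω}) = 0 :=
      measure_iUnion_null hcon
    apply (pos_of_le hq'p).2
    have h7 : On (nu p) q'.1 fun ω => f.1 ω < D x0 y0 ω := by
      rw [on_of_le hq'p]
      filter_upwards [hlt] with ω h8 h9
      have h10 := h8 (hq' h9)
      have h11 : (dR p hD.meas x0 y0).1 ω = D x0 y0 ω :=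
        Set.indicator_of_mem (hq'p h9) (D x0 y0)
      rwa [h11] at h10
    rw [measure_eq_zero_iff_ae_notMem] at h6 ⊢
    filter_upwards [h6, h7] with ω h8 h9 h10
    obtain ⟨ρ, hρ1, hρ2⟩ := exists_rat_btwn (h9 h10)
    exact h8 (Set.mem_iUnion.2 ⟨ρ, h10, hρ1, hρ2⟩)
  have hq1pos : Pos (nu p) (q'.1 ∩ {ω | f.1 ω < ρ ∧ (ρ : ℝ) < D x0 y0 ω}) :=
    ⟨q'.2.1.inter ((measurableSet_lt f.2 measurable_const).inter
      (measurableSet_lt measurable_const (hD.meas x0 y0))), hρ⟩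
  obtain ⟨s2, hs2, hs2p, U, V, hUV, hUV'⟩ := hD.lsc x0 y0 ρ _ hq1pos
    (Filter.Eventually.of_forall fun ω hω => hω.2.2)
  obtain ⟨s3, hs3, hs3p, b, hb, hb'⟩ := U.2.2 x0 s2 hs2p (by
    filter_upwards [hUV] with ω h6 h7
    exact (h6 h7).1)
  obtain ⟨s4, hs4, hs4p, c, hc, hc'⟩ := V.2.2 y0 s3 hs3p (by
    filter_upwards [hUV] with ω h6 h7
    exact (h6 (hs3 h7)).2)
  have hsub : s4 ⊆ q'.1 ∩ {ω | f.1 ω < ρ ∧ (ρ : ℝ) < D x0 y0 ω} :=
    hs4.trans (hs3.trans hs2)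
  have hle : cd hs4p ≤ q' := fun ω hω => (hsub hω.1).1
  have hler : cd hs4p ≤ r3 := hle.trans hq'
  have hxb : F (cd hs4p) fun G => Val (EG G) (NG.mk G h) (NG.mk G (nx x0)) (NG.mk G (nb b)) := by
    rw [F_ts, on_cd]
    filter_upwards [hb] with ω h6 h7
    have h8 := h6 (hs4 h7)
    rw [hS] at h8
    exact h8
  have hyc : F (cd hs4p) fun G => Val (EG G) (NG.mk G h) (NG.mk G (nx y0)) (NG.mk G (nb c)) := by
    rw [F_ts, on_cd]
    filter_upwards [hc] with ω h6 h7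
    have h8 := h6 h7
    rw [hS] at h8
    exact h8
  have key : F (cd hs4p) fun G => ∀ x, EG G x (NG.mk G (al nx)) → ∀ y,
      EG G y (NG.mk G (al nx)) → Val (EG G) (NG.mk G h) x (NG.mk G (nb b)) →
      Val (EG G) (NG.mk G h) y (NG.mk G (nb c)) → ∀ s,
      CPI.Ap (EG G) (NG.mk G (dMn p nx hD.meas)) x y s →
      Val (EG G) (NG.mk G (RVI.lN μ)) (NG.mk G (nr μ f)) s := by
    refine F_all_al.2 fun x' => F_all_al.2 fun y' => ?_
    refine F.imp.2 fun t1 ht1 g1 => F.imp.2 fun t2 ht2 g2 => ?_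
    have hfin : F t2 fun G => Val (EG G) (NG.mk G (RVI.lN μ)) (NG.mk G (nr μ f))
        (NG.mk G (nr μ (dR p hD.meas x' y'))) := by
      rw [F_lt]
      have k1 := F_ts.1 (F.mono ht2 g1)
      have k2 := F_ts.1 g2
      have k3 := (on_cd hs4p).2 (show On (nu p) s4 fun ω => (ω ∈ S.hv x' b → ω ∈ U.1 x') ∧
        (ω ∈ S.hv y' c → ω ∈ V.1 y') ∧ (ω ∈ U.1 x' → ω ∈ V.1 y' → (ρ : ℝ) < D x' y' ω) by
          filter_upwards [hb' x', hc' y', hUV' x' y'] with ω m1 m2 m3 m4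
          exact ⟨m1 (hs4 m4), m2 m4, m3 (hs3 (hs4 m4))⟩)
      filter_upwards [k1, k2, k3] with ω m1 m2 m3 m4
      have m5 : ω ∈ (cd hs4p).1 := (ht2.trans ht1) m4
      have m6 := m3 m5
      have m7 : ω ∈ S.hv x' b := by
        rw [hS]
        exact m1 m4
      have m8 : ω ∈ S.hv y' c := by
        rw [hS]
        exact m2 m4
      have m9 := m6.2.2 (m6.1 m7) (m6.2.1 m8)
      have m10 : (dR p hD.meas x' y').1 ω = D x' y' ω :=
        Set.indicator_of_mem m5.2 (D x' y')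
      rw [m10]
      exact (hsub m5.1).2.1.trans m9
    intro G hG s hs
    rw [bk_ap hS hD] at hs
    rw [hs]
    exact hfin G hG
  refine ⟨cd hs4p, hle, fun G hG => ?_⟩
  refine ⟨NG.mk G (nb b), NG.mk G (nb c), al_mem nb G b, al_mem nb G c, ?_, ?_, ?_⟩
  · rw [F.mono hler e1' G hG]
    exact hxb G hG
  · rw [F.mono hler e2' G hG]
    exact hyc G hG
  · intro x' y' s hx' hy' hxb' hyc' hap
    rw [F.mono hler e3 G hG]
    exact key G hG x' hx' y' hy' hxb' hyc' s hap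

end RNP
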