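import Pool.Agent.RNP.BkA

/-! # Back to the model: fragmentation (package W21)

(problem MP_9bfcae_gt, Part II)

`RNC.IsFrg` for `Y = al nx`, `B = al nb`: for names `K` (the set) and `nr f` (the number `e`): let `q ≤ p` force `Sub K (al nx)`, `∃ x ∈ K`, `Val l o (nr f)`; to show: `q` forces
the existence of `b`. Otherwise (`F.exists_no`) some `q1 ≤ q` forces that there is no such `b`. `0 < f` almost everywhere on `q1`, so for some real
`ε > 0` the set `q2 := {ω ∈ q1 | ε ≤ f ω}` has positive measure. For a name `U` of an open set let `M U` be the union modulo null sets (`essSup` of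
`CdA.lean`, index type `X`) of the sets `ts (nx x ∈ K) ∩ U.1 x`. Apply `IsBig.frag` to `M`, `q2` (a condition for `nu p`), `ε`:
* `U` = everything: `q2 ⊆ M U`: otherwise `r := q2 \ M U` is a condition which forces `∃ x ∈ K`, `x ∈ al nx`; some `r' ≤ r` decides `x = nx x0` (`F_ex_al`), so
  `ω ∈ ts (nx x0 ∈ K)` and `ω ∈ U.1 x0` on `r'`, `r' ⊆ M U`: contradiction.
* monotonicity: if `ω ∈ M U`, `ω ∉ M V` on a condition `r ⊆ q`, the second part of `essSup` gives `r' ⊆ r` and `x` with `ω ∈ ts (nx x ∈ K) ∩ U.1 x` on `r'`, so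
  `ω ∈ V.1 x` and `ω ∈ M V` on `r'`.
* Let `q3 ⊆ q2` be a condition with `q3 ⊆ M U`. `essSup`: `r ⊆ q3`, `x0` with `nx x0 ∈ K`, `x0 ∈ U` on `r`. `U.2`: `r' ⊆ r` and `b` with `x0 ∈ b` on `r'`, `z ∈ b → z ∈ U` on `r'`. The
  condition `r'` forces `nb b ∈ al nb`, `nx x0 ∈ K`, `Val h (nx x0) (nb b)`, so by the choice of `q1` it forces that not for all `x, y ∈ K` in `b` and `s` with
  `Ap d x y s` we have `Val l s (nr f)`: there are `x`, `y`, `s` with `x, y ∈ K`, `Val h x b`, `Val h y b`, `Ap d x y s`, `¬ Val l s (nr f)`. `x`, `y` are in `al nx`; some `r'' ≤ r'` decides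
  `x = nx x1`, `y = nx y1` (`F.ex`, `F_ex_al`), `s = nr (dR x1 y1)` (`bk_ap`), so `f ≤ D x1 y1` on `r''` (`F_nlt`), and `ε ≤ D x1 y1`; `x1, y1 ∈ b`, so `x1, y1 ∈ U` on
  `r''`. For every `V`: `x1 ∈ V → ω ∈ M V` on `r''` as `nx x1 ∈ K` (first part of `essSup`); the same for `y1`.
So `IsBig.frag` gives a contradiction. -/

set_option autoImplicit false

namespace RNP

open MeasureTheory STP STP.BSet RVI
open CPI (F TV tv kn)

variable {Ω : Type} [MeasurableSpace Ω] {μ : Measure Ω} [IsProbabilityMeasure μ] {X C : Type}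
  {p : Ps μ} {S : BCd (nu p) X C} {nx : X → BSet (RO (Ps μ))}
  {nb : C → BSet (RO (Ps μ))} {h : BSet (RO (Ps μ))} {D : X → X → Ω → ℝ}

private theorem pos_sdiff {ν : Measure Ω} {q A : Set Ω} (hq : MeasurableSet q)
    (hA : MeasurableSet A) (h : ¬ On ν q fun ω => ω ∈ A) : Pos ν (q \ A) := by
  refine ⟨hq.diff hA, fun h0 => h (ae_iff.2 ?_)⟩
  convert h0 using 2
  ext ω
  simp

private theorem no_pos {ν : Measure Ω} {r : Set Ω} (hr : Pos ν r)
    (h : On ν r fun _ => False) : False := by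
  refine hr.2 ?_
  convert ae_iff.1 h using 2
  ext ω
  simp

private theorem on_sub {ν : Measure Ω} {q r : Set Ω} {A : Ω → Prop} (hr : r ⊆ q)
    (h : On ν q A) : On ν r A := h.mono fun _ hω hr' => hω (hr hr')

omit [IsProbabilityMeasure μ] in
private theorem exists_eps {f : RR Ω} {q1 : Ps μ} (hpos : ∀ᵐ ω ∂μ, ω ∈ q1.1 → 0 < f.1 ω) :
    ∃ ε : ℝ, 0 < ε ∧ 0 < μ {ω | ω ∈ q1.1 ∧ ε ≤ f.1 ω} := by
  by_contra h
  push Not at h
  have h6 : ∀ n : ℕ, μ {ω | ω ∈ q1.1 ∧ 1 / ((n : ℝ) + 1) ≤ f.1 ω} = 0 :=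
    fun n => le_antisymm (h _ (by positivity)) bot_le
  have h8 : ∀ᵐ ω ∂μ, ω ∈ q1.1 → False := by
    have h9 : ∀ᵐ ω ∂μ, ∀ n : ℕ, ¬ (ω ∈ q1.1 ∧ 1 / ((n : ℝ) + 1) ≤ f.1 ω) := by
      refine ae_all_iff.2 fun n => ?_
      rw [ae_iff]
      simpa only [not_not] using h6 n
    filter_upwards [h9, hpos] with ω h10 h11 hω
    obtain ⟨n, hn⟩ := exists_nat_one_div_lt (h11 hω)
    exact h10 n ⟨hω, hn.le⟩
  exact no_pos ⟨q1.2.1, q1.2.2.ne'⟩ h8

private theorem frg_core (hS : S.hv = ihv nx nb h) (hD : IsBig S.sp D) {q : Ps μ} (hq : q ≤ p)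
    {K e : BSet (RO (Ps μ))}
    (h1 : F q fun G => Sub (EG G) (NG.mk G K) (NG.mk G (al nx)))
    (h2 : F q fun G => ∃ x, EG G x (NG.mk G K))
    (h3 : F q fun G => EG G (NG.mk G e) (NG.mk G (RVI.RN μ)))
    (h4 : F q fun G => Val (EG G) (NG.mk G (RVI.lN μ)) (NG.mk G (nr μ (cR 0))) (NG.mk G e)) :
    F q fun G => ∃ b, EG G b (NG.mk G (al nb)) ∧
      (∃ x, EG G x (NG.mk G K) ∧ Val (EG G) (NG.mk G h) x b) ∧
      ∀ x y s, EG G x (NG.mk G K) → EG G y (NG.mk G K) → Val (EG G) (NG.mk G h) x b →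
        Val (EG G) (NG.mk G h) y b → CPI.Ap (EG G) (NG.mk G (dMn p nx hD.meas)) x y s →
        Val (EG G) (NG.mk G (RVI.lN μ)) s (NG.mk G e) := by
  classical
  by_contra hcon
  obtain ⟨q1, hq1, hno⟩ := F.exists_no hcon
  obtain ⟨f, hf⟩ := full_nr (μ := μ) e
  have hef : F q1 fun G => NG.mk G e = NG.mk G (nr μ f) :=
    F.eq.2 (RO.le_def.1 hf q1 (F.mem.1 (h3.mono hq1)))
  have hpos : ∀ᵐ ω ∂μ, ω ∈ q1.1 → 0 < f.1 ω := by
    have h5 : F q1 fun G => Val (EG G) (NG.mk G (RVI.lN μ)) (NG.mk G (nr μ (cR 0)))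
        (NG.mk G (nr μ f)) := fun G hG => by
      have h6 := (h4.mono hq1) G hG
      have h7 : NG.mk G e = NG.mk G (nr μ f) := hef G hG
      beta_reduce at h6 ⊢
      rwa [h7] at h6
    exact F_lt.1 h5
  obtain ⟨ε, hε, hεq⟩ := exists_eps hpos
  obtain ⟨q2, hq2⟩ : ∃ q2 : Ps μ, q2.1 = {ω | ω ∈ q1.1 ∧ ε ≤ f.1 ω} :=
    ⟨⟨{ω | ω ∈ q1.1 ∧ ε ≤ f.1 ω}, q1.2.1.inter (measurableSet_le measurable_const f.2), hεq⟩, rfl⟩
  have hq21 : q2 ≤ q1 := by
    rw [Ps.le_def, hq2]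
    exact fun ω hω => hω.1
  have hq2p : q2 ≤ p := hq21.trans (hq1.trans hq)
  have hTS : ∀ x, MeasurableSet (ts fun G => EG G (NG.mk G (nx x)) (NG.mk G K)) :=
    fun x => ts_meas _
  have hM := fun U : {u : X → Set Ω // IsOp S u} => essSup (nu p)
    (fun x => (ts fun G => EG G (NG.mk G (nx x)) (NG.mk G K)) ∩ U.1 x)
    fun x => (hTS x).inter (U.2.1 x)
  choose M hM1 hM2 hM3 using hM
  refine hD.frag M q2.1 ε hM1 (pos_of_le hq2p) hε ?_ ?_ ?_
  · intro U hU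
    by_contra hc
    have hr := pos_sdiff q2.2.1 (hM1 U) hc
    have hrq : cd hr ≤ q1 := by
      refine le_trans ?_ hq21
      rw [Ps.le_def]
      exact fun ω hω => hω.1.1
    have h5 : F (cd hr) fun G => ∃ x, EG G x (NG.mk G (al nx)) ∧ EG G x (NG.mk G K) := by
      intro G hG
      obtain ⟨x, hx⟩ := (h2.mono (hrq.trans hq1)) G hG
      exact ⟨x, (h1.mono (hrq.trans hq1)) G hG x hx, hx⟩
    obtain ⟨r', hr', x0, h6⟩ := F_ex_al.1 h5 (cd hr) le_rfl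
    have h7 := (on_of_le (hr'.trans (cd_le hr))).2 (F_ts.1 h6)
    refine no_pos (pos_of_le (hr'.trans (cd_le hr))) ?_
    filter_upwards [h7, hU x0, hM2 U x0] with ω h8 h9 h10 hω
    exact (sub_of_cd hr' hω).2 (h10 ⟨h8 hω, h9⟩)
  · intro U V q' hq' hUV
    by_contra hc
    have hr : Pos (nu p) ((q' ∩ M U) \ M V) := by
      refine pos_sdiff (hq'.1.inter (hM1 U)) (hM1 V) fun h5 => hc ?_
      filter_upwards [h5] with ω hω h6 h7
      exact hω ⟨h6, h7⟩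
    obtain ⟨r', hr', hp', x, hx⟩ := hM3 U _ hr (Filter.Eventually.of_forall fun ω hω => hω.1.2)
    refine no_pos hp' ?_
    filter_upwards [hx, hUV x, hM2 V x] with ω h5 h6 h7 hω
    exact (hr' hω).2 (h7 ⟨(h5 hω).1, h6 (hr' hω).1.1 (h5 hω).2⟩)
  · intro U q3 hq3 hp3 hq3M
    obtain ⟨r, hrq, hr, x0, hx0⟩ := hM3 U q3 hp3 hq3M
    obtain ⟨r', hr', hpr', b, hb1, hb2⟩ := U.2.2 x0 r hr (hx0.mono fun ω hω h5 => (hω h5).2)
    have hcq : cd hpr' ≤ q2 := by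
      rw [Ps.le_def]
      exact fun ω hω => hq3 (hrq (hr' hω.1))
    have hcq1 := hcq.trans hq21
    have h5 : F (cd hpr') fun G => EG G (NG.mk G (nx x0)) (NG.mk G K) := by
      refine F_ts.2 ((on_cd hpr').2 ?_)
      filter_upwards [hx0] with ω hω h6
      exact (hω (hr' h6)).1
    have h6 : F (cd hpr') fun G => Val (EG G) (NG.mk G h) (NG.mk G (nx x0)) (NG.mk G (nb b)) := by
      refine F_ts.2 ((on_cd hpr').2 ?_)
      rw [hS] at hb1
      exact hb1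
    have h7 : F (cd hpr') fun G => ∃ x, EG G x (NG.mk G (al nx)) ∧ ∃ y,
        EG G y (NG.mk G (al nx)) ∧ ∃ s, EG G x (NG.mk G K) ∧ EG G y (NG.mk G K) ∧
          Val (EG G) (NG.mk G h) x (NG.mk G (nb b)) ∧
          Val (EG G) (NG.mk G h) y (NG.mk G (nb b)) ∧
          CPI.Ap (EG G) (NG.mk G (dMn p nx hD.meas)) x y s ∧
          ¬ Val (EG G) (NG.mk G (RVI.lN μ)) s (NG.mk G e) := by
      intro G hG
      by_contra hn
      refine (hno.mono hcq1) G hG ⟨NG.mk G (nb b), al_mem nb G b, ⟨_, h5 G hG, h6 G hG⟩, ?_⟩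
      intro x y s g1 g2 g3 g4 g5
      by_contra g6
      have hs := (h1.mono (hcq1.trans hq1)) G hG
      exact hn ⟨x, hs x g1, y, hs y g2, s, g1, g2, g3, g4, g5, g6⟩
    obtain ⟨r1, hr1, x1, h8⟩ := F_ex_al.1 h7 (cd hpr') le_rfl
    obtain ⟨r2, hr2, y1, h9⟩ := F_ex_al.1 h8 r1 le_rfl
    have hr2c : r2 ≤ cd hpr' := hr2.trans hr1
    have hr2p : r2 ≤ p := hr2c.trans (cd_le hpr')
    have k1 : F r2 fun G => EG G (NG.mk G (nx x1)) (NG.mk G K) := fun G hG =>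
      (h9 G hG).choose_spec.1
    have k2 : F r2 fun G => EG G (NG.mk G (nx y1)) (NG.mk G K) := fun G hG =>
      (h9 G hG).choose_spec.2.1
    have k3 : F r2 fun G => Val (EG G) (NG.mk G h) (NG.mk G (nx x1)) (NG.mk G (nb b)) :=
      fun G hG => (h9 G hG).choose_spec.2.2.1
    have k4 : F r2 fun G => Val (EG G) (NG.mk G h) (NG.mk G (nx y1)) (NG.mk G (nb b)) :=
      fun G hG => (h9 G hG).choose_spec.2.2.2.1
    have k5 : F r2 fun G => ¬ Val (EG G) (NG.mk G (RVI.lN μ))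
        (NG.mk G (nr μ (dR p hD.meas x1 y1))) (NG.mk G (nr μ f)) := by
      intro G hG
      obtain ⟨s, -, -, -, -, g5, g6⟩ := h9 G hG
      rw [bk_ap hS hD] at g5
      have g7 : NG.mk G e = NG.mk G (nr μ f) := (hef.mono (hr2c.trans hcq1)) G hG
      rwa [g5, g7] at g6
    have hpos2 := pos_of_le hr2p
    refine ⟨r2.1, (sub_of_cd hr2c).trans (hr'.trans hrq), hpos2, x1, y1, ?_, fun V => ?_⟩
    · have l3 := (on_of_le hr2p).2 (F_ts.1 k3)
      have l4 := (on_of_le hr2p).2 (F_ts.1 k4)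
      have l5 := (on_of_le hr2p).2 (F_nlt.1 k5)
      have m1 := hb2 x1
      have m2 := hb2 y1
      rw [hS] at m1 m2
      filter_upwards [l3, l4, l5, m1, m2] with ω g3 g4 g5 g6 g7 hω
      have hω' : ω ∈ r' := sub_of_cd hr2c hω
      refine ⟨g6 hω' (g3 hω), g7 hω' (g4 hω), ?_⟩
      have g8 : ω ∈ q2.1 := hcq (hr2c hω)
      rw [hq2] at g8
      have g9 := g5 hω
      have g10 : (dR p hD.meas x1 y1).1 ω = D x1 y1 ω :=
        Set.indicator_of_mem (hr2p hω) _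
      rw [g10] at g9
      exact g8.2.trans g9
    · have l1 := (on_of_le hr2p).2 (F_ts.1 k1)
      have l2 := (on_of_le hr2p).2 (F_ts.1 k2)
      filter_upwards [l1, l2, hM2 V x1, hM2 V y1] with ω g1 g2 g3 g4 hω
      exact ⟨fun g5 => g3 ⟨g1 hω, g5⟩, fun g5 => g4 ⟨g2 hω, g5⟩⟩

set_option synthInstance.maxHeartbeats 4000000 in
set_option synthInstance.maxSize 100000 in
theorem bk_frg (hS : S.hv = ihv nx nb h) (hD : IsBig S.sp D) :
    F p fun G => RNC.IsFrg (EG G) (NG.mk G (RVI.RN μ)) (NG.mk G (RVI.lN μ))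
      (NG.mk G (nr μ (cR 0))) (NG.mk G (al nx)) (NG.mk G (al nb)) (NG.mk G h)
      (NG.mk G (dMn p nx hD.meas)) := by
  unfold RNC.IsFrg
  refine F.all.2 fun K => F.all.2 fun e => ?_
  refine F.imp.2 fun q1 hq1 h1 => F.imp.2 fun q2 hq2 h2 => F.imp.2 fun q3 hq3 h3 =>
    F.imp.2 fun q4 hq4 h4 => ?_
  exact frg_core hS hD (hq4.trans (hq3.trans (hq2.trans hq1)))
    (h1.mono (hq4.trans (hq3.trans hq2))) (h2.mono (hq4.trans hq3)) (h3.mono hq4) h4

end RNP
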