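import Pool.Agent.RNP.Ops

/-! # Boxes (package C08)

(problem MP_9bfcae_gt, Part II)

* `bx_meas`: finite intersection of measurable sets (`measurableSet_lt`).
* `boxT`: choose for every triple `t = (f, r, b)` a name `U t` of the open set `{f < r}` or `{f > r}` (`f.lt r`, `f.gt r`) and apply
  `S.finInter`.
* `cf_ext`: if two names of points are in the same open sets on `q` then all continuous functions have
  the same values at them on `q`: `f x ω < r ↔ f y ω < r` for all rational `r`, for almost all `ω ∈ q`. -/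

set_option autoImplicit false

namespace RNP

open MeasureTheory

variable {Ω : Type} [MeasurableSpace Ω] {ν : Measure Ω} {X T : Type} {S : BSp ν X T}

theorem bx_meas (e : Finset (CF S × ℚ × Bool)) (x : X) : MeasurableSet (bx e x) := by
  have h : bx e x = ⋂ t ∈ e, {ω | if t.2.2 then t.1.f x ω < t.2.1 else
      (t.2.1 : ℝ) < t.1.f x ω} := by
    ext ω
    simp [bx]
  rw [h]
  refine Finset.measurableSet_biInter e fun t _ => ?_
  by_cases hb : t.2.2 = true
  · simp only [hb, if_true]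
    exact measurableSet_lt (t.1.meas x) measurable_const
  · simp only [hb]
    exact measurableSet_lt measurable_const (t.1.meas x)

theorem boxT (e : Finset (CF S × ℚ × Bool)) :
    ∃ U, ∀ x, ∀ᵐ ω ∂ν, (ω ∈ S.mem x U ↔ ω ∈ bx e x) := by
  have h : ∀ t : CF S × ℚ × Bool, ∃ U, ∀ x, ∀ᵐ ω ∂ν, (ω ∈ S.mem x U ↔
      if t.2.2 then t.1.f x ω < t.2.1 else (t.2.1 : ℝ) < t.1.f x ω) := by
    rintro ⟨f, r, b⟩
    cases b
    · simpa using f.gt r
    · simpa using f.lt r
  choose U hU using h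
  obtain ⟨W, hW⟩ := S.finInter e U
  refine ⟨W, fun x => ?_⟩
  have h1 : ∀ᵐ ω ∂ν, ∀ t ∈ e, (ω ∈ S.mem x (U t) ↔
      if t.2.2 then t.1.f x ω < t.2.1 else (t.2.1 : ℝ) < t.1.f x ω) :=
    (Filter.eventually_all_finset e).2 fun t _ => hU t x
  filter_upwards [hW x, h1] with ω h2 h3
  rw [h2]
  exact forall₂_congr h3

theorem cf_ext (f : CF S) {x y : X} {q : Set Ω}
    (h : ∀ U, On ν q fun ω => (ω ∈ S.mem x U ↔ ω ∈ S.mem y U)) :
    On ν q fun ω => f.f x ω = f.f y ω := by
  have h1 : ∀ r : ℚ, ∀ᵐ ω ∂ν, ω ∈ q → (f.f x ω < r ↔ f.f y ω < r) := by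
    intro r
    obtain ⟨U, hU⟩ := f.lt r
    filter_upwards [hU x, hU y, h U] with ω h2 h3 h4 hq
    rw [← h2, ← h3]
    exact h4 hq
  filter_upwards [ae_all_iff.2 h1] with ω h2 hq
  apply le_antisymm
  · by_contra hcon
    rw [not_le] at hcon
    obtain ⟨r, hr1, hr2⟩ := exists_rat_btwn hcon
    exact absurd ((h2 r hq).2 hr1) (not_lt.2 hr2.le)
  · by_contra hcon
    rw [not_le] at hcon
    obtain ⟨r, hr1, hr2⟩ := exists_rat_btwn hcon
    exact absurd ((h2 r hq).1 hr1) (not_lt.2 hr2.le)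

end RNP
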