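import Pool.Agent.RNP.Defs

/-! # Essential infima (package C09)

(problem MP_9bfcae_gt, Part II)

* `essInf`: the greatest measurable lower bound of a family of measurable functions with values
  `≥ 0`, cut off at `1`. Proof: replace `g j` by `min (g j) 1`. For a countable set `C` of indices let
  `h C := ⨅ j ∈ C, min (g j) 1` (and `1` if `C` is empty): measurable with values in `[0, 1]`. Let `c` be the infimum of
  the integrals `∫ h C ∂ν` over all countable `C`; it is attained: choose `C n` with `∫ h (C n) ≤ c + 1/(n+1)` and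
  take the union `C`. Put `h := h C`. For every `j`: `h (C ∪ {j}) ≤ h C` has the same integral, so they are equal
  almost everywhere and `h ≤ g j` almost everywhere. If `k ≤ 1` and `k ≤ g j` almost everywhere on `q` for all `j`
  then this is true for all `j ∈ C` simultaneously, so `k ≤ h` almost everywhere on `q`. (To avoid `iInf` over a
  set with the value `1` for the empty set use a sequence `e : ℕ → Option J` and `h := ⨅ n, (e n).elim 1 (min (g ·) 1)`.)
* `exists_I`: `essInf` for the family indexed by `X × X`: `m.d x y` on the measurable set `mem x U ∩ mem y V`, and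
  `1` outside. -/

set_option autoImplicit false

namespace RNP

open MeasureTheory

variable {Ω : Type} [MeasurableSpace Ω] {ν : Measure Ω} [IsFiniteMeasure ν] {X T : Type}
  {S : BSp ν X T}

private noncomputable def GG {J : Type} (g : J → Ω → ℝ) : Option J → Ω → ℝ
  | none => fun _ => 1
  | some j => fun ω => min (g j ω) 1

private noncomputable def HH {J : Type} (g : J → Ω → ℝ) (e : ℕ → Option J) (ω : Ω) : ℝ :=
  ⨅ n, GG g (e n) ω

omit [MeasurableSpace Ω] in
private theorem GG_nonneg {J : Type} {g : J → Ω → ℝ} (h0 : ∀ j ω, 0 ≤ g j ω) (o : Option J)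
    (ω : Ω) : 0 ≤ GG g o ω := by
  cases o with
  | none => exact zero_le_one
  | some j => exact le_min (h0 j ω) zero_le_one

omit [MeasurableSpace Ω] in
private theorem GG_le_one {J : Type} (g : J → Ω → ℝ) (o : Option J) (ω : Ω) :
    GG g o ω ≤ 1 := by
  cases o with
  | none => exact le_rfl
  | some j => exact min_le_right _ _

private theorem GG_meas {J : Type} {g : J → Ω → ℝ} (hm : ∀ j, Measurable (g j)) (o : Option J) :
    Measurable (GG g o) := by
  cases o with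
  | none => exact measurable_const
  | some j => exact (hm j).min measurable_const

omit [MeasurableSpace Ω] in
private theorem GG_bdd {J : Type} {g : J → Ω → ℝ} (h0 : ∀ j ω, 0 ≤ g j ω) (e : ℕ → Option J)
    (ω : Ω) : BddBelow (Set.range fun n => GG g (e n) ω) :=
  ⟨0, by rintro _ ⟨n, rfl⟩; exact GG_nonneg h0 _ _⟩

omit [MeasurableSpace Ω] in
private theorem HH_nonneg {J : Type} {g : J → Ω → ℝ} (h0 : ∀ j ω, 0 ≤ g j ω) (e : ℕ → Option J)
    (ω : Ω) : 0 ≤ HH g e ω := le_ciInf fun _ => GG_nonneg h0 _ _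

omit [MeasurableSpace Ω] in
private theorem HH_le {J : Type} {g : J → Ω → ℝ} (h0 : ∀ j ω, 0 ≤ g j ω) (e : ℕ → Option J)
    (n : ℕ) (ω : Ω) : HH g e ω ≤ GG g (e n) ω := ciInf_le (GG_bdd h0 e ω) n

omit [MeasurableSpace Ω] in
private theorem HH_le_one {J : Type} {g : J → Ω → ℝ} (h0 : ∀ j ω, 0 ≤ g j ω)
    (e : ℕ → Option J) (ω : Ω) : HH g e ω ≤ 1 := (HH_le h0 e 0 ω).trans (GG_le_one _ _ _)

private theorem HH_meas {J : Type} {g : J → Ω → ℝ} (hm : ∀ j, Measurable (g j))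
    (e : ℕ → Option J) : Measurable (HH g e) := Measurable.iInf fun _ => GG_meas hm _

private theorem HH_int {J : Type} (ν : Measure Ω) [IsFiniteMeasure ν] {g : J → Ω → ℝ}
    (hm : ∀ j, Measurable (g j)) (h0 : ∀ j ω, 0 ≤ g j ω) (e : ℕ → Option J) :
    Integrable (HH g e) ν := by
  refine Integrable.of_bound (HH_meas hm e).aestronglyMeasurable 1 (ae_of_all _ fun ω => ?_)
  rw [Real.norm_eq_abs, abs_of_nonneg (HH_nonneg h0 e ω)]
  exact HH_le_one h0 e ω

private theorem HH_opt {J : Type} (ν : Measure Ω) [IsFiniteMeasure ν] {g : J → Ω → ℝ}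
    (hm : ∀ j, Measurable (g j)) (h0 : ∀ j ω, 0 ≤ g j ω) :
    ∃ e, ∀ e', ∫ ω, HH g e ω ∂ν ≤ ∫ ω, HH g e' ω ∂ν := by
  have hb : BddBelow (Set.range fun e : ℕ → Option J => ∫ ω, HH g e ω ∂ν) :=
    ⟨0, by rintro _ ⟨e, rfl⟩; exact integral_nonneg fun ω => HH_nonneg h0 e ω⟩
  have h1 : ∀ n : ℕ, ∃ e : ℕ → Option J, ∫ ω, HH g e ω ∂ν <
      (⨅ e : ℕ → Option J, ∫ ω, HH g e ω ∂ν) + 1 / ((n : ℝ) + 1) := by
    intro n
    refine exists_lt_of_ciInf_lt ?_
    have : (0 : ℝ) < 1 / ((n : ℝ) + 1) := by positivity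
    linarith
  choose E hE using h1
  refine ⟨fun k => E k.unpair.1 k.unpair.2, fun e' => ?_⟩
  have h2 : ∀ n : ℕ, ∫ ω, HH g (fun k => E k.unpair.1 k.unpair.2) ω ∂ν ≤
      ∫ ω, HH g e' ω ∂ν + 1 / ((n : ℝ) + 1) := by
    intro n
    have h3 : ∫ ω, HH g (fun k => E k.unpair.1 k.unpair.2) ω ∂ν ≤ ∫ ω, HH g (E n) ω ∂ν := by
      refine integral_mono (HH_int ν hm h0 _) (HH_int ν hm h0 _) fun ω => le_ciInf fun m => ?_
      have h4 := HH_le h0 (fun k => E k.unpair.1 k.unpair.2) (Nat.pair n m) ω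
      simpa using h4
    have h5 : (⨅ e : ℕ → Option J, ∫ ω, HH g e ω ∂ν) ≤ ∫ ω, HH g e' ω ∂ν := ciInf_le hb e'
    linarith [hE n]
  have h6 : Filter.Tendsto (fun n : ℕ => ∫ ω, HH g e' ω ∂ν + 1 / ((n : ℝ) + 1)) Filter.atTop
      (nhds (∫ ω, HH g e' ω ∂ν + 0)) :=
    tendsto_const_nhds.add tendsto_one_div_add_atTop_nhds_zero_nat
  rw [add_zero] at h6
  exact ge_of_tendsto' h6 h2

theorem essInf (ν : Measure Ω) [IsFiniteMeasure ν] {J : Type} (g : J → Ω → ℝ)
    (hm : ∀ j, Measurable (g j)) (h0 : ∀ j ω, 0 ≤ g j ω) :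
    ∃ h : Ω → ℝ, Measurable h ∧ (∀ ω, 0 ≤ h ω ∧ h ω ≤ 1) ∧ (∀ j, ∀ᵐ ω ∂ν, h ω ≤ g j ω) ∧
      ∀ (q : Set Ω) (k : Ω → ℝ), (∀ ω, k ω ≤ 1) → (∀ j, On ν q fun ω => k ω ≤ g j ω) →
        On ν q fun ω => k ω ≤ h ω := by
  obtain ⟨e, he⟩ := HH_opt ν hm h0
  refine ⟨HH g e, HH_meas hm e, fun ω => ⟨HH_nonneg h0 e ω, HH_le_one h0 e ω⟩, fun j => ?_, ?_⟩
  · set e' : ℕ → Option J := fun k => Nat.casesOn k (some j) e with he'
    have h1 : ∀ ω, HH g e' ω ≤ HH g e ω := fun ω => le_ciInf fun n => HH_le h0 e' (n + 1) ω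
    have h2 : ∫ ω, (HH g e ω - HH g e' ω) ∂ν = 0 := by
      rw [integral_sub (HH_int ν hm h0 _) (HH_int ν hm h0 _)]
      have h3 := integral_mono (HH_int ν hm h0 e') (HH_int ν hm h0 e) h1
      linarith [he e']
    rw [integral_eq_zero_iff_of_nonneg (fun ω => sub_nonneg.2 (h1 ω))
      ((HH_int ν hm h0 _).sub (HH_int ν hm h0 _))] at h2
    filter_upwards [h2] with ω hω
    have h4 : HH g e ω - HH g e' ω = 0 := hω
    have h5 : HH g e' ω ≤ min (g j ω) 1 := HH_le h0 e' 0 ω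
    linarith [min_le_left (g j ω) 1]
  · intro q k hk1 hk
    have h1 : ∀ᵐ ω ∂ν, ∀ n, ω ∈ q → k ω ≤ GG g (e n) ω := by
      refine ae_all_iff.2 fun n => ?_
      cases hn : e n with
      | none => exact ae_of_all _ fun ω _ => hk1 ω
      | some j =>
        filter_upwards [hk j] with ω hω hq
        exact le_min (hω hq) (hk1 ω)
    filter_upwards [h1] with ω hω hq
    exact le_ciInf fun n => hω n hq

/-- `h` is the infimum of the pseudometric `m` on `U × V` (cut off at `1`) -/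
structure IsI {a : Set (CF S)} (m : SM S a) (U V : T) (h : Ω → ℝ) : Prop where
  meas : Measurable h
  nonneg : ∀ ω, 0 ≤ h ω
  le_one : ∀ ω, h ω ≤ 1
  le : ∀ x y, ∀ᵐ ω ∂ν, ω ∈ S.mem x U → ω ∈ S.mem y V → h ω ≤ m.d x y ω
  max : ∀ (q : Set Ω) (k : Ω → ℝ), (∀ ω, k ω ≤ 1) →
    (∀ x y, On ν q fun ω => ω ∈ S.mem x U → ω ∈ S.mem y V → k ω ≤ m.d x y ω) →
    On ν q fun ω => k ω ≤ h ω

theorem exists_I {a : Set (CF S)} (m : SM S a) (U V : T) : ∃ h, IsI m U V h := by
  classical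
  obtain ⟨h, h1, h2, h3, h4⟩ := essInf ν
    (fun (z : X × X) ω => if ω ∈ S.mem z.1 U ∩ S.mem z.2 V then m.d z.1 z.2 ω else 1)
    (fun z => Measurable.ite ((S.meas z.1 U).inter (S.meas z.2 V)) (m.meas z.1 z.2)
      measurable_const)
    (fun z ω => by
      split_ifs
      · exact m.nonneg _ _ _
      · exact zero_le_one)
  refine ⟨h, h1, fun ω => (h2 ω).1, fun ω => (h2 ω).2, fun x y => ?_, fun q k hk hkd => ?_⟩
  · filter_upwards [h3 (x, y)] with ω hω hx hy
    rwa [if_pos ⟨hx, hy⟩] at hω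
  · refine h4 q k hk fun z => ?_
    filter_upwards [hkd z.1 z.2] with ω hω hq
    split_ifs with hc
    · exact hω hq hc.1 hc.2
    · exact hk ω

end RNP
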