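import Pool.Agent.RNP.Tr0
import Pool.Agent.RNP.EssInf

/-! # Open sets of a Boolean valued coded space, first part (package W06)

(problem MP_9bfcae_gt, Part II)

* `essSup`: the union of an arbitrary family of measurable sets modulo null sets. Apply `essInf` to
  `g i := indicator of (A i)ᶜ` (values `0`, `1`): `h`; `W := {ω | h ω < 1}`. On `A i`: `h ≤ 0`. If `W` holds almost
  everywhere on the condition `q` and `q ∩ A i` is a null set for all `i`, then the indicator of `q` is `≤ g i` almost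
  everywhere for all `i`, so `h ≥ 1` almost everywhere on `q`: contradiction; so some `q ∩ A i` is a condition.
* `op_top`: `S.cover`. `op_base`: take `b` itself. `op_inter`: two codes, then `S.dir`.
* `op_join`: for every `x` let `w x` be the union (`essSup`) of the sets `c i ∩ u i x`, `i ∈ I`. It is open: if `x ∈ w` on
  `q` there are `r ⊆ q` and `i` with `c i ∩ u i x` on `r`; `u i` is open: `r' ⊆ r`, `b` with `z ∈ b → z ∈ u i` on `r'`; and
  `ω ∈ c i` on `r'`, so `z ∈ b → z ∈ w` on `r'`.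
* `op_haus`: `x ∈ u`, `y ∉ u` on `q`: there are `r ⊆ q` and `b` with `x ∈ b` on `r` and `z ∈ b → z ∈ u` on `r` for all `z`, so
  `y ∉ b` on `r`; `S.haus` and `op_base`. -/

set_option autoImplicit false

namespace RNP

open MeasureTheory

variable {Ω : Type} [MeasurableSpace Ω] {ν : Measure Ω} {X C : Type}

private theorem on_mono {q r : Set Ω} {S T : Ω → Prop} (h : On ν q S) (hr : r ⊆ q)
    (hT : ∀ ω, S ω → T ω) : On ν r T := h.mono fun ω hω hr' => hT ω (hω (hr hr'))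

theorem essSup (ν : Measure Ω) [IsFiniteMeasure ν] {I : Type} (A : I → Set Ω)
    (hA : ∀ i, MeasurableSet (A i)) :
    ∃ W, MeasurableSet W ∧ (∀ i, ∀ᵐ ω ∂ν, ω ∈ A i → ω ∈ W) ∧
      ∀ q, Pos ν q → On ν q (fun ω => ω ∈ W) → ∃ r ⊆ q, Pos ν r ∧ ∃ i, On ν r fun ω => ω ∈ A i := by
  classical
  obtain ⟨h, h1, -, h3, h4⟩ := essInf ν (fun i ω => if ω ∈ A i then (0 : ℝ) else 1)
    (fun i => Measurable.ite (hA i) measurable_const measurable_const)
    (fun i ω => by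
      split_ifs
      · exact le_rfl
      · exact zero_le_one)
  refine ⟨{ω | h ω < 1}, measurableSet_lt h1 measurable_const, fun i => ?_, fun q hq hW => ?_⟩
  · filter_upwards [h3 i] with ω hω hA'
    rw [if_pos hA'] at hω
    exact lt_of_le_of_lt hω zero_lt_one
  · by_contra hcon
    have h5 : ∀ i, ν (q ∩ A i) = 0 := by
      intro i
      by_contra h6
      exact hcon ⟨q ∩ A i, Set.inter_subset_left, ⟨hq.1.inter (hA i), h6⟩, i,
        ae_of_all _ fun ω hω => hω.2⟩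
    have h6 : On ν q fun ω => (1 : ℝ) ≤ h ω := by
      refine h4 q (fun _ => 1) (fun _ => le_rfl) fun i => ?_
      have h7 : ∀ᵐ ω ∂ν, ω ∉ q ∩ A i := measure_eq_zero_iff_ae_notMem.1 (h5 i)
      filter_upwards [h7] with ω hω hωq
      rw [if_neg fun h8 => hω ⟨hωq, h8⟩]
    refine hq.2 (measure_eq_zero_iff_ae_notMem.2 ?_)
    filter_upwards [hW, h6] with ω h7 h8 h9
    exact absurd (h7 h9) (not_lt.2 (h8 h9))

theorem op_top (S : BCd ν X C) : IsOp S fun _ => Set.univ := by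
  refine ⟨fun _ => MeasurableSet.univ, fun x q hq _ => ?_⟩
  obtain ⟨r, hr, hr', b, hb⟩ := S.cover x q hq
  exact ⟨r, hr, hr', b, hb, fun z => ae_of_all _ fun ω _ _ => Set.mem_univ ω⟩

theorem op_base (S : BCd ν X C) (b : C) : IsOp S fun x => S.hv x b := by
  refine ⟨fun x => S.meas x b, fun x q hq h => ?_⟩
  exact ⟨q, subset_rfl, hq, b, h, fun z => ae_of_all _ fun ω _ h1 => h1⟩

theorem op_inter {S : BCd ν X C} {u v : X → Set Ω} (hu : IsOp S u) (hv : IsOp S v) :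
    IsOp S fun x => u x ∩ v x := by
  refine ⟨fun x => (hu.1 x).inter (hv.1 x), fun x q hq h => ?_⟩
  obtain ⟨r, hr, hr', b, hb, hb'⟩ := hu.2 x q hq (on_mono h subset_rfl fun ω hω => hω.1)
  obtain ⟨s, hs, hs', c, hc, hc'⟩ := hv.2 x r hr' (on_mono h hr fun ω hω => hω.2)
  have h1 : On ν s fun ω => ω ∈ S.hv x b ∧ ω ∈ S.hv x c := by
    filter_upwards [hb, hc] with ω h2 h3 h4
    exact ⟨h2 (hs h4), h3 h4⟩
  obtain ⟨t, ht, ht', d, hd, hd'⟩ := S.dir x b c s hs' h1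
  refine ⟨t, ht.trans (hs.trans hr), ht', d, hd, fun z => ?_⟩
  filter_upwards [hb' z, hc' z, hd' z] with ω h2 h3 h4 h5 h6
  have h7 := h4 h5 h6
  exact ⟨h2 (hs (ht h5)) h7.1, h3 (ht h5) h7.2⟩

theorem op_join [IsFiniteMeasure ν] {S : BCd ν X C} {I : Type} (c : I → Set Ω)
    (u : I → X → Set Ω) (hc : ∀ i, MeasurableSet (c i)) (hu : ∀ i, IsOp S (u i)) :
    ∃ w, IsOp S w ∧ (∀ i x, ∀ᵐ ω ∂ν, ω ∈ c i → ω ∈ u i x → ω ∈ w x) ∧
      ∀ x q, Pos ν q → On ν q (fun ω => ω ∈ w x) →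
        ∃ r ⊆ q, Pos ν r ∧ ∃ i, On ν r fun ω => ω ∈ c i ∧ ω ∈ u i x := by
  have h0 := fun x => essSup ν (fun i => c i ∩ u i x) fun i => (hc i).inter ((hu i).1 x)
  choose w hw1 hw2 hw3 using h0
  have h4 : ∀ i x, ∀ᵐ ω ∂ν, ω ∈ c i → ω ∈ u i x → ω ∈ w x := by
    intro i x
    filter_upwards [hw2 x i] with ω h1 h2 h3
    exact h1 ⟨h2, h3⟩
  refine ⟨w, ⟨hw1, fun x q hq h => ?_⟩, h4, fun x q hq h => ?_⟩
  · obtain ⟨r, hr, hr', i, hi⟩ := hw3 x q hq h
    obtain ⟨s, hs, hs', b, hb, hb'⟩ := (hu i).2 x r hr' (on_mono hi subset_rfl fun ω hω => hω.2)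
    refine ⟨s, hs.trans hr, hs', b, hb, fun z => ?_⟩
    filter_upwards [hi, hb' z, h4 i z] with ω h1 h2 h3 h5 h6
    exact h3 (h1 (hs h5)).1 (h2 h5 h6)
  · obtain ⟨r, hr, hr', i, hi⟩ := hw3 x q hq h
    exact ⟨r, hr, hr', i, hi⟩

theorem op_haus {S : BCd ν X C} {u : X → Set Ω} (hu : IsOp S u) {x y : X} {q : Set Ω}
    (hq : Pos ν q) (h : On ν q fun ω => ω ∈ u x ∧ ω ∉ u y) :
    ∃ r ⊆ q, Pos ν r ∧ ∃ v w, IsOp S v ∧ IsOp S w ∧ On ν r (fun ω => ω ∈ v x ∧ ω ∈ w y) ∧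
      ∀ z, On ν r fun ω => ¬ (ω ∈ v z ∧ ω ∈ w z) := by
  obtain ⟨r, hr, hr', b, hb, hb'⟩ := hu.2 x q hq (on_mono h subset_rfl fun ω hω => hω.1)
  have h1 : On ν r fun ω => ω ∈ S.hv x b ∧ ω ∉ S.hv y b := by
    filter_upwards [hb, hb' y, h] with ω h2 h3 h4 h5
    exact ⟨h2 h5, fun h6 => (h4 (hr h5)).2 (h3 h5 h6)⟩
  obtain ⟨s, hs, hs', c, c', hc, hc'⟩ := S.haus x y b r hr' h1
  exact ⟨s, hs.trans hr, hs', fun z => S.hv z c, fun z => S.hv z c', op_base S c, op_base S c',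
    hc, hc'⟩

end RNP
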