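import Pool.Agent.RNP.CdA

/-! # Open sets of a Boolean valued coded space: compactness (package W07)

(problem MP_9bfcae_gt, Part II)

`op_cpt`: for a code `b` and `i ∈ I` let `w i b` be the union modulo null sets (`essSup`, index type the set of all conditions
`r` with: for all `z`, `z ∈ b → z ∈ u i` on `r`) of these conditions, and `o b` the union (`essSup`) of the `w i b`, `i ∈ I`.
The hypothesis of `S.cpt` holds for `o`: let `x` be a point and `r ⊆ q` a condition; there are `s ⊆ r` and `i` with `x ∈ u i`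
on `s`; `u i` is open, so there are `s' ⊆ s` and `b` with `x ∈ b` on `s'` and `z ∈ b → z ∈ u i` on `s'` for all `z`; so `s' ⊆ w i b ⊆ o b`
almost everywhere. `S.cpt` gives `r ⊆ q` and a finite `J ⊆ C` with `r ⊆ o b` (almost everywhere) for `b ∈ J`, and
every `z` is in some `b ∈ J` on `r`. By induction on `J` (`Finset.induction_on`, for sub-finsets) there are `r' ⊆ r` and a finite
`K ⊆ I` such that for every `b ∈ J` there is `i ∈ K` with: for all `z`, `z ∈ b → z ∈ u i` on `r'`: for one more `b`, `r' ⊆ o b`, so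
`essSup` gives `r'' ⊆ r'` and `i` with `r'' ⊆ w i b`, and again `essSup` gives `r''' ⊆ r''` which is contained (almost
everywhere) in one of the conditions with the property. -/

set_option autoImplicit false

namespace RNP

open MeasureTheory

variable {Ω : Type} [MeasurableSpace Ω] {ν : Measure Ω} [IsFiniteMeasure ν] {X C : Type}

theorem op_cpt {S : BCd ν X C} {I : Type} (u : I → X → Set Ω) (hu : ∀ i, IsOp S (u i))
    {q : Set Ω} (hq : Pos ν q)
    (h : ∀ x, ∀ r ⊆ q, Pos ν r → ∃ s ⊆ r, Pos ν s ∧ ∃ i, On ν s fun ω => ω ∈ u i x) :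
    ∃ r ⊆ q, Pos ν r ∧ ∃ J : Finset I, ∀ x, On ν r fun ω => ∃ i ∈ J, ω ∈ u i x := by
  classical
  choose o ho1 ho2 ho3 using fun b : C => essSup ν
    (I := {t : I × Set Ω // MeasurableSet t.2 ∧
      ∀ z, On ν t.2 fun ω => ω ∈ S.hv z b → ω ∈ u t.1 z}) (fun t => t.1.2) (fun t => t.2.1)
  obtain ⟨r, hr, hrp, J, hJ, hcov⟩ := S.cpt o q ho1 hq (by
    intro x r hr hrp
    obtain ⟨s, hs, hsp, i, hi⟩ := h x r hr hrp
    obtain ⟨s', hs', hsp', b, hb, hbz⟩ := (hu i).2 x s hsp hi
    refine ⟨s', hs'.trans hs, hsp', b, ?_⟩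
    filter_upwards [ho2 b ⟨(i, s'), hsp'.1, hbz⟩, hb] with ω h1 h2 h3
    exact ⟨h1 h3, h2 h3⟩)
  have key : ∀ J' : Finset C, J' ⊆ J → ∃ r' ⊆ r, Pos ν r' ∧ ∃ K : Finset I, ∀ b ∈ J',
      ∃ i ∈ K, ∀ z, On ν r' fun ω => ω ∈ S.hv z b → ω ∈ u i z := by
    intro J'
    induction J' using Finset.induction_on with
    | empty =>
      intro _
      exact ⟨r, Set.Subset.rfl, hrp, ∅, fun b hb => absurd hb (Finset.notMem_empty b)⟩
    | insert b J' _ ih =>
      intro hsub
      obtain ⟨r', hr', hrp', K, hK⟩ := ih ((Finset.subset_insert b J').trans hsub)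
      have h1 : On ν r' fun ω => ω ∈ o b := by
        filter_upwards [hJ b (hsub (Finset.mem_insert_self b J'))] with ω h2 h3
        exact h2 (hr' h3)
      obtain ⟨r'', hr'', hrp'', t, ht⟩ := ho3 b r' hrp' h1
      refine ⟨r'', hr''.trans hr', hrp'', insert t.1.1 K, fun c hc => ?_⟩
      rcases Finset.mem_insert.1 hc with rfl | hc
      · refine ⟨t.1.1, Finset.mem_insert_self _ _, fun z => ?_⟩
        filter_upwards [t.2.2 z, ht] with ω h2 h3 h4
        exact h2 (h3 h4)
      · obtain ⟨i, hi, hz⟩ := hK c hc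
        refine ⟨i, Finset.mem_insert_of_mem hi, fun z => ?_⟩
        filter_upwards [hz z] with ω h2 h3
        exact h2 (hr'' h3)
  obtain ⟨r', hr', hrp', K, hK⟩ := key J (Finset.Subset.refl J)
  refine ⟨r', hr'.trans hr, hrp', K, fun x => ?_⟩
  have h1 : ∀ᵐ ω ∂ν, ∀ b ∈ J, ω ∈ r' → ω ∈ S.hv x b → ∃ i ∈ K, ω ∈ u i x := by
    rw [Filter.eventually_all_finset]
    intro b hb
    obtain ⟨i, hi, hz⟩ := hK b hb
    filter_upwards [hz x] with ω h2 h3 h4
    exact ⟨i, hi, h2 h3 h4⟩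
  filter_upwards [h1, hcov x] with ω h2 h3 h4
  obtain ⟨b, hb, hb'⟩ := h3 (hr' h4)
  exact h2 b hb h4 hb'

end RNP
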