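import Mathlib

/-! # Dyadic intervals and density (package C15)

(problem MP_9bfcae_gt, Part II; Mathlib only)

The nodes of the binary tree are lists of Booleans, the children of the node `s` are `false :: s`
and `true :: s`, and `s` extends `t` if `t <:+ s` (`t` is a suffix). `dy s` is the dyadic interval of the node `s`.
* `dy_subset`, `dy_disj`, `dy_cover`: the intervals of the two children are the two halves. So for every
  `z ∈ dy t` and `n ≥ t.length` there is exactly one extension `s` of `t` of length `n` with `z ∈ dy s`.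
* `dy_vol`: the length is `2⁻ⁿ`, `n = s.length`.
* `split`: let `H` be a set of nodes and `W := {z | for infinitely many n there is s ∈ H of length n with z ∈ dy s}`. If
  `W ∩ dy t` has positive measure then there is an extension `s ∈ H` of `t` such that `W` has positive measure
  in the intervals of both children of `s`. Proof. Let `W' := W ∩ dy t`, measurable. By the Lebesgue density
  theorem (`IsUnifLocDoublingMeasure.ae_tendsto_measure_inter_div` for `volume` on `ℝ`, `K = 1`) there is `z ∈ W'`
  such that the relative measure of `W'` in `Metric.closedBall (center of dy s) (2⁻ⁿ / 2)` tends to `1`, where `s` is the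
  node of length `n` with `z ∈ dy s` (`z` is in this ball). So for all large `n` the relative measure of
  `W'` in `dy s` is `> 1/2`, so it is positive in both halves. Choose such an `n ≥ t.length` for which the
  node `s` of length `n` with `z ∈ dy s` belongs to `H` (infinitely many `n`); `t <:+ s` since `z ∈ dy t ∩ dy s`. -/

set_option autoImplicit false

namespace RNP

open MeasureTheory

/-- the left end point of the dyadic interval of a node -/
noncomputable def dv : List Bool → ℝ
  | [] => 0
  | b :: s => dv s + (if b then 1 else 0) * (1 / 2) ^ (s.length + 1)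

/-- the dyadic interval of a node -/
noncomputable def dy (s : List Bool) : Set ℝ := Set.Ico (dv s) (dv s + (1 / 2) ^ s.length)

private theorem dy_false (s : List Bool) :
    dy (false :: s) = Set.Ico (dv s) (dv s + (1 / 2) ^ s.length / 2) := by
  have h1 : dv (false :: s) = dv s := by
    simp [dv]
  unfold dy
  rw [h1, List.length_cons, pow_succ]
  congr 1
  ring

private theorem dy_true (s : List Bool) :
    dy (true :: s) = Set.Ico (dv s + (1 / 2) ^ s.length / 2) (dv s + (1 / 2) ^ s.length) := by
  have h1 : dv (true :: s) = dv s + (1 / 2) ^ s.length / 2 := by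
    simp only [dv, if_true, one_mul]
    ring
  unfold dy
  rw [h1, List.length_cons, pow_succ]
  congr 1
  ring

theorem dy_split (s : List Bool) : dy (false :: s) ∪ dy (true :: s) = dy s ∧
    Disjoint (dy (false :: s)) (dy (true :: s)) := by
  have h0 : (0 : ℝ) < (1 / 2) ^ s.length := by positivity
  rw [dy_false, dy_true]
  constructor
  · rw [Set.Ico_union_Ico_eq_Ico (by linarith) (by linarith)]
    rfl
  · rw [Set.disjoint_left]
    intro x h1 h2
    exact absurd h1.2 (not_lt.2 h2.1)

private theorem dy_cons_sub (b : Bool) (s : List Bool) : dy (b :: s) ⊆ dy s := by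
  rw [← (dy_split s).1]
  cases b
  · exact Set.subset_union_left
  · exact Set.subset_union_right

private theorem dy_sub_nil (s : List Bool) : dy s ⊆ dy [] := by
  induction s with
  | nil => exact subset_rfl
  | cons b s ih => exact (dy_cons_sub b s).trans ih

theorem dy_vol (s : List Bool) : volume (dy s) = ENNReal.ofReal ((1 / 2) ^ s.length) := by
  unfold dy
  rw [Real.volume_Ico]
  congr 1
  ring

/-- for every `n` the intervals of the nodes of length `n` form a partition of `[0, 1)` -/
theorem dy_unique {z : ℝ} (hz : z ∈ dy []) (n : ℕ) : ∃! s : List Bool, s.length = n ∧ z ∈ dy s := by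
  induction n with
  | zero =>
    refine ⟨[], ⟨rfl, hz⟩, ?_⟩
    rintro s ⟨h1, -⟩
    exact List.length_eq_zero_iff.1 h1
  | succ n ih =>
    obtain ⟨s, ⟨h1, h2⟩, h3⟩ := ih
    have h4 := dy_split s
    have h5 : z ∈ dy (false :: s) ∪ dy (true :: s) := by
      rw [h4.1]
      exact h2
    have h6 : ∀ s' : List Bool, s'.length = n + 1 ∧ z ∈ dy s' → ∃ b, s' = b :: s := by
      rintro s' ⟨h7, h8⟩
      obtain ⟨b, s'', rfl⟩ := List.exists_cons_of_length_eq_add_one h7
      refine ⟨b, ?_⟩
      rw [h3 s'' ⟨Nat.succ.inj h7, dy_cons_sub b s'' h8⟩]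
    have h9 : ∀ b b' : Bool, z ∈ dy (b :: s) → z ∈ dy (b' :: s) → b = b' := by
      intro b b' hb hb'
      cases b <;> cases b'
      · rfl
      · exact absurd hb' (Set.disjoint_left.1 h4.2 hb)
      · exact absurd hb (Set.disjoint_left.1 h4.2 hb')
      · rfl
    have h10 : ∃ b, z ∈ dy (b :: s) := by
      rcases h5 with h5 | h5
      · exact ⟨false, h5⟩
      · exact ⟨true, h5⟩
    obtain ⟨b, hb⟩ := h10
    refine ⟨b :: s, ⟨by rw [List.length_cons, h1], hb⟩, ?_⟩
    intro s' hs'
    obtain ⟨b', rfl⟩ := h6 s' hs'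
    rw [h9 b' b hs'.2 hb]

theorem dy_suffix {s t : List Bool} {z : ℝ} (h : t.length ≤ s.length) (hs : z ∈ dy s)
    (ht : z ∈ dy t) : t <:+ s := by
  induction s with
  | nil =>
    rw [List.length_nil, Nat.le_zero] at h
    rw [List.length_eq_zero_iff.1 h]
  | cons b s ih =>
    rcases h.lt_or_eq with h1 | h1
    · rw [List.length_cons] at h1
      exact (ih (Nat.le_of_lt_succ h1) (dy_cons_sub b s hs)).trans (List.suffix_cons b s)
    · have h2 := (dy_unique (dy_sub_nil t ht) t.length).unique ⟨rfl, ht⟩ ⟨h1.symm, hs⟩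
      rw [h2]

/-- the points which are in the intervals of infinitely many nodes in `H` -/
def dW (H : List Bool → Prop) : Set ℝ := {z | ∀ k : ℕ, ∃ s, k ≤ s.length ∧ H s ∧ z ∈ dy s}

theorem dW_meas (H : List Bool → Prop) : MeasurableSet (dW H) := by
  have h1 : dW H = ⋂ k : ℕ, ⋃ s : List Bool, ⋃ _ : k ≤ s.length ∧ H s, dy s := by
    ext z
    simp only [dW, Set.mem_iInter, Set.mem_iUnion, exists_prop]
    constructor
    · intro h k
      obtain ⟨s, h2, h3, h4⟩ := h k
      exact ⟨s, ⟨h2, h3⟩, h4⟩
    · intro h k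
      obtain ⟨s, ⟨h2, h3⟩, h4⟩ := h k
      exact ⟨s, h2, h3, h4⟩
  rw [h1]
  refine MeasurableSet.iInter fun k => MeasurableSet.iUnion fun s =>
    MeasurableSet.iUnion fun _ => ?_
  exact measurableSet_Ico

private theorem half_aux (W : Set ℝ) {s : List Bool} {b : Bool}
    (h0 : volume (W ∩ dy (b :: s)) = 0) :
    volume (W ∩ Metric.closedBall (dv s + (1 / 2) ^ s.length / 2) ((1 / 2) ^ s.length / 2)) /
      volume (Metric.closedBall (dv s + (1 / 2) ^ s.length / 2) ((1 / 2) ^ s.length / 2)) ≤
      ENNReal.ofReal (1 / 2) := by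
  have h1 : W ∩ Metric.closedBall (dv s + (1 / 2) ^ s.length / 2) ((1 / 2) ^ s.length / 2) ⊆
      (W ∩ dy (b :: s)) ∪ dy ((!b) :: s) ∪ {dv s + (1 / 2) ^ s.length} := by
    rintro x ⟨hx, hx'⟩
    rw [Real.closedBall_eq_Icc] at hx'
    by_cases h2 : x = dv s + (1 / 2) ^ s.length
    · exact Or.inr h2
    · left
      have h3 : x ∈ dy s := by
        refine ⟨?_, lt_of_le_of_ne ?_ h2⟩
        · have := hx'.1
          linarith
        · have := hx'.2
          linarith
      rw [← (dy_split s).1] at h3
      cases b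
      · rcases h3 with h3 | h3
        · exact Or.inl ⟨hx, h3⟩
        · exact Or.inr h3
      · rcases h3 with h3 | h3
        · exact Or.inr h3
        · exact Or.inl ⟨hx, h3⟩
  have h2 : volume (W ∩ Metric.closedBall (dv s + (1 / 2) ^ s.length / 2)
      ((1 / 2) ^ s.length / 2)) ≤ ENNReal.ofReal ((1 / 2) ^ s.length / 2) := by
    refine (measure_mono h1).trans ((measure_union_le _ _).trans ?_)
    rw [Real.volume_singleton, add_zero]
    refine (measure_union_le _ _).trans ?_
    rw [h0, zero_add, dy_vol, List.length_cons, pow_succ]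
    apply ENNReal.ofReal_le_ofReal
    linarith
  apply ENNReal.div_le_of_le_mul
  refine h2.trans ?_
  rw [Real.volume_closedBall, ← ENNReal.ofReal_mul (by norm_num)]
  apply ENNReal.ofReal_le_ofReal
  linarith

theorem split {H : List Bool → Prop} {t : List Bool} (h : volume (dW H ∩ dy t) ≠ 0) :
    ∃ s, t <:+ s ∧ H s ∧ volume (dW H ∩ dy (false :: s)) ≠ 0 ∧
      volume (dW H ∩ dy (true :: s)) ≠ 0 := by
  have hm : MeasurableSet (dW H ∩ dy t) := (dW_meas H).inter measurableSet_Ico
  have h1 := IsUnifLocDoublingMeasure.ae_tendsto_measure_inter_div (volume : Measure ℝ)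
    (dW H ∩ dy t) 1
  rw [ae_restrict_iff' hm] at h1
  obtain ⟨z, hz, hP⟩ : ∃ z ∈ dW H ∩ dy t, ∀ {ι : Type} {l : Filter ι} (w : ι → ℝ) (δ : ι → ℝ)
      (_ : Filter.Tendsto δ l (nhdsWithin 0 (Set.Ioi 0)))
      (_ : ∀ᶠ j in l, z ∈ Metric.closedBall (w j) (1 * δ j)),
      Filter.Tendsto (fun j => volume ((dW H ∩ dy t) ∩ Metric.closedBall (w j) (δ j)) /
        volume (Metric.closedBall (w j) (δ j))) l (nhds 1) := by
    by_contra hcon
    apply h
    rw [measure_eq_zero_iff_ae_notMem]
    filter_upwards [h1] with x hx hxW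
    exact hcon ⟨x, hxW, hx hxW⟩
  have hz0 : z ∈ dy [] := dy_sub_nil t hz.2
  choose s hs hs' using dy_unique hz0
  have hδ : Filter.Tendsto (fun n : ℕ => ((1 : ℝ) / 2) ^ n / 2) Filter.atTop
      (nhdsWithin 0 (Set.Ioi 0)) := by
    rw [tendsto_nhdsWithin_iff]
    constructor
    · have h2 := (tendsto_pow_atTop_nhds_zero_of_lt_one (r := (1 : ℝ) / 2) (by norm_num)
        (by norm_num)).div_const 2
      rw [zero_div] at h2
      exact h2
    · exact Filter.Eventually.of_forall fun n => by
        rw [Set.mem_Ioi]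
        positivity
  have h3 := hP (fun n : ℕ => dv (s n) + (1 / 2) ^ n / 2) (fun n => (1 / 2) ^ n / 2) hδ
    (Filter.Eventually.of_forall fun n => by
      rw [one_mul, Real.closedBall_eq_Icc]
      have h4 := (hs n).2
      unfold dy at h4
      rw [(hs n).1] at h4
      constructor
      · have := h4.1
        linarith
      · have := h4.2
        linarith)
  have h4 := h3.eventually (lt_mem_nhds (a := ENNReal.ofReal (1 / 2))
    (ENNReal.ofReal_lt_one.2 (by norm_num)))
  obtain ⟨N, hN⟩ := Filter.eventually_atTop.1 h4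
  obtain ⟨s', h5, h6, h7⟩ := hz.1 (max N t.length)
  have h8 : s s'.length = s' := (hs' _ _ ⟨rfl, h7⟩).symm
  have h9 := hN s'.length ((le_max_left _ _).trans h5)
  rw [h8] at h9
  have key : ∀ b : Bool, volume (dW H ∩ dy (b :: s')) ≠ 0 := by
    intro b h10
    have h12 : (dW H ∩ dy t) ∩ dy (b :: s') ⊆ dW H ∩ dy (b :: s') :=
      fun x hx => ⟨hx.1.1, hx.2⟩
    have h11 : volume ((dW H ∩ dy t) ∩ dy (b :: s')) = 0 := measure_mono_null h12 h10
    exact absurd h9 (not_lt.2 (half_aux _ h11))
  exact ⟨s', dy_suffix ((le_max_right _ _).trans h5) h7 hz.2, h6, key false, key true⟩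

end RNP
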