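import Pool.Agent.RNP.Defs
import Pool.Agent.RNP.DensA

/-! # Perfect subtrees (package C16)

(problem MP_9bfcae_gt, Part II)

Let `W := {(ω, z) | z ∈ dW (fun s => ω ∈ H s)} ⊆ Ω × ℝ`, the set of all `(ω, z)` which are in `A n := ⋃ {H s ×ˢ dy s | s.length = n}`
for infinitely many `n`: measurable. `λ := volume.restrict (dy [])`, a probability measure. The sets `H s ×ˢ dy s` with
`s.length = n` are disjoint (there are `2 ^ n` of them), so `(ν.restrict p).prod λ (A n) = Σ ν (p ∩ H s) 2⁻ⁿ ≥ δ ν p`.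
By the reverse Fatou lemma (`MeasureTheory.measure_limsup_...`, or directly: `⋃ n ≥ k, A n` has measure `≥ δ ν p` for
every `k`, decreasing in `k`, finite measure, `tendsto_measure_iInter_atTop`) `W` has measure `≥ δ ν p > 0`. Let
`P t := {ω | volume (dW (fun s => ω ∈ H s) ∩ dy t) ≠ 0}`: measurable (`measurable_measure_prodMk_left` for the measurable set
`W ∩ univ ×ˢ dy t`). If `ν (p ∩ P []) = 0` then by `Measure.prod_apply` the measure of `W` would be `0`. The
property of `P t` is the lemma `split` for every single `ω`. -/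

set_option autoImplicit false

namespace RNP

open MeasureTheory

variable {Ω : Type} [MeasurableSpace Ω]

private theorem dn_sub (s : List Bool) : dy s ⊆ dy [] := by
  induction s with
  | nil => exact subset_rfl
  | cons b s ih =>
    refine subset_trans ?_ ih
    rw [← (dy_split s).1]
    cases b
    · exact Set.subset_union_left
    · exact Set.subset_union_right

private theorem dn_meas (s : List Bool) : MeasurableSet (dy s) := measurableSet_Ico

/-- the sets `H s ×ˢ dy s`, `s` of length at least `k` -/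
private def dnB (H : List Bool → Set Ω) (k : ℕ) : Set (Ω × ℝ) :=
  ⋃ s : {s : List Bool // k ≤ s.length}, H s.1 ×ˢ dy s.1

private theorem dnB_meas {H : List Bool → Set Ω} (hH : ∀ s, MeasurableSet (H s)) (k : ℕ) :
    MeasurableSet (dnB H k) :=
  MeasurableSet.iUnion fun s => (hH s.1).prod (dn_meas s.1)

omit [MeasurableSpace Ω] in
private theorem dnB_pre (H : List Bool → Set Ω) (ω : Ω) :
    Prod.mk ω ⁻¹' (⋂ k, dnB H k) = dW fun s => ω ∈ H s := by
  ext z
  constructor
  · intro h k
    have h1 : (ω, z) ∈ dnB H k := Set.mem_iInter.1 h k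
    obtain ⟨s, hs⟩ := Set.mem_iUnion.1 h1
    exact ⟨s.1, s.2, hs.1, hs.2⟩
  · intro h
    refine Set.mem_iInter.2 fun k => ?_
    obtain ⟨s, h1, h2, h3⟩ := h k
    exact Set.mem_iUnion.2 ⟨⟨s, h1⟩, h2, h3⟩

/-- the measure of the sets of the level `k` -/
private theorem dn_level (ν : Measure Ω) [IsFiniteMeasure ν] (H : List Bool → Set Ω)
    (hH : ∀ s, MeasurableSet (H s)) {p : Set Ω} {δ : ℝ}
    (h : ∀ s, δ * (ν p).toReal ≤ (ν (p ∩ H s)).toReal) (k : ℕ) :
    ENNReal.ofReal (δ * (ν p).toReal) ≤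
      ((ν.restrict p).prod (volume.restrict (dy []))) (dnB H k) := by
  set μ := (ν.restrict p).prod (volume.restrict (dy [])) with hμ
  let A : (Fin k → Bool) → Set (Ω × ℝ) := fun s => H (List.ofFn s) ×ˢ dy (List.ofFn s)
  have hAm : ∀ s, MeasurableSet (A s) := fun s => (hH _).prod (dn_meas _)
  have hAB : (⋃ s, A s) ⊆ dnB H k := by
    refine Set.iUnion_subset fun s => ?_
    exact Set.subset_iUnion (fun s : {s : List Bool // k ≤ s.length} => H s.1 ×ˢ dy s.1)
      ⟨List.ofFn s, by rw [List.length_ofFn]⟩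
  have hdisj : Pairwise (Function.onFun Disjoint A) := by
    intro s t hst
    refine Set.disjoint_left.2 fun x hx hx' => hst ?_
    obtain ⟨r, -, hr⟩ := dy_unique (dn_sub _ hx.2) k
    have h1 := hr (List.ofFn s) ⟨List.length_ofFn, hx.2⟩
    have h2 := hr (List.ofFn t) ⟨List.length_ofFn, hx'.2⟩
    exact List.ofFn_injective (h1.trans h2.symm)
  have hA : ∀ s, ENNReal.ofReal (δ * (ν p).toReal) * ENNReal.ofReal ((1 / 2) ^ k) ≤ μ (A s) := by
    intro s
    change _ ≤ μ (H (List.ofFn s) ×ˢ dy (List.ofFn s))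
    rw [hμ, Measure.prod_prod, Measure.restrict_apply (hH _), Measure.restrict_apply (dn_meas _),
      Set.inter_eq_left.2 (dn_sub _), dy_vol, List.length_ofFn, Set.inter_comm]
    gcongr
    exact ENNReal.ofReal_le_of_le_toReal (h _)
  refine le_trans ?_ (measure_mono hAB)
  rw [measure_iUnion hdisj hAm, tsum_fintype]
  refine le_trans ?_ (Finset.sum_le_sum fun s _ => hA s)
  rw [Finset.sum_const, Finset.card_univ, Fintype.card_fun, Fintype.card_bool, Fintype.card_fin,
    nsmul_eq_mul, mul_left_comm]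
  have h1 : ((2 ^ k : ℕ) : ENNReal) * ENNReal.ofReal ((1 / 2) ^ k) = 1 := by
    rw [← ENNReal.ofReal_natCast, ← ENNReal.ofReal_mul (by positivity)]
    have h2 : ((2 ^ k : ℕ) : ℝ) * (1 / 2) ^ k = 1 := by
      push_cast
      rw [← mul_pow]
      norm_num
    rw [h2, ENNReal.ofReal_one]
  rw [h1, mul_one]

theorem dens (ν : Measure Ω) [IsFiniteMeasure ν] (H : List Bool → Set Ω)
    (hH : ∀ s, MeasurableSet (H s)) {p : Set Ω} (hp : Pos ν p) {δ : ℝ} (hδ : 0 < δ)
    (h : ∀ s, δ * (ν p).toReal ≤ (ν (p ∩ H s)).toReal) :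
    ∃ P : List Bool → Set Ω, (∀ t, MeasurableSet (P t)) ∧
      (∀ t, ∀ ω ∈ P t, ∃ s, t <:+ s ∧ ω ∈ H s ∧ ω ∈ P (false :: s) ∧ ω ∈ P (true :: s)) ∧
      ν (p ∩ P []) ≠ 0 := by
  have hWm : MeasurableSet (⋂ k, dnB H k) := MeasurableSet.iInter fun k => dnB_meas hH k
  have hPm : ∀ t : List Bool,
      MeasurableSet {ω | volume ((dW fun s => ω ∈ H s) ∩ dy t) ≠ 0} := by
    intro t
    have h1 : MeasurableSet ((⋂ k, dnB H k) ∩ Set.univ ×ˢ dy t) :=
      hWm.inter (MeasurableSet.univ.prod (dn_meas t))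
    have h2 : Measurable fun ω : Ω => (volume : Measure ℝ)
        (Prod.mk ω ⁻¹' ((⋂ k, dnB H k) ∩ Set.univ ×ˢ dy t)) := measurable_measure_prodMk_left h1
    have h3 : (fun ω : Ω => (volume : Measure ℝ)
        (Prod.mk ω ⁻¹' ((⋂ k, dnB H k) ∩ Set.univ ×ˢ dy t))) =
        fun ω => volume ((dW fun s => ω ∈ H s) ∩ dy t) := by
      funext ω
      rw [Set.preimage_inter, dnB_pre]
      congr 2
      ext z
      simp
    rw [h3] at h2
    exact (h2 (measurableSet_singleton 0)).compl
  refine ⟨fun t => {ω | volume ((dW fun s => ω ∈ H s) ∩ dy t) ≠ 0}, hPm, ?_, ?_⟩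
  · intro t ω hω
    obtain ⟨s, h1, h2, h3, h4⟩ := split hω
    exact ⟨s, h1, h2, h3, h4⟩
  · intro h0
    set μ := (ν.restrict p).prod (volume.restrict (dy [])) with hμ
    have hfin : volume (dy []) ≠ ⊤ := by
      rw [dy_vol]
      exact ENNReal.ofReal_ne_top
    have : IsFiniteMeasure (volume.restrict (dy [])) := ⟨by
      rw [Measure.restrict_apply_univ]
      exact lt_top_iff_ne_top.2 hfin⟩
    have hanti : Antitone (dnB H) := by
      intro j k hjk
      refine Set.iUnion_subset fun s => ?_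
      exact Set.subset_iUnion (fun s : {s : List Bool // j ≤ s.length} => H s.1 ×ˢ dy s.1)
        ⟨s.1, hjk.trans s.2⟩
    have h1 : μ (⋂ k, dnB H k) = ⨅ k, μ (dnB H k) :=
      hanti.measure_iInter (fun k => (dnB_meas hH k).nullMeasurableSet)
        ⟨0, measure_ne_top μ _⟩
    have h2 : ENNReal.ofReal (δ * (ν p).toReal) ≤ μ (⋂ k, dnB H k) := by
      rw [h1]
      exact le_iInf fun k => dn_level ν H hH h k
    have h3 : μ (⋂ k, dnB H k) = 0 := by
      rw [hμ, Measure.measure_prod_null hWm]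
      have h4 : ∀ᵐ ω ∂(ν.restrict p), ω ∉ {ω | volume ((dW fun s => ω ∈ H s) ∩ dy []) ≠ 0} := by
        rw [ae_iff]
        simp only [not_not]
        change (ν.restrict p) {ω | volume ((dW fun s => ω ∈ H s) ∩ dy []) ≠ 0} = 0
        rw [Measure.restrict_apply (hPm []), Set.inter_comm]
        exact h0
      filter_upwards [h4] with ω hω
      rw [dnB_pre, Measure.restrict_apply (dW_meas _)]
      exact not_not.1 hω
    rw [h3] at h2
    have h5 : 0 < δ * (ν p).toReal :=
      mul_pos hδ (ENNReal.toReal_pos hp.2 (measure_ne_top ν p))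
    exact absurd h2 (not_le.2 (ENNReal.ofReal_pos.2 h5))

end RNP
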