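import Pool.Agent.RNP.Ops

/-! # Maximal open sets (package C19)

(problem MP_9bfcae_gt, Part II)

`F t` is the closed set with the complement `W t`. `Good W'`: for every node `t`, on `q0 ∩ P t` the open set `W'`
does not contain `F t`. `exists_max`: there is a maximal good name.
Zorn's lemma for the preorder `W1 ≤ W2` := for all `z`, `On ν q0 (z ∈ W1 → z ∈ W2)` on the set of the good names
(`zorn_le_nonempty`-type statements for preorders, e.g. `exists_maximal_of_nonempty_chains_bounded`). It is nonempty: the empty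
set is good by `hne`. Let `C` be a nonempty chain of good names and `W*` the name given by `S.join` for the index
type `C`, `c = univ`, `U i = i`: an upper bound. It is good: otherwise there are `t` and a condition `r ⊆ q0 ∩ P t`
such that for all conditions `r' ⊆ r` and all `z` not (`z ∉ W t` and `z ∉ W*` on `r'`); so for all `z` almost
everywhere on `r`: `z ∈ W t` or `z ∈ W*` (the set where both fail is measurable). So the names `W t` (`none`)
and `i ∈ C` (`some i`) satisfy the hypothesis of `S.cpt` on `r` (for `z ∈ W*` use the second part of `join`), and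
there are `r1 ⊆ r` and a finite `J` such that `z ∈ W t` or `z ∈ i` for some `i ∈ C`, `some i ∈ J`, almost everywhere on
`r1`, for all `z`. As `C` is a chain there is `i* ∈ C` above all these `i` (if there are none take any element of
`C`). So `z ∈ W t ∨ z ∈ i*` almost everywhere on `r1` for all `z`: `i*` is not good. Contradiction. -/

set_option autoImplicit false

namespace RNP

open MeasureTheory

variable {Ω : Type} [MeasurableSpace Ω] {ν : Measure Ω} {X T : Type}

/-- on `q0 ∩ P t` the open set `W'` does not contain the complement of `W t` -/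
def Good (S : BSp ν X T) (W : List Bool → T) (P : List Bool → Set Ω) (q0 : Set Ω) (W' : T) :
    Prop :=
  ∀ t, ∀ r ⊆ q0 ∩ P t, Pos ν r → ∃ r' ⊆ r, Pos ν r' ∧ ∃ x,
    On ν r' fun ω => ω ∉ S.mem x (W t) ∧ ω ∉ S.mem x W'

private theorem chain_top {α : Type} {R : α → α → Prop} (hr : ∀ a, R a a)
    (ht : ∀ {a b c : α}, R a b → R b c → R a c) {c : Set α} (hc : IsChain R c)
    (hne : c.Nonempty) (s : Finset c) : ∃ z : c, ∀ i ∈ s, R i.1 z.1 := by
  classical
  induction s using Finset.induction_on with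
  | empty =>
    obtain ⟨a, ha⟩ := hne
    exact ⟨⟨a, ha⟩, fun i hi => absurd hi (Finset.notMem_empty i)⟩
  | insert i s hi ih =>
    obtain ⟨z, hz⟩ := ih
    by_cases h : i.1 = z.1
    · refine ⟨z, fun j hj => ?_⟩
      rcases Finset.mem_insert.1 hj with h1 | h1
      · rw [h1, h]
        exact hr _
      · exact hz j h1
    · rcases hc i.2 z.2 h with h1 | h1
      · refine ⟨z, fun j hj => ?_⟩
        rcases Finset.mem_insert.1 hj with h2 | h2
        · rw [h2]
          exact h1
        · exact hz j h2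
      · refine ⟨i, fun j hj => ?_⟩
        rcases Finset.mem_insert.1 hj with h2 | h2
        · rw [h2]
          exact hr _
        · exact ht (hz j h2) h1

private theorem good_empty (S : BSp ν X T) (W : List Bool → T) (P : List Bool → Set Ω)
    {q0 : Set Ω} (hne : ∀ t, ∀ r ⊆ q0 ∩ P t, Pos ν r → ∃ r' ⊆ r, Pos ν r' ∧ ∃ x,
      On ν r' fun ω => ω ∉ S.mem x (W t)) : ∃ W', Good S W P q0 W' := by
  obtain ⟨E, hE⟩ := S.empty
  refine ⟨E, fun t r hr hp => ?_⟩
  obtain ⟨r', h1, h2, x, h3⟩ := hne t r hr hp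
  refine ⟨r', h1, h2, x, ?_⟩
  filter_upwards [h3, hE x] with ω h4 h5 h6
  exact ⟨h4 h6, h5⟩

private theorem good_join (S : BSp ν X T) (W : List Bool → T) (P : List Bool → Set Ω)
    {q0 : Set Ω} {c : Set {W' : T // Good S W P q0 W'}}
    (hc : IsChain (fun a b : {W' : T // Good S W P q0 W'} =>
      ∀ z, On ν q0 fun ω => ω ∈ S.mem z a.1 → ω ∈ S.mem z b.1) c) (hne : c.Nonempty)
    {V : T} (hV : ∀ x q, Pos ν q → On ν q (fun ω => ω ∈ S.mem x V) →
      ∃ r ⊆ q, Pos ν r ∧ ∃ i : c, On ν r fun ω => ω ∈ (Set.univ : Set Ω) ∧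
        ω ∈ S.mem x i.1.1) : Good S W P q0 V := by
  classical
  intro t r hr hp
  by_contra hcon
  have h1 : ∀ z, On ν r fun ω => ω ∈ S.mem z (W t) ∨ ω ∈ S.mem z V := by
    intro z
    have hm : MeasurableSet (r \ (S.mem z (W t) ∪ S.mem z V)) :=
      hp.1.diff ((S.meas z (W t)).union (S.meas z V))
    by_cases h0 : ν (r \ (S.mem z (W t) ∪ S.mem z V)) = 0
    · filter_upwards [measure_eq_zero_iff_ae_notMem.1 h0] with ω h2 h3
      by_contra h4
      exact h2 ⟨h3, fun h5 => h4 h5⟩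
    · exfalso
      refine hcon ⟨_, Set.sdiff_subset, ⟨hm, h0⟩, z, ?_⟩
      refine ae_of_all _ fun ω h2 => ?_
      exact ⟨fun h3 => h2.2 (Or.inl h3), fun h3 => h2.2 (Or.inr h3)⟩
  obtain ⟨r1, hr1, hp1, J, hJ⟩ := S.cpt (Option c)
    (fun i => Option.elim i (W t) fun i => i.1.1) r hp (by
      intro x r2 hr2 hp2
      by_cases h0 : ν (r2 ∩ S.mem x (W t)) = 0
      · have h2 : On ν r2 fun ω => ω ∈ S.mem x V := by
          filter_upwards [h1 x, measure_eq_zero_iff_ae_notMem.1 h0] with ω h3 h4 h5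
          rcases h3 (hr2 h5) with h6 | h6
          · exact absurd ⟨h5, h6⟩ h4
          · exact h6
        obtain ⟨s, hs, hps, i, hi⟩ := hV x r2 hp2 h2
        refine ⟨s, hs, hps, some i, ?_⟩
        filter_upwards [hi] with ω h3 h4
        exact (h3 h4).2
      · refine ⟨r2 ∩ S.mem x (W t), Set.inter_subset_left,
          ⟨hp2.1.inter (S.meas x (W t)), h0⟩, none, ?_⟩
        exact ae_of_all _ fun ω h2 => h2.2)
  obtain ⟨z, hz⟩ := chain_top (fun a x => ae_of_all _ fun ω _ h => h)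
    (fun {a b d} h2 h3 x => by
      filter_upwards [h2 x, h3 x] with ω h4 h5 h6 h7
      exact h5 h6 (h4 h6 h7)) hc hne (Finset.eraseNone J)
  obtain ⟨r', hr', hp', x, hx⟩ := z.1.2 t r1 (hr1.trans hr) hp1
  have h2 : ∀ᵐ ω ∂ν, ∀ i ∈ Finset.eraseNone J, ω ∈ q0 → ω ∈ S.mem x i.1.1 →
      ω ∈ S.mem x z.1.1 := by
    rw [Filter.eventually_all_finset]
    intro i hi
    exact hz i hi x
  apply hp'.2
  refine measure_eq_zero_iff_ae_notMem.2 ?_
  filter_upwards [hx, h2, hJ x] with ω h3 h4 h5 h6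
  obtain ⟨h7, h8⟩ := h3 h6
  obtain ⟨i, hi, h9⟩ := h5 (hr' h6)
  cases i with
  | none => exact h7 h9
  | some i => exact h8 (h4 i (Finset.mem_eraseNone.2 hi) (hr (hr1 (hr' h6))).1 h9)

theorem exists_max (S : BSp ν X T) (W : List Bool → T) (P : List Bool → Set Ω) {q0 : Set Ω}
    (hq0 : Pos ν q0)
    (hne : ∀ t, ∀ r ⊆ q0 ∩ P t, Pos ν r → ∃ r' ⊆ r, Pos ν r' ∧ ∃ x,
      On ν r' fun ω => ω ∉ S.mem x (W t)) :
    ∃ W', Good S W P q0 W' ∧ ∀ W'', Good S W P q0 W'' →
      (∀ z, On ν q0 fun ω => ω ∈ S.mem z W' → ω ∈ S.mem z W'') →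
      ∀ z, On ν q0 fun ω => ω ∈ S.mem z W'' → ω ∈ S.mem z W' := by
  have hn : Nonempty {W' : T // Good S W P q0 W'} := by
    obtain ⟨W', h⟩ := good_empty S W P hne
    exact ⟨⟨W', h⟩⟩
  obtain ⟨m, hm⟩ := exists_maximal_of_nonempty_chains_bounded
    (r := fun a b : {W' : T // Good S W P q0 W'} =>
      ∀ z, On ν q0 fun ω => ω ∈ S.mem z a.1 → ω ∈ S.mem z b.1) (by
      intro c hc hcn
      obtain ⟨V, h1, h2⟩ := S.join c (fun _ => Set.univ) (fun i => i.1.1)
        fun _ => MeasurableSet.univ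
      refine ⟨⟨V, good_join S W P hc hcn h2⟩, fun a ha z => ?_⟩
      filter_upwards [h1 ⟨a, ha⟩ z] with ω h3 _ h4
      exact h3 (Set.mem_univ _) h4) (fun {a b d} h2 h3 x => by
      filter_upwards [h2 x, h3 x] with ω h4 h5 h6 h7
      exact h5 h6 (h4 h6 h7))
  exact ⟨m.1, m.2, fun W'' hW h => hm ⟨W'', hW⟩ h⟩

end RNP
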