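import Pool.Agent.RNP.Scheme
import Pool.Agent.RNP.MaxW
import Pool.Agent.RNP.Dens
import Pool.Agent.RNP.EssInf

/-! # A Cantor scheme contradicts fragmentability of a small metric (package C20)

(problem MP_9bfcae_gt, Part II)

`m` is one small metric, `I V W` its infimum on `V × W`. The hypothesis `hint`: the integral of `I (A (false :: s)) (A (true :: s))` over `p`
is at least `ε' (ν p).toReal` for all nodes `s`.
Put `H s := {ω | ε'/2 ≤ I (A (false :: s)) (A (true :: s)) ω}`. As `I ≤ 1` and `I < ε'/2` outside `H s`: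
`ε' ν(p) ≤ ν(p ∩ H s) + (ε'/2) ν(p)`, so `dens` (with `δ = ε'/2`) gives `P`. `q0 := p ∩ P []`, a condition. By `IsSch.ne`
(through `hM2`) the hypothesis of `exists_max` holds; let `W'` be the maximal good name. By `Good` for `t = []` there are
`q1 ⊆ q0` and `x0` with `x0 ∉ W'` on `q1`. `m.frag W' (ε'/2) x0 q1` gives `r ⊆ q1`, `U`, `x1` with `x1 ∈ U`, `x1 ∉ W'` on `r`, and
`d x y < ε'/2` on `r` for all `x, y ∈ U \ W'`.
Claim: there are a node `t` and a condition `r1 ⊆ r ∩ P t` such that for all `z`: `z ∈ W t ∨ z ∈ W' ∨ z ∈ U` almost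
everywhere on `r1`. Otherwise let `W''` be the name of `W' ∪ (r ∩ U)` (`S.cap`, `S.cup`; `r` is measurable). It is
good: let `r2 ⊆ q0 ∩ P t` be a condition. If `ν (r2 ∩ r) = 0` then `W'' = W'` on `r2`. If `ν (r2 ∩ r) ≠ 0` then, as
the claim fails for `r2 ∩ r`, there is `z` such that `{ω ∈ r2 ∩ r | z ∉ W t, z ∉ W', z ∉ U}` has positive measure. By
maximality `x1 ∈ W'' → x1 ∈ W'` on `q0`; but on `r` we have `x1 ∈ U`, so `x1 ∈ W''`, and `x1 ∉ W'`. Contradiction.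
Let `t`, `r1` be as in the claim. For `ω ∈ r1 ⊆ P t` there is an extension `s` of `t` with `ω ∈ H s ∩ P (false :: s) ∩ P (true :: s)`;
countably many `s`, so one `s` and `r2 ⊆ r1` of positive measure (measurable: intersect `r1` with these sets) with this property for all
`ω ∈ r2`. `Good` for `false :: s` on `r2`: `r3 ⊆ r2` and `x` with `x ∉ W (false :: s)`, `x ∉ W'` on `r3`. `Good` for `true :: s` on `r3`: `r4 ⊆ r3` and
`y` with `y ∉ W (true :: s)`, `y ∉ W'` on `r4`. On `r4`: `x ∉ W t` and `y ∉ W t` (`IsSch.nest`, `t <:+ false :: s`), so `x ∈ U`, `y ∈ U`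
by the claim. So `d x y < ε'/2`. But `x ∈ A (false :: s)`, `y ∈ A (true :: s)` (`IsSch.cov`), so
`d x y ≥ I (A (false :: s)) (A (true :: s)) ≥ ε'/2` (`IsI.le`, `ω ∈ H s`). Contradiction (`ν r4 ≠ 0`). -/

set_option autoImplicit false

namespace RNP

open MeasureTheory

variable {Ω : Type} [MeasurableSpace Ω] {ν : Measure Ω} [IsFiniteMeasure ν] {X T : Type}
  {S : BSp ν X T} {J : T → T → Ω → ℝ} {M : T → Set Ω} {p : Set Ω} {ε' : ℝ}
  {A W V : List Bool → T}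

omit [IsFiniteMeasure ν] in
private theorem ct_elim {r : Set Ω} (hr : Pos ν r) (h : On ν r fun _ => False) : False :=
  hr.2 (measure_eq_zero_iff_ae_notMem.2 h)

private theorem ct_dens {f : Ω → ℝ} (hf : Measurable f) (h0 : ∀ ω, 0 ≤ f ω) (h1 : ∀ ω, f ω ≤ 1)
    {p : Set Ω} {δ : ℝ} (hδ : 0 < δ)
    (h : δ * (ν p).toReal ≤ ∫ ω in p, f ω ∂ν) :
    δ / 2 * (ν p).toReal ≤ (ν (p ∩ {ω | δ / 2 ≤ f ω})).toReal := by
  have hH : MeasurableSet {ω | δ / 2 ≤ f ω} := measurableSet_le measurable_const hf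
  have hi : Integrable f (ν.restrict p) := by
    refine Integrable.of_bound hf.aestronglyMeasurable 1 (ae_of_all _ fun ω => ?_)
    rw [Real.norm_of_nonneg (h0 ω)]
    exact h1 ω
  have hj : Integrable ({ω | δ / 2 ≤ f ω}.indicator fun _ => (1 : ℝ)) (ν.restrict p) :=
    (integrable_const (1 : ℝ)).indicator hH
  have h2 : ∫ ω in p, f ω ∂ν ≤
      ∫ ω in p, ({ω | δ / 2 ≤ f ω}.indicator (fun _ => (1 : ℝ)) ω + δ / 2) ∂ν := by
    refine integral_mono hi (hj.add (integrable_const _)) fun ω => ?_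
    by_cases hω : δ / 2 ≤ f ω
    · change f ω ≤ {ω | δ / 2 ≤ f ω}.indicator (fun _ => (1 : ℝ)) ω + δ / 2
      rw [Set.indicator_of_mem (show ω ∈ {ω | δ / 2 ≤ f ω} from hω)]
      linarith [h1 ω]
    · change f ω ≤ {ω | δ / 2 ≤ f ω}.indicator (fun _ => (1 : ℝ)) ω + δ / 2
      rw [Set.indicator_of_notMem (show ω ∉ {ω | δ / 2 ≤ f ω} from hω)]
      linarith [not_le.1 hω]
  rw [integral_add hj (integrable_const _), integral_indicator hH, integral_const,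
    integral_const, Measure.restrict_restrict hH, smul_eq_mul, smul_eq_mul, mul_one] at h2
  have h3 : (ν.restrict ({ω | δ / 2 ≤ f ω} ∩ p)).real Set.univ =
      (ν (p ∩ {ω | δ / 2 ≤ f ω})).toReal := by
    rw [Set.inter_comm, measureReal_restrict_apply_univ, Measure.real]
  have h4 : (ν.restrict p).real Set.univ = (ν p).toReal := by
    rw [measureReal_restrict_apply_univ, Measure.real]
  rw [h3, h4] at h2
  linarith

theorem contr (h : IsSch S J M p ε' A W V) (hp : Pos ν p) (hε : 0 < ε') {D : X → X → Ω → ℝ}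
    {ε : ℝ}
    (hM2 : ∀ U, ∀ q ⊆ p, Pos ν q → On ν q (fun ω => ω ∈ M U) → ∃ r ⊆ q, Pos ν r ∧ ∃ x y,
      On ν r (fun ω => ω ∈ S.mem x U ∧ ω ∈ S.mem y U ∧ ε ≤ D x y ω) ∧
      ∀ V, On ν r fun ω => (ω ∈ S.mem x V → ω ∈ M V) ∧ (ω ∈ S.mem y V → ω ∈ M V))
    {a : Set (CF S)} (m : SM S a) {I : T → T → Ω → ℝ} (hI : ∀ V W, IsI m V W (I V W))
    (hint : ∀ s, ε' * (ν p).toReal ≤ ∫ ω in p, I (A (false :: s)) (A (true :: s)) ω ∂ν) :
    False := by
  have hε2 : 0 < ε' / 2 := half_pos hε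
  obtain ⟨H, hH⟩ : ∃ H : List Bool → Set Ω,
      H = fun s => {ω | ε' / 2 ≤ I (A (false :: s)) (A (true :: s)) ω} := ⟨_, rfl⟩
  have hHm : ∀ s, MeasurableSet (H s) := by
    intro s
    rw [hH]
    exact measurableSet_le measurable_const (hI _ _).meas
  obtain ⟨P, hPm, hPs, hPne⟩ := dens ν H hHm hp hε2 (fun s => by
    rw [hH]
    exact ct_dens (hI _ _).meas (hI _ _).nonneg (hI _ _).le_one hε (hint s))
  have hq0 : Pos ν (p ∩ P []) := ⟨hp.1.inter (hPm []), hPne⟩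
  have hq0p : p ∩ P [] ⊆ p := Set.inter_subset_left
  obtain ⟨W', hgood, hmax⟩ := exists_max S W P hq0 (fun t r hr hr' =>
    h.ne hM2 t (hr.trans (Set.inter_subset_left.trans hq0p)) hr')
  obtain ⟨q1, hq1, hq1p, x0, hx0⟩ := hgood [] (p ∩ P []) (fun ω hω => ⟨hω, hω.2⟩) hq0
  obtain ⟨r, hrq1, hr, U, x1, hx1, hd⟩ := m.frag W' (ε' / 2) x0 q1 hε2 hq1p
    (hx0.mono fun ω hω hω' => (hω hω').2)
  have hrq0 : r ⊆ p ∩ P [] := hrq1.trans hq1
  have claim : ∃ t, ∃ r1 ⊆ r ∩ P t, Pos ν r1 ∧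
      ∀ z, On ν r1 fun ω => ω ∈ S.mem z (W t) ∨ ω ∈ S.mem z W' ∨ ω ∈ S.mem z U := by
    by_contra hcl
    push Not at hcl
    obtain ⟨W1, hW1⟩ := S.cap hr.1 U
    obtain ⟨W2, hW2⟩ := S.cup W' W1
    have hW : ∀ z, ∀ᵐ ω ∂ν, (ω ∈ S.mem z W2 ↔ ω ∈ S.mem z W' ∨ (ω ∈ r ∧ ω ∈ S.mem z U)) := by
      intro z
      filter_upwards [hW1 z, hW2 z] with ω h1 h2
      rw [h2, h1]
    have hG : Good S W P (p ∩ P []) W2 := by
      intro t r2 hr2 hr2p
      by_cases h0 : ν (r2 ∩ r) = 0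
      · obtain ⟨r', hr', hr'p, x, hx⟩ := hgood t r2 hr2 hr2p
        refine ⟨r', hr', hr'p, x, ?_⟩
        have h1 : ∀ᵐ ω ∂ν, ω ∉ r2 ∩ r := measure_eq_zero_iff_ae_notMem.1 h0
        filter_upwards [hx, h1, hW x] with ω h2 h3 h4 h5
        refine ⟨(h2 h5).1, fun h6 => ?_⟩
        rcases h4.1 h6 with h7 | h7
        · exact (h2 h5).2 h7
        · exact h3 ⟨hr' h5, h7.1⟩
      · obtain ⟨z, hz⟩ := hcl t (r2 ∩ r) (fun ω hω => ⟨hω.2, (hr2 hω.1).2⟩)
          ⟨hr2p.1.inter hr.1, h0⟩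
        have hms : MeasurableSet (r2 ∩ r ∩ ((S.mem z (W t))ᶜ ∩ ((S.mem z W')ᶜ ∩
            (S.mem z U)ᶜ))) :=
          (hr2p.1.inter hr.1).inter ((S.meas z _).compl.inter ((S.meas z _).compl.inter
            (S.meas z _).compl))
        refine ⟨r2 ∩ r ∩ ((S.mem z (W t))ᶜ ∩ ((S.mem z W')ᶜ ∩ (S.mem z U)ᶜ)),
          Set.inter_subset_left.trans Set.inter_subset_left, ⟨hms, fun h1 => ?_⟩, z, ?_⟩
        · have h2 := measure_eq_zero_iff_ae_notMem.1 h1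
          refine hz ?_
          filter_upwards [h2] with ω h3 h4
          exact h3 ⟨h4.1, h4.2.1, h4.2.2.1, h4.2.2.2⟩
        · filter_upwards [hW z] with ω h1 h2
          refine ⟨h2.2.1, fun h3 => ?_⟩
          rcases h1.1 h3 with h4 | h4
          · exact h2.2.2.1 h4
          · exact h2.2.2.2 h4.2
    have h1 := hmax W2 hG (fun z => (hW z).mono fun ω h2 _ h3 => h2.2 (Or.inl h3)) x1
    refine ct_elim hr ?_
    filter_upwards [h1, hx1, hW x1] with ω h2 h3 h4 h5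
    exact (h3 h5).2 (h2 (hrq0 h5) (h4.2 (Or.inr ⟨h5, (h3 h5).1⟩)))
  obtain ⟨t, r1, hr1, hr1p, hcov⟩ := claim
  obtain ⟨s, hts, hs⟩ : ∃ s, t <:+ s ∧ ν (r1 ∩ (H s ∩ (P (false :: s) ∩ P (true :: s)))) ≠ 0 := by
    by_contra hcon
    push Not at hcon
    have h1 : ∀ s : List Bool, ∀ᵐ ω ∂ν, t <:+ s →
        ω ∉ r1 ∩ (H s ∩ (P (false :: s) ∩ P (true :: s))) := by
      intro s
      by_cases hs : t <:+ s
      · exact (measure_eq_zero_iff_ae_notMem.1 (hcon s hs)).mono fun ω hω _ => hω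
      · exact ae_of_all _ fun ω h2 => absurd h2 hs
    refine ct_elim hr1p ?_
    filter_upwards [ae_all_iff.2 h1] with ω h2 h3
    obtain ⟨s, hs, h4, h5, h6⟩ := hPs t ω (hr1 h3).2
    exact h2 s hs ⟨h3, h4, h5, h6⟩
  have hr2p : Pos ν (r1 ∩ (H s ∩ (P (false :: s) ∩ P (true :: s)))) :=
    ⟨hr1p.1.inter ((hHm s).inter ((hPm _).inter (hPm _))), hs⟩
  obtain ⟨r3, hr3, hr3p, x, hx⟩ := hgood (false :: s) _
    (fun ω hω => ⟨hrq0 (hr1 hω.1).1, hω.2.2.1⟩) hr2p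
  obtain ⟨r4, hr4, hr4p, y, hy⟩ := hgood (true :: s) r3
    (fun ω hω => ⟨hrq0 (hr1 (hr3 hω).1).1, (hr3 hω).2.2.2⟩) hr3p
  refine ct_elim hr4p ?_
  filter_upwards [hx, hy, h.nest (hts.trans (List.suffix_cons false s)) x,
    h.nest (hts.trans (List.suffix_cons true s)) y, hcov x, hcov y, hd x y,
    h.cov (false :: s) x, h.cov (true :: s) y, (hI (A (false :: s)) (A (true :: s))).le x y]
    with ω g1 g2 g3 g4 g5 g6 g7 g8 g9 g10 hω
  have hω3 := hr4 hω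
  have hω2 := hr3 hω3
  have hωr := (hr1 hω2.1).1
  have hωp := (hrq0 hωr).1
  obtain ⟨a1, a2⟩ := g1 hω3
  obtain ⟨b1, b2⟩ := g2 hω
  have a3 := g3 hωp a1
  have b3 := g4 hωp b1
  have a4 : ω ∈ S.mem x U := ((g5 hω2.1).resolve_left a3).resolve_left a2
  have b4 : ω ∈ S.mem y U := ((g6 hω2.1).resolve_left b3).resolve_left b2
  have e1 := g7 hωr a4 b4 a2 b2
  have e2 := g10 ((g8 hωp).resolve_right a1) ((g9 hωp).resolve_right b1)
  have e3 : ε' / 2 ≤ I (A (false :: s)) (A (true :: s)) ω := by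
    have h1 := hω2.2.1
    rw [hH] at h1
    exact h1
  linarith

end RNP
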