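import Mathlib

/-! # Scales (package C06)

(problem MP_9bfcae_gt, Part II; Mathlib only)

`scale`: a transitive relation with interpolation has, between two related elements, a family indexed
by the rational numbers of `[0, 1]`. Proof: define `φ` along an enumeration `q 0 = 0, q 1 = 1, q 2, ..` of the
rational numbers in `[0, 1]` by recursion: for `n ≥ 2` let `s` be the largest of `q 0, .., q (n-1)` which is `< q n`
and `t` the smallest which is `> q n`; choose `φ (q n)` between `φ s` and `φ t`; by transitivity the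
relation holds for all pairs among the first `n + 1` rational numbers. (Alternative: define
`ψ n : Fin (2 ^ n + 1) → T` or `ψ : ℕ → ℕ → T` on the dyadic rationals `k / 2 ^ n`, with
`ψ (n + 1) (2 k) = ψ n k`, `R (ψ n k) (ψ n (k + 1))`, and then map the rational numbers to dyadic rationals by
an order embedding of `ℚ ∩ [0,1]` which fixes `0` and `1` (`Order.embedding_from_countable_to_dense` applied to
the open intervals), or use one of the many other standard ways: for instance a finite partial map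
argument, `Order.PartialIso`.) -/

set_option autoImplicit false

namespace RNP

/-- finite approximations of a scale -/
private structure ScSt {T : Type} (R : T → T → Prop) (a b : T) where
  F : Finset ℚ
  f : ℚ → T
  h0 : (0 : ℚ) ∈ F
  h1 : (1 : ℚ) ∈ F
  f0 : f 0 = a
  f1 : f 1 = b
  hR : ∀ s ∈ F, ∀ t ∈ F, s < t → R (f s) (f t)

private theorem sc_step {T : Type} {R : T → T → Prop} (htr : ∀ a b c, R a b → R b c → R a c)
    (hint : ∀ a b, R a b → ∃ c, R a c ∧ R c b) {a b : T} (p : ScSt R a b) (q : ℚ) :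
    ∃ p' : ScSt R a b, (0 ≤ q → q ≤ 1 → q ∈ p'.F) ∧ p.F ⊆ p'.F ∧
      ∀ s ∈ p.F, p'.f s = p.f s := by
  by_cases hq : 0 ≤ q ∧ q ≤ 1 ∧ q ∉ p.F
  · obtain ⟨h0, h1, hF⟩ := hq
    have h0' : 0 < q := lt_of_le_of_ne h0 fun h => hF (h ▸ p.h0)
    have h1' : q < 1 := lt_of_le_of_ne h1 fun h => hF (h.symm ▸ p.h1)
    obtain ⟨s, hs, hsmax⟩ := (p.F.filter fun u => u < q).exists_max_image (fun u => u)
      ⟨0, Finset.mem_filter.2 ⟨p.h0, h0'⟩⟩
    obtain ⟨t, ht, htmin⟩ := (p.F.filter fun u => q < u).exists_min_image (fun u => u)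
      ⟨1, Finset.mem_filter.2 ⟨p.h1, h1'⟩⟩
    rw [Finset.mem_filter] at hs ht
    obtain ⟨c, hc1, hc2⟩ := hint _ _ (p.hR s hs.1 t ht.1 (hs.2.trans ht.2))
    have hlt : ∀ u ∈ p.F, u < q → R (p.f u) c := by
      intro u hu huq
      have h2 : u ≤ s := hsmax u (Finset.mem_filter.2 ⟨hu, huq⟩)
      rcases h2.lt_or_eq with h3 | h3
      · exact htr _ _ _ (p.hR u hu s hs.1 h3) hc1
      · rw [h3]
        exact hc1
    have hgt : ∀ u ∈ p.F, q < u → R c (p.f u) := by
      intro u hu huq
      have h2 : t ≤ u := htmin u (Finset.mem_filter.2 ⟨hu, huq⟩)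
      rcases h2.lt_or_eq with h3 | h3
      · exact htr _ _ _ hc2 (p.hR t ht.1 u hu h3)
      · rw [← h3]
        exact hc2
    have hne : ∀ u ∈ p.F, Function.update p.f q c u = p.f u := by
      intro u hu
      refine Function.update_of_ne ?_ _ _
      rintro rfl
      exact hF hu
    refine ⟨⟨insert q p.F, Function.update p.f q c, Finset.mem_insert_of_mem p.h0,
      Finset.mem_insert_of_mem p.h1, (hne 0 p.h0).trans p.f0, (hne 1 p.h1).trans p.f1, ?_⟩,
      fun _ _ => Finset.mem_insert_self _ _, Finset.subset_insert _ _, hne⟩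
    intro u hu v hv huv
    rw [Finset.mem_insert] at hu hv
    rcases hu with hu | hu
    · rcases hv with hv | hv
      · rw [hu, hv] at huv
        exact absurd huv (lt_irrefl _)
      · rw [hu] at huv ⊢
        rw [Function.update_self, hne v hv]
        exact hgt v hv huv
    · rcases hv with hv | hv
      · rw [hv] at huv ⊢
        rw [Function.update_self, hne u hu]
        exact hlt u hu huv
      · rw [hne u hu, hne v hv]
        exact p.hR u hu v hv huv
  · refine ⟨p, fun h0 h1 => ?_, Finset.Subset.refl _, fun s _ => rfl⟩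
    by_contra h
    exact hq ⟨h0, h1, h⟩

theorem scale {T : Type} (R : T → T → Prop) (htr : ∀ a b c, R a b → R b c → R a c)
    (hint : ∀ a b, R a b → ∃ c, R a c ∧ R c b) {a b : T} (hab : R a b) :
    ∃ φ : ℚ → T, (∀ s t, 0 ≤ s → s < t → t ≤ 1 → R (φ s) (φ t)) ∧ φ 0 = a ∧ φ 1 = b := by
  classical
  choose step hstep1 hstep2 hstep3 using fun (p : ScSt R a b) (q : ℚ) => sc_step htr hint p q
  obtain ⟨p0⟩ : Nonempty (ScSt R a b) := by
    refine ⟨⟨{0, 1}, fun x => if x = 0 then a else b, by simp, by simp, if_pos rfl,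
      if_neg one_ne_zero, ?_⟩⟩
    intro s hs t ht hst
    rw [Finset.mem_insert, Finset.mem_singleton] at hs ht
    rcases hs with hs | hs
    · rcases ht with ht | ht
      · rw [hs, ht] at hst
        exact absurd hst (lt_irrefl _)
      · rw [hs, ht, if_pos rfl, if_neg one_ne_zero]
        exact hab
    · rcases ht with ht | ht
      · rw [hs, ht] at hst
        exact absurd hst (by norm_num)
      · rw [hs, ht] at hst
        exact absurd hst (lt_irrefl _)
  obtain ⟨e⟩ : Nonempty (ℚ ≃ ℕ) := ⟨Denumerable.eqv ℚ⟩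
  obtain ⟨st, hst⟩ : ∃ st : ℕ → ScSt R a b, ∀ n, st (n + 1) = step (st n) (e.symm n) :=
    ⟨fun n => Nat.rec p0 (fun n p => step p (e.symm n)) n, fun _ => rfl⟩
  have hcoh : ∀ n m, n ≤ m → ∀ s ∈ (st n).F, s ∈ (st m).F ∧ (st m).f s = (st n).f s := by
    intro n m h
    induction m, h using Nat.le_induction with
    | base => exact fun s hs => ⟨hs, rfl⟩
    | succ m _ ih =>
      intro s hs
      obtain ⟨h1, h2⟩ := ih s hs
      rw [hst]
      exact ⟨hstep2 _ _ h1, (hstep3 _ _ s h1).trans h2⟩
  have hmem : ∀ q, 0 ≤ q → q ≤ 1 → q ∈ (st (e q + 1)).F := by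
    intro q h0 h1
    have h2 := hstep1 (st (e q)) (e.symm (e q)) (by rwa [e.symm_apply_apply])
      (by rwa [e.symm_apply_apply])
    rw [hst]
    rwa [e.symm_apply_apply] at h2 ⊢
  refine ⟨fun q => (st (e q + 1)).f q, fun s t hs hlt ht => ?_, (st _).f0, (st _).f1⟩
  obtain ⟨h1, h2⟩ := hcoh _ (max (e s + 1) (e t + 1)) (le_max_left _ _) s
    (hmem s hs (hlt.le.trans ht))
  obtain ⟨h3, h4⟩ := hcoh _ (max (e s + 1) (e t + 1)) (le_max_right _ _) t
    (hmem t (hs.trans hlt.le) ht)
  have h5 := (st (max (e s + 1) (e t + 1))).hR s h1 t h3 hlt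
  rw [h2, h4] at h5
  exact h5

end RNP
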