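import Pool.Agent.RNP.Interp
import Pool.Agent.RNP.Scale

/-! # Urysohn's lemma (package C07)

(problem MP_9bfcae_gt, Part II)

`ury`: let `φ` be the scale of `RNP.scale` for the relation `S.ll` (transitive, interpolation
`BSp.interp`), `φ 0 = U`, `φ 1 = V`. Put `f z ω := sInf ({1} ∪ {(s : ℝ) | s : ℚ, 0 ≤ s ≤ 1, ω ∈ mem z (φ s)})`; equivalently the infimum
over the countable type of the rational numbers `s` in `[0, 1]` of the measurable functions equal to `s` on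
`mem z (φ s)` and `1` outside: measurable (`Measurable.iInf` or `measurable_of_Iio` with
`{f z < r} = ⋃ s < r, mem z (φ s)` for `r ≤ 1`), with values in `[0, 1]`.
For almost all `ω` (for fixed `z`): `ω ∈ mem z (φ s) → ω ∈ mem z (φ t)` for all rational `0 ≤ s < t ≤ 1` (`ll.sub`,
`ae_all_iff`), and for all such pairs the witness `W s t` of `ll (φ s) (φ t)` has `¬ (z ∈ φ s ∧ z ∈ W s t)`, `z ∈ φ t ∨ z ∈ W s t`.
* `lt`: for `r ≤ 0`: the empty set; for `r > 1`: everything; for `0 < r ≤ 1`: the union of the `φ s` with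
  `0 ≤ s < r` (`S.union` over the countable type of these `s`).
* `gt`: for `r ≥ 1`: empty; for `r < 0`: everything; for `0 ≤ r < 1`: the union of the `W s t` with `r < s < t ≤ 1`,
  `0 ≤ s` (countable): if `f z ω > r` choose `r < s < t < f z ω`, then `ω ∉ mem z (φ t)`, so `ω ∈ mem z (W s t)`; if
  `ω ∈ mem z (W s t)` then `ω ∉ mem z (φ s)` and so `ω ∉ mem z (φ s')` for all `s' ≤ s` and `f z ω ≥ s > r`.
* `z ∈ U = φ 0` gives `f z = 0`; `z ∉ V = φ 1` gives `z ∉ φ s` for all `s ≤ 1`, so `f z = 1`. -/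

set_option autoImplicit false

namespace RNP

open MeasureTheory

variable {Ω : Type} [MeasurableSpace Ω] {ν : Measure Ω} [IsFiniteMeasure ν] {X T : Type}
  {S : BSp ν X T}

/-- the value of the function at a point which belongs to `φ s` iff `A s` -/
private noncomputable def ff (A : ℚ → Prop) : ℝ :=
  sInf (insert 1 {x : ℝ | ∃ s : ℚ, 0 ≤ s ∧ s ≤ 1 ∧ A s ∧ x = s})

private theorem ff_bdd (A : ℚ → Prop) :
    BddBelow (insert 1 {x : ℝ | ∃ s : ℚ, 0 ≤ s ∧ s ≤ 1 ∧ A s ∧ x = s}) := by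
  refine ⟨0, ?_⟩
  rintro x (rfl | ⟨s, hs, -, -, rfl⟩)
  · exact zero_le_one
  · exact_mod_cast hs

private theorem ff_le_one (A : ℚ → Prop) : ff A ≤ 1 :=
  csInf_le (ff_bdd A) (Set.mem_insert _ _)

private theorem ff_le {A : ℚ → Prop} {s : ℚ} (h0 : 0 ≤ s) (h1 : s ≤ 1) (h : A s) :
    ff A ≤ s := csInf_le (ff_bdd A) (Set.mem_insert_of_mem _ ⟨s, h0, h1, h, rfl⟩)

private theorem le_ff {A : ℚ → Prop} {x : ℝ} (hx : x ≤ 1)
    (h : ∀ s : ℚ, 0 ≤ s → s ≤ 1 → A s → x ≤ s) : x ≤ ff A := by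
  refine le_csInf ⟨1, Set.mem_insert _ _⟩ ?_
  rintro y (rfl | ⟨s, h0, h1, h2, rfl⟩)
  · exact hx
  · exact h s h0 h1 h2

private theorem ff_nonneg (A : ℚ → Prop) : 0 ≤ ff A :=
  le_ff zero_le_one fun s h0 _ _ => by exact_mod_cast h0

private theorem ff_lt {A : ℚ → Prop} {r : ℝ} :
    ff A < r ↔ 1 < r ∨ ∃ s : ℚ, (0 ≤ s ∧ s ≤ 1 ∧ (s : ℝ) < r) ∧ A s := by
  constructor
  · intro h
    by_contra hcon
    push Not at hcon
    refine absurd h (not_lt.2 (le_ff hcon.1 fun s h0 h1 h2 => ?_))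
    by_contra hc
    exact hcon.2 s ⟨h0, h1, not_le.1 hc⟩ h2
  · rintro (h | ⟨s, ⟨h0, h1, h2⟩, h3⟩)
    · exact (ff_le_one A).trans_lt h
    · exact (ff_le h0 h1 h3).trans_lt h2

theorem BSp.ury {U V : T} (h : S.ll U V) : ∃ f : CF S,
    (∀ z, ∀ᵐ ω ∂ν, ω ∈ S.mem z U → f.f z ω = 0) ∧ ∀ z, ∀ᵐ ω ∂ν, ω ∉ S.mem z V → f.f z ω = 1 := by
  classical
  obtain ⟨φ, hφ, h0, h1⟩ := scale S.ll (fun _ _ _ => BSp.ll.trans) (fun _ _ => BSp.interp) h
  have hW : ∀ i : ℚ × ℚ, ∃ W : T, (0 ≤ i.1 ∧ i.1 < i.2 ∧ i.2 ≤ 1) → ∀ z, ∀ᵐ ω ∂ν,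
      ¬ (ω ∈ S.mem z (φ i.1) ∧ ω ∈ S.mem z W) ∧ (ω ∈ S.mem z (φ i.2) ∨ ω ∈ S.mem z W) := by
    intro i
    by_cases hi : 0 ≤ i.1 ∧ i.1 < i.2 ∧ i.2 ≤ 1
    · obtain ⟨W, hW⟩ := hφ i.1 i.2 hi.1 hi.2.1 hi.2.2
      exact ⟨W, fun _ => hW⟩
    · exact ⟨U, fun h => absurd h hi⟩
  choose W hW using hW
  have hM : ∀ z, ∀ᵐ ω ∂ν, ∀ i : ℚ × ℚ, (0 ≤ i.1 ∧ i.1 < i.2 ∧ i.2 ≤ 1) →
      ω ∈ S.mem z (φ i.1) → ω ∈ S.mem z (φ i.2) := by
    intro z
    rw [ae_all_iff]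
    intro i
    by_cases hi : 0 ≤ i.1 ∧ i.1 < i.2 ∧ i.2 ≤ 1
    · filter_upwards [(hφ i.1 i.2 hi.1 hi.2.1 hi.2.2).sub z] with ω hω _
      exact hω
    · exact Filter.Eventually.of_forall fun ω h => absurd h hi
  have hW' : ∀ z, ∀ᵐ ω ∂ν, ∀ i : ℚ × ℚ, (0 ≤ i.1 ∧ i.1 < i.2 ∧ i.2 ≤ 1) →
      ¬ (ω ∈ S.mem z (φ i.1) ∧ ω ∈ S.mem z (W i)) ∧
        (ω ∈ S.mem z (φ i.2) ∨ ω ∈ S.mem z (W i)) := by
    intro z
    rw [ae_all_iff]
    intro i
    by_cases hi : 0 ≤ i.1 ∧ i.1 < i.2 ∧ i.2 ≤ 1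
    · filter_upwards [hW i hi z] with ω hω _
      exact hω
    · exact Filter.Eventually.of_forall fun ω h => absurd h hi
  refine ⟨⟨fun z ω => ff fun s => ω ∈ S.mem z (φ s), ?_, ?_, ?_⟩, ?_, ?_⟩
  · intro z
    refine measurable_of_Iio fun r => ?_
    have h2 : (fun ω => ff fun s => ω ∈ S.mem z (φ s)) ⁻¹' Set.Iio r = {ω | (1 : ℝ) < r} ∪
        ⋃ s : {s : ℚ // 0 ≤ s ∧ s ≤ 1 ∧ (s : ℝ) < r}, S.mem z (φ s.1) := by
      ext ω
      refine ff_lt.trans ?_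
      rw [Set.mem_union, Set.mem_iUnion]
      refine or_congr Iff.rfl ⟨?_, ?_⟩
      · rintro ⟨s, hs, hs'⟩
        exact ⟨⟨s, hs⟩, hs'⟩
      · rintro ⟨⟨s, hs⟩, hs'⟩
        exact ⟨s, hs, hs'⟩
    rw [h2]
    exact (MeasurableSet.const _).union (MeasurableSet.iUnion fun s => S.meas _ _)
  · intro r
    by_cases hr : 1 < r
    · obtain ⟨Z, hZ⟩ := S.top
      refine ⟨Z, fun z => ?_⟩
      filter_upwards [hZ z] with ω hω
      refine iff_of_true hω ?_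
      exact (ff_le_one _).trans_lt (by exact_mod_cast hr)
    · obtain ⟨Z, hZ⟩ := S.union
        (fun s : {s : ℚ // 0 ≤ s ∧ s ≤ 1 ∧ (s : ℝ) < r} => Set.univ)
        (fun _ => MeasurableSet.univ) (fun s => φ s.1)
      refine ⟨Z, fun z => ?_⟩
      filter_upwards [hZ z] with ω hω
      rw [hω]
      refine Iff.trans ?_ ff_lt.symm
      constructor
      · rintro ⟨⟨s, hs⟩, -, hs'⟩
        exact Or.inr ⟨s, hs, hs'⟩
      · rintro (h2 | ⟨s, hs, hs'⟩)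
        · exact absurd (by exact_mod_cast h2) hr
        · exact ⟨⟨s, hs⟩, trivial, hs'⟩
  · intro r
    by_cases hr1 : 1 ≤ r
    · obtain ⟨Z, hZ⟩ := S.empty
      refine ⟨Z, fun z => ?_⟩
      filter_upwards [hZ z] with ω hω
      refine iff_of_false hω (not_lt.2 ((ff_le_one _).trans ?_))
      exact_mod_cast hr1
    by_cases hr0 : r < 0
    · obtain ⟨Z, hZ⟩ := S.top
      refine ⟨Z, fun z => ?_⟩
      filter_upwards [hZ z] with ω hω
      refine iff_of_true hω (lt_of_lt_of_le ?_ (ff_nonneg _))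
      exact_mod_cast hr0
    push Not at hr1 hr0
    obtain ⟨Z, hZ⟩ := S.union
      (fun i : {i : ℚ × ℚ // r < i.1 ∧ i.1 < i.2 ∧ i.2 ≤ 1} => Set.univ)
      (fun _ => MeasurableSet.univ) (fun i => W i.1)
    refine ⟨Z, fun z => ?_⟩
    filter_upwards [hZ z, hM z, hW' z] with ω hω hm hw
    rw [hω]
    constructor
    · rintro ⟨⟨⟨s, t⟩, hrs, hst, ht⟩, -, hs⟩
      have hrs : r < s := hrs
      have hst : s < t := hst
      have ht : t ≤ 1 := ht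
      have hs0 : 0 ≤ s := hr0.trans hrs.le
      have h3 : ω ∉ S.mem z (φ s) := fun h3 => (hw (s, t) ⟨hs0, hst, ht⟩).1 ⟨h3, hs⟩
      have h4 : (s : ℝ) ≤ ff fun s => ω ∈ S.mem z (φ s) := by
        refine le_ff (by exact_mod_cast (hst.trans_le ht).le) fun s' h0' h1' hs' => ?_
        by_contra hc
        have hc' : s' < s := by exact_mod_cast not_le.1 hc
        exact h3 (hm (s', s) ⟨h0', hc', (hst.trans_le ht).le⟩ hs')
      exact lt_of_lt_of_le (by exact_mod_cast hrs) h4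
    · intro h3
      have h3 : (r : ℝ) < ff fun s => ω ∈ S.mem z (φ s) := h3
      obtain ⟨t, hrt, htf⟩ := exists_rat_btwn h3
      have hrt' : r < t := by exact_mod_cast hrt
      obtain ⟨s, hrs, hst⟩ := exists_between hrt'
      have ht1 : t ≤ 1 := by
        have h4 : (t : ℝ) ≤ 1 := htf.le.trans (ff_le_one _)
        exact_mod_cast h4
      have ht0 : 0 ≤ t := hr0.trans hrt'.le
      have h5 : ω ∉ S.mem z (φ t) := fun h5 =>
        absurd htf (not_lt.2 (ff_le (A := fun s => ω ∈ S.mem z (φ s)) ht0 ht1 h5))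
      refine ⟨⟨(s, t), hrs, hst, ht1⟩, trivial, ?_⟩
      exact (hw (s, t) ⟨hr0.trans hrs.le, hst, ht1⟩).2.resolve_left h5
  · intro z
    refine Filter.Eventually.of_forall fun ω hω => ?_
    refine le_antisymm ?_ (ff_nonneg _)
    rw [← h0] at hω
    have h2 := ff_le (A := fun s => ω ∈ S.mem z (φ s)) le_rfl zero_le_one hω
    exact_mod_cast h2
  · intro z
    filter_upwards [hM z] with ω hm hω
    refine le_antisymm (ff_le_one _) (le_ff le_rfl fun s h0' h1' hs => ?_)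
    exfalso
    rw [← h1] at hω
    rcases h1'.lt_or_eq with h2 | h2
    · exact hω (hm (s, 1) ⟨h0', h2, le_rfl⟩ hs)
    · rw [h2] at hs
      exact hω hs

end RNP
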