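import Pool.Agent.RNP.LscB
import Pool.Agent.RNP.Contr
import Pool.Agent.RNP.Ury

/-! # The core theorem (package C21)

(problem MP_9bfcae_gt, Part II)

If all images of a (Boolean valued) compact space under fewer than `κ` continuous functions have lower
semicontinuous fragmenting metrics then the space has one.
`I a V W` from `exists_I`; `D x y`, `J V W` from `exists_wl` (`IsF` for `(m a).d x y` and `I a V W`).
* `meas`, `nonneg`: fields of `IsWL`. `self`: `IsWL.mono` against the zero function (`q = univ`): `D x x ≤ 0`. `symm`: `IsWL.mono`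
  twice. `tri`: `IsWL.add` with `δ = 0`, `q = univ`.
* `sep`: suppose `D x y = 0` on `q` and `{ω ∈ q | ω ∈ mem x U, ω ∉ mem y U}` has positive measure (or the same with
  `x`, `y` exchanged: use symmetry). `BSp.reg_ll` gives a smaller condition `r` and `V` with `ll V U`, `x ∈ V` on `r`; `ury`
  gives `f` with `f x = 0`, `f y = 1` on `r`. `IsWL.zero`: for `U`-almost all `a`, `(m a).d x y = 0` on `q`; by
  `fine` some such `a` contains `f`, and `sep` gives `f x = f y` on `r`: contradiction.
* `lsc`: `lscB` gives `p`, `V`, `W` with `r < J V W` on `p`; `J_le` gives `J V W ≤ D x' y'` on `mem x' V ∩ mem y' W`.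
* `frag`: put `ε' := ε/2`. `exists_sch` (with `J_mono`, `lscB`) gives a scheme. For every node `s`: `IsWL.lower` for
  `J (A (false :: s)) (A (true :: s)) ≥ ε'` on `p`: for `U`-almost all `a` the integral of `I a (A (false :: s)) (A (true :: s))` over `p` is at
  least `ε' (ν p).toReal`; by `NF.all` one `a` works for all `s` (`List Bool` is countable). `contr` for `m a`. -/

set_option autoImplicit false

namespace RNP

open MeasureTheory Cardinal

variable {Ω : Type} [MeasurableSpace Ω] {ν : Measure Ω} [IsFiniteMeasure ν] {X T : Type}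

theorem core (S : BSp ν X T) {κ : Cardinal.{0}} (hκ : ℵ₀ < κ) {U : Ultrafilter (Pk κ (CF S))}
    (hU : IsNF κ (CF S) U) (m : ∀ a : Pk κ (CF S), SM S a.1) : ∃ D, IsBig S D := by
  classical
  have hI' : ∀ (a : Pk κ (CF S)) (V W : T), ∃ h, IsI (m a) V W h := fun a V W =>
    exists_I (m a) V W
  choose I hI using hI'
  have hFd : ∀ x y, IsF (fun a => (m a).d x y) := fun x y =>
    ⟨fun a => (m a).meas x y, fun a ω => (m a).nonneg x y ω, fun a ω => (m a).le_one x y ω⟩
  have hFI : ∀ V W, IsF (fun a => I a V W) := fun V W =>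
    ⟨fun a => (hI a V W).meas, fun a => (hI a V W).nonneg, fun a => (hI a V W).le_one⟩
  have hD' := fun x y => exists_wl ν hκ hU (hFd x y)
  choose D hD using hD'
  have hJ' := fun V W => exists_wl ν hκ hU (hFI V W)
  choose J hJ using hJ'
  have hF0 : IsF (fun (_ : Pk κ (CF S)) (_ : Ω) => (0 : ℝ)) :=
    ⟨fun _ => measurable_const, fun _ _ => le_rfl, fun _ _ => zero_le_one⟩
  have hW0 : IsWL ν U (fun (_ : Pk κ (CF S)) (_ : Ω) => (0 : ℝ)) (fun _ => 0) :=
    ⟨measurable_const, fun _ => le_rfl, fun _ => zero_le_one,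
      fun b _ => Filter.Eventually.of_forall fun _ => rfl⟩
  have hsymm1 : ∀ x y, ∀ᵐ ω ∂ν, D x y ω ≤ D y x ω := by
    intro x y
    have h := IsWL.mono (hFd x y) (hFd y x) (hD x y) (hD y x) (q := Set.univ)
      MeasurableSet.univ (Filter.Eventually.of_forall fun a => by
        filter_upwards [(m a).symm x y] with ω hω _
        exact hω.le)
    filter_upwards [h] with ω hω
    exact hω (Set.mem_univ _)
  have hsymm : ∀ x y, ∀ᵐ ω ∂ν, D x y ω = D y x ω := by
    intro x y
    filter_upwards [hsymm1 x y, hsymm1 y x] with ω h1 h2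
    exact le_antisymm h1 h2
  have hsep : ∀ x y q, Pos ν q → On ν q (fun ω => D x y ω = 0) →
      ∀ O, On ν q fun ω => (ω ∈ S.mem x O → ω ∈ S.mem y O) := by
    intro x y q hq h0 O
    by_contra hcon
    have hb : Pos ν ((q ∩ S.mem x O) \ S.mem y O) := by
      refine ⟨(hq.1.inter (S.meas x O)).diff (S.meas y O), fun h => hcon ?_⟩
      rw [measure_eq_zero_iff_ae_notMem] at h
      filter_upwards [h] with ω hω h1 h2
      by_contra h3
      exact hω ⟨⟨h1, h2⟩, h3⟩
    obtain ⟨r, hr, hr', V, hV, hxV⟩ := BSp.reg_ll hb (x := x) (U := O)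
      (Filter.Eventually.of_forall fun ω hω => hω.1.2)
    obtain ⟨f, hf0, hf1⟩ := BSp.ury hV
    have hz := IsWL.zero (hFd x y) (hD x y) hq.1 h0
    have hfi : ∀ᶠ a in (U : Filter (Pk κ (CF S))), f ∈ a.1 := hU.fine f
    obtain ⟨a, ha1, ha2⟩ := (hz.and hfi).exists
    apply hr'.2
    rw [measure_eq_zero_iff_ae_notMem]
    filter_upwards [ha1, (m a).sep f ha2 x y, hf0 x, hf1 y, hxV] with ω e1 e2 e3 e4 e5 hωr
    have e6 := hr hωr
    have e7 := e2 (e1 e6.1.1)
    rw [e3 (e5 hωr), e4 e6.2] at e7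
    exact zero_ne_one e7
  refine ⟨D, ⟨fun x y => (hD x y).meas, fun x y => (hD x y).nonneg, ?_, hsymm, ?_, ?_, ?_, ?_⟩⟩
  · intro x y q hq hxy
    have h := IsWL.mono (hFd x y) hF0 (hD x y) hW0 (q := q)
      hq.1 (Filter.Eventually.of_forall fun a => by
        filter_upwards [(m a).ext x y q hq hxy] with ω hω hωq
        exact (hω hωq).le)
    filter_upwards [h] with ω hω hωq
    exact le_antisymm (hω hωq) ((hD x y).nonneg ω)
  · intro x y z
    have h := IsWL.add (hFd x z) (hFd x y) (hFd y z) (hD x z) (hD x y) (hD y z) 0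
      (q := Set.univ) MeasurableSet.univ (Filter.Eventually.of_forall fun a => by
        filter_upwards [(m a).tri x y z] with ω hω _
        rw [add_zero]
        exact hω)
    filter_upwards [h] with ω hω
    have h1 := hω (Set.mem_univ _)
    rwa [add_zero] at h1
  · intro x y q hq h0 O
    have h0' : On ν q (fun ω => D y x ω = 0) := by
      filter_upwards [h0, hsymm x y] with ω h1 h2 h3
      rw [← h2]
      exact h1 h3
    filter_upwards [hsep x y q hq h0 O, hsep y x q hq h0' O] with ω h1 h2 h3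
    exact ⟨h1 h3, h2 h3⟩
  · intro x y r q hq h
    obtain ⟨p, hp, hp', V, W, hVW⟩ := lscB hκ hU hI hD hJ x y r hq h
    refine ⟨p, hp, hp', V, W, ?_, fun x' y' => ?_⟩
    · filter_upwards [hVW] with ω hω h1
      exact ⟨(hω h1).1, (hω h1).2.1⟩
    · filter_upwards [hVW, J_le hI hD hJ x' y' V W] with ω h1 h2 h3 h4 h5
      exact lt_of_lt_of_le (h1 h3).2.2 (h2 h4 h5)
  · intro M p ε hM hp hε hM0 hM1 hM2
    obtain ⟨A, W, V, h⟩ := exists_sch S (D := D) (J := J) (M := M) (p := p) (ε := ε)
      (ε' := ε / 2) (fun V V' W W' q hq hV hW => J_mono hI hJ hq hV hW)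
      (fun V W => (hJ V W).meas)
      (fun x y r q hq h => lscB hκ hU hI hD hJ x y r hq h) hM hp (by linarith) hM0 hM1 hM2
    have hlow : ∀ s : List Bool, ∀ᶠ a in (U : Filter (Pk κ (CF S))),
        ε / 2 * (ν p).toReal ≤ ∫ ω in p, I a (A (false :: s)) (A (true :: s)) ω ∂ν := fun s =>
      IsWL.lower (hFI (A (false :: s)) (A (true :: s))) (hJ (A (false :: s)) (A (true :: s)))
        hp.1 (h.far s)
    obtain ⟨a, ha⟩ := (NF.all hκ hU hlow).exists
    exact contr h hp (by linarith) hM2 (m a) (hI a) ha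

end RNP
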