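import Pool.Agent.RNP.CvD
import Pool.Agent.CPI.ATop
import Pool.Agent.CPI.ATool

/-! # Presentations of topological spaces (package V01)

(problem MP_9bfcae_gt, conversion; everything happens in an arbitrary `(N, E)` with `ZFC E`)

Tools: `CPI/ATool.lean` (`sep` (separation for definable predicates `Df1`), `exists_rel`, `exists_int`, `exists_op`, `exists_id`, `exists_BI`), `CPI/ATop.lean`
(`exists_FT`, `FT_top`, `BI_mem`, `FT_basis`: the topology coded by `(Y, B, h)` and a bijection `F : Y → C`; use them with the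
identity `F`, `exists_id`).
* `pres_of_sp`: `σ` := the topology of `exists_FT` for the identity of `Y`: its elements are the `U ⊆ Y` such that every `y ∈ U` is in a basic set
  contained in `U`.
* `pres_of_base`: `m` := the relation `{(y, b) | y ∈ Y, b ∈ B, y ∈ b}` (`exists_rel` with the formula `Fml.mem 0 1`).
* `Pres.sp`: cover: `Y ∈ σ` and `bas`; directed: the intersection of the two open sets of `opn` is in `σ` (`exists_int`, third clause of
  `IsTop`), and `bas`. -/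

set_option autoImplicit false

universe v

namespace RNP

open STP CPI

variable {N : Type v} {E : N → N → Prop}

theorem pres_of_sp (hE : ZFC E) {Y D m : N} (h : CSp E Y D m) : ∃ σ, Pres E Y D m σ := by
  obtain ⟨i, hio, hinj, hi⟩ := exists_id hE Y
  obtain ⟨σ, hσ⟩ := exists_FT hE Y D m i Y
  refine ⟨σ, ⟨FT_top hio h hσ, fun d hd => ?_, fun U y hU hy => ?_⟩⟩
  · obtain ⟨W, hW⟩ := exists_BI hE hio.1 m d
    refine ⟨W, BI_mem hio hinj hσ hd hW, fun y hy => ⟨fun h1 => ?_, fun h1 => ?_⟩⟩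
    · obtain ⟨z, _, h2, h3⟩ := (hW y).1 h1
      obtain ⟨_, rfl⟩ := (hi z y).1 h3
      exact h2
    · exact (hW y).2 ⟨y, hy, h1, (hi y y).2 ⟨hy, rfl⟩⟩
  · obtain ⟨b, W, hb, hW, hyW, hWU⟩ := FT_basis hE hio hσ hU hy
    refine ⟨b, hb, ?_, fun z hz h1 => hWU z ((hW z).2 ⟨z, hz, h1, (hi z z).2 ⟨hz, rfl⟩⟩)⟩
    obtain ⟨z, _, h2, h3⟩ := (hW y).1 hyW
    obtain ⟨_, rfl⟩ := (hi z y).1 h3
    exact h2

theorem pres_of_base (hE : ZFC E) {Y B σ : N} (h : IsTop E Y σ) (hB : Sub E B σ)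
    (hb : ∀ O y, E O σ → E y O → ∃ b, E b B ∧ E y b ∧ Sub E b O) : ∃ m, Pres E Y B m σ := by
  obtain ⟨m, _, hm⟩ := exists_rel hE (ρ := fun y b => E y b)
    ⟨.mem 0 1, vv Y [], by intro x y; simp⟩ Y B
  refine ⟨m, ⟨h, fun d hd => ?_, fun U y hU hy => ?_⟩⟩
  · exact ⟨d, hB d hd, fun y hy => ⟨fun h1 => (hm y d).2 ⟨hy, hd, h1⟩,
      fun h1 => ((hm y d).1 h1).2.2⟩⟩
  · obtain ⟨b, hbB, hyb, hbU⟩ := hb U y hU hy
    exact ⟨b, hbB, (hm y b).2 ⟨h.1 U hU y hy, hbB, hyb⟩,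
      fun z _ h1 => hbU z ((hm z b).1 h1).2.2⟩

theorem Pres.sp (hE : ZFC E) {Y D m σ : N} (h : Pres E Y D m σ) : CSp E Y D m := by
  refine ⟨fun y hy => ?_, fun y b b' hy hb hb' h1 h2 => ?_⟩
  · obtain ⟨d, hd, h1, _⟩ := h.bas Y y h.top.2.1 hy
    exact ⟨d, hd, h1⟩
  · obtain ⟨U, hU, hU'⟩ := h.opn b hb
    obtain ⟨V, hV, hV'⟩ := h.opn b' hb'
    obtain ⟨W, hW⟩ := exists_int hE U V
    obtain ⟨c, hc, h3, h4⟩ := h.bas W y (h.top.2.2.2 U V W hU hV hW)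
      ((hW y).2 ⟨(hU' y hy).2 h1, (hV' y hy).2 h2⟩)
    refine ⟨c, hc, h3, fun z hz h5 => ?_⟩
    have h6 := (hW z).1 (h4 z hz h5)
    exact ⟨(hU' z hz).1 h6.1, (hV' z hz).1 h6.2⟩

end RNP
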