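import Pool.Agent.RNP.CvD
import Pool.Agent.CPI.ATool
import Pool.Agent.CPI.ACho

/-! # Hausdorff and compact presented spaces (package V02)

(problem MP_9bfcae_gt, conversion; everything happens in an arbitrary `(N, E)` with `ZFC E`)

* `Pres.hd`: `→`: refine the two open sets by basic sets (`bas`); `←`: the open sets of `opn`; elements of open sets are in `Y` (first clause of
  `IsTop`).
* `Pres.cpt_of`: `IsCpt E Y σ → CCpt E Y D m`: let `O ⊆ D` cover. `S := {U ∈ σ | ∃ d ∈ O, ∀ y ∈ Y, y ∈ U ↔ Val m y d}` (`CPI.sep`, a formula with the parameters `O`,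
  `Y`, `m`) is a cover (`opn`). A finite subcover `S'`; `CPI.choose_fin` (for the definable relation `ρ U d := ∀ y ∈ Y, y ∈ U ↔ Val m y d`) chooses a finite
  `O' ⊆ O` with some `d ∈ O'` for every `U ∈ S'`.
* `Pres.cpt_iff`: for the other direction let `S ⊆ σ` cover, `O := {d ∈ D | ∃ U ∈ S, ∀ z ∈ Y, Val m z d → z ∈ U}`; it covers by `bas`; finite subcover `O'`;
  `choose_fin` for the relation `ρ d U := ∀ z ∈ Y, Val m z d → z ∈ U`. (Compare the proof of `CPI.cpt` in `CPI/ALin.lean`.) -/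

set_option autoImplicit false

universe v

namespace RNP

open STP CPI

variable {N : Type v} {E : N → N → Prop} {Y D m σ : N}

theorem Pres.hd (hE : ZFC E) (h : Pres E Y D m σ) : IsHd E Y σ ↔ CHd E Y D m := by
  have _ := hE
  constructor
  · intro hd x y hx hy hxy
    obtain ⟨U, V, hU, hV, hxU, hyV, hUV⟩ := hd x y hx hy hxy
    obtain ⟨b, hb, hxb, hb'⟩ := h.bas U x hU hxU
    obtain ⟨c, hc, hyc, hc'⟩ := h.bas V y hV hyV
    exact ⟨b, c, hb, hc, hxb, hyc, fun z hz hz' => hUV z ⟨hb' z hz hz'.1, hc' z hz hz'.2⟩⟩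
  · intro hd x y hx hy hxy
    obtain ⟨b, c, hb, hc, hxb, hyc, hbc⟩ := hd x y hx hy hxy
    obtain ⟨U, hU, hU'⟩ := h.opn b hb
    obtain ⟨V, hV, hV'⟩ := h.opn c hc
    refine ⟨U, V, hU, hV, (hU' x hx).2 hxb, (hV' y hy).2 hyc, fun z hz => ?_⟩
    have hzY : E z Y := h.top.1 U hU z hz.1
    exact hbc z hzY ⟨(hU' z hzY).1 hz.1, (hV' z hzY).1 hz.2⟩

/-- the open set `U` is the basic set with the code `d` -/
private def QQ (E : N → N → Prop) (Y m U d : N) : Prop := ∀ y, E y Y → (E y U ↔ Val E m y d)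

private theorem QQ_df (Y m : N) : Df2 E fun U d => QQ E Y m U d :=
  ⟨.all (.imp (.mem 0 3) (Fml.iff (.mem 0 1) (fVal 4 0 2))), vv Y [Y, m],
    by intro x y; simp [QQ]⟩

/-- the basic set with the code `d` is a subset of `U` -/
private def SS (E : N → N → Prop) (Y m d U : N) : Prop := ∀ y, E y Y → Val E m y d → E y U

private theorem SS_df (Y m : N) : Df2 E fun d U => SS E Y m d U :=
  ⟨.all (.imp (.mem 0 3) (.imp (fVal 4 0 1) (.mem 0 2))), vv Y [Y, m],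
    by intro x y; simp [SS]⟩

theorem Pres.cpt (hE : ZFC E) (h : Pres E Y D m σ) : IsCpt E Y σ ↔ CCpt E Y D m := by
  constructor
  · intro hc O hO hcov
    obtain ⟨S, hS⟩ := sep hE (ρ := fun U => ∃ d, E d O ∧ QQ E Y m U d)
      ⟨Fml.ex (Fml.an (.mem 0 2) (.all (.imp (.mem 0 4) (Fml.iff (.mem 0 2) (fVal 5 0 1))))),
        vv O [O, Y, m], by intro x; simp [QQ]⟩ σ
    have hcS : IsCov E Y S := by
      intro x hx
      obtain ⟨d, hd, hxd⟩ := hcov x hx
      obtain ⟨U, hU, hU'⟩ := h.opn d (hO d hd)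
      exact ⟨U, (hS U).2 ⟨hU, d, hd, hU'⟩, (hU' x hx).2 hxd⟩
    obtain ⟨S', hS', hfin, hcS'⟩ := hc S (fun U hU => ((hS U).1 hU).1) hcS
    obtain ⟨O', hO', hfin', h1⟩ := choose_fin hE (QQ_df Y m) hfin
      fun U hU => ((hS U).1 (hS' U hU)).2
    refine ⟨O', hO', hfin', fun x hx => ?_⟩
    obtain ⟨U, hU, hxU⟩ := hcS' x hx
    obtain ⟨d, hd, hUd⟩ := h1 U hU
    exact ⟨d, hd, (hUd x hx).1 hxU⟩
  · intro hc S hS hcov
    obtain ⟨O, hO⟩ := sep hE (ρ := fun d => ∃ U, E U S ∧ SS E Y m d U)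
      ⟨Fml.ex (Fml.an (.mem 0 2) (.all (.imp (.mem 0 4) (.imp (fVal 5 0 2) (.mem 0 1))))),
        vv S [S, Y, m], by intro x; simp [SS]⟩ D
    have hcO : CCov E Y m O := by
      intro x hx
      obtain ⟨U, hU, hxU⟩ := hcov x hx
      obtain ⟨d, hd, hxd, hd'⟩ := h.bas U x (hS U hU) hxU
      exact ⟨d, (hO d).2 ⟨hd, U, hU, hd'⟩, hxd⟩
    obtain ⟨O', hO', hfin, hcO'⟩ := hc O (fun d hd => ((hO d).1 hd).1) hcO
    obtain ⟨S', hS', hfin', h1⟩ := choose_fin hE (SS_df Y m) hfin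
      fun d hd => ((hO d).1 (hO' d hd)).2
    refine ⟨S', hS', hfin', fun x hx => ?_⟩
    obtain ⟨d, hd, hxd⟩ := hcO' x hx
    obtain ⟨U, hU, hUd⟩ := h1 d hd
    exact ⟨U, hU, hUd x hx hxd⟩

end RNP
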