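import Pool.Agent.RNP.CvD
import Pool.Agent.CPI.ATool

/-! # The real line and Radon-Nikodym compactness (package V03)

(problem MP_9bfcae_gt, conversion; everything happens in an arbitrary `(N, E)` with `ZFC E`)

* `exists_rga`: `s := {p ∈ a | p = ((x, y), z), x, y, z ∈ R}` (`CPI.sep`, with a formula, or
  `CPI.exists_rel` applied to the product `R × R`:
  `CPI.exists_prod`). For `x, y ∈ R`: `Ap a x y z` implies `z ∈ R` (`CEv`: there is a value in `R`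
  and the value is unique). All clauses of `RNT.IsRG` from those of
  `RNC.IsRA`: associativity: `Ap a y z v` and the `u` of the clause in `IsRA` agree by uniqueness;
  neutral element `o`.
* `RGA.zero`: `RNT.IsZ E s x ↔ x = o`: `Ap a o o o` holds; if `Ap s x x x` then `x ∈ R`, add the
  inverse `y` of `x`: `x + x = x` gives
  `x = o` (associativity and uniqueness of values; or by the order: `x < o` gives `x + x < o + x =
  x`, `o < x` similarly).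
* `Pres.rn`: the same `d` in both directions. `IsMet`: `RNC.IsMet` has `CEv E R Y Y d` (values
  exist in `R` and are unique), `¬ Val l t o` follows from the
  other clauses: `2 d(x, y) ≥ d(x, x) = o` (triangle inequality for `x, y, x`, symmetry, order
  properties of `IsRL` and the last clause of `IsRG`); `Ap d y x t` is symmetry;
  `t = o ↔ x = y` from `Ap d x y o ↔ x = y` and uniqueness of values; conversely. The triangle
  inequality: `Ap s u v w ↔ Ap a u v w` for values `u, v ∈ R`. `IsLsc`: open sets and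
  basic sets (`opn`, `bas`). `IsFrag`/`IsFrg`: the same, and `RGA.zero`. -/

set_option autoImplicit false

universe v

namespace RNP

open STP CPI

variable {N : Type v} {E : N → N → Prop} {R l a o s Y D m σ : N}

private theorem cvc_ap (hE : ZFC E) (h : RNC.IsRA E R l a o) :
    ∃ s, ∀ x y z, Ap E s x y z ↔ E x R ∧ E y R ∧ Ap E a x y z := by
  obtain ⟨-, -, ⟨h3, h3'⟩, -⟩ := h
  obtain ⟨P, hP⟩ := exists_prod hE R R
  obtain ⟨s, -, hs⟩ := exists_rel hE (ρ := fun p z => Val E a p z)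
    ⟨fVal 2 0 1, vv a [a], by intro x y; simp⟩ P R
  refine ⟨s, fun x y z => ⟨?_, ?_⟩⟩
  · rintro ⟨p, hp, hv⟩
    obtain ⟨h4, -, h5⟩ := (hs p z).1 hv
    obtain ⟨x', y', hx, hy, hp'⟩ := (hP p).1 h4
    obtain ⟨rfl, rfl⟩ := IsOP.inj hE hp hp'
    exact ⟨hx, hy, p, hp, h5⟩
  · rintro ⟨hx, hy, p, hp, hv⟩
    obtain ⟨t, ht, ht'⟩ := h3 x y hx hy
    have h4 := h3' x y z t hx hy ⟨p, hp, hv⟩ ht'
    subst h4
    exact ⟨p, hp, (hs p z).2 ⟨(hP p).2 ⟨x, y, hx, hy, hp⟩, ht, hv⟩⟩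

theorem exists_rga (hE : ZFC E) (h : RNC.IsRA E R l a o) : ∃ s, RGA E R l a o s := by
  obtain ⟨s, hs⟩ := cvc_ap hE h
  have hRA := h
  obtain ⟨h1, h2, ⟨h3, h3'⟩, h4, h5, h6, h7, h8⟩ := h
  refine ⟨s, hRA, ⟨h1, fun x y z hz => ?_, fun x y hx hy => ?_, fun x y z z' hz hz' => ?_,
    fun x y z hz => ?_, fun x y z u v w hu hw hv => ?_, ⟨o, h2, fun x hx => ?_, fun x hx => ?_⟩,
    fun x y z u v hlt hu hv => ?_⟩, fun x y z hx hy => ?_⟩
  · obtain ⟨hx, hy, hz⟩ := (hs x y z).1 hz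
    obtain ⟨t, ht, ht'⟩ := h3 x y hx hy
    rw [h3' x y z t hx hy hz ht']
    exact ⟨hx, hy, ht⟩
  · obtain ⟨t, ht, ht'⟩ := h3 x y hx hy
    exact ⟨t, ht, (hs x y t).2 ⟨hx, hy, ht'⟩⟩
  · obtain ⟨hx, hy, hz⟩ := (hs x y z).1 hz
    exact h3' x y z z' hx hy hz ((hs x y z').1 hz').2.2
  · obtain ⟨hx, hy, hz⟩ := (hs x y z).1 hz
    exact (hs y x z).2 ⟨hy, hx, h4 x y z hx hy hz⟩
  · obtain ⟨hx, hy, hu⟩ := (hs x y u).1 hu
    obtain ⟨-, hz, hw⟩ := (hs u z w).1 hw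
    obtain ⟨-, -, hv⟩ := (hs y z v).1 hv
    obtain ⟨v', hv'R, hv', hw'⟩ := h5 x y z u w hx hy hz hu hw
    rw [h3' y z v v' hy hz hv hv']
    exact (hs x v' w).2 ⟨hx, hv'R, hw'⟩
  · exact (hs x o x).2 ⟨hx, h2, h6 x hx⟩
  · obtain ⟨y, hy, hy'⟩ := h7 x hx
    exact ⟨y, hy, (hs x y o).2 ⟨hx, hy, hy'⟩⟩
  · obtain ⟨-, hz, hu⟩ := (hs x z u).1 hu
    obtain ⟨-, -, hv⟩ := (hs y z v).1 hv
    exact h8 x y z u v hz hlt hu hv
  · rw [hs]
    exact ⟨fun h => h.2.2, fun h => ⟨hx, hy, h⟩⟩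

theorem RGA.zero (hE : ZFC E) (h : RGA E R l a o s) (x : N) : RNT.IsZ E s x ↔ x = o := by
  obtain ⟨h1, h2, ⟨h3, h3'⟩, h4, h5, h6, h7, h8⟩ := h.ra
  constructor
  · intro hx
    have hx' : Ap E s x x x := hx
    have hxR := (h.rg.2.1 x x x hx').1
    have h9 : Ap E a x x x := (h.ap x x x hxR hxR).1 hx'
    obtain ⟨y, hy, hy'⟩ := h7 x hxR
    obtain ⟨u, huR, hu, hu'⟩ := h5 x x y x o hxR hxR hy h9 hy'
    have h10 := h3' x y u o hxR hy hu hy'
    rw [h10] at hu'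
    exact h3' x o x o hxR h2 (h6 x hxR) hu'
  · rintro rfl
    exact (h.ap x x x h2 h2).2 (h6 x h2)

private theorem cvc_met (hE : ZFC E) (hR : RGA E R l a o s) (d : N) :
    RNT.IsMet E R l s Y d ↔ RNC.IsMet E R l a o Y d := by
  have hz : RNT.IsZ E s o := (hR.zero hE o).2 rfl
  have hap := hR.ap
  obtain ⟨g1, g2, g3, g4, g5, g6, g7, g8⟩ := hR.rg
  obtain ⟨-, a2, -, -, -, a6, -, -⟩ := hR.ra
  constructor
  · rintro ⟨m1, m2, m3, m4, m5⟩
    refine ⟨⟨m1, m2⟩, fun x y t hx hy ht => ?_, fun x y z s' t u w hx hy hz' h1 h2 h3 h4 => ?_⟩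
    · have htR : E t R := by
        obtain ⟨r, hr, hr'⟩ := m1 x y hx hy
        rwa [m2 x y t r hx hy ht hr']
      refine ⟨fun hlt => ?_, ⟨fun h => ?_, fun h => ?_⟩, m4 x y t hx hy ht⟩
      · obtain ⟨w, hw, hw'⟩ := g3 t t htR htR
        have h1 : Ap E s t o t := (hap t o t htR a2).2 (a6 t htR)
        have h2 : Val E l w t := g8 t o t w t hlt hw' (g5 _ _ _ h1)
        have h3 : Val E l w o := g1.2.2.2.1 w t o h2 hlt
        exact m5 x y x o t t w hx hy hx ht (m4 x y t hx hy ht)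
          ((m3 x x o hx hx hz).2 rfl) hw' h3
      · subst h
        exact (m3 x y t hx hy hz).1 ht
      · exact m2 x y t o hx hy ht ((m3 x y o hx hy hz).2 h)
    · have hsR : E s' R := by
        obtain ⟨r, hr, hr'⟩ := m1 x y hx hy
        rwa [m2 x y s' r hx hy h1 hr']
      have htR : E t R := by
        obtain ⟨r, hr, hr'⟩ := m1 y z hy hz'
        rwa [m2 y z t r hy hz' h2 hr']
      exact m5 x y z u s' t w hx hy hz' h1 h2 h3 ((hap s' t w hsR htR).2 h4)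
  · rintro ⟨⟨c1, c1'⟩, c2, c3⟩
    refine ⟨c1, c1', fun x y o' hx hy ho' => ?_, fun x y r hx hy h => (c2 x y r hx hy h).2.2,
      fun x y z t u v w hx hy hz' h1 h2 h3 h4 => ?_⟩
    · have h1 := (hR.zero hE o').1 ho'
      subst h1
      constructor
      · intro h
        exact (c2 x y o' hx hy h).2.1.1 rfl
      · intro h
        obtain ⟨t, ht, ht'⟩ := c1 x y hx hy
        have h2 := (c2 x y t hx hy ht').2.1.2 h
        rwa [h2] at ht'
    · obtain ⟨huR, hvR, -⟩ := g2 u v w h4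
      exact c3 x y z u v t w hx hy hz' h1 h2 h3 ((hap u v w huR hvR).1 h4)

private theorem cvc_lsc (h : Pres E Y D m σ) (d : N) :
    RNT.IsLsc E R l Y σ d ↔ RNC.IsLsc E R l Y D m d := by
  constructor
  · intro h1 x y t r hx hy hr ht hlt
    obtain ⟨U, V, hU, hV, hxU, hyV, h2⟩ := h1 x y r t hx hy hr ht hlt
    obtain ⟨b, hb, hxb, hb'⟩ := h.bas U x hU hxU
    obtain ⟨c, hc, hyc, hc'⟩ := h.bas V y hV hyV
    exact ⟨b, c, hb, hc, hxb, hyc, fun x' y' s' hx' hy' h3 h4 h5 =>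
      h2 x' y' s' (hb' x' hx' h3) (hc' y' hy' h4) h5⟩
  · intro h1 x y r t hx hy hr ht hlt
    obtain ⟨b, c, hb, hc, hxb, hyc, h2⟩ := h1 x y t r hx hy hr ht hlt
    obtain ⟨U, hU, hU'⟩ := h.opn b hb
    obtain ⟨V, hV, hV'⟩ := h.opn c hc
    refine ⟨U, V, hU, hV, (hU' x hx).2 hxb, (hV' y hy).2 hyc, fun x' y' t' h3 h4 h5 => ?_⟩
    have hx' : E x' Y := h.top.1 U hU x' h3
    have hy' : E y' Y := h.top.1 V hV y' h4
    exact h2 x' y' t' hx' hy' ((hU' x' hx').1 h3) ((hV' y' hy').1 h4) h5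

private theorem cvc_frag (hE : ZFC E) (hR : RGA E R l a o s) (h : Pres E Y D m σ) (d : N) :
    RNT.IsFrag E R l s Y σ d ↔ RNC.IsFrg E R l o Y D m d := by
  constructor
  · intro h1 C e hC hne he hoe
    obtain ⟨U, hU, ⟨x, hxU, hxC⟩, h2⟩ := h1 C e o hC hne ((hR.zero hE o).2 rfl) he hoe
    obtain ⟨b, hb, hxb, hb'⟩ := h.bas U x hU hxU
    exact ⟨b, hb, ⟨x, hxC, hxb⟩, fun x' y' s' hx' hy' h3 h4 h5 =>
      h2 x' y' s' (hb' x' (hC x' hx') h3) hx' (hb' y' (hC y' hy') h4) hy' h5⟩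
  · intro h1 L e o' hL hne ho' he hoe
    have h0 := (hR.zero hE o').1 ho'
    subst h0
    obtain ⟨b, hb, ⟨x, hxL, hxb⟩, h2⟩ := h1 L e hL hne he hoe
    obtain ⟨U, hU, hU'⟩ := h.opn b hb
    refine ⟨U, hU, ⟨x, (hU' x (hL x hxL)).2 hxb, hxL⟩, fun x' y' t hx hx' hy hy' h3 => ?_⟩
    exact h2 x' y' t hx' hy' ((hU' x' (hL x' hx')).1 hx) ((hU' y' (hL y' hy')).1 hy) h3

theorem Pres.rn (hE : ZFC E) (hR : RGA E R l a o s) (h : Pres E Y D m σ) :
    RNT.IsRN E R l s Y σ ↔ RNC.IsRN E R l a o Y D m := by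
  constructor
  · rintro ⟨d, h1, h2, h3⟩
    exact ⟨d, (cvc_met hE hR d).1 h1, (cvc_lsc h d).1 h2, (cvc_frag hE hR h d).1 h3⟩
  · rintro ⟨d, h1, h2, h3⟩
    exact ⟨d, (cvc_met hE hR d).2 h1, (cvc_lsc h d).2 h2, (cvc_frag hE hR h d).2 h3⟩

end RNP
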