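import Pool.Agent.RNC.Lang

/-! # The positive statement inside a structure `(N, E)`

(problem MP_9bfcae_gt; definition, no sorry in this file; the notions are those of `RNC/Lang.lean`) -/

universe v

namespace RNP

/-- In `(N, E)`: every compact Hausdorff space `(X, B, h)`, all of whose Hausdorff continuous images of
weight at most `𝔠` (with a base indexed by a set of cardinality at most `𝔠`) are Radon-Nikodym
compact, is Radon-Nikodym compact. -/
def PosRN {N : Type v} (E : N → N → Prop) : Prop :=
  ∃ R l a o, RNC.IsRA E R l a o ∧ ∀ X B h, CPI.CSp E X B h → CPI.CHd E X B h →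
    CPI.CCpt E X B h →
    (∀ Y D m, CPI.CSp E Y D m → CPI.CHd E Y D m → RNC.IsIm E X B h Y D m → RNC.IsSm E R D →
      RNC.IsRN E R l a o Y D m) → RNC.IsRN E R l a o X B h

end RNP
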