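import Pool.Agent.RNP.TLang
import Pool.Agent.RNP.Lang
import Pool.Agent.CPI.ADefs

/-! # Topological spaces and coded spaces inside `(N, E)` (definitions)

(problem MP_9bfcae_gt, conversion between `RNC/Lang.lean` (coded spaces) and `RNP/TLang.lean` (topological
spaces); no sorry in this file) -/

universe v

namespace RNP

open STP CPI

variable {N : Type v} (E : N → N → Prop)

/-- the coded space `(Y, D, m)` presents the topological space `(Y, σ)`: the basic sets are open and form
a base -/
structure Pres (Y D m σ : N) : Prop where
  top : IsTop E Y σ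
  opn : ∀ d, E d D → ∃ U, E U σ ∧ ∀ y, E y Y → (E y U ↔ Val E m y d)
  bas : ∀ U y, E U σ → E y U → ∃ d, E d D ∧ Val E m y d ∧ ∀ z, E z Y → Val E m z d → E z U

/-- `s` is the addition `a` without superfluous elements, `o` is zero -/
structure RGA (R l a o s : N) : Prop where
  ra : RNC.IsRA E R l a o
  rg : RNT.IsRG E R l s
  ap : ∀ x y z, E x R → E y R → (Ap E s x y z ↔ Ap E a x y z)

end RNP
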