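import Pool.Agent.RNP.CvD
import Pool.Agent.CPI.ATool
import Pool.Agent.CPI.ACho

/-! # Continuous images and weight (package V04)

(problem MP_9bfcae_gt, conversion; everything happens in an arbitrary `(N, E)` with `ZFC E`)

* `Pres.im`: the same map `g`. `→`: let `Val g x y`, `c ∈ D'`, `Val m' y c`; `opn` gives `O ∈ σ'`; the open set `U ∈ τ` of the definition of `RNT.IsIm` contains `x`; `bas`
  gives a basic set with `x ∈ b ⊆ U`. `←`: let `O ∈ σ'`; `U := {x ∈ X | ∃ y ∈ O, Val g x y}` (`CPI.sep`) is open: it is the union of the open sets contained in it (the set of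
  all `V ∈ τ` with `V ⊆ U`, clause on unions in `IsTop`; `hE.union`): for `x ∈ U`, `y = g x ∈ O` take a basic set `c` with `y ∈ c ⊆ O`, then `b` with `x ∈ b` and
  `g[b] ⊆ c`, and the open set of `b` (`opn`). Onto is stated in both languages (`x` is in the domain: `IsFun.dom`).
* `im_cpt`: the image of a compact space is compact: coded cover `O ⊆ D'` of `Y`; `O1 := {b ∈ B | ∃ c ∈ O, ∀ x' y', x' ∈ X → Val h x' b → Val g x' y' → Val m y' c}` (`CPI.sep`)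
  covers `X` (continuity); a finite subcover; `CPI.choose_fin` chooses finitely many `c`; they cover `Y` because `g` is onto.
* `wt_of_sm`: `B := {U ∈ σ | ∃ d ∈ D, ∀ y ∈ Y, y ∈ U ↔ Val m y d}`, `f := {(r, U) | ∃ d, Val f0 r d ∧ d ∈ D ∧ (∀ y ∈ Y, y ∈ U ↔ Val m y d), U ∈ B}` (`CPI.exists_rel`) where `f0` is the
  function of `IsSm`: single valued because `U ⊆ Y` is determined by `d`. For the element of `IsSm` `r` in `Val f0 r d`: `r ∈ R` by `IsFun.dom`.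
* `sm_of_wt`: if `B` is empty take the identity function of `R` (`CPI.exists_id`) as the function of `IsSm`. Otherwise let `b0 ∈ B` and
  `f' := {(r, b) | r ∈ R, b ∈ B, Val f r b ∨ (¬ ∃ b' ∈ B, Val f r b') ∧ b = b0}` (`CPI.exists_fun` / `exists_rel` with a formula). -/

set_option autoImplicit false

universe v

namespace RNP

open STP CPI

variable {N : Type v} {E : N → N → Prop} {R X B h τ Y D m σ : N}

open STP.Fml

private theorem Pres.opn_of (hE : ZFC E) (h1 : Pres E X B h τ) {U : N} (hU : Sub E U X)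
    (h : ∀ x, E x U → ∃ b, E b B ∧ Val E h x b ∧ ∀ z, E z X → Val E h z b → E z U) : E U τ := by
  obtain ⟨S, hS⟩ := sep hE (ρ := fun V => Sub E V U) ⟨fSub 0 1, vv U [U], by intro x; simp⟩ τ
  obtain ⟨u, hu⟩ := hE.union S
  have hu' : E u τ := h1.top.2.2.1 S u (fun V hV => ((hS V).1 hV).1) hu
  have e : u = U := by
    refine hE.ext u U fun z => ⟨fun hz => ?_, fun hz => ?_⟩
    · obtain ⟨V, hV, hz'⟩ := (hu z).1 hz
      exact ((hS V).1 hV).2 z hz'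
    · obtain ⟨b, hb, hzb, hbU⟩ := h z hz
      obtain ⟨V, hV, hVb⟩ := h1.opn b hb
      refine (hu z).2 ⟨V, (hS V).2 ⟨hV, fun y hy => ?_⟩, (hVb z (hU z hz)).2 hzb⟩
      have hyX : E y X := h1.top.1 V hV y hy
      exact hbU y hyX ((hVb y hyX).1 hy)
  rwa [← e]

theorem Pres.im (hE : ZFC E) (h1 : Pres E X B h τ) (h2 : Pres E Y D m σ) :
    RNT.IsIm E X τ Y σ ↔ RNC.IsIm E X B h Y D m := by
  constructor
  · rintro ⟨g, hg, hgY, hon, hO⟩
    refine ⟨g, ⟨hg, hgY, fun x y c hv hc hm => ?_⟩, hon⟩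
    obtain ⟨O, hOs, hOy⟩ := h2.opn c hc
    obtain ⟨U, hU, hUx⟩ := hO O hOs
    obtain ⟨b, hb, hxb, hbU⟩ := h1.bas U x hU ((hUx x).2 ⟨y, (hOy y (hgY x y hv)).2 hm, hv⟩)
    refine ⟨b, hb, hxb, fun x' y' hx' hb' hv' => ?_⟩
    obtain ⟨y2, hy2, hv2⟩ := (hUx x').1 (hbU x' hx' hb')
    obtain rfl := hg.2.2 x' y2 y' hv2 hv'
    exact (hOy y2 (hgY x' y2 hv2)).1 hy2
  · rintro ⟨g, ⟨hg, hgY, hcm⟩, hon⟩
    refine ⟨g, hg, hgY, hon, fun O hO => ?_⟩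
    obtain ⟨U, hU⟩ := sep hE (ρ := fun x => ∃ y, E y O ∧ Val E g x y)
      ⟨ex (an (.mem 0 2) (fVal 3 1 0)), vv O [O, g], by intro x; simp⟩ X
    have hU' : ∀ x, E x U ↔ ∃ y, E y O ∧ Val E g x y := fun x => by
      rw [hU]
      refine and_iff_right_of_imp ?_
      rintro ⟨y, -, hy⟩
      exact IsFun.dom hE hg hy
    refine ⟨U, h1.opn_of hE (fun x hx => ((hU x).1 hx).1) fun x hx => ?_, hU'⟩
    obtain ⟨y, hy, hv⟩ := (hU' x).1 hx
    obtain ⟨c, hc, hyc, hcO⟩ := h2.bas O y hO hy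
    obtain ⟨b, hb, hxb, hbc⟩ := hcm x y c hv hc hyc
    refine ⟨b, hb, hxb, fun z hz hzb => (hU' z).2 ?_⟩
    obtain ⟨y', hy'⟩ := hg.2.1 z hz
    exact ⟨y', hcO y' (hgY z y' hy') (hbc z y' hz hzb hy'), hy'⟩

theorem im_cpt (hE : ZFC E) (h1 : CCpt E X B h) (h2 : RNC.IsIm E X B h Y D m) :
    CCpt E Y D m := by
  obtain ⟨g, ⟨hg, hgY, hcm⟩, hon⟩ := h2
  intro O hO hcov
  obtain ⟨O1, hO1⟩ := sep hE (ρ := fun b => ∃ c, E c O ∧ ∀ x' y', E x' X → Val E h x' b →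
      Val E g x' y' → Val E m y' c)
    ⟨ex (an (.mem 0 2) (.all (.all (.imp (.mem 1 5) (.imp (fVal 6 1 3)
      (.imp (fVal 7 1 0) (fVal 8 0 2))))))), vv O [O, X, h, g, m], by intro x; simp⟩ B
  obtain ⟨O2, hs, hf, hc2⟩ := h1 O1 (fun b hb => ((hO1 b).1 hb).1) fun x hx => by
    obtain ⟨y, hy⟩ := hg.2.1 x hx
    obtain ⟨c, hc, hyc⟩ := hcov y (hgY x y hy)
    obtain ⟨b, hb, hxb, hbc⟩ := hcm x y c hy (hO c hc) hyc
    exact ⟨b, (hO1 b).2 ⟨hb, c, hc, hbc⟩, hxb⟩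
  obtain ⟨S, hS, hSf, hSc⟩ := choose_fin hE (ρ := fun b c => ∀ x' y', E x' X → Val E h x' b →
      Val E g x' y' → Val E m y' c)
    ⟨.all (.all (.imp (.mem 1 4) (.imp (fVal 5 1 2) (.imp (fVal 6 1 0) (fVal 7 0 3))))),
      vv O [X, h, g, m], by intro x y; simp⟩ (O := O2) (S := O) hf fun b hb => by
        obtain ⟨-, c, hc⟩ := (hO1 b).1 (hs b hb)
        exact ⟨c, hc⟩
  refine ⟨S, hS, hSf, fun y hy => ?_⟩
  obtain ⟨x, hx⟩ := hon y hy
  have hxX : E x X := IsFun.dom hE hg hx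
  obtain ⟨b, hb, hxb⟩ := hc2 x hxX
  obtain ⟨c, hc, hbc⟩ := hSc b hb
  exact ⟨c, hc, hbc x y hxX hxb hx⟩

theorem wt_of_sm (hE : ZFC E) (h1 : Pres E Y D m σ) (h2 : RNC.IsSm E R D) :
    RNT.WtC E R Y σ := by
  obtain ⟨f0, hf0, hf0'⟩ := h2
  obtain ⟨B, hB⟩ := sep hE (ρ := fun U => ∃ d, E d D ∧ ∀ y, E y Y → (E y U ↔ Val E m y d))
    ⟨ex (an (.mem 0 2) (.all (.imp (.mem 0 4) (iff (.mem 0 2) (fVal 5 0 1))))), vv D [D, Y, m],
      by intro x; simp⟩ σ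
  obtain ⟨f, -, hf⟩ := exists_rel hE (ρ := fun r U => ∃ d, Val E f0 r d ∧ E d D ∧
      ∀ y, E y Y → (E y U ↔ Val E m y d))
    ⟨ex (an (fVal 3 1 0) (an (.mem 0 4) (.all (.imp (.mem 0 6) (iff (.mem 0 3)
      (fVal 7 0 1)))))), vv D [f0, D, Y, m], by intro x y; simp⟩ R B
  refine ⟨B, f, fun U hU => ((hB U).1 hU).1, fun O y hO hy => ?_, fun r b b' hb hb' => ?_,
    fun b hb => ?_⟩
  · obtain ⟨d, hd, hyd, hdO⟩ := h1.bas O y hO hy
    obtain ⟨U, hU, hUd⟩ := h1.opn d hd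
    refine ⟨U, (hB U).2 ⟨hU, d, hd, hUd⟩, (hUd y (h1.top.1 O hO y hy)).2 hyd, fun z hz => ?_⟩
    have hzY : E z Y := h1.top.1 U hU z hz
    exact hdO z hzY ((hUd z hzY).1 hz)
  · obtain ⟨-, hbB, d, hd, -, hbd⟩ := (hf r b).1 hb
    obtain ⟨-, hbB', d', hd', -, hbd'⟩ := (hf r b').1 hb'
    obtain rfl := hf0.2.2 r d d' hd hd'
    refine hE.ext b b' fun z => ⟨fun hz => ?_, fun hz => ?_⟩
    · have hzY : E z Y := h1.top.1 b ((hB b).1 hbB).1 z hz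
      exact (hbd' z hzY).2 ((hbd z hzY).1 hz)
    · have hzY : E z Y := h1.top.1 b' ((hB b').1 hbB').1 z hz
      exact (hbd z hzY).2 ((hbd' z hzY).1 hz)
  · obtain ⟨-, d, hd, hbd⟩ := (hB b).1 hb
    obtain ⟨r, hr⟩ := hf0' d hd
    have hrR : E r R := IsFun.dom hE hf0 hr
    exact ⟨r, hrR, (hf r b).2 ⟨hrR, hb, d, hr, hd, hbd⟩⟩

theorem sm_of_wt (hE : ZFC E) {B f : N} (h : ∀ r b b', Val E f r b → Val E f r b' → b = b')
    (h' : ∀ b, E b B → ∃ r, E r R ∧ Val E f r b) : RNC.IsSm E R B := by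
  by_cases hB : ∃ b0, E b0 B
  · obtain ⟨b0, hb0⟩ := hB
    obtain ⟨f', hf', hf''⟩ := exists_fun hE (ρ := fun r b => (E b B ∧ Val E f r b) ∨
        ((¬ ∃ b', E b' B ∧ Val E f r b') ∧ b = b0))
      ⟨or (an (.mem 1 2) (fVal 3 0 1)) (an (no (ex (an (.mem 0 3) (fVal 4 1 0)))) (.eq 1 4)),
        vv B [B, f, b0], by intro x y; simp⟩ R fun r hr => by
          by_cases hr' : ∃ b', E b' B ∧ Val E f r b'
          · obtain ⟨b, hb, hrb⟩ := hr'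
            refine ⟨b, Or.inl ⟨hb, hrb⟩, ?_⟩
            rintro b2 (⟨-, h2⟩ | ⟨h2, -⟩)
            · exact h r b2 b h2 hrb
            · exact absurd ⟨b, hb, hrb⟩ h2
          · refine ⟨b0, Or.inr ⟨hr', rfl⟩, ?_⟩
            rintro b2 (⟨h2, h3⟩ | ⟨-, h2⟩)
            · exact absurd ⟨b2, h2, h3⟩ hr'
            · exact h2
    refine ⟨f', hf', fun b hb => ?_⟩
    obtain ⟨r, hr, hrb⟩ := h' b hb
    exact ⟨r, (hf'' r b).2 ⟨hr, Or.inl ⟨hb, hrb⟩⟩⟩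
  · obtain ⟨i, hi, -⟩ := exists_id hE R
    exact ⟨i, hi.1, fun b hb => absurd ⟨b, hb⟩ hB⟩

end RNP
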