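import Pool.Agent.RNP.CvA
import Pool.Agent.RNP.CvB
import Pool.Agent.RNP.CvC
import Pool.Agent.RNP.CvE

/-! # Conversion of the final statements (package V05)

(problem MP_9bfcae_gt, conversion; everything happens in an arbitrary `(N, E)` with `ZFC E`) -/

set_option autoImplicit false

universe v

namespace RNP

open STP CPI

variable {N : Type v} {E : N → N → Prop}

theorem pos_conv (hE : ZFC E) (h : PosRN E) : RNT.RefRN E := by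
  obtain ⟨R, l, a, o, hR, h⟩ := h
  obtain ⟨s, hs⟩ := exists_rga hE hR
  refine ⟨R, l, s, hs.rg, fun X τ hX hY => ?_⟩
  obtain ⟨top, hd, cpt⟩ := hX
  obtain ⟨m, P⟩ := pres_of_base hE top (B := τ) (fun _ h => h)
    fun O y hO hy => ⟨O, hO, hy, fun _ h => h⟩
  have hc := (P.cpt hE).1 cpt
  refine (P.rn hE hs).2 (h X τ m (P.sp hE) ((P.hd hE).1 hd) hc fun Y D m' h1 h2 h3 h4 => ?_)
  obtain ⟨σ, Q⟩ := pres_of_sp hE h1
  exact (Q.rn hE hs).1 (hY Y σ ⟨Q.top, (Q.hd hE).2 h2, (Q.cpt hE).2 (im_cpt hE hc h3)⟩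
    ((P.im hE Q).2 h3) (wt_of_sm hE Q h4))

theorem neg_conv (hE : ZFC E) (h : RNC.NegRN E) : RNT.NonRefRN E := by
  obtain ⟨R, l, a, o, X, B, h, Z, C, k, hR, -, x1, x2, x3, z1, z2, z3, hrn, him, hnot, hall⟩ := h
  obtain ⟨s, hs⟩ := exists_rga hE hR
  obtain ⟨τ, P⟩ := pres_of_sp hE x1
  obtain ⟨ρ, Q⟩ := pres_of_sp hE z1
  refine ⟨R, l, s, hs.rg, X, τ, Z, ρ, ⟨P.top, (P.hd hE).2 x2, (P.cpt hE).2 x3⟩,
    ⟨Q.top, (Q.hd hE).2 z2, (Q.cpt hE).2 z3⟩, (Q.rn hE hs).2 hrn, (Q.im hE P).2 him,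
    fun Y σ hY hYi hw => ?_, fun h' => hnot ((P.rn hE hs).1 h')⟩
  obtain ⟨B', f, hB, hb, hf, hf'⟩ := hw
  obtain ⟨m, S⟩ := pres_of_base hE hY.1 hB hb
  exact (S.rn hE hs).2 (hall Y B' m (S.sp hE) ((S.hd hE).1 hY.2.1) ((P.im hE S).1 hYi)
    (sm_of_wt hE hf hf'))

end RNP
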