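import Pool.Agent.RNP.Tr0
import Pool.Agent.RVI.FdA
import Pool.Agent.RVI.Alg1

/-! # Forcing and almost everywhere (package W01)

(problem MP_9bfcae_gt, Part II)

`F p S` (file `CPI/BTv.lean`): `S` is true in all quotients `NG G` with `RO.up p ∈ G.s`; for statements
with a truth value (class `TV`) this means `p ∈ tv S` (`F.iff_mem`), `tv S = cl μ (rp (tv S))` (`RVI.cl_rp`), and
`p ∈ cl μ A ↔ μ (p.1 \ A) = 0` (`RVI.mem_cl`, `RVI.mem_cl_ae`) for measurable `A`.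
* `ts_meas`: `rp_meas`. `F_ts`: as above. `F_imp_ts`: `F.imp` and `F_ts`: if it is forced, then the condition
  `(p ∩ ts S) \ ts T`, if it had positive measure, would force `S` and so `T`; conversely trivial. `F_not_ts`: `F.no`.
  (Or compute the truth value: `RVI.cl_himp`, `cl_compl`.) `F_of_cl`: `F.of_val` and `mem_cl_ae`.
* `cd_le`, `sub_of_cd`: inclusions. `on_cd`, `on_of_le`: `ae_restrict_iff'` (for the measurable set `p.1`) and `ω ∈ r.1 → ω ∈ p.1`.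
  `pos_of_le`: `Measure.restrict_apply`.
* `F_lt`, `F_nlt`, `F_eqr`: `RVI.nr_lt`, `RVI.nr_eq` and `F_of_cl`, `F_not_ts`.
* `F_all_al`: `→`: `RVI.al_mem`; `←`: `F.all`, `F.imp`, `RVI.elim_st`, `F.subst`. `F_ex_al`: `F.ex` and `RVI.elim_st`-like decision
  (`F.mem`, `RVI.mem_st`, `RO.mem_iSup`, compare `CPI.F.esn` in `CPI/BNam.lean`). `F_ex_full`: `F.ex` gives a name `X` with
  `F p (X ∈ al nm)` and `F p (S X)`; `Full` gives `a` with `mem X (al nm) ≤ eq X (nm a)`; `F.subst`. -/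

set_option autoImplicit false

namespace RNP

open MeasureTheory STP STP.BSet RVI
open CPI (F TV tv kn)

section

variable {Ω : Type} [MeasurableSpace Ω] {μ : Measure Ω} [IsProbabilityMeasure μ] {p r : Ps μ}
  {S T : Ult (RO (Ps μ)) → Prop}

theorem ts_meas (S : Ult (RO (Ps μ)) → Prop) [TV S] : MeasurableSet (ts S) :=
  rp_meas (tv S)

private theorem of_cl {A : Set Ω} (hA : MeasurableSet A) (h : ∀ G, S G ↔ cl μ A ∈ G.s) :
    F p S ↔ ∀ᵐ ω ∂μ, ω ∈ p.1 → ω ∈ A :=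
  (F.of_val h).trans (mem_cl_ae hA.nullMeasurableSet)

private theorem iff_ts [TV S] (G : Ult (RO (Ps μ))) : S G ↔ cl μ (ts S) ∈ G.s := by
  rw [ts, cl_rp]
  exact CPI.tv_iff

theorem F_ts [TV S] : F p S ↔ ∀ᵐ ω ∂μ, ω ∈ p.1 → ω ∈ ts S :=
  of_cl (ts_meas S) iff_ts

theorem F_imp_ts [TV S] [TV T] :
    F p (fun G => S G → T G) ↔ ∀ᵐ ω ∂μ, ω ∈ p.1 → ω ∈ ts S → ω ∈ ts T := by
  refine (of_cl (A := (ts S)ᶜ ∪ ts T) ((ts_meas S).compl.union (ts_meas T)) fun G => ?_).trans ?_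
  · rw [cl_himp (ts_meas S).nullMeasurableSet (ts_meas T).nullMeasurableSet, CPI.himp_mem,
      ← iff_ts (S := S), ← iff_ts (S := T)]
  · have h : ∀ ω, (ω ∈ p.1 → ω ∈ (ts S)ᶜ ∪ ts T) ↔ (ω ∈ p.1 → ω ∈ ts S → ω ∈ ts T) := by
      intro ω
      rw [Set.mem_union, Set.mem_compl_iff]
      tauto
    simp only [h]

theorem F_not_ts [TV S] : F p (fun G => ¬ S G) ↔ ∀ᵐ ω ∂μ, ω ∈ p.1 → ω ∉ ts S := by
  refine of_cl (A := (ts S)ᶜ) (ts_meas S).compl fun G => ?_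
  rw [cl_compl (ts_meas S).nullMeasurableSet, CPI.compl_mem, ← iff_ts (S := S)]

theorem F_of_cl {A : Set Ω} (hA : MeasurableSet A) (h : ∀ G, S G ↔ cl μ A ∈ G.s) :
    F p S ↔ ∀ᵐ ω ∂μ, ω ∈ p.1 → ω ∈ A := of_cl hA h

theorem cd_le {q : Set Ω} (hq : Pos (nu p) q) : cd hq ≤ p :=
  Ps.le_def.2 Set.inter_subset_right

theorem on_cd {q : Set Ω} (hq : Pos (nu p) q) {A : Ω → Prop} :
    (∀ᵐ ω ∂μ, ω ∈ (cd hq).1 → A ω) ↔ On (nu p) q A := by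
  rw [On, nu, ae_restrict_iff' p.2.1]
  have h : ∀ ω, (ω ∈ (cd hq).1 → A ω) ↔ (ω ∈ p.1 → ω ∈ q → A ω) := by
    intro ω
    have h1 : ω ∈ (cd hq).1 ↔ ω ∈ q ∧ ω ∈ p.1 := Iff.rfl
    rw [h1]
    tauto
  simp only [h]

theorem pos_of_le (h : r ≤ p) : Pos (nu p) r.1 := by
  refine ⟨r.2.1, ?_⟩
  rw [nu, Measure.restrict_apply r.2.1, Set.inter_eq_left.2 (Ps.le_def.1 h)]
  exact r.2.2.ne'

theorem on_of_le (h : r ≤ p) {A : Ω → Prop} :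
    On (nu p) r.1 A ↔ ∀ᵐ ω ∂μ, ω ∈ r.1 → A ω := by
  rw [On, nu, ae_restrict_iff' p.2.1]
  have h' : ∀ ω, (ω ∈ p.1 → ω ∈ r.1 → A ω) ↔ (ω ∈ r.1 → A ω) :=
    fun ω => ⟨fun h1 h2 => h1 (Ps.le_def.1 h h2) h2, fun h1 _ h2 => h1 h2⟩
  simp only [h']

theorem sub_of_cd {q : Set Ω} {hq : Pos (nu p) q} (h : r ≤ cd hq) : r.1 ⊆ q :=
  (Ps.le_def.1 h).trans Set.inter_subset_left

theorem F_lt {f g : RR Ω} :
    F p (fun G => Val (EG G) (NG.mk G (lN μ)) (NG.mk G (nr μ f)) (NG.mk G (nr μ g))) ↔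
      ∀ᵐ ω ∂μ, ω ∈ p.1 → f.1 ω < g.1 ω :=
  of_cl (A := {ω | f.1 ω < g.1 ω}) (measurableSet_lt f.2 g.2) fun G => nr_lt G

theorem F_nlt {f g : RR Ω} :
    F p (fun G => ¬ Val (EG G) (NG.mk G (lN μ)) (NG.mk G (nr μ f)) (NG.mk G (nr μ g))) ↔
      ∀ᵐ ω ∂μ, ω ∈ p.1 → g.1 ω ≤ f.1 ω := by
  refine (of_cl (A := {ω | f.1 ω < g.1 ω}ᶜ) (measurableSet_lt f.2 g.2).compl fun G => ?_).trans ?_
  · rw [nr_lt, cl_compl (measurableSet_lt f.2 g.2).nullMeasurableSet, CPI.compl_mem]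
  · have h : ∀ ω, ω ∈ ({ω | f.1 ω < g.1 ω}ᶜ : Set Ω) ↔ g.1 ω ≤ f.1 ω := fun ω => by
      rw [Set.mem_compl_iff, Set.mem_setOf_eq, not_lt]
    simp only [h]

theorem F_eqr {f g : RR Ω} : F p (fun G => NG.mk G (nr μ f) = NG.mk G (nr μ g)) ↔
    ∀ᵐ ω ∂μ, ω ∈ p.1 → f.1 ω = g.1 ω :=
  of_cl (A := {ω | f.1 ω = g.1 ω}) (measurableSet_eq_fun f.2 g.2) fun G => nr_eq G

end

section

variable {P : Type} [PartialOrder P] {A : Type} {nm : A → BSet (RO P)} {p : P}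
  {S : (G : Ult (RO P)) → NG G → Prop} [∀ X, TV fun G => S G (NG.mk G X)]

theorem F_all_al : F p (fun G => ∀ x, EG G x (NG.mk G (al nm)) → S G x) ↔
    ∀ a, F p fun G => S G (NG.mk G (nm a)) := by
  constructor
  · intro h a G hG
    exact h G hG _ (al_mem nm G a)
  · intro h
    refine F.all.2 fun X => F.imp.2 fun q hq h1 => ?_
    exact elim_st (nm := nm) (φ := fun _ => ⊤) h1 fun r hr a _ he =>
      F.subst (S := S) he ((h a).mono (hr.trans hq))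

theorem F_ex_al : F p (fun G => ∃ x, EG G x (NG.mk G (al nm)) ∧ S G x) ↔
    ∀ q ≤ p, ∃ r ≤ q, ∃ a, F r fun G => S G (NG.mk G (nm a)) := by
  constructor
  · intro h q hq
    obtain ⟨X, hX⟩ := F.ex.1 h
    obtain ⟨h1, h2⟩ := F.and.1 hX
    have h3 : p ∈ BSet.mem X (st nm fun _ => ⊤) := F.mem.1 h1
    rw [mem_st, RO.mem_iSup] at h3
    obtain ⟨r, hr, a, _, h4⟩ := h3 q hq
    have h5 := F.eq.2 h4
    exact ⟨r, hr, a, F.subst (S := S) (fun G hG => (h5 G hG).symm) (h2.mono (hr.trans hq))⟩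
  · intro h
    refine F.loc fun q hq => ?_
    obtain ⟨r, hr, a, h1⟩ := h q hq
    exact ⟨r, hr, fun G hG => ⟨_, al_mem nm G a, h1 G hG⟩⟩

theorem F_ex_full (h : Full nm) (h' : F p fun G => ∃ x, EG G x (NG.mk G (al nm)) ∧ S G x) :
    ∃ a, F p fun G => S G (NG.mk G (nm a)) := by
  obtain ⟨X, hX⟩ := F.ex.1 h'
  obtain ⟨h1, h2⟩ := F.and.1 hX
  obtain ⟨a, ha⟩ := h X
  refine ⟨a, F.subst (S := S) (fun G hG => ?_) h2⟩
  exact (NG.mk_eq.2 (G.up (EG_mk.1 (h1 G hG)) ha)).symm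

end

end RNP
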