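import Pool.Agent.RNP.ImA
import Pool.Agent.RNP.Fr

/-! # The metric of an image space: first part (package W15)

(problem MP_9bfcae_gt, Part II)

`IsDd a dN dd`: `dN` is a name of a lower semicontinuous fragmenting metric on the image space, and `dd x y` is a random
variable which names the distance of the images of `x` and `y`.
* `exists_dd`: `F.ex` for the metric; for every `x`, `y` the conjunct `CPI.CEv` of `IsMet` gives a value in `R = al (nr μ)`; `F_ex_full` with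
  `RVI.full_nr` gives a random variable (`RVI.al_mem` for `mq a x ∈ al (mq a)`).
* The statements on `dd` follow from the conjuncts of `RNC.IsMet` (at the names `mq a x`, ..., `nr μ (dd x y)`), `F_lt`, `F_nlt`, `F_eqr`, and the uniqueness of values
  (`CPI.CEv`, second part). `dd_zero`: if `q ∈ ec a x y` then `q` forces `mq a x = mq a y` (`eq_mq`, `F.eq`), so `t = o`. `dd_sep`: let
  `A := {ω ∈ p | dd x y ω = 0, f x ω ≠ f y ω}`; if its measure were positive it would be a condition which forces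
  `nr (dd x y) = o`, so `mq a x = mq a y`, so it is in `ec a x y` and `f x = f y` almost everywhere on it. `dd_nonneg`: `¬ Val l t o`.
  `dd_tri`: the last conjunct with `w = nr (addR (dd x y) (dd y z))` (`RVI.nr_add`), `¬ Val l w u`. -/

set_option autoImplicit false

namespace RNP

open MeasureTheory STP STP.BSet RVI
open CPI (F TV tv kn)

variable {Ω : Type} [MeasurableSpace Ω] {μ : Measure Ω} [IsProbabilityMeasure μ] {X T : Type}
  {p : Ps μ} {S : BSp (nu p) X T}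

/-- `dN` is a name of a metric on the image space, `dd x y` is the distance of the images of the
points `x` and `y` -/
structure IsDd (a : Set (CF S)) (dN : BSet (RO (Ps μ))) (dd : X → X → RR Ω) : Prop where
  met : F p fun G => RNC.IsMet (EG G) (NG.mk G (RVI.RN μ)) (NG.mk G (RVI.lN μ))
    (NG.mk G (RVI.sN μ)) (NG.mk G (nr μ (cR 0))) (NG.mk G (al (mq a))) (NG.mk G dN)
  lsc : F p fun G => RNC.IsLsc (EG G) (NG.mk G (RVI.RN μ)) (NG.mk G (RVI.lN μ))
    (NG.mk G (al (mq a))) (NG.mk G (al (kb a))) (NG.mk G (mr a)) (NG.mk G dN)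
  frg : F p fun G => RNC.IsFrg (EG G) (NG.mk G (RVI.RN μ)) (NG.mk G (RVI.lN μ))
    (NG.mk G (nr μ (cR 0))) (NG.mk G (al (mq a))) (NG.mk G (al (kb a))) (NG.mk G (mr a))
    (NG.mk G dN)
  ap : ∀ x y, F p fun G => CPI.Ap (EG G) (NG.mk G dN) (NG.mk G (mq a x)) (NG.mk G (mq a y))
    (NG.mk G (nr μ (dd x y)))

theorem exists_dd (a : Set (CF S))
    (h : F p fun G => RNC.IsRN (EG G) (NG.mk G (RVI.RN μ)) (NG.mk G (RVI.lN μ))
      (NG.mk G (RVI.sN μ)) (NG.mk G (nr μ (cR 0))) (NG.mk G (al (mq a))) (NG.mk G (al (kb a)))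
      (NG.mk G (mr a))) : ∃ dN dd, IsDd a dN dd := by
  obtain ⟨dN, hd⟩ := (F.ex (S := fun G d =>
    RNC.IsMet (EG G) (NG.mk G (RVI.RN μ)) (NG.mk G (RVI.lN μ)) (NG.mk G (RVI.sN μ))
      (NG.mk G (nr μ (cR 0))) (NG.mk G (al (mq a))) d ∧
    RNC.IsLsc (EG G) (NG.mk G (RVI.RN μ)) (NG.mk G (RVI.lN μ)) (NG.mk G (al (mq a)))
      (NG.mk G (al (kb a))) (NG.mk G (mr a)) d ∧
    RNC.IsFrg (EG G) (NG.mk G (RVI.RN μ)) (NG.mk G (RVI.lN μ)) (NG.mk G (nr μ (cR 0)))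
      (NG.mk G (al (mq a))) (NG.mk G (al (kb a))) (NG.mk G (mr a)) d)).1 h
  have key : ∀ x y, ∃ f : RR Ω, F p fun G => CPI.Ap (EG G) (NG.mk G dN) (NG.mk G (mq a x))
      (NG.mk G (mq a y)) (NG.mk G (nr μ f)) := by
    intro x y
    refine F_ex_full (S := fun G t => CPI.Ap (EG G) (NG.mk G dN) (NG.mk G (mq a x))
      (NG.mk G (mq a y)) t) full_nr fun G hG => ?_
    exact (hd G hG).1.1.1 _ _ (RVI.al_mem (mq a) G x) (RVI.al_mem (mq a) G y)
  choose dd hdd using key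
  exact ⟨dN, dd, fun G hG => (hd G hG).1, fun G hG => (hd G hG).2.1,
    fun G hG => (hd G hG).2.2, hdd⟩

variable {a : Set (CF S)} {dN : BSet (RO (Ps μ))} {dd : X → X → RR Ω}

theorem dd_zero (hd : IsDd a dN dd) (x y : X) {q : Ps μ} (hq : q ≤ p) (h : q ∈ ec a x y) :
    ∀ᵐ ω ∂μ, ω ∈ q.1 → (dd x y).1 ω = 0 := by
  have h1 : F q fun G => NG.mk G (mq a x) = NG.mk G (mq a y) := by
    rw [F.eq, eq_mq]
    exact h
  have h2 : F q fun G => NG.mk G (nr μ (dd x y)) = NG.mk G (nr μ (cR 0)) := fun G hG =>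
    ((hd.met.mono hq G hG).2.1 _ _ _ (RVI.al_mem (mq a) G x) (RVI.al_mem (mq a) G y)
      ((hd.ap x y).mono hq G hG)).2.1.2 (h1 G hG)
  exact F_eqr.1 h2

theorem dd_sep (hd : IsDd a dN dd) {f : CF S} (hf : f ∈ a) (x y : X) :
    ∀ᵐ ω ∂nu p, (dd x y).1 ω = 0 → f.f x ω = f.f y ω := by
  rw [ae_restrict_iff' p.2.1]
  have hE : MeasurableSet {ω | f.f x ω = f.f y ω} := measurableSet_eq_fun (f.meas x) (f.meas y)
  have hD : MeasurableSet {ω | (dd x y).1 ω = 0} :=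
    measurableSet_eq_fun (dd x y).2 measurable_const
  have hA : MeasurableSet (p.1 ∩ {ω | (dd x y).1 ω = 0} ∩ {ω | f.f x ω = f.f y ω}ᶜ) :=
    (p.2.1.inter hD).inter hE.compl
  by_cases h0 : μ (p.1 ∩ {ω | (dd x y).1 ω = 0} ∩ {ω | f.f x ω = f.f y ω}ᶜ) = 0
  · filter_upwards [measure_eq_zero_iff_ae_notMem.1 h0] with ω h1 h2 h3
    by_contra h4
    exact h1 ⟨⟨h2, h3⟩, h4⟩
  · exfalso
    let r : Ps μ := ⟨_, hA, pos_iff_ne_zero.2 h0⟩
    have hr : r ≤ p := fun ω hω => hω.1.1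
    have h1 : F r fun G => NG.mk G (nr μ (dd x y)) = NG.mk G (nr μ (cR 0)) :=
      F_eqr.2 (Filter.Eventually.of_forall fun ω hω => hω.1.2)
    have h2 : F r fun G => NG.mk G (mq a x) = NG.mk G (mq a y) := fun G hG =>
      ((hd.met.mono hr G hG).2.1 _ _ _ (RVI.al_mem (mq a) G x) (RVI.al_mem (mq a) G y)
        ((hd.ap x y).mono hr G hG)).2.1.1 (h1 G hG)
    rw [F.eq, eq_mq] at h2
    have h3 : r ∈ cl μ {ω | ω ∈ p.1 → f.f x ω = f.f y ω} := RO.mem_iInf.1 h2 ⟨f, hf⟩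
    have hM : MeasurableSet {ω | ω ∈ p.1 → f.f x ω = f.f y ω} := by
      have : {ω | ω ∈ p.1 → f.f x ω = f.f y ω} = p.1ᶜ ∪ {ω | f.f x ω = f.f y ω} := by
        ext ω
        exact imp_iff_not_or
      rw [this]
      exact p.2.1.compl.union hE
    rw [mem_cl hM.nullMeasurableSet] at h3
    have h5 : p.1 ∩ {ω | (dd x y).1 ω = 0} ∩ {ω | f.f x ω = f.f y ω}ᶜ ⊆
        r.1 \ {ω | ω ∈ p.1 → f.f x ω = f.f y ω} :=
      fun ω hω => ⟨hω, fun h4 => hω.2 (h4 hω.1.1)⟩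
    exact h0 (measure_mono_null h5 h3)

theorem dd_nonneg (hd : IsDd a dN dd) (x y : X) : ∀ᵐ ω ∂nu p, 0 ≤ (dd x y).1 ω := by
  rw [ae_restrict_iff' p.2.1]
  have h : F p fun G => ¬ Val (EG G) (NG.mk G (lN μ)) (NG.mk G (nr μ (dd x y)))
      (NG.mk G (nr μ (cR 0))) := fun G hG =>
    ((hd.met G hG).2.1 _ _ _ (RVI.al_mem (mq a) G x) (RVI.al_mem (mq a) G y)
      (hd.ap x y G hG)).1
  exact F_nlt.1 h

theorem dd_symm (hd : IsDd a dN dd) (x y : X) : ∀ᵐ ω ∂nu p, (dd x y).1 ω = (dd y x).1 ω := by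
  rw [ae_restrict_iff' p.2.1]
  have h : F p fun G => NG.mk G (nr μ (dd x y)) = NG.mk G (nr μ (dd y x)) := by
    intro G hG
    have hx := RVI.al_mem (mq a) G x
    have hy := RVI.al_mem (mq a) G y
    exact (hd.met G hG).1.2 _ _ _ _ hy hx
      ((hd.met G hG).2.1 _ _ _ hx hy (hd.ap x y G hG)).2.2 (hd.ap y x G hG)
  exact F_eqr.1 h

theorem dd_tri (hd : IsDd a dN dd) (x y z : X) :
    ∀ᵐ ω ∂nu p, (dd x z).1 ω ≤ (dd x y).1 ω + (dd y z).1 ω := by
  rw [ae_restrict_iff' p.2.1]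
  have h : F p fun G => ¬ Val (EG G) (NG.mk G (lN μ)) (NG.mk G (nr μ (addR (dd x y) (dd y z))))
      (NG.mk G (nr μ (dd x z))) := by
    intro G hG
    exact (hd.met G hG).2.2 _ _ _ _ _ _ _ (RVI.al_mem (mq a) G x) (RVI.al_mem (mq a) G y)
      (RVI.al_mem (mq a) G z) (hd.ap x y G hG) (hd.ap y z G hG) (hd.ap x z G hG)
      ((RVI.nr_add G).2 rfl)
  exact F_nlt.1 h

end RNP
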