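import Pool.Agent.RNP.DdA

/-! # The metric of an image space: lower semicontinuity (package W16)

(problem MP_9bfcae_gt, Part II)

Let `r < dd x y` on `q`. The condition `q' := cd hq` forces `Val l (nr (cR r)) (nr (dd x y))` (`F_lt`), so by `hd.lsc` (at the names
`mq a x`, `mq a y`, `nr (dd x y)`, `nr (cR r)`; `hd.ap`) it forces that there are `b, c ∈ al (kb a)` with `Val m (mq a x) b`, `Val m (mq a y) c` and for all points
`x'`, `y'` and all `s`: `Val m x' b → Val m y' c → Ap d x' y' s → Val l r s`. By `F_ex_al` (twice) some `q1 ≤ q'` decides `b = kb a e`, `c = kb a e'`. By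
`mr_val` and `RVI.mem_cl_ae`: `ω ∈ bx e x`, `ω ∈ bx e' y` almost everywhere on `q1`. Let `x'`, `y'` be given. If the set
`A := {ω ∈ q1 | ω ∈ bx e x', ω ∈ bx e' y', dd x' y' ω ≤ r}` had positive measure, it would be a condition `≤ q1` which forces
`Val m (mq a x') (kb a e)`, `Val m (mq a y') (kb a e')`, so (`s = nr (dd x' y')`) `Val l (nr (cR r)) (nr (dd x' y'))`, so `r < dd x' y'` almost
everywhere on `A`: contradiction. The resulting set is `q1.1 ⊆ q` (`sub_of_cd`, `pos_of_le`, `on_of_le`). -/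

set_option autoImplicit false

namespace RNP

open MeasureTheory STP STP.BSet RVI
open CPI (F TV tv kn)

variable {Ω : Type} [MeasurableSpace Ω] {μ : Measure Ω} [IsProbabilityMeasure μ] {X T : Type}
  {p : Ps μ} {S : BSp (nu p) X T} {a : Set (CF S)} {dN : BSet (RO (Ps μ))}
  {dd : X → X → RR Ω}

theorem dd_lsc (hd : IsDd a dN dd) (x y : X) (r : ℝ) {q : Set Ω} (hq : Pos (nu p) q)
    (h : On (nu p) q fun ω => r < (dd x y).1 ω) :
    ∃ q1 ⊆ q, Pos (nu p) q1 ∧ ∃ e e' : Ea a,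
      On (nu p) q1 (fun ω => ω ∈ bx e.1 x ∧ ω ∈ bx e'.1 y) ∧
      ∀ x' y', On (nu p) q1 fun ω => ω ∈ bx e.1 x' → ω ∈ bx e'.1 y' → r < (dd x' y').1 ω := by
  have h1 : F (cd hq) fun G => Val (EG G) (NG.mk G (lN μ)) (NG.mk G (nr μ (cR r)))
      (NG.mk G (nr μ (dd x y))) := F_lt.2 ((on_cd hq).2 h)
  have h2 : F (cd hq) fun G => ∃ b, EG G b (NG.mk G (al (kb a))) ∧
      ∃ c, EG G c (NG.mk G (al (kb a))) ∧
        (Val (EG G) (NG.mk G (mr a)) (NG.mk G (mq a x)) b ∧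
          Val (EG G) (NG.mk G (mr a)) (NG.mk G (mq a y)) c ∧
          ∀ x' y' s, EG G x' (NG.mk G (al (mq a))) → EG G y' (NG.mk G (al (mq a))) →
            Val (EG G) (NG.mk G (mr a)) x' b → Val (EG G) (NG.mk G (mr a)) y' c →
            CPI.Ap (EG G) (NG.mk G dN) x' y' s →
            Val (EG G) (NG.mk G (lN μ)) (NG.mk G (nr μ (cR r))) s) := by
    intro G hG
    obtain ⟨b, c, hb, hc, h3, h4, h5⟩ := hd.lsc.mono (cd_le hq) G hG (NG.mk G (mq a x))
      (NG.mk G (mq a y)) (NG.mk G (nr μ (dd x y))) (NG.mk G (nr μ (cR r)))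
      (RVI.al_mem (mq a) G x) (RVI.al_mem (mq a) G y) (RVI.al_mem (nr μ) G (cR r))
      ((hd.ap x y).mono (cd_le hq) G hG) (h1 G hG)
    exact ⟨b, hb, c, hc, h3, h4, h5⟩
  obtain ⟨r1, hr1, e, h3⟩ := (F_ex_al (S := fun G b => ∃ c, EG G c (NG.mk G (al (kb a))) ∧
        (Val (EG G) (NG.mk G (mr a)) (NG.mk G (mq a x)) b ∧
          Val (EG G) (NG.mk G (mr a)) (NG.mk G (mq a y)) c ∧
          ∀ x' y' s, EG G x' (NG.mk G (al (mq a))) → EG G y' (NG.mk G (al (mq a))) →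
            Val (EG G) (NG.mk G (mr a)) x' b → Val (EG G) (NG.mk G (mr a)) y' c →
            CPI.Ap (EG G) (NG.mk G dN) x' y' s →
            Val (EG G) (NG.mk G (lN μ)) (NG.mk G (nr μ (cR r))) s))).1 h2 _ le_rfl
  obtain ⟨r2, hr2, e', h4⟩ := (F_ex_al (S := fun G c =>
        (Val (EG G) (NG.mk G (mr a)) (NG.mk G (mq a x)) (NG.mk G (kb a e)) ∧
          Val (EG G) (NG.mk G (mr a)) (NG.mk G (mq a y)) c ∧
          ∀ x' y' s, EG G x' (NG.mk G (al (mq a))) → EG G y' (NG.mk G (al (mq a))) →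
            Val (EG G) (NG.mk G (mr a)) x' (NG.mk G (kb a e)) →
            Val (EG G) (NG.mk G (mr a)) y' c → CPI.Ap (EG G) (NG.mk G dN) x' y' s →
            Val (EG G) (NG.mk G (lN μ)) (NG.mk G (nr μ (cR r))) s))).1 h3 _ le_rfl
  have hle : r2 ≤ p := (hr2.trans hr1).trans (cd_le hq)
  have hval : ∀ (x : X) (e : Ea a) (q : Ps μ),
      F q (fun G => Val (EG G) (NG.mk G (mr a)) (NG.mk G (mq a x)) (NG.mk G (kb a e))) ↔
        ∀ᵐ ω ∂μ, ω ∈ q.1 → ω ∈ p.1 ∩ bx e.1 x := fun x e q =>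
    F_of_cl (p.2.1.inter (bx_meas e.1 x)) fun G => mr_val a G x e
  refine ⟨r2.1, sub_of_cd (hr2.trans hr1), pos_of_le hle, e, e', ?_, fun x' y' => ?_⟩
  · refine (on_of_le hle).2 ?_
    have h5 := (hval x e r2).1 fun G hG => (h4 G hG).1
    have h6 := (hval y e' r2).1 fun G hG => (h4 G hG).2.1
    filter_upwards [h5, h6] with ω h7 h8 h9
    exact ⟨(h7 h9).2, (h8 h9).2⟩
  · refine (on_of_le hle).2 ?_
    have hm : MeasurableSet {ω | (dd x' y').1 ω ≤ r} :=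
      measurableSet_le (dd x' y').2 measurable_const
    have hA : MeasurableSet (r2.1 ∩ (bx e.1 x' ∩ bx e'.1 y') ∩ {ω | (dd x' y').1 ω ≤ r}) :=
      (r2.2.1.inter ((bx_meas e.1 x').inter (bx_meas e'.1 y'))).inter hm
    by_cases h0 : μ (r2.1 ∩ (bx e.1 x' ∩ bx e'.1 y') ∩ {ω | (dd x' y').1 ω ≤ r}) = 0
    · filter_upwards [measure_eq_zero_iff_ae_notMem.1 h0] with ω h5 h6 h7 h8
      by_contra h9
      exact h5 ⟨⟨h6, h7, h8⟩, not_lt.1 h9⟩
    · exfalso
      let r3 : Ps μ := ⟨_, hA, pos_iff_ne_zero.2 h0⟩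
      have hr3 : r3 ≤ r2 := fun ω hω => hω.1.1
      have h5 : F r3 fun G => Val (EG G) (NG.mk G (mr a)) (NG.mk G (mq a x'))
          (NG.mk G (kb a e)) :=
        (hval x' e r3).2 (ae_of_all _ fun ω hω => ⟨hle hω.1.1, hω.1.2.1⟩)
      have h6 : F r3 fun G => Val (EG G) (NG.mk G (mr a)) (NG.mk G (mq a y'))
          (NG.mk G (kb a e')) :=
        (hval y' e' r3).2 (ae_of_all _ fun ω hω => ⟨hle hω.1.1, hω.1.2.2⟩)
      have h7 : F r3 fun G => Val (EG G) (NG.mk G (lN μ)) (NG.mk G (nr μ (cR r)))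
          (NG.mk G (nr μ (dd x' y'))) := fun G hG =>
        (h4.mono hr3 G hG).2.2 _ _ _ (RVI.al_mem (mq a) G x') (RVI.al_mem (mq a) G y')
          (h5 G hG) (h6 G hG) ((hd.ap x' y').mono (hr3.trans hle) G hG)
      refine h0 (measure_eq_zero_iff_ae_notMem.2 ?_)
      filter_upwards [F_lt.1 h7] with ω h8 h9
      exact absurd (h8 h9) (not_lt.2 h9.2)

end RNP
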