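import Pool.Agent.RNP.DdA

/-! # The metric of an image space: fragmentation (package W17)

(problem MP_9bfcae_gt, Part II)

Let `W` be a name of an open set, `ω ∉ S.mem x0 W` on `q`. The condition `q' := cd hq`. Let `K := st (mq a) (fun x => cl μ (S.mem x W)ᶜ)`, the name of
the image of the complement of `W`. It is forced that `Sub K (al (mq a))` (`RVI.st_all`, `al_mem`), and `q'` forces `mq a x0 ∈ K`
(`BSet.mem`: `RVI.mem_st`, the term with the index `x0`: `cl μ (S.mem x0 W)ᶜ ⊓ ⊤`; `F.mem`). `e := nr (cR ε)`: `Val l o e`. `hd.frg` gives: `q'`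
forces that there is `b ∈ al (kb a)` which contains a point of `K`, such that for all points `x, y ∈ K` in `b` and all `s` with `Ap d x y s`: `Val l s e`.
`F_ex_al` decides `b = kb a e0`; then `F.ex` and `RVI.elim_st`-type decision: a condition `q1 ≤ q'` and `x1` with `q1 ∈ cl μ (S.mem x1 W)ᶜ`, and the point of `K` is
`mq a x1`, so `Val m (mq a x1) (kb a e0)`, hence `ω ∈ bx e0 x1` and `ω ∉ S.mem x1 W` almost everywhere on `q1` (`mr_val`, `RVI.mem_cl_ae`, `bx_meas`, `S.meas`). For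
`x`, `y`: if `A := {ω ∈ q1 | ω ∈ bx e0 x, ω ∈ bx e0 y, ω ∉ S.mem x W, ω ∉ S.mem y W, ε ≤ dd x y ω}` had positive measure, it would be a condition which forces
`mq a x ∈ K`, `mq a y ∈ K`, both in the box, so `Val l (nr (dd x y)) (nr (cR ε))`, so `dd x y < ε` almost everywhere on `A`: contradiction. -/

set_option autoImplicit false

namespace RNP

open MeasureTheory STP STP.BSet RVI
open CPI (F TV tv kn)

variable {Ω : Type} [MeasurableSpace Ω] {μ : Measure Ω} [IsProbabilityMeasure μ] {X T : Type}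
  {p : Ps μ} {S : BSp (nu p) X T} {a : Set (CF S)} {dN : BSet (RO (Ps μ))}
  {dd : X → X → RR Ω}

theorem dd_frg (hd : IsDd a dN dd) (W : T) (ε : ℝ) (x0 : X) {q : Set Ω} (hε : 0 < ε)
    (hq : Pos (nu p) q) (h : On (nu p) q fun ω => ω ∉ S.mem x0 W) :
    ∃ q1 ⊆ q, Pos (nu p) q1 ∧ ∃ (e : Ea a) (x1 : X),
      On (nu p) q1 (fun ω => ω ∈ bx e.1 x1 ∧ ω ∉ S.mem x1 W) ∧
      ∀ x y, On (nu p) q1 fun ω => ω ∈ bx e.1 x → ω ∈ bx e.1 y → ω ∉ S.mem x W →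
        ω ∉ S.mem y W → (dd x y).1 ω < ε := by
  set K : BSet (RO (Ps μ)) := st (mq a) (fun x => cl μ (S.mem x W)ᶜ) with hK
  have hmW : ∀ x, NullMeasurableSet (S.mem x W)ᶜ μ := fun x =>
    (S.meas x W).compl.nullMeasurableSet
  have hmB : ∀ (e : Ea a) x, NullMeasurableSet (p.1 ∩ bx e.1 x) μ := fun e x =>
    (p.2.1.inter (bx_meas e.1 x)).nullMeasurableSet
  have hKmem : ∀ (G : Ult (RO (Ps μ))) (x : X), cl μ (S.mem x W)ᶜ ∈ G.s →
      EG G (NG.mk G (mq a x)) (NG.mk G K) := by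
    intro G x hx
    rw [EG_mk, hK, mem_st]
    refine G.up hx (le_trans ?_ (le_iSup
      (fun b => cl μ (S.mem b W)ᶜ ⊓ BSet.eq (mq a x) (mq a b)) x))
    rw [BSet.eq_refl, inf_top_eq]
  have hsub : ∀ G, Sub (EG G) (NG.mk G K) (NG.mk G (al (mq a))) := fun G z hz =>
    st_all (mq a) _ (fun G z => EG G z (NG.mk G (al (mq a)))) (fun x G _ => al_mem (mq a) G x) G z
      hz
  have hx0 : ∀ G : Ult (RO (Ps μ)), RO.up (cd hq) ∈ G.s →
      EG G (NG.mk G (mq a x0)) (NG.mk G K) := by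
    intro G hG
    refine hKmem G x0 ?_
    rw [up_eq] at hG
    exact cl_mem_of_ae (cd hq).2.1.nullMeasurableSet (hmW x0) ((on_cd hq).2 h) hG
  have h1 : F (cd hq) (fun G => ∃ b, EG G b (NG.mk G (al (kb a))) ∧
      ((∃ x, EG G x (NG.mk G K) ∧ Val (EG G) (NG.mk G (mr a)) x b) ∧
      ∀ x y s, EG G x (NG.mk G K) → EG G y (NG.mk G K) → Val (EG G) (NG.mk G (mr a)) x b →
        Val (EG G) (NG.mk G (mr a)) y b → CPI.Ap (EG G) (NG.mk G dN) x y s →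
        Val (EG G) (NG.mk G (lN μ)) s (NG.mk G (nr μ (cR ε))))) := by
    intro G hG
    refine hd.frg G (up_mem (cd_le hq) hG) _ _ (hsub G) ⟨_, hx0 G hG⟩
      ((mem_RN G).2 ⟨cR ε, rfl⟩) ((nr_lt G).2 ?_)
    have h2 : {ω : Ω | (cR (Ω := Ω) 0).1 ω < (cR (Ω := Ω) ε).1 ω} = Set.univ :=
      Set.eq_univ_of_forall fun ω => hε
    rw [h2, cl_univ]
    exact G.top
  obtain ⟨r1, hr1, e0, hr1'⟩ := (F_ex_al (nm := kb a) (p := cd hq) (S := fun G b =>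
      ((∃ x, EG G x (NG.mk G K) ∧ Val (EG G) (NG.mk G (mr a)) x b) ∧
      ∀ x y s, EG G x (NG.mk G K) → EG G y (NG.mk G K) → Val (EG G) (NG.mk G (mr a)) x b →
        Val (EG G) (NG.mk G (mr a)) y b → CPI.Ap (EG G) (NG.mk G dN) x y s →
        Val (EG G) (NG.mk G (lN μ)) s (NG.mk G (nr μ (cR ε)))))).1 h1 (cd hq) le_rfl
  have h2 : F r1 (fun G => ∃ x, EG G x (NG.mk G K) ∧
      Val (EG G) (NG.mk G (mr a)) x (NG.mk G (kb a e0))) := fun G hG => (hr1' G hG).1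
  obtain ⟨Y, hY⟩ := F.ex.1 h2
  have hY1 := (F.and.1 hY).1
  rw [F.mem, hK, mem_st, RO.mem_iSup] at hY1
  obtain ⟨r2, hr2, x1, hr2'⟩ := hY1 r1 le_rfl
  obtain ⟨hr3, hr4⟩ := RO.mem_inf.1 hr2'
  have hrp : r2 ≤ p := (hr2.trans hr1).trans (cd_le hq)
  have hmr : NullMeasurableSet r2.1 μ := r2.2.1.nullMeasurableSet
  refine ⟨r2.1, sub_of_cd (hr2.trans hr1), pos_of_le hrp, e0, x1, ?_, fun x y => ?_⟩
  · rw [on_of_le hrp]
    have h3 : cl μ r2.1 ≤ cl μ (p.1 ∩ bx e0.1 x1) := by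
      rw [← up_eq]
      refine Ult.mem_of_all fun G hG => ?_
      rw [← mr_val a G x1 e0]
      have h4 : NG.mk G Y = NG.mk G (mq a x1) := (F.eq.2 hr4) G hG
      rw [← h4]
      exact (hY G (up_mem hr2 hG)).2
    have h5 := (cl_le hmr (hmB e0 x1)).1 h3
    have h6 := (mem_cl_ae (hmW x1)).1 hr3
    filter_upwards [h5, h6] with ω h7 h8 h9
    exact ⟨(h7 h9).2, h8 h9⟩
  · rw [on_of_le hrp]
    have hmA : NullMeasurableSet (r2.1 ∩ (p.1 ∩ bx e0.1 x) ∩ (p.1 ∩ bx e0.1 y) ∩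
        (S.mem x W)ᶜ ∩ (S.mem y W)ᶜ) μ :=
      (((hmr.inter (hmB e0 x)).inter (hmB e0 y)).inter (hmW x)).inter (hmW y)
    have hmE : NullMeasurableSet {ω | (dd x y).1 ω < (cR (Ω := Ω) ε).1 ω} μ :=
      (measurableSet_lt (dd x y).2 (cR ε).2).nullMeasurableSet
    have h3 : cl μ (r2.1 ∩ (p.1 ∩ bx e0.1 x) ∩ (p.1 ∩ bx e0.1 y) ∩
        (S.mem x W)ᶜ ∩ (S.mem y W)ᶜ) ≤ cl μ {ω | (dd x y).1 ω < (cR (Ω := Ω) ε).1 ω} := by
      refine Ult.mem_of_all fun G hG => ?_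
      have hG2 : RO.up r2 ∈ G.s := by
        rw [up_eq]
        exact cl_mem_of_ae hmA hmr (Filter.Eventually.of_forall fun ω hω => hω.1.1.1.1) hG
      have hGx : cl μ (p.1 ∩ bx e0.1 x) ∈ G.s :=
        cl_mem_of_ae hmA (hmB e0 x) (Filter.Eventually.of_forall fun ω hω => hω.1.1.1.2) hG
      have hGy : cl μ (p.1 ∩ bx e0.1 y) ∈ G.s :=
        cl_mem_of_ae hmA (hmB e0 y) (Filter.Eventually.of_forall fun ω hω => hω.1.1.2) hG
      have hGx' : cl μ (S.mem x W)ᶜ ∈ G.s :=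
        cl_mem_of_ae hmA (hmW x) (Filter.Eventually.of_forall fun ω hω => hω.1.2) hG
      have hGy' : cl μ (S.mem y W)ᶜ ∈ G.s :=
        cl_mem_of_ae hmA (hmW y) (Filter.Eventually.of_forall fun ω hω => hω.2) hG
      rw [← nr_lt]
      exact (hr1' G (up_mem hr2 hG2)).2 _ _ _ (hKmem G x hGx') (hKmem G y hGy')
        ((mr_val a G x e0).2 hGx) ((mr_val a G y e0).2 hGy) (hd.ap x y G (up_mem hrp hG2))
    have h4 := (cl_le hmA hmE).1 h3
    filter_upwards [h4] with ω h5 h6 h7 h8 h9 h10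
    exact h5 ⟨⟨⟨⟨h6, hrp h6, h7⟩, hrp h6, h8⟩, h9⟩, h10⟩

end RNP
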