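import Pool.Agent.RNP.SC

/-! # Boolean valued compact spaces over a measure algebra (definitions)

(problem MP_9bfcae_gt, Part II of the independence of Q1; architect helper81; no sorry in this file)

`ν` is a finite measure on `Ω`. The conditions are the measurable sets of positive measure; a
condition `q` forces a statement about `ω` if the statement holds for almost all `ω ∈ q` (`On ν q`).
A Boolean valued compact Hausdorff space `BSp ν X T` consists of a set `X` of names of points, a set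
`T` of names of open sets and the truth values `mem x U : Set Ω` of the statements `x ∈ U`. -/

set_option autoImplicit false

namespace RNP

open MeasureTheory Cardinal

section

variable {Ω : Type} [MeasurableSpace Ω]

/-- `q` is a condition -/
def Pos (ν : Measure Ω) (q : Set Ω) : Prop := MeasurableSet q ∧ ν q ≠ 0

/-- the statement `S` holds almost everywhere on `q` -/
abbrev On (ν : Measure Ω) (q : Set Ω) (S : Ω → Prop) : Prop := ∀ᵐ ω ∂ν, ω ∈ q → S ω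

/-- Boolean valued compact Hausdorff spaces: `X` is a set of names of points, `T` is a set of names of
open sets, `mem x U` is the truth value of `x ∈ U` -/
structure BSp (ν : Measure Ω) (X T : Type) where
  /-- the truth value of `x ∈ U` -/
  mem : X → T → Set Ω
  meas : ∀ x U, MeasurableSet (mem x U)
  /-- the whole space is open -/
  top : ∃ U, ∀ x, ∀ᵐ ω ∂ν, ω ∈ mem x U
  /-- intersections of two open sets are open -/
  inter : ∀ U V, ∃ W, ∀ x, ∀ᵐ ω ∂ν, (ω ∈ mem x W ↔ ω ∈ mem x U ∧ ω ∈ mem x V)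
  /-- the union of the (names of) open sets `U i` (with the truth values `c i`) is open -/
  join : ∀ (I : Type) (c : I → Set Ω) (U : I → T), (∀ i, MeasurableSet (c i)) → ∃ W,
    (∀ i x, ∀ᵐ ω ∂ν, ω ∈ c i → ω ∈ mem x (U i) → ω ∈ mem x W) ∧
    ∀ x q, Pos ν q → On ν q (fun ω => ω ∈ mem x W) →
      ∃ r ⊆ q, Pos ν r ∧ ∃ i, On ν r fun ω => ω ∈ c i ∧ ω ∈ mem x (U i)
  /-- the space is Hausdorff -/
  haus : ∀ x y U q, Pos ν q → On ν q (fun ω => ω ∈ mem x U ∧ ω ∉ mem y U) →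
    ∃ r ⊆ q, Pos ν r ∧ ∃ V W, On ν r (fun ω => ω ∈ mem x V ∧ ω ∈ mem y W) ∧
      ∀ z, On ν r fun ω => ¬ (ω ∈ mem z V ∧ ω ∈ mem z W)
  /-- the space is compact -/
  cpt : ∀ (I : Type) (U : I → T) q, Pos ν q →
    (∀ x, ∀ r ⊆ q, Pos ν r → ∃ s ⊆ r, Pos ν s ∧ ∃ i, On ν s fun ω => ω ∈ mem x (U i)) →
    ∃ r ⊆ q, Pos ν r ∧ ∃ J : Finset I, ∀ x, On ν r fun ω => ∃ i ∈ J, ω ∈ mem x (U i)

end

section

variable {Ω : Type} [MeasurableSpace Ω] {ν : Measure Ω} {X T : Type}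

/-- names of continuous real functions -/
structure CF (S : BSp ν X T) where
  /-- the function -/
  f : X → Ω → ℝ
  meas : ∀ x, Measurable (f x)
  lt : ∀ r : ℚ, ∃ U, ∀ x, ∀ᵐ ω ∂ν, (ω ∈ S.mem x U ↔ f x ω < r)
  gt : ∀ r : ℚ, ∃ U, ∀ x, ∀ᵐ ω ∂ν, (ω ∈ S.mem x U ↔ (r : ℝ) < f x ω)

/-- A finite set `e` of triples `(f, r, b)` describes the box of all `x` with `f x < r` (if
`b = true`), `f x > r` (if `b = false`) for all `(f, r, b) ∈ e`. This is the truth value of: `x` is in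
the box. -/
def bx {S : BSp ν X T} (e : Finset (CF S × ℚ × Bool)) (x : X) : Set Ω :=
  {ω | ∀ t ∈ e, if t.2.2 then t.1.f x ω < t.2.1 else (t.2.1 : ℝ) < t.1.f x ω}

/-- names of pseudometrics on the space which come from lower semicontinuous fragmenting metrics on
the image of the space under the family `a` of continuous functions -/
structure SM (S : BSp ν X T) (a : Set (CF S)) where
  /-- the pseudometric -/
  d : X → X → Ω → ℝ
  meas : ∀ x y, Measurable (d x y)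
  nonneg : ∀ x y ω, 0 ≤ d x y ω
  le_one : ∀ x y ω, d x y ω ≤ 1
  ext : ∀ x y q, Pos ν q → (∀ U, On ν q fun ω => (ω ∈ S.mem x U ↔ ω ∈ S.mem y U)) →
    On ν q fun ω => d x y ω = 0
  symm : ∀ x y, ∀ᵐ ω ∂ν, d x y ω = d y x ω
  tri : ∀ x y z, ∀ᵐ ω ∂ν, d x z ω ≤ d x y ω + d y z ω
  sep : ∀ f ∈ a, ∀ x y, ∀ᵐ ω ∂ν, d x y ω = 0 → f.f x ω = f.f y ω
  lsc : ∀ x y (r : ℚ) q, Pos ν q → On ν q (fun ω => (r : ℝ) < d x y ω) →
    ∃ p ⊆ q, Pos ν p ∧ ∃ e e' : Finset (CF S × ℚ × Bool), (∀ t ∈ e, t.1 ∈ a) ∧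
      (∀ t ∈ e', t.1 ∈ a) ∧ On ν p (fun ω => ω ∈ bx e x ∧ ω ∈ bx e' y) ∧
      ∀ x' y', On ν p fun ω => ω ∈ bx e x' → ω ∈ bx e' y' → (r : ℝ) < d x' y' ω
  frag : ∀ (W : T) (ε : ℝ) (x0 : X) q, 0 < ε → Pos ν q → On ν q (fun ω => ω ∉ S.mem x0 W) →
    ∃ p ⊆ q, Pos ν p ∧ ∃ U x1, On ν p (fun ω => ω ∈ S.mem x1 U ∧ ω ∉ S.mem x1 W) ∧
      ∀ x y, On ν p fun ω => ω ∈ S.mem x U → ω ∈ S.mem y U → ω ∉ S.mem x W → ω ∉ S.mem y W →
        d x y ω < ε

/-- names of lower semicontinuous metrics which fragment the space. In `frag` the set `M U` is the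
truth value of: `U` meets the set `L`. -/
structure IsBig (S : BSp ν X T) (D : X → X → Ω → ℝ) : Prop where
  meas : ∀ x y, Measurable (D x y)
  nonneg : ∀ x y ω, 0 ≤ D x y ω
  ext : ∀ x y q, Pos ν q → (∀ U, On ν q fun ω => (ω ∈ S.mem x U ↔ ω ∈ S.mem y U)) →
    On ν q fun ω => D x y ω = 0
  symm : ∀ x y, ∀ᵐ ω ∂ν, D x y ω = D y x ω
  tri : ∀ x y z, ∀ᵐ ω ∂ν, D x z ω ≤ D x y ω + D y z ω
  sep : ∀ x y q, Pos ν q → On ν q (fun ω => D x y ω = 0) →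
    ∀ U, On ν q fun ω => (ω ∈ S.mem x U ↔ ω ∈ S.mem y U)
  lsc : ∀ x y (r : ℝ) q, Pos ν q → On ν q (fun ω => r < D x y ω) →
    ∃ p ⊆ q, Pos ν p ∧ ∃ U V, On ν p (fun ω => ω ∈ S.mem x U ∧ ω ∈ S.mem y V) ∧
      ∀ x' y', On ν p fun ω => ω ∈ S.mem x' U → ω ∈ S.mem y' V → r < D x' y' ω
  frag : ∀ (M : T → Set Ω) (p : Set Ω) (ε : ℝ), (∀ U, MeasurableSet (M U)) → Pos ν p → 0 < ε →
    (∀ U, (∀ x, ∀ᵐ ω ∂ν, ω ∈ S.mem x U) → On ν p fun ω => ω ∈ M U) →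
    (∀ U V q, Pos ν q → (∀ x, On ν q fun ω => ω ∈ S.mem x U → ω ∈ S.mem x V) →
      On ν q fun ω => ω ∈ M U → ω ∈ M V) →
    (∀ U, ∀ q ⊆ p, Pos ν q → On ν q (fun ω => ω ∈ M U) → ∃ r ⊆ q, Pos ν r ∧ ∃ x y,
      On ν r (fun ω => ω ∈ S.mem x U ∧ ω ∈ S.mem y U ∧ ε ≤ D x y ω) ∧
      ∀ V, On ν r fun ω => (ω ∈ S.mem x V → ω ∈ M V) ∧ (ω ∈ S.mem y V → ω ∈ M V)) → False

end

end RNP
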