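import Pool.Agent.RNP.Defs

/-! # Exhaustion (package C01)

(problem MP_9bfcae_gt, Part II)

`exh`: if every condition below `q` has a condition with the property `G` below it, then `q` is, up to
a null set, the union of countably many pairwise disjoint measurable sets which are null sets or have
the property `G`.
Proof. Zorn's lemma: let `F` be a maximal family of pairwise disjoint subsets `s` of `q` with
`Pos ν s` and `G s` (`zorn_subset`, or: `exists_maximal`..). It is countable, because `ν` is finite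
(`MeasureTheory.Measure.countable_meas_pos_of_disjoint_iUnion` for the family `Subtype.val : F → Set Ω`).
The remainder `q \ ⋃₀ F` is measurable; if its measure were positive, it would contain a condition with
the property `G`, and `F` would not be maximal. Enumerate `F`: if `F` is empty take `c i = ∅`;
otherwise let `e : F → ℕ` be injective (`Countable`) and put `c i := s` if `e s = i` for some `s` (unique),
and `c i := ∅` otherwise. -/

set_option autoImplicit false

namespace RNP

open MeasureTheory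

variable {Ω : Type} [MeasurableSpace Ω]

theorem exh (ν : Measure Ω) [IsFiniteMeasure ν] (G : Set Ω → Prop) {q : Set Ω}
    (hq : MeasurableSet q) (h : ∀ r ⊆ q, Pos ν r → ∃ s ⊆ r, Pos ν s ∧ G s) :
    ∃ c : ℕ → Set Ω, (∀ i, MeasurableSet (c i)) ∧ (∀ i, c i ⊆ q) ∧
      (Pairwise fun i j => Disjoint (c i) (c j)) ∧ (∀ i, ν (c i) ≠ 0 → G (c i)) ∧
      On ν q fun ω => ∃ i, ω ∈ c i := by
  classical
  obtain ⟨F, hF, hmax⟩ := zorn_subset
    {F : Set (Set Ω) | (∀ s ∈ F, s ⊆ q ∧ Pos ν s ∧ G s) ∧ F.PairwiseDisjoint id} (by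
    intro c hc hch
    refine ⟨⋃₀ c, ⟨?_, ?_⟩, fun s hs => Set.subset_sUnion_of_mem hs⟩
    · rintro s ⟨F, hF, hs⟩
      exact (hc hF).1 s hs
    · rintro s ⟨F, hF, hs⟩ t ⟨F', hF', ht⟩ hst
      rcases hch.total hF hF' with h1 | h1
      · exact (hc hF').2 (h1 hs) ht hst
      · exact (hc hF).2 hs (h1 ht) hst)
  have hcount : F.Countable := by
    have h1 := Measure.countable_meas_pos_of_disjoint_iUnion (μ := ν)
      (As := fun s : F => (s : Set Ω)) (fun s => (hF.1 s s.2).2.1.1)
      (fun s t hst => hF.2 s.2 t.2 (fun h => hst (Subtype.ext h)))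
    have h2 : {i : F | 0 < ν (i : Set Ω)} = Set.univ := by
      refine Set.eq_univ_of_forall fun s => ?_
      exact pos_iff_ne_zero.2 (hF.1 s s.2).2.1.2
    rw [h2] at h1
    exact Set.countable_coe_iff.1 (Set.countable_univ_iff.1 h1)
  have hU : MeasurableSet (⋃₀ F) := MeasurableSet.sUnion hcount fun s hs => (hF.1 s hs).2.1.1
  have hrem : ν (q \ ⋃₀ F) = 0 := by
    by_contra hne
    obtain ⟨s, hs, hp, hg⟩ := h (q \ ⋃₀ F) Set.diff_subset ⟨hq.diff hU, hne⟩
    have hsF : s ∈ F := by
      refine hmax ⟨?_, ?_⟩ (Set.subset_insert s F) (Set.mem_insert s F)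
      · rintro t (rfl | ht)
        · exact ⟨hs.trans Set.diff_subset, hp, hg⟩
        · exact hF.1 t ht
      · refine Set.PairwiseDisjoint.insert hF.2 ?_
        intro t ht _
        exact Set.disjoint_left.2 fun ω h1 h2 => (hs h1).2 ⟨t, ht, h2⟩
    have h3 : s = ∅ := Set.eq_empty_of_forall_notMem fun ω hω => (hs hω).2 ⟨s, hsF, hω⟩
    exact hp.2 (by rw [h3, measure_empty])
  have : Countable F := hcount.to_subtype
  obtain ⟨e, he⟩ := exists_injective_nat F
  obtain ⟨c, hc1, hc2⟩ : ∃ c : ℕ → Set Ω, (∀ s : F, c (e s) = s) ∧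
      ∀ i, c i = ∅ ∨ ∃ s : F, e s = i ∧ c i = s := by
    refine ⟨fun i => if h : ∃ s : F, e s = i then (h.choose : Set Ω) else ∅, ?_, ?_⟩
    · intro s
      have h4 : ∃ s' : F, e s' = e s := ⟨s, rfl⟩
      simp only [dif_pos h4]
      rw [he h4.choose_spec]
    · intro i
      by_cases h4 : ∃ s : F, e s = i
      · right
        refine ⟨h4.choose, h4.choose_spec, ?_⟩
        simp only [dif_pos h4]
      · left
        simp only [dif_neg h4]
  refine ⟨c, fun i => ?_, fun i => ?_, fun i j hij => ?_, fun i hi => ?_, ?_⟩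
  · rcases hc2 i with h4 | ⟨s, _, h4⟩
    · rw [h4]
      exact MeasurableSet.empty
    · rw [h4]
      exact (hF.1 s s.2).2.1.1
  · rcases hc2 i with h4 | ⟨s, _, h4⟩
    · rw [h4]
      exact Set.empty_subset q
    · rw [h4]
      exact (hF.1 s s.2).1
  · rcases hc2 i with h4 | ⟨s, h5, h4⟩
    · rw [h4]
      exact Set.empty_disjoint _
    · rcases hc2 j with h6 | ⟨t, h7, h6⟩
      · rw [h6]
        exact Set.disjoint_empty _
      · rw [h4, h6]
        refine hF.2 s.2 t.2 fun h8 => hij ?_
        rw [← h5, ← h7, Subtype.ext h8]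
  · rcases hc2 i with h4 | ⟨s, _, h4⟩
    · rw [h4, measure_empty] at hi
      exact absurd rfl hi
    · rw [h4]
      exact (hF.1 s s.2).2.2
  · have h4 := measure_eq_zero_iff_ae_notMem.1 hrem
    filter_upwards [h4] with ω hω hq'
    have h5 : ω ∈ ⋃₀ F := by
      by_contra h6
      exact hω ⟨hq', h6⟩
    obtain ⟨s, hs, h6⟩ := h5
    refine ⟨e ⟨s, hs⟩, ?_⟩
    rw [hc1]
    exact h6

end RNP
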