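import Pool.Agent.RNP.RaA
import Pool.Agent.RVI.FdB

/-! # The ordered group of the real numbers of the model (package W05)

(problem MP_9bfcae_gt, Part II)

All conjuncts of `RNC.IsRA` except `IsRL` (`isRL`) follow from the facts of `RVI/FdA.lean`, `RVI/FdB.lean`
(`rn_add_fun`, `rn_add_comm`, `rn_add_assoc`, `rn_add_zero`, `rn_add_neg`, `rn_add_lt`, `nr_add`, `mem_RN`) on the addition `sN μ`. `CPI.Ap` and `RVI.Ap` are the
same notion (definitionally equal up to the names of bound variables; `show`, `Iff.rfl`). `CPI.CEv E R R R a`: for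
`z, y ∈ R` there is `t ∈ R` with `Ap a z y t`, and it is unique. -/

set_option autoImplicit false

namespace RNP

open MeasureTheory STP STP.BSet RVI
open CPI (F TV tv kn)

variable {Ω : Type} [MeasurableSpace Ω] {μ : Measure Ω} [IsProbabilityMeasure μ]

theorem isRA (G : Ult (RO (Ps μ))) :
    RNC.IsRA (EG G) (NG.mk G (RVI.RN μ)) (NG.mk G (RVI.lN μ)) (NG.mk G (RVI.sN μ))
      (NG.mk G (nr μ (cR 0))) := by
  refine ⟨isRL G, (mem_RN G).2 ⟨_, rfl⟩, ⟨fun z y hz hy => ?_, fun z y t t' hz hy h h' => ?_⟩,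
    fun x y z hx hy h => rn_add_comm G x y z hx hy h, fun x y z s t hx hy hz h1 h2 => ?_,
    fun x hx => rn_add_zero G x hx, fun x hx => rn_add_neg G x hx,
    fun x y z s t hz h h1 h2 => ?_⟩
  · obtain ⟨u, hu, h⟩ := rn_add_fun G z y hz hy
    exact ⟨u, hu, (h u).2 rfl⟩
  · obtain ⟨u, _, h1⟩ := rn_add_fun G z y hz hy
    exact ((h1 t).1 h).trans ((h1 t').1 h').symm
  · obtain ⟨u, hu, h⟩ := rn_add_fun G y z hy hz
    exact ⟨u, hu, (h u).2 rfl, rn_add_assoc G x y z s u t hx hy hz h1 h2 ((h u).2 rfl)⟩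
  · obtain ⟨hx, hy⟩ := rt_val_mem h
    exact rn_add_lt G x y z s t hx hy hz h h1 h2

end RNP
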