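import Pool.Agent.RVI.NmA
import Pool.Agent.STP.BMix
import Pool.Agent.CPI.BTv

/-! # Full families of names (package W02)

(problem MP_9bfcae_gt, Part II)

Every set which is not empty (below `p`) is equal (below `p`) to the set of the members of a full
family of names. Proof. `F.ex` gives a name `x0` with `F p (x0 ∈ X)`. By mixing (`BSet.mix` for the two-element
partition `up p`, `(up p)ᶜ`) let `X'` be a name which is `X` with truth value `up p` and the singleton of
`x0` with truth value `(up p)ᶜ`, or more simply: `X' := BSet.mk (Option X.ty) ..` with the elements `X.fn i`, truth value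
`X.vl i ⊓ up p`, and the element `x0` with truth value `⊤`; so `mem x0 X' = ⊤`, and `eq X X' ≥ up p` (as `up p ≤ mem x0 X`).
Let `A` be the type of all functions `a : X'.ty → RO P` such that there is a name `y` with `mem y X' = ⊤` and
`eq y (X'.fn i) = a i` for all `i`; `nx a` := such a name `y`. `Full nx`: let `Y` be a name. By mixing let `y` be a name
with `mem Y X' ≤ eq Y y`, `(mem Y X')ᶜ ≤ eq y x0`; then `mem y X' = ⊤`; let `a i := eq y (X'.fn i)`, an element of `A`. For
`z := nx a`: `mem y X' = ⨆ i, X'.vl i ⊓ eq y (X'.fn i) = ⊤`, and `eq y (X'.fn i) = eq z (X'.fn i)`, so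
`eq y z ≥ eq y (X'.fn i) ⊓ eq z (X'.fn i) ≥ X'.vl i ⊓ eq y (X'.fn i)` for all `i`, hence `eq y z = ⊤`; and
`eq Y (nx a) ≥ mem Y X'`. `X' = al nx` in all `NG G`: `mem (nx a) X' = ⊤`; conversely `mem Y X' ≤ eq Y (nx a) ≤ mem Y (al nx)` by the previous
argument (use `BSet.le_eq_iff` or `EG` extensionality in `NG G`). In particular `mem Y (al nx) = mem Y X'`, which gives `Full`.
Finally `X = X'` below `p`. -/

set_option autoImplicit false

namespace RNP

open STP STP.BSet RVI
open CPI (F TV tv)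

theorem exists_full {P : Type} [PartialOrder P] (X : BSet (RO P)) (p : P)
    (h : F p fun G => ∃ x, EG G x (NG.mk G X)) :
    ∃ (A : Type) (nx : A → BSet (RO P)), Full nx ∧
      F p fun G => NG.mk G X = NG.mk G (al nx) := by
  obtain ⟨x0, hx0⟩ := F.ex.1 h
  have hp0 : RO.up p ≤ BSet.mem x0 X := RO.up_le.2 (F.mem.1 hx0)
  obtain ⟨X', hX'⟩ : ∃ X' : BSet (RO P), X' = BSet.mk (Option X.ty)
    (fun o => o.elim x0 X.fn) (fun o => o.elim ⊤ fun i => X.vl i ⊓ RO.up p) := ⟨_, rfl⟩
  have hmem : ∀ z, BSet.mem z X' = ⨆ o : Option X.ty,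
      (o.elim ⊤ fun i => X.vl i ⊓ RO.up p) ⊓ BSet.eq z (o.elim x0 X.fn) := by
    intro z
    rw [hX', BSet.mem_mk]
  have hA : BSet.mem x0 X' = ⊤ := by
    rw [eq_top_iff, hmem]
    refine le_iSup_of_le none ?_
    change ⊤ ≤ ⊤ ⊓ BSet.eq x0 x0
    rw [BSet.eq_refl, inf_top_eq]
  have hB : RO.up p ≤ BSet.eq X X' := by
    refine BSet.le_eq_iff.2 fun z => ⟨?_, ?_⟩
    · have h0 : BSet.mem z X = ⨆ i : X.ty, X.vl i ⊓ BSet.eq z (X.fn i) := rfl
      rw [h0, inf_iSup_eq, hmem]
      refine iSup_le fun i => le_iSup_of_le (some i) ?_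
      exact le_inf (le_inf (inf_le_right.trans inf_le_left) inf_le_left)
        (inf_le_right.trans inf_le_right)
    · rw [hmem, inf_iSup_eq]
      refine iSup_le fun o => ?_
      cases o with
      | none =>
        refine le_trans ?_ (BSet.mem_congr_left x0 z X)
        refine le_inf ?_ (inf_le_left.trans hp0)
        rw [BSet.eq_symm x0 z]
        exact inf_le_right.trans inf_le_right
      | some i =>
        have h0 : BSet.mem z X = ⨆ i : X.ty, X.vl i ⊓ BSet.eq z (X.fn i) := rfl
        rw [h0]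
        refine le_iSup_of_le i ?_
        exact le_inf (inf_le_right.trans (inf_le_left.trans inf_le_left))
          (inf_le_right.trans inf_le_right)
  let A : Type := {a : X'.ty → RO P // ∃ y, BSet.mem y X' = ⊤ ∧
    ∀ i, BSet.eq y (X'.fn i) = a i}
  let nx : A → BSet (RO P) := fun a => a.2.choose
  have hnx1 : ∀ a : A, BSet.mem (nx a) X' = ⊤ := fun a => a.2.choose_spec.1
  have hnx2 : ∀ (a : A) i, BSet.eq (nx a) (X'.fn i) = a.1 i := fun a => a.2.choose_spec.2
  have hC : ∀ Y : BSet (RO P), ∃ a : A, BSet.mem Y X' ≤ BSet.eq Y (nx a) := by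
    intro Y
    obtain ⟨y, hy⟩ := BSet.mix (ι := Bool)
      (fun b => cond b (BSet.mem Y X') (BSet.mem Y X')ᶜ) (by
        intro i j hij
        cases i <;> cases j
        · exact absurd rfl hij
        · exact compl_inf_eq_bot
        · exact inf_compl_eq_bot
        · exact absurd rfl hij) (fun b => cond b Y x0)
    have hy1 : BSet.mem Y X' ≤ BSet.eq y Y := hy true
    have hy2 : (BSet.mem Y X')ᶜ ≤ BSet.eq y x0 := hy false
    have hy3 : BSet.mem y X' = ⊤ := by
      rw [eq_top_iff, ← sup_compl_eq_top (x := BSet.mem Y X')]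
      refine sup_le ?_ ?_
      · refine le_trans ?_ (BSet.mem_congr_left Y y X')
        rw [BSet.eq_symm Y y]
        exact le_inf hy1 le_rfl
      · refine le_trans ?_ (BSet.mem_congr_left x0 y X')
        rw [BSet.eq_symm x0 y, hA, inf_top_eq]
        exact hy2
    refine ⟨⟨fun i => BSet.eq y (X'.fn i), y, hy3, fun _ => rfl⟩, ?_⟩
    generalize ha : (⟨fun i => BSet.eq y (X'.fn i), y, hy3, fun _ => rfl⟩ : A) = a
    have h1 : ∀ i, BSet.eq (nx a) (X'.fn i) = BSet.eq y (X'.fn i) := by
      intro i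
      rw [hnx2, ← ha]
    have h2 : BSet.eq y (nx a) = ⊤ := by
      rw [eq_top_iff, ← hy3]
      have h0 : BSet.mem y X' = ⨆ i : X'.ty, X'.vl i ⊓ BSet.eq y (X'.fn i) := rfl
      rw [h0]
      refine iSup_le fun i => le_trans ?_ (BSet.eq_trans y (X'.fn i) (nx a))
      rw [BSet.eq_symm (X'.fn i) (nx a), h1]
      exact le_inf inf_le_right inf_le_right
    refine le_trans ?_ (BSet.eq_trans Y y (nx a))
    rw [h2, inf_top_eq, BSet.eq_symm Y y]
    exact hy1
  have hD : ∀ Y : BSet (RO P), BSet.mem Y (al nx) = BSet.mem Y X' := by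
    intro Y
    unfold al
    rw [mem_st]
    refine le_antisymm (iSup_le fun a => ?_) ?_
    · refine le_trans ?_ (BSet.mem_congr_left (nx a) Y X')
      rw [hnx1, inf_top_eq, BSet.eq_symm (nx a) Y]
      exact inf_le_right
    · obtain ⟨a, ha⟩ := hC Y
      refine le_iSup_of_le a ?_
      rw [top_inf_eq]
      exact ha
  refine ⟨A, nx, ?_, ?_⟩
  · intro Y
    obtain ⟨a, ha⟩ := hC Y
    exact ⟨a, (hD Y).trans_le ha⟩
  · refine F.eq.2 (RO.up_le.1 ?_)
    have h1 : BSet.eq X' (al nx) = ⊤ := by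
      rw [eq_top_iff]
      refine BSet.le_eq_iff.2 fun z => ⟨?_, ?_⟩
      · rw [hD]
        exact inf_le_right
      · rw [hD]
        exact inf_le_right
    refine le_trans ?_ (BSet.eq_trans X X' (al nx))
    rw [h1, inf_top_eq]
    exact hB

end RNP
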