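import Pool.Agent.RVI.Rn0
import Pool.Agent.RVI.Om0
import Pool.Agent.RVI.OmA

/-! # Many different random reals (package W23)

(problem MP_9bfcae_gt, Part II)

`Om K = K × ℕ → Bool` with the product `mu K` of the fair coins (`Measure.infinitePi`). Put
`rr i ω := ∑' n, (if ω (i, n) then 1 else 0) * (1/3)^n`: measurable (a limit of measurable functions, or `Measurable.tsum`-type lemma; or write it as a composition of
the measurable map `ω ↦ (ω (i, ·)) ∈ ℕ → Bool` with the continuous function `s ↦ ∑' n, ..`), and `rr i ω = rr j ω` implies `ω (i, n) = ω (j, n)` for all `n` (the map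
`(ℕ → Bool) → ℝ` is injective: Mathlib has `Cardinal.cantorFunction` and `Cardinal.cantorFunction_injective` for `0 < c < 1/2`). For `i ≠ j` the set of all `ω` with
`ω (i, n) = ω (j, n)` for all `n < N` has measure `2 ^ (-N)` (`2 N` independent coins: `Measure.infinitePi` of a cylinder over a finite set of coordinates,
for instance `Measure.infinitePi_map_restrict` or `Measure.infinitePi_pi`; the set is the union of the `2 ^ N` boxes given by the common values), so the intersection is a
null set. -/

set_option autoImplicit false

namespace RNP

open MeasureTheory RVI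

private theorem meas_cf : Measurable (Cardinal.cantorFunction (1 / 3)) := by
  refine measurable_of_tendsto_metrizable
    (f := fun N f => ∑ n ∈ Finset.range N, Cardinal.cantorFunctionAux (1 / 3) f n) ?_ ?_
  · intro N
    refine Finset.measurable_fun_sum _ fun n _ => ?_
    exact (Measurable.of_discrete (f := fun b : Bool => cond b ((1 / 3 : ℝ) ^ n) 0)).comp
      (measurable_pi_apply n)
  · rw [tendsto_pi_nhds]
    intro f
    exact (Cardinal.summable_cantor_function f (by norm_num) (by norm_num)).hasSum.tendsto_sum_nat

theorem exists_rr (K : Type) : ∃ rr : K → RR (Om K),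
    ∀ i j, i ≠ j → mu K {ω | (rr i).1 ω = (rr j).1 ω} = 0 := by
  refine ⟨fun i => ⟨fun ω => Cardinal.cantorFunction (1 / 3) ((RVI.rr i).1 ω),
    meas_cf.comp (RVI.rr i).2⟩, fun i j hij => ?_⟩
  refine measure_mono_null ?_ (RVI.rr_ne hij)
  intro ω hω
  exact Cardinal.cantorFunction_injective (by norm_num) (by norm_num) hω

end RNP
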