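import Pool.Agent.RNP.PosM
import Pool.Agent.RNP.Rich
import Pool.Agent.RNP.Rep
import Pool.Agent.RNP.RaB

/-! # The positive answer is consistent relative to a supercompact cardinal (package W24)

(problem MP_9bfcae_gt, Part II)

`K := κ.out`, `Ω := Om K`, `μ := mu K`, `rr` from `exists_rr`; `N := NG G` for any ultrafilter `G`
(`Ult.exists_mem` for `⊤ ≠ ⊥`: `RVI.cl_univ`, `cl_eq_bot`), `E := EG G`, `STP.NG_zfc G`. `PosRN`:
`R = RN μ`, `l = lN μ`,
`a = sN μ`, `o = nr (cR 0)`, `isRA G`. Let `x`, `b`, `m` be elements of `NG G`, with names `X`,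
`B`, `h` (`NG.exists_rep`). The statement
`CSp → CHd → CCpt → (∀ Y D m, ..) → IsRN` about the names `X`, `B`, `h` has a truth value
(instances, file `TvN.lean`), so it is enough (`F.top`) that it is forced by
every condition `p`; `F.imp` four times: let `p` force the hypotheses; show that `p` forces `IsRN
.. X B h`. By `F.loc` and `F.dec` we may
assume that `p` forces `∃ x ∈ X` or forces its negation. In the second case any name is a metric
(`IsRN` with `d` arbitrary, for instance `X`: all conjuncts are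
vacuous, since there is no point in `X` and no nonempty subset of `X`). In the first case `p` also
forces `∃ b ∈ B` (first part of `CSp`). `exists_full` for `X` and for `B`
gives types `A`, `C` and names `nx`, `nb` with `p` forcing `X = al nx`, `B = al nb`; rewrite in
every `NG G` with `RO.up p ∈ G.s`, and apply `pos_main`. If instance search
for truth values fails use `set_option synthInstance.maxSize 100000` and `set_option
synthInstance.maxHeartbeats 4000000`. -/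

set_option autoImplicit false
set_option synthInstance.maxHeartbeats 4000000
set_option synthInstance.maxSize 100000

namespace RNP

open MeasureTheory STP STP.BSet RVI Cardinal
open CPI (F TV tv kn)

/-- If the space is empty in the model, any name is a metric. -/
private theorem pf_empty {N : Type 1} {E : N → N → Prop} (R l a o Y B h : N)
    (hY : ¬ ∃ x, E x Y) : RNC.IsRN E R l a o Y B h := by
  refine ⟨Y, ⟨⟨fun z y hz _ => (hY ⟨z, hz⟩).elim, fun z y t t' hz _ _ _ => (hY ⟨z, hz⟩).elim⟩,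
    fun x y t hx _ _ => (hY ⟨x, hx⟩).elim, fun x y z s t u w hx _ _ _ _ _ _ =>
      (hY ⟨x, hx⟩).elim⟩, fun x y t r hx _ _ _ _ => (hY ⟨x, hx⟩).elim, ?_⟩
  rintro C e hC ⟨x, hx⟩ _ _
  exact (hY ⟨x, hC x hx⟩).elim

/-- The statement about names is forced. -/
private theorem pf_force {κ : Cardinal.{0}} (hκ : Supercompact κ) {Ω : Type} [MeasurableSpace Ω]
    {μ : Measure Ω} [IsProbabilityMeasure μ] {K : Type} (hK : #K = κ)
    (rr : K → RR Ω) (hrr : ∀ i j, i ≠ j → μ {ω | (rr i).1 ω = (rr j).1 ω} = 0)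
    (X B h : BSet (RO (Ps μ))) (p : Ps μ)
    (h1 : F p fun G => CPI.CSp (EG G) (NG.mk G X) (NG.mk G B) (NG.mk G h))
    (h2 : F p fun G => CPI.CHd (EG G) (NG.mk G X) (NG.mk G B) (NG.mk G h))
    (h3 : F p fun G => CPI.CCpt (EG G) (NG.mk G X) (NG.mk G B) (NG.mk G h))
    (h4 : F p fun G => ∀ Y D m, CPI.CSp (EG G) Y D m → CPI.CHd (EG G) Y D m →
      RNC.IsIm (EG G) (NG.mk G X) (NG.mk G B) (NG.mk G h) Y D m →
      RNC.IsSm (EG G) (NG.mk G (RVI.RN μ)) D →
      RNC.IsRN (EG G) (NG.mk G (RVI.RN μ)) (NG.mk G (RVI.lN μ)) (NG.mk G (RVI.sN μ))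
        (NG.mk G (nr μ (cR 0))) Y D m) :
    F p fun G => RNC.IsRN (EG G) (NG.mk G (RVI.RN μ)) (NG.mk G (RVI.lN μ))
      (NG.mk G (RVI.sN μ)) (NG.mk G (nr μ (cR 0))) (NG.mk G X) (NG.mk G B) (NG.mk G h) := by
  refine F.loc fun q hq => ?_
  obtain ⟨r, hr, h5 | h5⟩ := F.dec q (fun G => ∃ x, EG G x (NG.mk G X))
  · refine ⟨r, hr, ?_⟩
    have hrp : r ≤ p := hr.trans hq
    have h6 : F r fun G => ∃ b, EG G b (NG.mk G B) := fun G hG => by
      obtain ⟨x, hx⟩ := h5 G hG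
      obtain ⟨b, hb, -⟩ := (h1 G (up_mem hrp hG)).1 x hx
      exact ⟨b, hb⟩
    obtain ⟨A, nx, -, hX⟩ := exists_full X r h5
    obtain ⟨C, nb, -, hB⟩ := exists_full B r h6
    have k1 : F r fun G => CPI.CSp (EG G) (NG.mk G (al nx)) (NG.mk G (al nb)) (NG.mk G h) :=
      fun G hG => by
        have eX : NG.mk G X = NG.mk G (al nx) := hX G hG
        have eB : NG.mk G B = NG.mk G (al nb) := hB G hG
        beta_reduce
        rw [← eX, ← eB]
        exact h1 G (up_mem hrp hG)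
    have k2 : F r fun G => CPI.CHd (EG G) (NG.mk G (al nx)) (NG.mk G (al nb)) (NG.mk G h) :=
      fun G hG => by
        have eX : NG.mk G X = NG.mk G (al nx) := hX G hG
        have eB : NG.mk G B = NG.mk G (al nb) := hB G hG
        beta_reduce
        rw [← eX, ← eB]
        exact h2 G (up_mem hrp hG)
    have k3 : F r fun G => CPI.CCpt (EG G) (NG.mk G (al nx)) (NG.mk G (al nb)) (NG.mk G h) :=
      fun G hG => by
        have eX : NG.mk G X = NG.mk G (al nx) := hX G hG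
        have eB : NG.mk G B = NG.mk G (al nb) := hB G hG
        beta_reduce
        rw [← eX, ← eB]
        exact h3 G (up_mem hrp hG)
    have k4 : F r fun G => ∀ Y D m, CPI.CSp (EG G) Y D m → CPI.CHd (EG G) Y D m →
        RNC.IsIm (EG G) (NG.mk G (al nx)) (NG.mk G (al nb)) (NG.mk G h) Y D m →
        RNC.IsSm (EG G) (NG.mk G (RVI.RN μ)) D →
        RNC.IsRN (EG G) (NG.mk G (RVI.RN μ)) (NG.mk G (RVI.lN μ)) (NG.mk G (RVI.sN μ))
          (NG.mk G (nr μ (cR 0))) Y D m := fun G hG => by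
      have eX : NG.mk G X = NG.mk G (al nx) := hX G hG
      have eB : NG.mk G B = NG.mk G (al nb) := hB G hG
      beta_reduce
      rw [← eX, ← eB]
      exact h4 G (up_mem hrp hG)
    have k5 := pos_main hκ hK rr hrr k1 k2 k3 k4
    intro G hG
    have eX : NG.mk G X = NG.mk G (al nx) := hX G hG
    have eB : NG.mk G B = NG.mk G (al nb) := hB G hG
    beta_reduce
    rw [eX, eB]
    exact k5 G hG
  · exact ⟨r, hr, fun G hG => pf_empty _ _ _ _ _ _ _ (h5 G hG)⟩

/-- The statement about names is true. -/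
private theorem pf_true {κ : Cardinal.{0}} (hκ : Supercompact κ) {Ω : Type} [MeasurableSpace Ω]
    {μ : Measure Ω} [IsProbabilityMeasure μ] {K : Type} (hK : #K = κ)
    (rr : K → RR Ω) (hrr : ∀ i j, i ≠ j → μ {ω | (rr i).1 ω = (rr j).1 ω} = 0)
    (X B h : BSet (RO (Ps μ))) (G : Ult (RO (Ps μ))) :
    CPI.CSp (EG G) (NG.mk G X) (NG.mk G B) (NG.mk G h) →
    CPI.CHd (EG G) (NG.mk G X) (NG.mk G B) (NG.mk G h) →
    CPI.CCpt (EG G) (NG.mk G X) (NG.mk G B) (NG.mk G h) →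
    (∀ Y D m, CPI.CSp (EG G) Y D m → CPI.CHd (EG G) Y D m →
      RNC.IsIm (EG G) (NG.mk G X) (NG.mk G B) (NG.mk G h) Y D m →
      RNC.IsSm (EG G) (NG.mk G (RVI.RN μ)) D →
      RNC.IsRN (EG G) (NG.mk G (RVI.RN μ)) (NG.mk G (RVI.lN μ)) (NG.mk G (RVI.sN μ))
        (NG.mk G (nr μ (cR 0))) Y D m) →
    RNC.IsRN (EG G) (NG.mk G (RVI.RN μ)) (NG.mk G (RVI.lN μ))
      (NG.mk G (RVI.sN μ)) (NG.mk G (nr μ (cR 0))) (NG.mk G X) (NG.mk G B) (NG.mk G h) := by
  refine F.top (S := fun G => CPI.CSp (EG G) (NG.mk G X) (NG.mk G B) (NG.mk G h) →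
    CPI.CHd (EG G) (NG.mk G X) (NG.mk G B) (NG.mk G h) →
    CPI.CCpt (EG G) (NG.mk G X) (NG.mk G B) (NG.mk G h) →
    (∀ Y D m, CPI.CSp (EG G) Y D m → CPI.CHd (EG G) Y D m →
      RNC.IsIm (EG G) (NG.mk G X) (NG.mk G B) (NG.mk G h) Y D m →
      RNC.IsSm (EG G) (NG.mk G (RVI.RN μ)) D →
      RNC.IsRN (EG G) (NG.mk G (RVI.RN μ)) (NG.mk G (RVI.lN μ)) (NG.mk G (RVI.sN μ))
        (NG.mk G (nr μ (cR 0))) Y D m) →
    RNC.IsRN (EG G) (NG.mk G (RVI.RN μ)) (NG.mk G (RVI.lN μ))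
      (NG.mk G (RVI.sN μ)) (NG.mk G (nr μ (cR 0))) (NG.mk G X) (NG.mk G B) (NG.mk G h))
    (fun p => ?_) G
  refine F.imp.2 fun q1 _ h1 => F.imp.2 fun q2 e2 h2 => F.imp.2 fun q3 e3 h3 =>
    F.imp.2 fun q4 e4 h4 => ?_
  exact pf_force hκ hK rr hrr X B h q4 (h1.mono ((e4.trans e3).trans e2)) (h2.mono (e4.trans e3))
    (h3.mono e4) h4

theorem pos_rn {κ : Cardinal.{0}} (hκ : Supercompact κ) :
    ∃ (N : Type 1) (E : N → N → Prop), ZFC E ∧ PosRN E := by
  obtain ⟨rr, hrr⟩ := exists_rr κ.out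
  have hbot : (⊤ : RO (Ps (mu κ.out))) ≠ ⊥ := by
    rw [← RVI.cl_univ, Ne, RVI.cl_eq_bot MeasurableSet.univ.nullMeasurableSet, measure_univ]
    exact one_ne_zero
  obtain ⟨G, -⟩ := Ult.exists_mem hbot
  refine ⟨NG G, EG G, STP.NG_zfc G, _, _, _, _, isRA G, fun x b m => ?_⟩
  obtain ⟨X, rfl⟩ := NG.exists_rep x
  obtain ⟨B, rfl⟩ := NG.exists_rep b
  obtain ⟨h, rfl⟩ := NG.exists_rep m
  exact pf_true hκ (Cardinal.mk_out κ) rr hrr X B h G

end RNP
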