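import Pool.Agent.RVI.NmD

/-! # Finite sets in the model are locally finite sets of names (package W03)

(problem MP_9bfcae_gt, Part II)

`CPI.IsFin E x` is: `∃ w, IsOm E w ∧ Sm E x w`, and `Sm E x w` is: there are `a ∈ w` and a function `f` with domain
`a` which takes all elements of `x` as values. Work below `q`. By `F.ex` take names `w`, `a`, `f`. `w = oN` (`RVI.om_eq`;
or compare with `ck Ordinal.omega0`, `RVI.oN_ck`), so some `q1 ≤ q` decides `a = nn n` (`oN = al nn`, `RVI.elim_st`-like decision: `F.mem`,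
`RVI.mem_st`, `RO.mem_iSup`). By induction on `k ≤ n` there are `r k ≤ q1` and a finite `J k` such that `r k ∈ φ b` for `b ∈ J k`, and
`r k` forces: every `z ∈ O` with `Val f (nn j) z` for some `j < k` is some `nb b`, `b ∈ J k`: for the step decide the statement
`∃ z ∈ O, Val f (nn k) z` (`F.dec`); if it is true take a name `Z` for `z` (`F.ex`), `Z ∈ O ⊆ st nb φ`, so a smaller condition
decides `Z = nb b` with `r ∈ φ b`; put `J (k+1) := insert b (J k)` (the value of `f` at `nn k` is unique, `IsFun`). For `k = n`: every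
`z ∈ O` is a value of `f` at some element of `nn n`, and the elements of `nn n` are the `nn j`, `j < n` (`RVI.mem_nn_iff`). To avoid
truth values of statements with finite quantifiers over Lean types argue in every `NG G` with `RO.up r ∈ G.s`
directly (definition of `F`). -/

set_option autoImplicit false

namespace RNP

open STP STP.BSet RVI
open CPI (F TV tv)

theorem fin_dec {P : Type} [PartialOrder P] {C : Type} {p : P} {O : BSet (RO P)}
    {nb : C → BSet (RO P)} {φ : C → RO P}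
    (hf : F p fun G => CPI.IsFin (EG G) (NG.mk G O))
    (hs : F p fun G => Sub (EG G) (NG.mk G O) (NG.mk G (st nb φ))) :
    ∀ q ≤ p, ∃ r ≤ q, ∃ J : Finset C, (∀ b ∈ J, r ∈ φ b) ∧
      F r fun G => ∀ z, EG G z (NG.mk G O) → ∃ b ∈ J, z = NG.mk G (nb b) := by
  classical
  intro q hq
  have h1 : F q fun G => ∃ w : NG G, IsOm (EG G) w ∧ Sm (EG G) (NG.mk G O) w := hf.mono hq
  obtain ⟨W, hW⟩ := F.ex.1 h1
  have h2 : F q fun G => ∃ a : NG G, EG G a (NG.mk G W) ∧ ∃ f : NG G, IsFun (EG G) f a ∧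
      ∀ z, EG G z (NG.mk G O) → ∃ y, EG G y a ∧ Val (EG G) f y z := fun G hG => (hW G hG).2
  obtain ⟨A, hA⟩ := F.ex.1 h2
  have h3 : F q fun G => ∃ f : NG G, IsFun (EG G) f (NG.mk G A) ∧
      ∀ z, EG G z (NG.mk G O) → ∃ y, EG G y (NG.mk G A) ∧ Val (EG G) f y z :=
    fun G hG => (hA G hG).2
  obtain ⟨f, hf⟩ := F.ex.1 h3
  have h4 : F q fun G => EG G (NG.mk G A) (NG.mk G oN) := fun G hG => by
    have := (hA G hG).1
    rwa [om_eq G (hW G hG).1] at this
  have h5 := F.mem.1 h4
  unfold oN al at h5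
  rw [mem_st, RO.mem_iSup] at h5
  obtain ⟨r1, hr1, n, -, hn⟩ := h5 q le_rfl
  have hn' : F r1 fun G => NG.mk G A = NG.mk G (nn n) := F.eq.2 hn
  have key : ∀ k : ℕ, ∃ r ≤ r1, ∃ J : Finset C, (∀ b ∈ J, r ∈ φ b) ∧
      F r fun G => ∀ z, EG G z (NG.mk G O) → ∀ j < k, Val (EG G) (NG.mk G f) (NG.mk G (nn j)) z →
        ∃ b ∈ J, z = NG.mk G (nb b) := by
    intro k
    induction k with
    | zero =>
      exact ⟨r1, le_rfl, ∅, fun b hb => absurd hb (Finset.notMem_empty b),
        fun G _ z _ j hj => absurd hj (Nat.not_lt_zero j)⟩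
    | succ k ih =>
      obtain ⟨r, hr, J, hJ, hrJ⟩ := ih
      obtain ⟨r2, hr2, h6 | h6⟩ := F.dec r fun G => ∃ z : NG G, EG G z (NG.mk G O) ∧
        Val (EG G) (NG.mk G f) (NG.mk G (nn k)) z
      · obtain ⟨Z, hZ⟩ := F.ex.1 h6
        have h7 : F r2 fun G => EG G (NG.mk G Z) (NG.mk G (st nb φ)) := fun G hG =>
          hs G (up_mem (hr2.trans (hr.trans (hr1.trans hq))) hG) _ (hZ G hG).1
        rw [F.mem, mem_st, RO.mem_iSup] at h7
        obtain ⟨r3, hr3, b, hb, hbZ⟩ := h7 r2 le_rfl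
        have hbZ' : F r3 fun G => NG.mk G Z = NG.mk G (nb b) := F.eq.2 hbZ
        refine ⟨r3, hr3.trans (hr2.trans hr), insert b J, ?_, ?_⟩
        · intro c hc
          rcases Finset.mem_insert.1 hc with rfl | hc
          · exact hb
          · exact (φ c).down (hr3.trans hr2) (hJ c hc)
        · intro G hG z hz j hj hv
          rcases Nat.lt_succ_iff_lt_or_eq.1 hj with hj | rfl
          · obtain ⟨c, hc, hcz⟩ := hrJ G (up_mem (hr3.trans hr2) hG) z hz j hj hv
            exact ⟨c, Finset.mem_insert_of_mem hc, hcz⟩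
          · have h8 := (hf G (up_mem (hr3.trans (hr2.trans (hr.trans hr1))) hG)).1.2.2 _ _ _ hv
              (hZ G (up_mem hr3 hG)).2
            exact ⟨b, Finset.mem_insert_self b J, h8.trans (hbZ' G hG)⟩
      · refine ⟨r2, hr2.trans hr, J, fun b hb => (φ b).down hr2 (hJ b hb), ?_⟩
        intro G hG z hz j hj hv
        rcases Nat.lt_succ_iff_lt_or_eq.1 hj with hj | rfl
        · exact hrJ G (up_mem hr2 hG) z hz j hj hv
        · exact absurd ⟨z, hz, hv⟩ (h6 G hG)
  obtain ⟨r, hr, J, hJ, hrJ⟩ := key n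
  refine ⟨r, hr.trans hr1, J, hJ, fun G hG z hz => ?_⟩
  obtain ⟨y, hy, hv⟩ := (hf G (up_mem (hr.trans hr1) hG)).2 z hz
  rw [hn' G (up_mem hr hG), mem_nn_iff] at hy
  obtain ⟨m, hm, rfl⟩ := hy
  exact hrJ G hG z hz m hm hv

end RNP
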