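import Pool.Agent.RNP.Fr

/-! # From a compact space in the model to a Boolean valued coded space, first part (package W08)

(problem MP_9bfcae_gt, Part II)

The points of the space are named by `nx x`, `x : X`, the codes by `nb b`, `b : C` (`al nx`, `al nb` are the sets of all these),
`h` is the name of the membership relation. `ihv nx nb h x b` is (a representative of) the truth value of `x ∈ b`.
All three lemmas: a set `q` with `Pos (nu p) q` is replaced by the condition `cd hq ≤ p` (`on_cd`, `cd_le`); a condition `r ≤ cd hq`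
gives the set `r.1 ⊆ q` (`sub_of_cd`, `pos_of_le`, `on_of_le`).
* `icd_cover`: the first part of `CSp`, at `nx x` (`RVI.al_mem`): `F_ex_al` decides the code.
* `icd_dir`: the second part of `CSp`; `∀ z ∈ al nx` by `F_all_al`, the implication by `F_imp_ts` (state it for the
  conjunction with the truth values `ihv`; `F.and`, or twice).
* `icd_haus`: `x ∈ b` and `y ∉ b` on `q` so the condition forces `nx x ≠ nx y` (otherwise, by `F.no`, some smaller
  condition forces `nx x = nx y` and then `Val h (nx x) (nb b) ↔ Val h (nx y) (nb b)`, `F.subst`); `CHd` gives codes, decided by `F_ex_al` twice. -/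

set_option autoImplicit false

namespace RNP

open MeasureTheory STP STP.BSet RVI
open CPI (F TV tv kn)

variable {Ω : Type} [MeasurableSpace Ω] {μ : Measure Ω} [IsProbabilityMeasure μ] {X C : Type}

/-- the truth value of: the point `x` is in the basic open set with the code `b` -/
noncomputable def ihv (nx : X → BSet (RO (Ps μ))) (nb : C → BSet (RO (Ps μ)))
    (h : BSet (RO (Ps μ))) (x : X) (b : C) : Set Ω :=
  ts fun G => Val (EG G) (NG.mk G h) (NG.mk G (nx x)) (NG.mk G (nb b))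

variable {p : Ps μ} {nx : X → BSet (RO (Ps μ))} {nb : C → BSet (RO (Ps μ))}
  {h : BSet (RO (Ps μ))}

private theorem on_ihv {q : Set Ω} (hq : Pos (nu p) q) {x : X} {b : C}
    (hx : On (nu p) q fun ω => ω ∈ ihv nx nb h x b) :
    F (cd hq) fun G => Val (EG G) (NG.mk G h) (NG.mk G (nx x)) (NG.mk G (nb b)) :=
  F_ts.2 ((on_cd hq).2 hx)

private theorem ihv_on {r : Ps μ} (hr : r ≤ p) {x : X} {b : C}
    (h1 : F r fun G => Val (EG G) (NG.mk G h) (NG.mk G (nx x)) (NG.mk G (nb b))) :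
    On (nu p) r.1 fun ω => ω ∈ ihv nx nb h x b :=
  (on_of_le hr).2 (F_ts.1 h1)

theorem icd_cover
    (h1 : F p fun G => CPI.CSp (EG G) (NG.mk G (al nx)) (NG.mk G (al nb)) (NG.mk G h))
    (x : X) {q : Set Ω} (hq : Pos (nu p) q) :
    ∃ r ⊆ q, Pos (nu p) r ∧ ∃ b, On (nu p) r fun ω => ω ∈ ihv nx nb h x b := by
  have h2 : F (cd hq) fun G => ∃ b, EG G b (NG.mk G (al nb)) ∧
      Val (EG G) (NG.mk G h) (NG.mk G (nx x)) b := fun G hG =>
    (h1 G (up_mem (cd_le hq) hG)).1 _ (al_mem nx G x)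
  obtain ⟨r, hr, b, hb⟩ := (F_ex_al (S := fun G b =>
    Val (EG G) (NG.mk G h) (NG.mk G (nx x)) b)).1 h2 (cd hq) le_rfl
  exact ⟨r.1, sub_of_cd hr, pos_of_le (hr.trans (cd_le hq)), b, ihv_on (hr.trans (cd_le hq)) hb⟩

theorem icd_dir
    (h1 : F p fun G => CPI.CSp (EG G) (NG.mk G (al nx)) (NG.mk G (al nb)) (NG.mk G h))
    (x : X) (b b' : C) {q : Set Ω} (hq : Pos (nu p) q)
    (hx : On (nu p) q fun ω => ω ∈ ihv nx nb h x b ∧ ω ∈ ihv nx nb h x b') :
    ∃ r ⊆ q, Pos (nu p) r ∧ ∃ c, On (nu p) r (fun ω => ω ∈ ihv nx nb h x c) ∧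
      ∀ z, On (nu p) r fun ω => ω ∈ ihv nx nb h z c → ω ∈ ihv nx nb h z b ∧
        ω ∈ ihv nx nb h z b' := by
  have hb := on_ihv hq (hx.mono fun ω hω hq => (hω hq).1)
  have hb' := on_ihv hq (hx.mono fun ω hω hq => (hω hq).2)
  have h2 : F (cd hq) fun G => ∃ c, EG G c (NG.mk G (al nb)) ∧
      (Val (EG G) (NG.mk G h) (NG.mk G (nx x)) c ∧ ∀ z, EG G z (NG.mk G (al nx)) →
        Val (EG G) (NG.mk G h) z c → Val (EG G) (NG.mk G h) z (NG.mk G (nb b)) ∧
          Val (EG G) (NG.mk G h) z (NG.mk G (nb b'))) := fun G hG =>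
    (h1 G (up_mem (cd_le hq) hG)).2 _ _ _ (al_mem nx G x) (al_mem nb G b) (al_mem nb G b')
      (hb G hG) (hb' G hG)
  obtain ⟨r, hr, c, hc⟩ := (F_ex_al (S := fun G c =>
    Val (EG G) (NG.mk G h) (NG.mk G (nx x)) c ∧ ∀ z, EG G z (NG.mk G (al nx)) →
        Val (EG G) (NG.mk G h) z c → Val (EG G) (NG.mk G h) z (NG.mk G (nb b)) ∧
          Val (EG G) (NG.mk G h) z (NG.mk G (nb b')))).1 h2 (cd hq) le_rfl
  have hrp : r ≤ p := hr.trans (cd_le hq)
  refine ⟨r.1, sub_of_cd hr, pos_of_le hrp, c, ihv_on hrp fun G hG => (hc G hG).1, fun z => ?_⟩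
  refine (on_of_le hrp).2 ?_
  have h3 : F r fun G => Val (EG G) (NG.mk G h) (NG.mk G (nx z)) (NG.mk G (nb c)) →
      Val (EG G) (NG.mk G h) (NG.mk G (nx z)) (NG.mk G (nb b)) := fun G hG h5 =>
    ((hc G hG).2 _ (al_mem nx G z) h5).1
  have h4 : F r fun G => Val (EG G) (NG.mk G h) (NG.mk G (nx z)) (NG.mk G (nb c)) →
      Val (EG G) (NG.mk G h) (NG.mk G (nx z)) (NG.mk G (nb b')) := fun G hG h5 =>
    ((hc G hG).2 _ (al_mem nx G z) h5).2
  filter_upwards [F_imp_ts.1 h3, F_imp_ts.1 h4] with ω h5 h6 hω h7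
  exact ⟨h5 hω h7, h6 hω h7⟩

theorem icd_haus
    (h2 : F p fun G => CPI.CHd (EG G) (NG.mk G (al nx)) (NG.mk G (al nb)) (NG.mk G h))
    (x y : X) (b : C) {q : Set Ω} (hq : Pos (nu p) q)
    (hx : On (nu p) q fun ω => ω ∈ ihv nx nb h x b ∧ ω ∉ ihv nx nb h y b) :
    ∃ r ⊆ q, Pos (nu p) r ∧ ∃ c c', On (nu p) r (fun ω => ω ∈ ihv nx nb h x c ∧
      ω ∈ ihv nx nb h y c') ∧
      ∀ z, On (nu p) r fun ω => ¬ (ω ∈ ihv nx nb h z c ∧ ω ∈ ihv nx nb h z c') := by
  have hb := on_ihv hq (hx.mono fun ω hω hq => (hω hq).1)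
  have hb' : F (cd hq) fun G =>
      ¬ Val (EG G) (NG.mk G h) (NG.mk G (nx y)) (NG.mk G (nb b)) :=
    F_not_ts.2 ((on_cd hq).2 (hx.mono fun ω hω hq => (hω hq).2))
  have h3 : F (cd hq) fun G => ∃ c, EG G c (NG.mk G (al nb)) ∧
      ∃ c', EG G c' (NG.mk G (al nb)) ∧ (Val (EG G) (NG.mk G h) (NG.mk G (nx x)) c ∧
        Val (EG G) (NG.mk G h) (NG.mk G (nx y)) c' ∧ ∀ z, EG G z (NG.mk G (al nx)) →
          ¬ (Val (EG G) (NG.mk G h) z c ∧ Val (EG G) (NG.mk G h) z c')) := fun G hG => by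
    have hne : NG.mk G (nx x) ≠ NG.mk G (nx y) := fun heq => by
      have h5 : Val (EG G) (NG.mk G h) (NG.mk G (nx x)) (NG.mk G (nb b)) := hb G hG
      rw [heq] at h5
      exact hb' G hG h5
    obtain ⟨c, c', h5, h6, h7⟩ := h2 G (up_mem (cd_le hq) hG) _ _ (al_mem nx G x)
      (al_mem nx G y) hne
    exact ⟨c, h5, c', h6, h7⟩
  obtain ⟨r, hr, c, hc⟩ := (F_ex_al (S := fun G c =>
    ∃ c', EG G c' (NG.mk G (al nb)) ∧ (Val (EG G) (NG.mk G h) (NG.mk G (nx x)) c ∧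
        Val (EG G) (NG.mk G h) (NG.mk G (nx y)) c' ∧ ∀ z, EG G z (NG.mk G (al nx)) →
          ¬ (Val (EG G) (NG.mk G h) z c ∧ Val (EG G) (NG.mk G h) z c')))).1 h3 (cd hq) le_rfl
  obtain ⟨r', hr', c', hc'⟩ := (F_ex_al (S := fun G c' =>
    Val (EG G) (NG.mk G h) (NG.mk G (nx x)) (NG.mk G (nb c)) ∧
        Val (EG G) (NG.mk G h) (NG.mk G (nx y)) c' ∧ ∀ z, EG G z (NG.mk G (al nx)) →
          ¬ (Val (EG G) (NG.mk G h) z (NG.mk G (nb c)) ∧ Val (EG G) (NG.mk G h) z c'))).1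
    hc r le_rfl
  have hrp : r' ≤ p := (hr'.trans hr).trans (cd_le hq)
  refine ⟨r'.1, sub_of_cd (hr'.trans hr), pos_of_le hrp, c, c', ?_, fun z => ?_⟩
  · filter_upwards [ihv_on hrp fun G hG => (hc' G hG).1,
      ihv_on hrp fun G hG => (hc' G hG).2.1] with ω h5 h6 hω
    exact ⟨h5 hω, h6 hω⟩
  · refine (on_of_le hrp).2 ?_
    have h4 : F r' fun G => Val (EG G) (NG.mk G h) (NG.mk G (nx z)) (NG.mk G (nb c)) →
        ¬ Val (EG G) (NG.mk G h) (NG.mk G (nx z)) (NG.mk G (nb c')) := fun G hG h5 h6 =>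
      (hc' G hG).2.2 _ (al_mem nx G z) ⟨h5, h6⟩
    by_contra hcon
    have hm : MeasurableSet (r'.1 ∩ (ihv nx nb h z c ∩ ihv nx nb h z c')) :=
      r'.2.1.inter ((ts_meas _).inter (ts_meas _))
    have hpos : 0 < μ (r'.1 ∩ (ihv nx nb h z c ∩ ihv nx nb h z c')) := by
      refine pos_iff_ne_zero.2 fun h0 => hcon ?_
      filter_upwards [measure_eq_zero_iff_ae_notMem.1 h0] with ω h5 hω h6
      exact h5 ⟨hω, h6⟩
    obtain ⟨s, hs1⟩ : ∃ s : Ps μ, s.1 = r'.1 ∩ (ihv nx nb h z c ∩ ihv nx nb h z c') :=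
      ⟨⟨_, hm, hpos⟩, rfl⟩
    have hs : s ≤ r' := by
      rw [Ps.le_def, hs1]
      exact Set.inter_subset_left
    have h5 : F s fun G => Val (EG G) (NG.mk G h) (NG.mk G (nx z)) (NG.mk G (nb c)) := by
      refine F_ts.2 (Filter.Eventually.of_forall fun ω hω => ?_)
      rw [hs1] at hω
      exact hω.2.1
    have h6 : F s fun G => Val (EG G) (NG.mk G h) (NG.mk G (nx z)) (NG.mk G (nb c')) := by
      refine F_ts.2 (Filter.Eventually.of_forall fun ω hω => ?_)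
      rw [hs1] at hω
      exact hω.2.2
    exact F.not_false fun G hG => h4 G (up_mem hs hG) (h5 G hG) (h6 G hG)

end RNP
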