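import Pool.Agent.RNP.ICdA
import Pool.Agent.RNP.FinD

/-! # From a compact space in the model to a Boolean valued coded space, second part (package W09)

(problem MP_9bfcae_gt, Part II)

`icd_cpt`: let `O := st nb (fun b => cl μ (o b))`, the name of the set of all codes `b` with truth value `o b`. The condition
`cd hq` forces `Sub O (al nb)` (`RVI.st_all`, `al_mem`) and `CCov (al nx) h O`: by `F_all_al` for `nx x`; `F.loc`; for `r ≤ cd hq` the hypothesis
for the set `r.1` gives `s ⊆ r.1` and `b` with `ω ∈ o b`, `ω ∈ ihv x b` on `s`; `cd` of `s` forces `nb b ∈ O` and `Val h (nx x) (nb b)`. So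
(`CCpt`) it forces that there is a finite `O' ⊆ O` which covers; take a name (`F.ex`) and apply `fin_dec` (`φ b = cl μ (o b)`): `r ≤ cd hq` and
`J` with `r ∈ cl μ (o b)` for `b ∈ J` (so `ω ∈ o b` on `r`, `RVI.mem_cl_ae`), and `O' ⊆ {nb b | b ∈ J}`. For every `x` the set
`r.1 \ ⋃ b ∈ J, ihv x b` is a null set: otherwise it is a condition which forces: some `b' ∈ O'` has `Val h (nx x) b'`, and `b' = nb b` for
some `b ∈ J`; in any `NG G` containing this condition `Val h (nx x) (nb b)` is false for all `b ∈ J`: contradiction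
(`F.not_false`).
`exists_bcd`: collects `icd_cover`, `icd_dir`, `icd_haus`, `icd_cpt`, `ts_meas`. -/

set_option autoImplicit false

namespace RNP

open MeasureTheory STP STP.BSet RVI
open CPI (F TV tv kn)

variable {Ω : Type} [MeasurableSpace Ω] {μ : Measure Ω} [IsProbabilityMeasure μ] {X C : Type}
  {p : Ps μ} {nx : X → BSet (RO (Ps μ))} {nb : C → BSet (RO (Ps μ))} {h : BSet (RO (Ps μ))}

theorem icd_cpt
    (h3 : F p fun G => CPI.CCpt (EG G) (NG.mk G (al nx)) (NG.mk G (al nb)) (NG.mk G h))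
    (o : C → Set Ω) {q : Set Ω} (ho : ∀ b, MeasurableSet (o b)) (hq : Pos (nu p) q)
    (hc : ∀ x, ∀ r ⊆ q, Pos (nu p) r → ∃ s ⊆ r, Pos (nu p) s ∧ ∃ b,
      On (nu p) s fun ω => ω ∈ o b ∧ ω ∈ ihv nx nb h x b) :
    ∃ r ⊆ q, Pos (nu p) r ∧ ∃ J : Finset C, (∀ b ∈ J, On (nu p) r fun ω => ω ∈ o b) ∧
      ∀ x, On (nu p) r fun ω => ∃ b ∈ J, ω ∈ ihv nx nb h x b := by
  have hle : cd hq ≤ p := cd_le hq
  -- the name of the set of codes
  have hin : ∀ (G : Ult (RO (Ps μ))) (b : C), cl μ (o b) ∈ G.s →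
      EG G (NG.mk G (nb b)) (NG.mk G (st nb fun b => cl μ (o b))) := by
    intro G b hb
    rw [EG_mk, mem_st]
    refine G.up hb (le_iSup_of_le b ?_)
    rw [BSet.eq_refl, inf_top_eq]
  have hsub : ∀ G : Ult (RO (Ps μ)), Sub (EG G) (NG.mk G (st nb fun b => cl μ (o b)))
      (NG.mk G (al nb)) := by
    intro G z hz
    exact st_all nb (fun b => cl μ (o b)) (fun G x => EG G x (NG.mk G (al nb)))
      (fun a G _ => al_mem nb G a) G z hz
  have hcov : F (cd hq) fun G => CPI.CCov (EG G) (NG.mk G (al nx)) (NG.mk G h)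
      (NG.mk G (st nb fun b => cl μ (o b))) := by
    have h0 : F (cd hq) fun G => ∀ y, EG G y (NG.mk G (al nx)) →
        ∃ b, EG G b (NG.mk G (st nb fun b => cl μ (o b))) ∧ Val (EG G) (NG.mk G h) y b := by
      refine F_all_al.2 fun x => ?_
      refine F.loc fun r hr => ?_
      obtain ⟨s, hs, hs1, b, hb⟩ := hc x r.1 (sub_of_cd hr) (pos_of_le (hr.trans hle))
      have hsr : cd hs1 ≤ r := fun ω hω => hs hω.1
      refine ⟨cd hs1, hsr, fun G hG => ⟨NG.mk G (nb b), hin G b ?_, ?_⟩⟩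
      · refine G.up hG (RO.up_le.2 ((mem_cl_ae (ho b).nullMeasurableSet).2 ?_))
        exact (on_cd hs1).2 (hb.mono fun ω hω h1 => (hω h1).1)
      · have h1 : F (cd hs1) fun G => Val (EG G) (NG.mk G h) (NG.mk G (nx x)) (NG.mk G (nb b)) :=
          F_ts.2 ((on_cd hs1).2 (hb.mono fun ω hω h1 => (hω h1).2))
        exact h1 G hG
    exact h0
  have hex : F (cd hq) fun G => ∃ O', Sub (EG G) O' (NG.mk G (st nb fun b => cl μ (o b))) ∧
      CPI.IsFin (EG G) O' ∧ CPI.CCov (EG G) (NG.mk G (al nx)) (NG.mk G h) O' :=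
    fun G hG => h3 G (up_mem hle hG) _ (hsub G) (hcov G hG)
  obtain ⟨Y, hY⟩ := F.ex.1 hex
  obtain ⟨hY1, hY2⟩ := F.and.1 hY
  obtain ⟨hY2, hY3⟩ := F.and.1 hY2
  obtain ⟨r, hr, J, hJ, hz⟩ := fin_dec hY2 hY1 (cd hq) le_rfl
  have hrp : r ≤ p := hr.trans hle
  refine ⟨r.1, sub_of_cd hr, pos_of_le hrp, J, fun b hb => ?_, fun x => ?_⟩
  · exact (on_of_le hrp).2 ((mem_cl_ae (ho b).nullMeasurableSet).1 (hJ b hb))
  · by_contra hcon
    have hD : MeasurableSet (r.1 \ ⋃ b ∈ J, ihv nx nb h x b) :=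
      r.2.1.diff (Finset.measurableSet_biUnion J fun b _ => ts_meas _)
    have hDp : Pos (nu p) (r.1 \ ⋃ b ∈ J, ihv nx nb h x b) := by
      refine ⟨hD, fun h0 => hcon ?_⟩
      have h1 : ∀ᵐ ω ∂(nu p), ω ∉ r.1 \ ⋃ b ∈ J, ihv nx nb h x b :=
        measure_eq_zero_iff_ae_notMem.1 h0
      refine h1.mono fun ω hω hωr => ?_
      by_contra hn
      refine hω ⟨hωr, fun hU => hn ?_⟩
      simp only [Set.mem_iUnion] at hU
      obtain ⟨b, hb, hb'⟩ := hU
      exact ⟨b, hb, hb'⟩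
    have htr : cd hDp ≤ r := fun ω hω => hω.1.1
    refine F.not_false (p := cd hDp) fun G hG => ?_
    obtain ⟨c, hc1, hc2⟩ := hY3 G (up_mem (htr.trans hr) hG) _ (al_mem nx G x)
    obtain ⟨b, hb, rfl⟩ := hz G (up_mem htr hG) c hc1
    have h5 : F (cd hDp) fun G => ¬ Val (EG G) (NG.mk G h) (NG.mk G (nx x)) (NG.mk G (nb b)) := by
      refine F_not_ts.2 (Filter.Eventually.of_forall fun ω hω hω1 => ?_)
      refine hω.1.2 ?_
      simp only [Set.mem_iUnion]
      exact ⟨b, hb, hω1⟩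
    exact h5 G hG hc2

theorem exists_bcd
    (h1 : F p fun G => CPI.CSp (EG G) (NG.mk G (al nx)) (NG.mk G (al nb)) (NG.mk G h))
    (h2 : F p fun G => CPI.CHd (EG G) (NG.mk G (al nx)) (NG.mk G (al nb)) (NG.mk G h))
    (h3 : F p fun G => CPI.CCpt (EG G) (NG.mk G (al nx)) (NG.mk G (al nb)) (NG.mk G h)) :
    ∃ S : BCd (nu p) X C, S.hv = ihv nx nb h :=
  ⟨{  hv := ihv nx nb h
      meas := fun _ _ => ts_meas _
      cover := fun x _ hq => icd_cover h1 x hq
      dir := fun x b b' _ hq hx => icd_dir h1 x b b' hq hx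
      haus := fun x y b _ hq hx => icd_haus h2 x y b hq hx
      cpt := fun o _ ho hq hc => icd_cpt h3 o ho hq hc }, rfl⟩

end RNP
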