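import Pool.Agent.RNP.Sp
import Pool.Agent.RNP.ICdA

/-! # The image of the space under fewer than `κ` continuous functions (definitions)

(problem MP_9bfcae_gt, Part II; no sorry in this file)

`S` is a Boolean valued coded space on the condition `p`, `a` is a set of (names of) continuous
functions. The image of the space under the map `(f)_{f ∈ a}` is presented in the model as follows.
* `mq a x`: the name of the image of the point `x`; `mq a x = mq a y` has the truth value `ec a x y`: `f x = f y`
  for all `f ∈ a` (on `p`).
* `Ea a`: the boxes over `a`; the box `e` has the name `kn e` (names of ground elements, `CPI.kn`).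
* `mr a`: the membership relation.
* `gm nx a`: the canonical map. -/

set_option autoImplicit false

namespace RNP

open MeasureTheory STP STP.BSet RVI
open CPI (F TV tv kn)

section

variable {Ω : Type} [MeasurableSpace Ω] {μ : Measure Ω} [IsProbabilityMeasure μ] {X T : Type}
  {p : Ps μ} {S : BSp (nu p) X T}

/-- the truth value of: the images of `x` and `y` are equal -/
noncomputable def ec (a : Set (CF S)) (x y : X) : RO (Ps μ) :=
  ⨅ f : a, cl μ {ω | ω ∈ p.1 → f.1.f x ω = f.1.f y ω}

/-- the name of the image of the point `x` -/
noncomputable def mq (a : Set (CF S)) (x : X) : BSet (RO (Ps μ)) :=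
  st (fun y : X => kn y) (ec a x)

/-- the boxes over `a` -/
abbrev Ea (a : Set (CF S)) : Type := {e : Finset (CF S × ℚ × Bool) // ∀ t ∈ e, t.1 ∈ a}

/-- the name of a box -/
noncomputable def kb (a : Set (CF S)) (e : Ea a) : BSet (RO (Ps μ)) := kn e

/-- the name of the membership relation -/
noncomputable def mr (a : Set (CF S)) : BSet (RO (Ps μ)) :=
  rt (mq a) (kb a) fun x e => cl μ (p.1 ∩ bx e.1 x)

/-- the name of the canonical map -/
noncomputable def gm (nx : X → BSet (RO (Ps μ))) (a : Set (CF S)) : BSet (RO (Ps μ)) :=
  gr nx (mq a) id

end

end RNP
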