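import Pool.Agent.RNP.Im0
import Pool.Agent.RNP.Box
import Pool.Agent.RVI.FdA

/-! # The image space: equality and membership (package W10)

(problem MP_9bfcae_gt, Part II)

* `kn_dsc`: `kn a = ck (cd a)`, `CPI.cd_inj`, and the truth value of the equality of two different canonical names of ordinals is
  `⊥` (compare `CPI.kn_eq` in `CPI/BNam.lean` and `STP.ck_eq_iff`: `NG.mk G (kn a) = NG.mk G (kn b) ↔ a = b` for all `G`; if
  `eq (kn a) (kn b)` were not `⊥`, some ultrafilter would contain it, `Ult.exists_mem`, `NG.mk_eq`).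
* `eq_mq`: `RVI.eq_st_dsc` gives `⨅ z, (ec a x z ⇨ ec a y z) ⊓ (ec a y z ⇨ ec a x z)`. `≥`: `ec` is symmetric and transitive
  (`ec a x y ⊓ ec a x z ≤ ec a y z`: `le_iInf`, `RVI.cl_inter`, `RVI.cl_le`). `≤`: take `z = y`; `ec a y y = ⊤` (`RVI.cl_univ`).
* `mr_ex2`: on `ec a x x' ≤ cl μ {ω ∈ p → f x = f x'}` for the finitely many `f` occurring in `e`
  (`t.1 ∈ a` for `t ∈ e`): `bx e x` and `bx e x'` agree there on `p`; for `e ≠ e'` the truth value of `kb e = kb e'` is `⊥`.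
  `mr_val`: `RVI.rt_val` and `mr_ex2`. `bx_meas` (file `Box.lean`).
* `gm_le`: it is enough (`RVI.exists_cl`-type argument or: `RO.le_def`, `F.eq`) to show that every condition `q` with `q ∈ eq (nx x) (nx y)` is in
  `ec a x y` (`eq_mq`), i.e. for every `f ∈ a`: `f x = f y` almost everywhere on `q ∩ p` (`RVI.mem_cl`). If `q ∩ p` is a null set this is
  clear. Otherwise `q' := q ∩ p` is a condition `≤ p` and `≤ q` which forces `nx x = nx y`. Hence for every code `b` the sets `S.hv x b` and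
  `S.hv y b` (`= ihv nx nb h ..`, `ts`) agree almost everywhere on `q'` (`F_imp_ts`). So for every open `u` (`IsOp S u`): `u x` and
  `u y` agree almost everywhere on `q'`: if `x ∈ u`, `y ∉ u` on a condition `r ⊆ q'`, then `IsOp` gives `r' ⊆ r` and `b` with
  `x ∈ b` on `r'` and `z ∈ b → z ∈ u` on `r'`; `y ∈ b` on `r'`, so `y ∈ u` on `r'`: contradiction. By `cf_ext` (file `Box.lean`, for the
  measure `nu p` and the set `q'`) `f x = f y` on `q'`.
* `gm_val`, `gm_fun`, `gm_to`: `RVI.gr_val`, `RVI.gr_fun`, `RVI.gr_to` with `gm_le`. -/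

set_option autoImplicit false

namespace RNP

open MeasureTheory STP STP.BSet RVI
open CPI (F TV tv kn)

theorem kn_dsc {P : Type} [PartialOrder P] {A : Type} :
    Dsc (fun a : A => (kn a : BSet (RO P))) := by
  intro a b hab
  show BSet.eq (ck _) (ck _) = ⊥
  rw [eq_ck_ck]
  exact iSup_eq_bot.2 fun h => absurd (CPI.cd_inj.1 h) hab

variable {Ω : Type} [MeasurableSpace Ω] {μ : Measure Ω} [IsProbabilityMeasure μ] {X T C : Type}
  {p : Ps μ}

private theorem ec_meas {S : BSp (nu p) X T} (f : CF S) (x y : X) :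
    MeasurableSet {ω | ω ∈ p.1 → f.f x ω = f.f y ω} := by
  have h : {ω | ω ∈ p.1 → f.f x ω = f.f y ω} = p.1ᶜ ∪ {ω | f.f x ω = f.f y ω} := by
    ext ω
    exact imp_iff_not_or
  rw [h]
  exact p.2.1.compl.union (measurableSet_eq_fun (f.meas x) (f.meas y))

private theorem mem_ec {S : BSp (nu p) X T} {a : Set (CF S)} {x y : X} {q : Ps μ} :
    q ∈ ec a x y ↔ ∀ f ∈ a, ∀ᵐ ω ∂μ, ω ∈ q.1 → ω ∈ p.1 → f.f x ω = f.f y ω := by
  unfold ec
  rw [RO.mem_iInf]
  constructor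
  · intro h f hf
    exact (mem_cl_ae (ec_meas f x y).nullMeasurableSet).1 (h ⟨f, hf⟩)
  · intro h f
    exact (mem_cl_ae (ec_meas f.1 x y).nullMeasurableSet).2 (h f.1 f.2)

private theorem ec_refl {S : BSp (nu p) X T} (a : Set (CF S)) (x : X) : ec a x x = ⊤ := by
  refine top_le_iff.1 (RO.le_def.2 fun q _ => mem_ec.2 fun f _ => ?_)
  exact ae_of_all _ fun ω _ _ => rfl

private theorem ec_symm {S : BSp (nu p) X T} (a : Set (CF S)) (x y : X) :
    ec a x y ≤ ec a y x := by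
  refine RO.le_def.2 fun q hq => mem_ec.2 fun f hf => ?_
  filter_upwards [mem_ec.1 hq f hf] with ω h h1 h2
  exact (h h1 h2).symm

private theorem ec_trans {S : BSp (nu p) X T} (a : Set (CF S)) (x y z : X) :
    ec a x y ⊓ ec a y z ≤ ec a x z := by
  refine RO.le_def.2 fun q hq => mem_ec.2 fun f hf => ?_
  rw [RO.mem_inf] at hq
  filter_upwards [mem_ec.1 hq.1 f hf, mem_ec.1 hq.2 f hf] with ω h h' h1 h2
  exact (h h1 h2).trans (h' h1 h2)

theorem eq_mq {S : BSp (nu p) X T} (a : Set (CF S)) (x y : X) :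
    BSet.eq (mq a x) (mq a y) = ec a x y := by
  unfold mq
  rw [eq_st_dsc kn_dsc]
  refine le_antisymm ?_ (le_iInf fun z => le_inf ?_ ?_)
  · refine (iInf_le _ y).trans (inf_le_right.trans ?_)
    rw [ec_refl, top_himp]
  · rw [le_himp_iff]
    exact (inf_le_inf_right _ (ec_symm a x y)).trans (ec_trans a y x z)
  · rw [le_himp_iff]
    exact ec_trans a x y z

theorem kb_dsc {S : BSp (nu p) X T} (a : Set (CF S)) : Dsc (kb a) :=
  fun e e' h => kn_dsc e e' h

theorem mr_ex2 {S : BSp (nu p) X T} (a : Set (CF S)) :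
    Ex2 (mq a) (kb a) fun x e => cl μ (p.1 ∩ bx e.1 x) := by
  intro x x' e e'
  by_cases hee : e = e'
  · subst hee
    refine inf_le_left.trans ?_
    rw [eq_mq]
    refine RO.le_def.2 fun q hq => ?_
    rw [RO.mem_inf] at hq
    obtain ⟨h1, h2⟩ := hq
    rw [mem_cl_ae (p.2.1.inter (bx_meas e.1 x)).nullMeasurableSet] at h1
    rw [mem_cl_ae (p.2.1.inter (bx_meas e.1 x')).nullMeasurableSet]
    have h3 : ∀ᵐ ω ∂μ, ∀ t ∈ e.1, ω ∈ q.1 → ω ∈ p.1 → t.1.f x ω = t.1.f x' ω :=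
      (Filter.eventually_all_finset e.1).2 fun t ht => mem_ec.1 h2 t.1 (e.2 t ht)
    filter_upwards [h1, h3] with ω h4 h5 h6
    obtain ⟨h7, h8⟩ := h4 h6
    refine ⟨h7, fun t ht => ?_⟩
    have h9 := h8 t ht
    rw [h5 t ht h6 h7] at h9
    exact h9
  · rw [kb_dsc a e e' hee, inf_bot_eq]
    exact bot_le

theorem mr_val {S : BSp (nu p) X T} (a : Set (CF S)) (G : Ult (RO (Ps μ))) (x : X) (e : Ea a) :
    Val (EG G) (NG.mk G (mr a)) (NG.mk G (mq a x)) (NG.mk G (kb a e)) ↔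
      cl μ (p.1 ∩ bx e.1 x) ∈ G.s :=
  rt_val (mr_ex2 a) G x e

variable {S : BCd (nu p) X C} {nx : X → BSet (RO (Ps μ))} {nb : C → BSet (RO (Ps μ))}
  {h : BSet (RO (Ps μ))}

private theorem op_imp {ν : Measure Ω} {S : BCd ν X C} {q : Set Ω} (hq : MeasurableSet q)
    {x y : X} (hb : ∀ b, On ν q fun ω => ω ∈ S.hv x b → ω ∈ S.hv y b) {u : X → Set Ω}
    (hu : IsOp S u) : On ν q fun ω => ω ∈ u x → ω ∈ u y := by
  have hm : MeasurableSet (q ∩ (u x \ u y)) := hq.inter ((hu.1 x).diff (hu.1 y))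
  by_cases h0 : ν (q ∩ (u x \ u y)) = 0
  · filter_upwards [measure_eq_zero_iff_ae_notMem.1 h0] with ω h1 h2 h3
    by_contra h4
    exact h1 ⟨h2, h3, h4⟩
  · exfalso
    obtain ⟨r, hr, hp, b, h1, h2⟩ := hu.2 x _ ⟨hm, h0⟩ (ae_of_all _ fun ω h => h.2.1)
    apply hp.2
    refine measure_eq_zero_iff_ae_notMem.2 ?_
    filter_upwards [h1, h2 y, hb b] with ω h3 h4 h5 h6
    exact (hr h6).2.2 (h4 h6 (h5 (hr h6).1 (h3 h6)))

private theorem ihv_imp {q : Ps μ} {x y : X}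
    (hq : F q fun G => NG.mk G (nx x) = NG.mk G (nx y)) (b : C) :
    ∀ᵐ ω ∂μ, ω ∈ q.1 → ω ∈ ihv nx nb h x b → ω ∈ ihv nx nb h y b := by
  unfold ihv
  refine F_imp_ts.1 fun G hG hv => ?_
  rw [← hq G hG]
  exact hv

theorem gm_le (hS : S.hv = ihv nx nb h) (a : Set (CF S.sp)) (x y : X) :
    BSet.eq (nx x) (nx y) ≤ BSet.eq (mq a x) (mq a y) := by
  rw [eq_mq]
  refine RO.le_def.2 fun q hq => mem_ec.2 fun f _ => ?_
  have hm : MeasurableSet (q.1 ∩ p.1) := q.2.1.inter p.2.1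
  by_cases h0 : μ (q.1 ∩ p.1) = 0
  · filter_upwards [measure_eq_zero_iff_ae_notMem.1 h0] with ω h1 h2 h3
    exact absurd ⟨h2, h3⟩ h1
  · let q' : Ps μ := ⟨q.1 ∩ p.1, hm, pos_iff_ne_zero.2 h0⟩
    have hq' : F q' fun G => NG.mk G (nx x) = NG.mk G (nx y) :=
      F.mono (p := q) (show q' ≤ q from Set.inter_subset_left) (F.eq.2 hq)
    have hq2 : F q' fun G => NG.mk G (nx y) = NG.mk G (nx x) := fun G hG => (hq' G hG).symm
    have h1 : ∀ b, On (nu p) (q.1 ∩ p.1) fun ω => ω ∈ S.hv x b → ω ∈ S.hv y b := by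
      intro b
      rw [hS]
      exact ae_restrict_of_ae (ihv_imp hq' b)
    have h2 : ∀ b, On (nu p) (q.1 ∩ p.1) fun ω => ω ∈ S.hv y b → ω ∈ S.hv x b := by
      intro b
      rw [hS]
      exact ae_restrict_of_ae (ihv_imp hq2 b)
    have h3 : On (nu p) (q.1 ∩ p.1) fun ω => f.f x ω = f.f y ω := by
      refine cf_ext f fun U => ?_
      filter_upwards [op_imp hm h1 U.2, op_imp hm h2 U.2] with ω h4 h5 h6
      exact ⟨h4 h6, h5 h6⟩
    have h4 := (ae_restrict_iff' p.2.1).1 h3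
    filter_upwards [h4] with ω h5 h6 h7
    exact h5 h7 ⟨h6, h7⟩

theorem gm_val (hS : S.hv = ihv nx nb h) (a : Set (CF S.sp)) (G : Ult (RO (Ps μ))) (x : X)
    (y : NG G) : Val (EG G) (NG.mk G (gm nx a)) (NG.mk G (nx x)) y ↔ y = NG.mk G (mq a x) :=
  gr_val (f := id) (fun x y => gm_le hS a x y) G x y

theorem gm_fun (hS : S.hv = ihv nx nb h) (a : Set (CF S.sp)) (G : Ult (RO (Ps μ))) :
    IsFun (EG G) (NG.mk G (gm nx a)) (NG.mk G (al nx)) :=
  gr_fun (f := id) (fun x y => gm_le hS a x y) G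

theorem gm_to (nx : X → BSet (RO (Ps μ))) (a : Set (CF S.sp)) (G : Ult (RO (Ps μ))) (x y : NG G)
    (hxy : Val (EG G) (NG.mk G (gm nx a)) x y) : EG G y (NG.mk G (al (mq a))) :=
  gr_to nx (mq a) id G x y hxy

end RNP
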