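import Pool.Agent.RNP.ImA
import Pool.Agent.RNP.Fr

/-! # The image space is a Hausdorff space (package W11)

(problem MP_9bfcae_gt, Part II)

* `im_sp`: `CPI.CSp`. Cover: the empty box (`bx ∅ x = univ`, truth value `cl μ p.1 = up p`, `RVI.up_eq`). Directed: for boxes `e`, `e'` the box
  `e ∪ e'`: `bx (e ∪ e') z = bx e z ∩ bx e' z`. Use `F_all_al` for the bounded quantifiers (`∀ y ∈ al (mq a)`, `∀ b ∈ al (kb a)`) or `RVI.st_all`
  with `G` fixed (the hypotheses `RO.up p ∈ G.s`, `CPI.F`), `mr_val`, `RVI.al_mem`.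
* `im_hd`: `CPI.CHd`. Let `q ≤ p` force `mq a x ≠ mq a y` (reduce to these names by `F_all_al`). Then `q ∉ ec a x y` (`eq_mq`, `F.eq`, `F.no`), so for some `f ∈ a`
  the set `{ω ∈ q | f x ω ≠ f y ω}` has positive measure, and so does (for some rational `r`) `q1 := {ω ∈ q | f x ω < r < f y ω}` or the same
  with `x` and `y` exchanged. Boxes `{(f, r, true)}` and `{(f, r, false)}` (in this or in the other order) are disjoint; `q1` forces the
  membership. Use `F.loc` (apply it to an arbitrary condition `≤ q`, which also forces the inequality). -/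

set_option autoImplicit false

namespace RNP

open MeasureTheory STP STP.BSet RVI
open CPI (F TV tv kn)

variable {Ω : Type} [MeasurableSpace Ω] {μ : Measure Ω} [IsProbabilityMeasure μ] {X T : Type}
  {p : Ps μ} {S : BSp (nu p) X T}

private theorem imb_mono {G : Ult (RO (Ps μ))} {A B : Set Ω} (hA : MeasurableSet A)
    (hB : MeasurableSet B) (h : A ⊆ B) (hG : cl μ A ∈ G.s) : cl μ B ∈ G.s :=
  G.up hG ((cl_le hA.nullMeasurableSet hB.nullMeasurableSet).2
    (Filter.Eventually.of_forall fun _ hω => h hω))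

omit [IsProbabilityMeasure μ] in
private theorem imb_meas (e : Finset (CF S × ℚ × Bool)) (x : X) :
    MeasurableSet (p.1 ∩ bx e x) := p.2.1.inter (bx_meas e x)

omit [IsProbabilityMeasure μ] in
private theorem bx_union [DecidableEq (CF S × ℚ × Bool)] (e e' : Finset (CF S × ℚ × Bool))
    (x : X) : bx (e ∪ e') x = bx e x ∩ bx e' x := by
  ext ω
  constructor
  · intro h
    exact ⟨fun t ht => h t (Finset.mem_union_left _ ht),
      fun t ht => h t (Finset.mem_union_right _ ht)⟩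
  · rintro ⟨h1, h2⟩ t ht
    rcases Finset.mem_union.1 ht with ht | ht
    · exact h1 t ht
    · exact h2 t ht

theorem im_sp (a : Set (CF S)) : F p fun G =>
    CPI.CSp (EG G) (NG.mk G (al (mq a))) (NG.mk G (al (kb a))) (NG.mk G (mr a)) := by
  classical
  have h1 : F p fun G => ∀ y, EG G y (NG.mk G (al (mq a))) →
      ∃ b, EG G b (NG.mk G (al (kb a))) ∧ Val (EG G) (NG.mk G (mr a)) y b := by
    refine F_all_al.2 fun x => fun G hG => ?_
    refine ⟨NG.mk G (kb a ⟨∅, fun t ht => absurd ht (Finset.notMem_empty t)⟩), al_mem _ G _, ?_⟩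
    refine (mr_val a G x _).2 ?_
    rw [up_eq] at hG
    exact imb_mono p.2.1 (imb_meas _ x) (fun ω hω =>
      ⟨hω, fun t ht => absurd ht (Finset.notMem_empty t)⟩) hG
  have h2 : F p fun G => ∀ y, EG G y (NG.mk G (al (mq a))) →
      ∀ b, EG G b (NG.mk G (al (kb a))) → ∀ b', EG G b' (NG.mk G (al (kb a))) →
      Val (EG G) (NG.mk G (mr a)) y b → Val (EG G) (NG.mk G (mr a)) y b' →
      ∃ c, EG G c (NG.mk G (al (kb a))) ∧ Val (EG G) (NG.mk G (mr a)) y c ∧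
        ∀ z, EG G z (NG.mk G (al (mq a))) → Val (EG G) (NG.mk G (mr a)) z c →
          Val (EG G) (NG.mk G (mr a)) z b ∧ Val (EG G) (NG.mk G (mr a)) z b' := by
    refine F_all_al.2 fun x => F_all_al.2 fun e => F_all_al.2 fun e' => ?_
    intro G hG hx hx'
    have he : ∀ t ∈ e.1 ∪ e'.1, t.1 ∈ a := fun t ht => by
      rcases Finset.mem_union.1 ht with ht | ht
      · exact e.2 t ht
      · exact e'.2 t ht
    refine ⟨NG.mk G (kb a ⟨e.1 ∪ e'.1, he⟩), al_mem _ G _, ?_, ?_⟩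
    · refine (mr_val a G x _).2 ?_
      have h3 : cl μ ((p.1 ∩ bx e.1 x) ∩ (p.1 ∩ bx e'.1 x)) ∈ G.s := by
        rw [cl_inter (imb_meas _ x).nullMeasurableSet (imb_meas _ x).nullMeasurableSet]
        exact CPI.inf_mem.2 ⟨(mr_val a G x _).1 hx, (mr_val a G x _).1 hx'⟩
      refine imb_mono ((imb_meas _ x).inter (imb_meas _ x)) (imb_meas _ x) ?_ h3
      intro ω hω
      refine ⟨hω.1.1, ?_⟩
      rw [bx_union]
      exact ⟨hω.1.2, hω.2.2⟩
    · intro z hz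
      refine st_all (mq a) (fun _ => ⊤) (fun G z => Val (EG G) (NG.mk G (mr a)) z
        (NG.mk G (kb a ⟨e.1 ∪ e'.1, he⟩)) → Val (EG G) (NG.mk G (mr a)) z (NG.mk G (kb a e)) ∧
        Val (EG G) (NG.mk G (mr a)) z (NG.mk G (kb a e'))) ?_ G z hz
      intro z G _ h3
      have h4 := (mr_val a G z _).1 h3
      refine ⟨(mr_val a G z _).2 ?_, (mr_val a G z _).2 ?_⟩
      · refine imb_mono (imb_meas _ z) (imb_meas _ z) ?_ h4
        intro ω hω
        rw [bx_union] at hω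
        exact ⟨hω.1, hω.2.1⟩
      · refine imb_mono (imb_meas _ z) (imb_meas _ z) ?_ h4
        intro ω hω
        rw [bx_union] at hω
        exact ⟨hω.1, hω.2.2⟩
  exact fun G hG => ⟨h1 G hG, fun y b b' hy hb hb' hyb hyb' =>
    h2 G hG y hy b hb b' hb' hyb hyb'⟩

private theorem im_hd_aux (a : Set (CF S)) {f : CF S} (hf : f ∈ a) (x y : X) {q : Ps μ}
    (hq : q ≤ p) (r : ℚ) (h : μ (q.1 ∩ {ω | f.f x ω < r ∧ (r : ℝ) < f.f y ω}) ≠ 0) :
    ∃ s ≤ q, ∃ e e' : Ea a, ∀ G : Ult (RO (Ps μ)), RO.up s ∈ G.s →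
      Val (EG G) (NG.mk G (mr a)) (NG.mk G (mq a x)) (NG.mk G (kb a e)) ∧
      Val (EG G) (NG.mk G (mr a)) (NG.mk G (mq a y)) (NG.mk G (kb a e')) ∧
      ∀ z, EG G z (NG.mk G (al (mq a))) →
        ¬ (Val (EG G) (NG.mk G (mr a)) z (NG.mk G (kb a e)) ∧
          Val (EG G) (NG.mk G (mr a)) z (NG.mk G (kb a e'))) := by
  have hm : MeasurableSet {ω | f.f x ω < r ∧ (r : ℝ) < f.f y ω} :=
    (measurableSet_lt (f.meas x) measurable_const).inter
      (measurableSet_lt measurable_const (f.meas y))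
  let e : Ea a := ⟨{(f, r, true)}, fun t ht => by
    rw [Finset.mem_singleton] at ht
    rw [ht]
    exact hf⟩
  let e' : Ea a := ⟨{(f, r, false)}, fun t ht => by
    rw [Finset.mem_singleton] at ht
    rw [ht]
    exact hf⟩
  have he : ∀ z ω, ω ∈ bx e.1 z ↔ f.f z ω < r := by
    intro z ω
    simp [bx, e]
  have he' : ∀ z ω, ω ∈ bx e'.1 z ↔ (r : ℝ) < f.f z ω := by
    intro z ω
    simp [bx, e']
  refine ⟨⟨q.1 ∩ {ω | f.f x ω < r ∧ (r : ℝ) < f.f y ω}, q.2.1.inter hm,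
    pos_iff_ne_zero.2 h⟩, fun ω hω => hω.1, e, e', fun G hG => ⟨?_, ?_, ?_⟩⟩
  · rw [up_eq] at hG
    refine (mr_val a G x e).2 (imb_mono (q.2.1.inter hm) (imb_meas _ x) ?_ hG)
    exact fun ω hω => ⟨hq hω.1, (he x ω).2 hω.2.1⟩
  · rw [up_eq] at hG
    refine (mr_val a G y e').2 (imb_mono (q.2.1.inter hm) (imb_meas _ y) ?_ hG)
    exact fun ω hω => ⟨hq hω.1, (he' y ω).2 hω.2.2⟩
  · intro z hz
    refine st_all (mq a) (fun _ => ⊤) (fun G z => ¬ (Val (EG G) (NG.mk G (mr a)) z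
      (NG.mk G (kb a e)) ∧ Val (EG G) (NG.mk G (mr a)) z (NG.mk G (kb a e')))) ?_ G z hz
    rintro z G _ ⟨h1, h2⟩
    have h3 : cl μ ((p.1 ∩ bx e.1 z) ∩ (p.1 ∩ bx e'.1 z)) ∈ G.s := by
      rw [cl_inter (imb_meas _ z).nullMeasurableSet (imb_meas _ z).nullMeasurableSet]
      exact CPI.inf_mem.2 ⟨(mr_val a G z _).1 h1, (mr_val a G z _).1 h2⟩
    have h4 : (p.1 ∩ bx e.1 z) ∩ (p.1 ∩ bx e'.1 z) = ∅ := by
      ext ω
      simp only [Set.mem_inter_iff, Set.mem_empty_iff_false, iff_false, he, he']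
      rintro ⟨⟨-, h5⟩, -, h6⟩
      exact lt_asymm h5 h6
    rw [h4, cl_empty] at h3
    exact G.bot h3

theorem im_hd (a : Set (CF S)) : F p fun G =>
    CPI.CHd (EG G) (NG.mk G (al (mq a))) (NG.mk G (al (kb a))) (NG.mk G (mr a)) := by
  have h1 : F p fun G => ∀ x, EG G x (NG.mk G (al (mq a))) →
      ∀ y, EG G y (NG.mk G (al (mq a))) → ¬ (x = y) →
      ∃ b c, EG G b (NG.mk G (al (kb a))) ∧ EG G c (NG.mk G (al (kb a))) ∧
        Val (EG G) (NG.mk G (mr a)) x b ∧ Val (EG G) (NG.mk G (mr a)) y c ∧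
        ∀ z, EG G z (NG.mk G (al (mq a))) →
          ¬ (Val (EG G) (NG.mk G (mr a)) z b ∧ Val (EG G) (NG.mk G (mr a)) z c) := by
    refine F_all_al.2 fun x => F_all_al.2 fun y => F.imp.2 fun q hq h1 => F.loc fun t ht => ?_
    have h2 : ¬ (t ∈ ec a x y) := by
      intro h3
      rw [← eq_mq, ← F.eq] at h3
      exact F.no.1 h1 t ht h3
    unfold ec at h2
    rw [RO.mem_iInf] at h2
    push Not at h2
    obtain ⟨⟨f, hf⟩, h3⟩ := h2
    have hm : MeasurableSet {ω | ω ∈ p.1 → f.f x ω = f.f y ω} := by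
      have h4 : {ω | ω ∈ p.1 → f.f x ω = f.f y ω} = p.1ᶜ ∪ {ω | f.f x ω = f.f y ω} := by
        ext ω
        simp only [Set.mem_ofPred_eq, Set.mem_union, Set.mem_compl_iff]
        tauto
      rw [h4]
      exact p.2.1.compl.union (measurableSet_eq_fun (f.meas x) (f.meas y))
    rw [mem_cl hm.nullMeasurableSet] at h3
    have h5 : t.1 \ {ω | ω ∈ p.1 → f.f x ω = f.f y ω} ⊆
        ⋃ r : ℚ, ((t.1 ∩ {ω | f.f x ω < r ∧ (r : ℝ) < f.f y ω}) ∪
          (t.1 ∩ {ω | f.f y ω < r ∧ (r : ℝ) < f.f x ω})) := by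
      rintro ω ⟨hω, h6⟩
      have h7 : f.f x ω ≠ f.f y ω := fun h8 => h6 fun _ => h8
      rcases lt_or_gt_of_ne h7 with h8 | h8
      · obtain ⟨r, hr⟩ := exists_rat_btwn h8
        exact Set.mem_iUnion.2 ⟨r, Or.inl ⟨hω, hr⟩⟩
      · obtain ⟨r, hr⟩ := exists_rat_btwn h8
        exact Set.mem_iUnion.2 ⟨r, Or.inr ⟨hω, hr⟩⟩
    have h6 : ∃ r : ℚ, μ (t.1 ∩ {ω | f.f x ω < r ∧ (r : ℝ) < f.f y ω}) ≠ 0 ∨
        μ (t.1 ∩ {ω | f.f y ω < r ∧ (r : ℝ) < f.f x ω}) ≠ 0 := by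
      by_contra hcon
      push Not at hcon
      refine h3 (measure_mono_null h5 (measure_iUnion_null fun r => ?_))
      exact measure_union_null (hcon r).1 (hcon r).2
    obtain ⟨r, h7 | h7⟩ := h6
    · obtain ⟨s, hs, e, e', h8⟩ := im_hd_aux a hf x y (ht.trans hq) r h7
      refine ⟨s, hs, fun G hG => ?_⟩
      obtain ⟨h9, h10, h11⟩ := h8 G hG
      exact ⟨_, _, al_mem _ G e, al_mem _ G e', h9, h10, h11⟩
    · obtain ⟨s, hs, e, e', h8⟩ := im_hd_aux a hf y x (ht.trans hq) r h7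
      refine ⟨s, hs, fun G hG => ?_⟩
      obtain ⟨h9, h10, h11⟩ := h8 G hG
      exact ⟨_, _, al_mem _ G e', al_mem _ G e, h10, h9, fun z hz h12 =>
        h11 z hz ⟨h12.2, h12.1⟩⟩
  exact fun G hG x y hx hy hxy => h1 G hG x hx y hy hxy

end RNP
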