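import Pool.Agent.RNP.ImA
import Pool.Agent.RNP.Fr

/-! # The image space is a continuous image (package W12)

(problem MP_9bfcae_gt, Part II)

`RNC.IsIm` with the map `gm nx a`: it is a function with domain `al nx` (`gm_fun`), its values are in `al (mq a)` (`gm_to`), it is onto
(`RVI.st_all` for `al (mq a)`, `gm_val`). Continuity: the statement `∀ x y c, Val g x y → c ∈ al (kb a) → Val m y c → ∃ b ∈ al nb, Val h x b ∧
∀ x' y', x' ∈ al nx → Val h x' b → Val g x' y' → Val m y' c`. Reduce to `x = nx x`, `c = kb a e` (the first component of a pair in `g` is in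
`al nx`: `IsFun`; reorder the hypotheses, `F_all_al`), `y = mq a x` (`gm_val`). Let `q ≤ p` force `Val m (mq a x) (kb a e)`, i.e. (`mr_val`,
`RVI.mem_cl`) `ω ∈ bx e.1 x` almost everywhere on `q`. The box is open: `boxT` (file `Box.lean`) for `S.sp` gives an open `U` (`IsOp S U.1`) with
`U.1 z = bx e.1 z` almost everywhere (for `nu p`) for all `z`. As `x ∈ U` on `q`, `IsOp` gives `r ⊆ q` and `b` with `x ∈ b` on `r` and for all `z`:
`z ∈ b → z ∈ U` on `r`. The condition `r ∩ p` forces `Val h (nx x) (nb b)` (`S.hv = ihv`, `F_ts`) and for every `x'`: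
`Val h (nx x') (nb b) → Val m (mq a x') (kb a e)` (`F_imp_ts`, or: `F.imp`; every `r' ≤ r` that forces the premise is almost contained in `bx e.1 x'`). -/

set_option autoImplicit false

namespace RNP

open MeasureTheory STP STP.BSet RVI
open CPI (F TV tv kn)

variable {Ω : Type} [MeasurableSpace Ω] {μ : Measure Ω} [IsProbabilityMeasure μ] {X C : Type}
  {p : Ps μ} {S : BCd (nu p) X C} {nx : X → BSet (RO (Ps μ))} {nb : C → BSet (RO (Ps μ))}
  {h : BSet (RO (Ps μ))}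

private theorem imc_key (hS : S.hv = ihv nx nb h) (a : Set (CF S.sp)) (x : X) (e : Ea a)
    {r : Ps μ} (hr : r ≤ p)
    (hx : F r fun G => Val (EG G) (NG.mk G (mr a)) (NG.mk G (mq a x)) (NG.mk G (kb a e))) :
    ∃ s ≤ r, ∃ b, (F s fun G => Val (EG G) (NG.mk G h) (NG.mk G (nx x)) (NG.mk G (nb b))) ∧
      ∀ x', F s fun G => Val (EG G) (NG.mk G h) (NG.mk G (nx x')) (NG.mk G (nb b)) →
        Val (EG G) (NG.mk G (mr a)) (NG.mk G (mq a x')) (NG.mk G (kb a e)) := by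
  have hm : ∀ z, MeasurableSet (p.1 ∩ bx e.1 z) := fun z => p.2.1.inter (bx_meas e.1 z)
  rw [F_of_cl (hm x) fun G => mr_val a G x e] at hx
  obtain ⟨U, hU⟩ := boxT (S := S.sp) e.1
  have hU' : ∀ z, ∀ᵐ ω ∂μ, ω ∈ p.1 → (ω ∈ U.1 z ↔ ω ∈ bx e.1 z) := fun z =>
    (ae_restrict_iff' p.2.1).1 (hU z)
  have h1 : On (nu p) r.1 fun ω => ω ∈ U.1 x := by
    rw [on_of_le hr]
    filter_upwards [hx, hU' x] with ω h2 h3 h4
    exact (h3 (h2 h4).1).2 (h2 h4).2
  obtain ⟨t, htr, ht, b, hb1, hb2⟩ := U.2.2 x r.1 (pos_of_le hr) h1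
  have hs : cd ht ≤ r := fun ω hω => htr hω.1
  refine ⟨cd ht, hs, b, ?_, fun x' => ?_⟩
  · rw [F_ts]
    refine (on_cd ht).2 ?_
    rw [hS] at hb1
    exact hb1
  · rw [CPI.F.imp]
    intro u hu hu1
    rw [F_ts] at hu1
    rw [F_of_cl (hm x') fun G => mr_val a G x' e]
    have h2 := (on_cd ht).2 (hb2 x')
    rw [hS] at h2
    filter_upwards [hu1, h2, hU' x'] with ω h3 h4 h5 h6
    have h7 : ω ∈ (cd ht).1 := hu h6
    exact ⟨h7.2, (h5 h7.2).1 (h4 h7 (h3 h6))⟩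

private theorem imc_cont (hS : S.hv = ihv nx nb h) (a : Set (CF S.sp)) : F p fun G =>
    ∀ x, EG G x (NG.mk G (al nx)) → ∀ c, EG G c (NG.mk G (al (kb a))) →
      ∀ y, Val (EG G) (NG.mk G (gm nx a)) x y → Val (EG G) (NG.mk G (mr a)) y c →
        ∃ b, EG G b (NG.mk G (al nb)) ∧ (Val (EG G) (NG.mk G h) x b ∧
          ∀ x', EG G x' (NG.mk G (al nx)) → Val (EG G) (NG.mk G h) x' b →
            ∀ y', Val (EG G) (NG.mk G (gm nx a)) x' y' → Val (EG G) (NG.mk G (mr a)) y' c) := by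
  refine F_all_al.2 fun x => F_all_al.2 fun e => ?_
  have key : F p fun G =>
      Val (EG G) (NG.mk G (mr a)) (NG.mk G (mq a x)) (NG.mk G (kb a e)) →
        ∃ b, EG G b (NG.mk G (al nb)) ∧ (Val (EG G) (NG.mk G h) (NG.mk G (nx x)) b ∧
          ∀ x', EG G x' (NG.mk G (al nx)) → Val (EG G) (NG.mk G h) x' b →
            ∀ y', Val (EG G) (NG.mk G (gm nx a)) x' y' →
              Val (EG G) (NG.mk G (mr a)) y' (NG.mk G (kb a e))) := by
    rw [CPI.F.imp]
    intro q hq hq1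
    refine F_ex_al.2 fun r hr => ?_
    obtain ⟨s, hs, b, hs1, hs2⟩ := imc_key hS a x e (hr.trans hq) (CPI.F.mono hr hq1)
    refine ⟨s, hs, b, CPI.F.and.2 ⟨hs1, F_all_al.2 fun x' G hG hv y' hy' => ?_⟩⟩
    rw [gm_val hS a G x'] at hy'
    subst hy'
    exact hs2 x' G hG hv
  intro G hG y hy hm
  have hy := (gm_val hS a G x y).1 hy
  subst hy
  exact key G hG hm

theorem im_im (hS : S.hv = ihv nx nb h) (a : Set (CF S.sp)) : F p fun G =>
    RNC.IsIm (EG G) (NG.mk G (al nx)) (NG.mk G (al nb)) (NG.mk G h)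
      (NG.mk G (al (mq a))) (NG.mk G (al (kb a))) (NG.mk G (mr a)) := by
  intro G hG
  refine ⟨NG.mk G (gm nx a), ⟨gm_fun hS a G, fun x y hxy => gm_to nx a G x y hxy, ?_⟩, ?_⟩
  · intro x y c hxy hc hm
    have hx : EG G x (NG.mk G (al nx)) := by
      obtain ⟨q, hq, hop⟩ := hxy
      obtain ⟨x1, y1, hx1, hop1⟩ := (gm_fun hS a G).1 q hq
      rw [(IsOP.inj (NG_zfc G) hop hop1).1]
      exact hx1
    obtain ⟨b, hb, hb1, hb2⟩ := imc_cont hS a G hG x hx c hc y hxy hm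
    exact ⟨b, hb, hb1, fun x' y' hx' h1 h2 => hb2 x' hx' h1 y' h2⟩
  · intro y hy
    exact st_all (mq a) (fun _ => ⊤) (fun G y => ∃ x, Val (EG G) (NG.mk G (gm nx a)) x y)
      (fun x G _ => ⟨NG.mk G (nx x), (gm_val hS a G x _).2 rfl⟩) G y hy

end RNP
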