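import Pool.Agent.RNP.Defs

/-! # Operations on names of open sets (package C02)

(problem MP_9bfcae_gt, Part II)

All statements follow from the fields `top`, `inter`, `join` of `BSp`.
* `S.union c U`: `join` in the form of an equivalence when the index type is countable: the
  direction `←` is the first part of `join` (`ae_all_iff`). Direction `→`: let `q` be the measurable set
  of all `ω ∈ mem x W` which are in no `c i ∩ mem x (U i)`; if `ν q ≠ 0`, the second part of `join` gives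
  `r ⊆ q` of positive measure and `i` with `ω ∈ c i ∩ mem x (U i)` for almost all `ω ∈ r`: contradiction.
* `S.empty`: `union` for the index type `Empty`. `S.cap`: `union` for `Unit`. `S.cup`: `union` for `Bool` with
  `c = univ`.
* `S.glue`: `union` for `ℕ` with disjoint `c i`: on `c i` only the index `i` contributes.
* `S.finInter`: induction on the finset, from `top` and `inter`. `S.finUnion`: induction from
  `empty`, `cup`. -/

set_option autoImplicit false

namespace RNP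

open MeasureTheory

variable {Ω : Type} [MeasurableSpace Ω] {ν : Measure Ω} {X T : Type} (S : BSp ν X T)

theorem BSp.union {I : Type} [Countable I] (c : I → Set Ω) (hc : ∀ i, MeasurableSet (c i))
    (U : I → T) : ∃ W, ∀ x, ∀ᵐ ω ∂ν, (ω ∈ S.mem x W ↔ ∃ i, ω ∈ c i ∧ ω ∈ S.mem x (U i)) := by
  obtain ⟨W, h1, h2⟩ := S.join I c U hc
  refine ⟨W, fun x => ?_⟩
  have h3 : ∀ᵐ ω ∂ν, ∀ i, ω ∈ c i → ω ∈ S.mem x (U i) → ω ∈ S.mem x W :=
    ae_all_iff.2 fun i => h1 i x
  have hqm : MeasurableSet (S.mem x W \ ⋃ i, (c i ∩ S.mem x (U i))) :=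
    (S.meas x W).diff (MeasurableSet.iUnion fun i => (hc i).inter (S.meas x (U i)))
  have h4 : ν (S.mem x W \ ⋃ i, (c i ∩ S.mem x (U i))) = 0 := by
    by_contra hne
    obtain ⟨r, hrq, hr, i, hi⟩ := h2 x _ ⟨hqm, hne⟩ (ae_of_all _ fun ω hω => hω.1)
    apply hr.2
    refine measure_eq_zero_iff_ae_notMem.2 ?_
    filter_upwards [hi] with ω hω hωr
    exact (hrq hωr).2 (Set.mem_iUnion.2 ⟨i, hω hωr⟩)
  filter_upwards [h3, measure_eq_zero_iff_ae_notMem.1 h4] with ω ha hb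
  constructor
  · intro hw
    by_contra hcon
    refine hb ⟨hw, fun h => ?_⟩
    obtain ⟨i, hi⟩ := Set.mem_iUnion.1 h
    exact hcon ⟨i, hi⟩
  · rintro ⟨i, hi1, hi2⟩
    exact ha i hi1 hi2

theorem BSp.empty : ∃ W, ∀ x, ∀ᵐ ω ∂ν, ω ∉ S.mem x W := by
  obtain ⟨W, hW⟩ := S.union (I := Empty) (fun i => i.elim) (fun i => i.elim) fun i => i.elim
  refine ⟨W, fun x => ?_⟩
  filter_upwards [hW x] with ω hω h
  obtain ⟨i, -⟩ := hω.1 h
  exact i.elim

theorem BSp.cap {c : Set Ω} (hc : MeasurableSet c) (U : T) :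
    ∃ W, ∀ x, ∀ᵐ ω ∂ν, (ω ∈ S.mem x W ↔ ω ∈ c ∧ ω ∈ S.mem x U) := by
  obtain ⟨W, hW⟩ := S.union (I := Unit) (fun _ => c) (fun _ => hc) fun _ => U
  refine ⟨W, fun x => ?_⟩
  filter_upwards [hW x] with ω hω
  exact hω.trans ⟨fun ⟨_, h⟩ => h, fun h => ⟨(), h⟩⟩

theorem BSp.cup (U V : T) :
    ∃ W, ∀ x, ∀ᵐ ω ∂ν, (ω ∈ S.mem x W ↔ ω ∈ S.mem x U ∨ ω ∈ S.mem x V) := by
  obtain ⟨W, hW⟩ := S.union (I := Bool) (fun _ => Set.univ) (fun _ => MeasurableSet.univ)
    fun b => if b then U else V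
  refine ⟨W, fun x => ?_⟩
  filter_upwards [hW x] with ω hω
  rw [hω, Bool.exists_bool]
  simp [or_comm]

theorem BSp.glue (c : ℕ → Set Ω) (hc : ∀ i, MeasurableSet (c i))
    (hd : Pairwise fun i j => Disjoint (c i) (c j)) (U : ℕ → T) :
    ∃ W, ∀ x i, On ν (c i) fun ω => (ω ∈ S.mem x W ↔ ω ∈ S.mem x (U i)) := by
  obtain ⟨W, hW⟩ := S.union c hc U
  refine ⟨W, fun x i => ?_⟩
  filter_upwards [hW x] with ω hω hi
  rw [hω]
  constructor
  · rintro ⟨j, hj1, hj2⟩
    by_cases hij : i = j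
    · rw [hij]
      exact hj2
    · exact absurd hj1 (Set.disjoint_left.1 (hd hij) hi)
  · intro h
    exact ⟨i, hi, h⟩

theorem BSp.finInter {I : Type} (J : Finset I) (U : I → T) :
    ∃ W, ∀ x, ∀ᵐ ω ∂ν, (ω ∈ S.mem x W ↔ ∀ i ∈ J, ω ∈ S.mem x (U i)) := by
  classical
  induction J using Finset.induction_on with
  | empty =>
    obtain ⟨W, hW⟩ := S.top
    refine ⟨W, fun x => ?_⟩
    filter_upwards [hW x] with ω hω
    simp [hω]
  | insert i J hi ih =>
    obtain ⟨W, hW⟩ := ih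
    obtain ⟨W', hW'⟩ := S.inter (U i) W
    refine ⟨W', fun x => ?_⟩
    filter_upwards [hW x, hW' x] with ω h1 h2
    rw [h2, h1, Finset.forall_mem_insert]

theorem BSp.finUnion {I : Type} (J : Finset I) (U : I → T) :
    ∃ W, ∀ x, ∀ᵐ ω ∂ν, (ω ∈ S.mem x W ↔ ∃ i ∈ J, ω ∈ S.mem x (U i)) := by
  classical
  induction J using Finset.induction_on with
  | empty =>
    obtain ⟨W, hW⟩ := S.empty
    refine ⟨W, fun x => ?_⟩
    filter_upwards [hW x] with ω hω
    simp [hω]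
  | insert i J hi ih =>
    obtain ⟨W, hW⟩ := ih
    obtain ⟨W', hW'⟩ := S.cup (U i) W
    refine ⟨W', fun x => ?_⟩
    filter_upwards [hW x, hW' x] with ω h1 h2
    rw [h2, h1, Finset.exists_mem_insert]

end RNP
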