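import Pool.Agent.RNP.Exh
import Pool.Agent.RNP.Ops

/-! # The maximum principle for names of open sets (package C03)

(problem MP_9bfcae_gt, Part II)

`maxp`: a local statement `Φ` about families of names of open sets, which is densely true for some
family, is true for one family. Proof: `exh` with `G s := ∃ U, Φ s U` gives pairwise disjoint measurable
`c i ⊆ q` which cover `q` up to a null set, and `Φ (c i) (U i)` if `ν (c i) ≠ 0` (for the other `i` choose
`U i` arbitrarily, for instance constant: there is a name by `S.top`). For each `k` apply `S.glue` to the names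
`U i k`, `i ∈ ℕ`: `W k`. By `ext` `Φ (c i) W` if `ν (c i) ≠ 0`, so `Φ q W` by `loc`. -/

set_option autoImplicit false

namespace RNP

open MeasureTheory

variable {Ω : Type} [MeasurableSpace Ω] {ν : Measure Ω} [IsFiniteMeasure ν] {X T : Type}
  (S : BSp ν X T)

theorem BSp.maxp {ι : Type} (Φ : Set Ω → (ι → T) → Prop)
    (ext : ∀ q (U V : ι → T), MeasurableSet q →
      (∀ k x, On ν q fun ω => (ω ∈ S.mem x (U k) ↔ ω ∈ S.mem x (V k))) → Φ q U → Φ q V)
    (loc : ∀ q (U : ι → T) (c : ℕ → Set Ω), MeasurableSet q → (∀ i, MeasurableSet (c i)) →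
      (∀ i, c i ⊆ q) → (On ν q fun ω => ∃ i, ω ∈ c i) → (∀ i, ν (c i) ≠ 0 → Φ (c i) U) → Φ q U)
    {q : Set Ω} (hq : MeasurableSet q)
    (h : ∀ r ⊆ q, Pos ν r → ∃ s ⊆ r, Pos ν s ∧ ∃ U, Φ s U) : ∃ U, Φ q U := by
  obtain ⟨c, hc, hcq, hd, hG, hcov⟩ := exh ν (fun s => ∃ U, Φ s U) hq h
  obtain ⟨U0, -⟩ := S.top
  have h1 : ∀ i, ∃ U : ι → T, ν (c i) ≠ 0 → Φ (c i) U := by
    intro i
    by_cases hi : ν (c i) = 0
    · exact ⟨fun _ => U0, fun h => absurd hi h⟩
    · obtain ⟨U, hU⟩ := hG i hi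
      exact ⟨U, fun _ => hU⟩
  choose U hU using h1
  choose W hW using fun k => S.glue c hc hd fun i => U i k
  refine ⟨W, loc q W c hq hc hcq hcov fun i hi => ext (c i) (U i) W (hc i) (fun k x => ?_)
    (hU i hi)⟩
  filter_upwards [hW k x i] with ω hω hωc
  exact (hω hωc).symm

end RNP
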