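import Pool.Agent.RNP.Reg
import Pool.Agent.RNP.Maxp

/-! # Normality (package C05)

(problem MP_9bfcae_gt, Part II)

`S.ll U V`: the closure of `U` is contained in `V` (there is an open `W` which is disjoint from `U`
and covers the space together with `V`).
* `ll.sub`, `ll.trans` are trivial (for `trans` take the `W` of `ll U V`).
* `reg_ll`: from `S.reg` (`r`, `V0`, `W0`): `V := r ∩ V0` (`S.cap`), `W := W0 ∪ (rᶜ ∩ everything)`; these work on all of `Ω`.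
* `interp`: let `W` be given by `ll U V`: `U ∩ W = ∅`, `V ∪ W = everything`. It is enough to find disjoint `O1`,
  `O2` with `O1 ∪ W = everything`, `V ∪ O2 = everything`: then `Z := O1` (`ll U Z` by `W`, `ll Z V` by `O2`).
  By `S.maxp` (with `ι = Bool`, `q = univ`, `Φ q (O1, O2)` := for all `z`, almost everywhere on `q`: not `z ∈ O1 ∩ O2`,
  `z ∈ O1 ∪ W`, `z ∈ V ∪ O2`) it is enough to find for every condition `q` such names on some condition `r ⊆ q`.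
  Let `I` be the type of all triples `(A, B, c)` with `c ⊆ q` measurable and for all `z` almost everywhere on
  `c`: `¬ (z ∈ A ∧ z ∈ B)` and `z ∈ W ∨ z ∈ B`. Cover: `V` (for `none`) and `c ∩ A`. It is a cover in the sense of
  `cpt`: for `z` and `r ⊆ q`: if `r ∩ mem z V` is positive, take it; otherwise `z ∉ V`, so `z ∈ W` on
  `r`, and `S.reg` for `z ∈ W` gives `s`, `A`, `B`. Let `J` be the finite set, `r ⊆ q` the condition of `cpt`;
  `O2 := ⋃ (c ∩ A)`, `O1 := ⋂ ((c ∩ B) ∪ (cᶜ ∩ everything))`. On `r`: if `z ∈ O1 ∩ O2` then `z ∈ A`, `z ∈ B` for some triple with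
  `ω ∈ c`: impossible. `z ∈ W` or `z ∈ B` for all triples with `ω ∈ c`: so `z ∈ W ∪ O1`. `z ∈ V ∪ O2` by the choice of `J`. -/

set_option autoImplicit false

namespace RNP

open MeasureTheory

variable {Ω : Type} [MeasurableSpace Ω] {ν : Measure Ω} {X T : Type} (S : BSp ν X T)

/-- the closure of `U` is contained in `V` -/
def BSp.ll (U V : T) : Prop :=
  ∃ W, ∀ z, ∀ᵐ ω ∂ν, ¬ (ω ∈ S.mem z U ∧ ω ∈ S.mem z W) ∧ (ω ∈ S.mem z V ∨ ω ∈ S.mem z W)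

variable {S}

theorem BSp.ll.sub {U V : T} (h : S.ll U V) (z : X) : ∀ᵐ ω ∂ν, ω ∈ S.mem z U → ω ∈ S.mem z V := by
  obtain ⟨W, hW⟩ := h
  filter_upwards [hW z] with ω h1 h2
  exact h1.2.resolve_right fun h3 => h1.1 ⟨h2, h3⟩

theorem BSp.ll.trans {U V W : T} (h : S.ll U V) (h' : S.ll V W) : S.ll U W := by
  obtain ⟨O, hO⟩ := h
  refine ⟨O, fun z => ?_⟩
  filter_upwards [hO z, h'.sub z] with ω h1 h2
  exact ⟨h1.1, h1.2.imp_left h2⟩

private theorem in_ext (S : BSp ν X T) {c : Set Ω} (hc : MeasurableSet c) (B : T) :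
    ∃ N, ∀ x, ∀ᵐ ω ∂ν, (ω ∈ S.mem x N ↔ (ω ∈ c → ω ∈ S.mem x B)) := by
  obtain ⟨E, hE⟩ := S.top
  obtain ⟨N1, h1⟩ := S.cap hc B
  obtain ⟨N2, h2⟩ := S.cap hc.compl E
  obtain ⟨N, h3⟩ := S.cup N1 N2
  refine ⟨N, fun x => ?_⟩
  filter_upwards [hE x, h1 x, h2 x, h3 x] with ω e1 e2 e3 e4
  rw [e4, e2, e3]
  constructor
  · rintro (h | h) hω
    · exact h.2
    · exact absurd hω h.1
  · intro h
    by_cases hω : ω ∈ c
    · exact Or.inl ⟨hω, h hω⟩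
    · exact Or.inr ⟨hω, e1⟩

theorem BSp.reg_ll {x : X} {U : T} {q : Set Ω} (hq : Pos ν q)
    (hx : On ν q fun ω => ω ∈ S.mem x U) :
    ∃ r ⊆ q, Pos ν r ∧ ∃ V, S.ll V U ∧ On ν r fun ω => ω ∈ S.mem x V := by
  obtain ⟨r, hrq, hr, V0, W0, hx0, h0⟩ := S.reg hq hx
  obtain ⟨V, hV⟩ := S.cap hr.1 V0
  obtain ⟨W, hW⟩ := in_ext S hr.1 W0
  refine ⟨r, hrq, hr, V, ⟨W, fun z => ?_⟩, ?_⟩
  · filter_upwards [hV z, hW z, h0 z] with ω h1 h2 h3
    rw [h1, h2]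
    constructor
    · rintro ⟨⟨h4, h5⟩, h6⟩
      exact (h3 h4).1 ⟨h5, h6 h4⟩
    · by_cases hω : ω ∈ r
      · exact (h3 hω).2.imp_right fun h4 _ => h4
      · exact Or.inr fun h4 => absurd h4 hω
  · filter_upwards [hV x, hx0] with ω h1 h2 h3
    exact h1.2 ⟨h3, h2 h3⟩

/-- The local solution. -/
private theorem in_loc (S : BSp ν X T) {V W : T} (hVW : ∀ z, ∀ᵐ ω ∂ν, ω ∈ S.mem z V ∨ ω ∈ S.mem z W)
    {q : Set Ω} (hq : Pos ν q) : ∃ r ⊆ q, Pos ν r ∧ ∃ O1 O2, ∀ z, On ν r fun ω =>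
      ¬ (ω ∈ S.mem z O1 ∧ ω ∈ S.mem z O2) ∧ (ω ∈ S.mem z O1 ∨ ω ∈ S.mem z W) ∧
        (ω ∈ S.mem z V ∨ ω ∈ S.mem z O2) := by
  let I : Type := {t : T × T × Set Ω // MeasurableSet t.2.2 ∧
    ∀ z, On ν t.2.2 fun ω => ¬ (ω ∈ S.mem z t.1 ∧ ω ∈ S.mem z t.2.1) ∧
      (ω ∈ S.mem z W ∨ ω ∈ S.mem z t.2.1)}
  choose NA hNA using fun i : I => S.cap i.2.1 i.1.1
  choose NB hNB using fun i : I => in_ext S i.2.1 i.1.2.1
  obtain ⟨E, hE⟩ := S.top
  obtain ⟨N0, hN0⟩ := S.empty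
  obtain ⟨r, hrq, hr, J, hJ⟩ := S.cpt (Option I) (fun o => o.elim V NA) q hq (by
    intro x r hrq hr
    by_cases hp : ν (r ∩ S.mem x V) = 0
    · have h1 : On ν r fun ω => ω ∈ S.mem x W := by
        have h2 : ∀ᵐ ω ∂ν, ω ∉ r ∩ S.mem x V := measure_eq_zero_iff_ae_notMem.1 hp
        filter_upwards [h2, hVW x] with ω h3 h4 h5
        exact h4.resolve_left fun h6 => h3 ⟨h5, h6⟩
      obtain ⟨s, hsr, hs, A, B, h2, h3⟩ := S.reg hr h1
      refine ⟨s, hsr, hs, some ⟨(A, B, s), hs.1, h3⟩, ?_⟩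
      filter_upwards [hNA ⟨(A, B, s), hs.1, h3⟩ x, h2] with ω h4 h5 h6
      exact h4.2 ⟨h6, h5 h6⟩
    · refine ⟨r ∩ S.mem x V, Set.inter_subset_left, ⟨hr.1.inter (S.meas x V), hp⟩, none, ?_⟩
      exact Filter.Eventually.of_forall fun ω hω => hω.2)
  obtain ⟨O2, hO2⟩ := S.finUnion J fun o : Option I => o.elim N0 NA
  obtain ⟨O1, hO1⟩ := S.finInter J fun o : Option I => o.elim E NB
  refine ⟨r, hrq, hr, O1, O2, fun z => ?_⟩
  have hI : ∀ᵐ ω ∂ν, ∀ o ∈ J, ∀ i : I, o = some i →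
      (ω ∈ S.mem z (NA i) ↔ ω ∈ i.1.2.2 ∧ ω ∈ S.mem z i.1.1) ∧
      (ω ∈ S.mem z (NB i) ↔ (ω ∈ i.1.2.2 → ω ∈ S.mem z i.1.2.1)) ∧
      (ω ∈ i.1.2.2 → ¬ (ω ∈ S.mem z i.1.1 ∧ ω ∈ S.mem z i.1.2.1) ∧
        (ω ∈ S.mem z W ∨ ω ∈ S.mem z i.1.2.1)) := by
    rw [Filter.eventually_all_finset]
    intro o _
    rcases o with _ | i
    · exact Filter.Eventually.of_forall fun ω i h => absurd h (by simp)
    · filter_upwards [hNA i z, hNB i z, i.2.2 z] with ω h1 h2 h3 i' hi'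
      obtain rfl : i = i' := Option.some.inj hi'
      exact ⟨h1, h2, h3⟩
  filter_upwards [hI, hO1 z, hO2 z, hJ z, hN0 z, hE z] with ω e1 e2 e3 e4 e5 e6 hω
  rw [e2, e3]
  refine ⟨?_, ?_, ?_⟩
  · rintro ⟨h1, o, ho, h2⟩
    rcases o with _ | i
    · exact e5 h2
    · have h3 := e1 _ ho i rfl
      have h4 := h3.1.1 h2
      have h5 := h3.2.1.1 (h1 _ ho) h4.1
      exact (h3.2.2 h4.1).1 ⟨h4.2, h5⟩
  · by_cases hW : ω ∈ S.mem z W
    · exact Or.inr hW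
    · left
      intro o ho
      rcases o with _ | i
      · exact e6
      · have h3 := e1 _ ho i rfl
        exact h3.2.1.2 fun h4 => (h3.2.2 h4).2.resolve_left hW
  · obtain ⟨o, ho, h1⟩ := e4 hω
    rcases o with _ | i
    · exact Or.inl h1
    · exact Or.inr ⟨some i, ho, h1⟩

theorem BSp.interp [IsFiniteMeasure ν] {U V : T} (h : S.ll U V) : ∃ Z, S.ll U Z ∧ S.ll Z V := by
  obtain ⟨W, hW⟩ := h
  obtain ⟨O, hO⟩ := S.maxp (ι := Bool) (fun q O => ∀ z, On ν q fun ω =>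
      ¬ (ω ∈ S.mem z (O true) ∧ ω ∈ S.mem z (O false)) ∧
      (ω ∈ S.mem z (O true) ∨ ω ∈ S.mem z W) ∧ (ω ∈ S.mem z V ∨ ω ∈ S.mem z (O false)))
    (by
      intro q U1 V1 _ h1 h2 z
      filter_upwards [h1 true z, h1 false z, h2 z] with ω e1 e2 e3 hω
      rw [← e1 hω, ← e2 hω]
      exact e3 hω)
    (by
      intro q U1 c _ _ _ hcov h1 z
      have h2 : ∀ᵐ ω ∂ν, ∀ i, ω ∈ c i →
          ¬ (ω ∈ S.mem z (U1 true) ∧ ω ∈ S.mem z (U1 false)) ∧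
          (ω ∈ S.mem z (U1 true) ∨ ω ∈ S.mem z W) ∧
          (ω ∈ S.mem z V ∨ ω ∈ S.mem z (U1 false)) := by
        rw [ae_all_iff]
        intro i
        by_cases hi : ν (c i) = 0
        · filter_upwards [measure_eq_zero_iff_ae_notMem.1 hi] with ω h3 h4
          exact absurd h4 h3
        · exact h1 i hi z
      filter_upwards [h2, hcov] with ω h3 h4 hω
      obtain ⟨i, hi⟩ := h4 hω
      exact h3 i hi)
    MeasurableSet.univ
    (by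
      intro r _ hr
      obtain ⟨s, hsr, hs, O1, O2, h1⟩ := in_loc S (fun z => (hW z).mono fun ω h2 => h2.2) hr
      exact ⟨s, hsr, hs, fun b => if b then O1 else O2, h1⟩)
  refine ⟨O true, ⟨W, fun z => ?_⟩, ⟨O false, fun z => ?_⟩⟩
  · filter_upwards [hW z, hO z] with ω h1 h2
    have h3 := h2 (Set.mem_univ ω)
    exact ⟨h1.1, h3.2.1⟩
  · filter_upwards [hO z] with ω h2
    have h3 := h2 (Set.mem_univ ω)
    exact ⟨h3.1, h3.2.2⟩

end RNP
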