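import Pool.Agent.RNP.Exh
import Pool.Agent.RNP.Box
import Pool.Agent.RNP.EssInf

/-! # Lower semicontinuity for one small metric (package C13)

(problem MP_9bfcae_gt, Part II)

Apply `exh` with `q = univ` and `G s` := there are boxes `e`, `e'` over `a` with, almost everywhere on `s`,
`x ∈ bT e`, `y ∈ bT e'`, `m.d x y ≤ I (bT e) (bT e') + δ`. Given a condition `r`: the sets `{ω ∈ r | ρ < m.d x y ω ≤ ρ + δ}`, `ρ` rational,
cover `r`, so one of them, `s0`, has positive measure (`measure_iUnion_null` for the contrapositive). By `m.lsc` there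
are `p ⊆ s0` and `e`, `e'` over `a` with `x ∈ bx e`, `y ∈ bx e'` on `p` and `ρ < m.d x' y'` on `p` whenever `x' ∈ bx e`, `y' ∈ bx e'`.
`ρ < m.d x y ≤ 1` somewhere, so `ρ ≤ 1`, and `IsI.max` for the constant function `ρ` (and the set `p`) gives
`ρ ≤ I (bT e) (bT e')` on `p`. So `m.d x y ≤ ρ + δ ≤ I + δ` on `p`. For the null sets `c i` of `exh` take `e i = e' i = ∅`. -/

set_option autoImplicit false

namespace RNP

open MeasureTheory

variable {Ω : Type} [MeasurableSpace Ω] {ν : Measure Ω} [IsFiniteMeasure ν] {X T : Type}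
  {S : BSp ν X T}

omit [IsFiniteMeasure ν] in
/-- a set of positive measure which is covered by countably many sets meets one of them in a set of
positive measure -/
private theorem pos_cover {ι : Type} [Countable ι] {q : Set Ω} (hq : Pos ν q) (A : ι → Set Ω)
    (hA : ∀ i, MeasurableSet (A i)) (hcov : On ν q fun ω => ∃ i, ω ∈ A i) :
    ∃ i, Pos ν (q ∩ A i) := by
  by_contra hcon
  push Not at hcon
  have h0 : ∀ i, ν (q ∩ A i) = 0 := by
    intro i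
    by_contra h
    exact hcon i ⟨hq.1.inter (hA i), h⟩
  apply hq.2
  have h1 : ν (⋃ i, q ∩ A i) = 0 := measure_iUnion_null h0
  have h2 : ∀ᵐ ω ∂ν, ω ∉ q := by
    have h3 : ∀ᵐ ω ∂ν, ω ∉ ⋃ i, q ∩ A i := measure_eq_zero_iff_ae_notMem.mp h1
    filter_upwards [h3, hcov] with ω h4 h5 h6
    obtain ⟨i, hi⟩ := h5 h6
    exact h4 (Set.mem_iUnion.mpr ⟨i, h6, hi⟩)
  exact measure_eq_zero_iff_ae_notMem.mpr h2

theorem lscA {a : Set (CF S)} (m : SM S a) {bT : Finset (CF S × ℚ × Bool) → T}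
    (hbT : ∀ e x, ∀ᵐ ω ∂ν, (ω ∈ S.mem x (bT e) ↔ ω ∈ bx e x)) {I : T → T → Ω → ℝ}
    (hI : ∀ V W, IsI m V W (I V W)) (x y : X) {δ : ℝ} (hδ : 0 < δ) :
    ∃ (c : ℕ → Set Ω) (e e' : ℕ → Finset (CF S × ℚ × Bool)), (∀ i, MeasurableSet (c i)) ∧
      (∀ i, ∀ t ∈ e i, t.1 ∈ a) ∧ (∀ i, ∀ t ∈ e' i, t.1 ∈ a) ∧ (∀ᵐ ω ∂ν, ∃ i, ω ∈ c i) ∧
      ∀ i, On ν (c i) fun ω => ω ∈ S.mem x (bT (e i)) ∧ ω ∈ S.mem y (bT (e' i)) ∧
        m.d x y ω ≤ I (bT (e i)) (bT (e' i)) ω + δ := by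
  classical
  let G : Set Ω → Prop := fun s => ∃ e e' : Finset (CF S × ℚ × Bool), (∀ t ∈ e, t.1 ∈ a) ∧
    (∀ t ∈ e', t.1 ∈ a) ∧ On ν s fun ω => ω ∈ S.mem x (bT e) ∧ ω ∈ S.mem y (bT e') ∧
        m.d x y ω ≤ I (bT e) (bT e') ω + δ
  obtain ⟨c, hc, -, -, hG, hcov⟩ := exh ν G MeasurableSet.univ (by
    intro r _ hr
    obtain ⟨ρ, hρ⟩ := pos_cover (ι := ℚ) hr
      (fun ρ => {ω | (ρ : ℝ) < m.d x y ω ∧ m.d x y ω ≤ (ρ : ℝ) + δ})
      (fun ρ => (measurableSet_lt measurable_const (m.meas x y)).inter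
        (measurableSet_le (m.meas x y) measurable_const))
      (Filter.Eventually.of_forall fun ω _ => by
        obtain ⟨ρ, h1, h2⟩ := exists_rat_btwn (show m.d x y ω - δ < m.d x y ω by linarith)
        exact ⟨ρ, h2, by linarith⟩)
    obtain ⟨p, hp, hpos, e, e', he, he', h1, h2⟩ := m.lsc x y ρ _ hρ
      (Filter.Eventually.of_forall fun ω hω => hω.2.1)
    refine ⟨p, fun ω hω => (hp hω).1, hpos, e, e', he, he', ?_⟩
    have hρ1 : (ρ : ℝ) ≤ 1 := by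
      obtain ⟨ω, hω⟩ := nonempty_of_measure_ne_zero hpos.2
      exact ((hp hω).2.1.trans_le (m.le_one x y ω)).le
    have h3 := (hI (bT e) (bT e')).max p (fun _ => (ρ : ℝ)) (fun _ => hρ1) (fun x' y' => by
      filter_upwards [h2 x' y', hbT e x', hbT e' y'] with ω h4 h5 h6 hω hx hy
      exact (h4 hω (h5.mp hx) (h6.mp hy)).le)
    filter_upwards [h1, h3, hbT e x, hbT e' y] with ω h4 h5 h6 h7 hω
    have h8 := (hp hω).2.2
    have h9 := h5 hω
    exact ⟨h6.mpr (h4 hω).1, h7.mpr (h4 hω).2, by linarith⟩)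
  have hG' : ∀ i, ∃ e e' : Finset (CF S × ℚ × Bool), (∀ t ∈ e, t.1 ∈ a) ∧
    (∀ t ∈ e', t.1 ∈ a) ∧ On ν (c i) fun ω => ω ∈ S.mem x (bT e) ∧ ω ∈ S.mem y (bT e') ∧
        m.d x y ω ≤ I (bT e) (bT e') ω + δ := by
    intro i
    by_cases h0 : ν (c i) = 0
    · refine ⟨∅, ∅, by simp, by simp, ?_⟩
      filter_upwards [measure_eq_zero_iff_ae_notMem.mp h0] with ω h1 h2
      exact absurd h2 h1
    · exact hG i h0
  choose e e' he he' h using hG'
  refine ⟨c, e, e', hc, he, he', ?_, h⟩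
  filter_upwards [hcov] with ω hω
  exact hω trivial

end RNP
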