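import Pool.Agent.RNP.WL

/-! # Weak limits: properties (package C12)

(problem MP_9bfcae_gt, Part II)

* `IsWL.add`: for measurable `b ⊆ q`, for `U`-almost all `a`:
  `∫_b g = ∫_b f a ≤ ∫_b (f1 a + f2 a + δ) = ∫_b g1 + ∫_b g2 + δ ν(b)`
  (all functions are bounded and measurable, hence integrable; `setIntegral_mono_on_ae` etc.; an
  eventual statement along an ultrafilter has a witness). Apply this to
  `b := {ω ∈ q | g1 ω + g2 ω + δ < g ω}`: the integral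
  of the positive function `g - g1 - g2 - δ` over `b` is `≤ 0`, so `ν b = 0`.
* `IsWL.mono`: the same with one summand and no constant (`f2 = 0`, `g2 = 0`, `δ = 0`;
  `IsWL ν U 0 0` is trivial).
* `IsWL.zero`: `∫_q f a = ∫_q g = 0` for `U`-almost all `a`, and `f a ≥ 0`
  (`setIntegral_eq_zero_iff_of_nonneg_ae`).
* `IsWL.lower`: `ε (ν q).toReal ≤ ∫_q g = ∫_q f a`. -/

set_option autoImplicit false

namespace RNP

open MeasureTheory

variable {Ω : Type} [MeasurableSpace Ω] {ν : Measure Ω} [IsFiniteMeasure ν] {A : Type}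
  {U : Ultrafilter A} {f f1 f2 : A → Ω → ℝ} {g g1 g2 : Ω → ℝ}

private theorem wlp_int {k : Ω → ℝ} (hk : Measurable k) (h0 : ∀ ω, 0 ≤ k ω) (h1 : ∀ ω, k ω ≤ 1)
    (b : Set Ω) : IntegrableOn k b ν :=
  Integrable.of_bound hk.aestronglyMeasurable 1
    (Filter.Eventually.of_forall fun ω => by rw [Real.norm_of_nonneg (h0 ω)]; exact h1 ω)

private theorem wlp_const (c : ℝ) (b : Set Ω) : IntegrableOn (fun _ => c) b ν :=
  integrable_const c

theorem IsWL.add (hf : IsF f) (hf1 : IsF f1) (hf2 : IsF f2) (h : IsWL ν U f g)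
    (h1 : IsWL ν U f1 g1) (h2 : IsWL ν U f2 g2) (δ : ℝ) {q : Set Ω} (hq : MeasurableSet q)
    (hle : ∀ᶠ a in (U : Filter A), On ν q fun ω => f a ω ≤ f1 a ω + f2 a ω + δ) :
    On ν q fun ω => g ω ≤ g1 ω + g2 ω + δ := by
  have hb : MeasurableSet {ω | ω ∈ q ∧ g1 ω + g2 ω + δ < g ω} :=
    hq.inter (measurableSet_lt ((h1.meas.add h2.meas).add_const δ) h.meas)
  obtain ⟨b, hbe⟩ : ∃ b, {ω | ω ∈ q ∧ g1 ω + g2 ω + δ < g ω} = b := ⟨_, rfl⟩
  rw [hbe] at hb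
  obtain ⟨a, ⟨⟨ea, ea1⟩, ea2⟩, eale⟩ :=
    ((((h.int b hb).and (h1.int b hb)).and (h2.int b hb)).and hle).exists
  have ig := wlp_int (ν := ν) h.meas h.nonneg h.le_one b
  have ig1 := wlp_int (ν := ν) h1.meas h1.nonneg h1.le_one b
  have ig2 := wlp_int (ν := ν) h2.meas h2.nonneg h2.le_one b
  have jf := wlp_int (ν := ν) (hf.meas a) (hf.nonneg a) (hf.le_one a) b
  have jf1 := wlp_int (ν := ν) (hf1.meas a) (hf1.nonneg a) (hf1.le_one a) b
  have jf2 := wlp_int (ν := ν) (hf2.meas a) (hf2.nonneg a) (hf2.le_one a) b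
  have ic := wlp_const (ν := ν) δ b
  have k1 : ∫ ω in b, f a ω ∂ν ≤ ∫ ω in b, (f1 a ω + f2 a ω + δ) ∂ν := by
    refine setIntegral_mono_on_ae jf ((jf1.add jf2).add ic) hb ?_
    filter_upwards [eale] with ω hω hωb
    rw [← hbe] at hωb
    exact hω hωb.1
  have k2 : ∫ ω in b, (f1 a ω + f2 a ω + δ) ∂ν =
      ∫ ω in b, f1 a ω ∂ν + ∫ ω in b, f2 a ω ∂ν + ∫ ω in b, δ ∂ν := by
    have l1 : ∫ ω in b, (f1 a ω + f2 a ω + δ) ∂ν =
        ∫ ω in b, (f1 a ω + f2 a ω) ∂ν + ∫ ω in b, δ ∂ν := integral_add (jf1.add jf2) ic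
    have l2 : ∫ ω in b, (f1 a ω + f2 a ω) ∂ν = ∫ ω in b, f1 a ω ∂ν + ∫ ω in b, f2 a ω ∂ν :=
      integral_add jf1 jf2
    rw [l1, l2]
  have k3 : ∫ ω in b, (g1 ω + g2 ω + δ) ∂ν =
      ∫ ω in b, g1 ω ∂ν + ∫ ω in b, g2 ω ∂ν + ∫ ω in b, δ ∂ν := by
    have l1 : ∫ ω in b, (g1 ω + g2 ω + δ) ∂ν =
        ∫ ω in b, (g1 ω + g2 ω) ∂ν + ∫ ω in b, δ ∂ν := integral_add (ig1.add ig2) ic
    have l2 : ∫ ω in b, (g1 ω + g2 ω) ∂ν = ∫ ω in b, g1 ω ∂ν + ∫ ω in b, g2 ω ∂ν :=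
      integral_add ig1 ig2
    rw [l1, l2]
  have k4 : ∫ ω in b, (g ω - (g1 ω + g2 ω + δ)) ∂ν =
      ∫ ω in b, g ω ∂ν - ∫ ω in b, (g1 ω + g2 ω + δ) ∂ν :=
    integral_sub ig ((ig1.add ig2).add ic)
  have k5 : ∫ ω in b, (g ω - (g1 ω + g2 ω + δ)) ∂ν ≤ 0 := by
    rw [k4, k3, ← ea, ← ea1, ← ea2, ← k2]
    linarith
  have hpos : ∀ ω ∈ b, 0 < g ω - (g1 ω + g2 ω + δ) := fun ω hω => by
    rw [← hbe] at hω
    linarith [hω.2]
  have k6 := setIntegral_pos_iff_support_of_nonneg_ae (μ := ν) (s := b)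
    (f := fun ω => g ω - (g1 ω + g2 ω + δ))
    ((ae_restrict_iff' hb).2 (Filter.Eventually.of_forall fun ω hω => (hpos ω hω).le))
    (ig.sub ((ig1.add ig2).add ic))
  have k7 : Function.support (fun ω => g ω - (g1 ω + g2 ω + δ)) ∩ b = b :=
    Set.inter_eq_right.2 fun ω hω => (hpos ω hω).ne'
  rw [k7] at k6
  have k8 : ν b = 0 := by
    by_contra hne
    exact absurd (k6.2 (pos_iff_ne_zero.2 hne)) (not_lt.2 k5)
  have k9 : ∀ᵐ ω ∂ν, ω ∉ b := by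
    rw [ae_iff]
    simpa using k8
  filter_upwards [k9] with ω hω hωq
  by_contra hn
  rw [← hbe] at hω
  exact hω ⟨hωq, not_le.1 hn⟩

theorem IsWL.mono (hf : IsF f) (hf1 : IsF f1) (h : IsWL ν U f g)
    (h1 : IsWL ν U f1 g1) {q : Set Ω} (hq : MeasurableSet q)
    (hle : ∀ᶠ a in (U : Filter A), On ν q fun ω => f a ω ≤ f1 a ω) :
    On ν q fun ω => g ω ≤ g1 ω := by
  have h0 : IsF fun (_ : A) (_ : Ω) => (0 : ℝ) :=
    ⟨fun _ => measurable_const, fun _ _ => le_rfl, fun _ _ => zero_le_one⟩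
  have w0 : IsWL ν U (fun (_ : A) (_ : Ω) => (0 : ℝ)) (fun _ => 0) :=
    ⟨measurable_const, fun _ => le_rfl, fun _ => zero_le_one, fun _ _ =>
      Filter.Eventually.of_forall fun _ => rfl⟩
  have key := IsWL.add hf hf1 h0 h h1 w0 0 hq (by
    filter_upwards [hle] with a ha
    filter_upwards [ha] with ω hω hωq
    simpa using hω hωq)
  filter_upwards [key] with ω hω hωq
  simpa using hω hωq

theorem IsWL.zero (hf : IsF f) (h : IsWL ν U f g) {q : Set Ω} (hq : MeasurableSet q)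
    (h0 : On ν q fun ω => g ω = 0) : ∀ᶠ a in (U : Filter A), On ν q fun ω => f a ω = 0 := by
  have e0 : ∫ ω in q, g ω ∂ν = 0 := by
    have h1 : ∫ ω in q, g ω ∂ν = ∫ ω in q, (0 : ℝ) ∂ν := setIntegral_congr_ae hq h0
    rw [h1, integral_zero]
  filter_upwards [h.int q hq] with a ha
  rw [e0] at ha
  have h2 := (setIntegral_eq_zero_iff_of_nonneg_ae (μ := ν) (s := q) (f := f a)
    (Filter.Eventually.of_forall (hf.nonneg a))
    (wlp_int (ν := ν) (hf.meas a) (hf.nonneg a) (hf.le_one a) q)).1 ha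
  exact (ae_restrict_iff' hq).1 h2

theorem IsWL.lower (hf : IsF f) (h : IsWL ν U f g) {q : Set Ω} (hq : MeasurableSet q) {ε : ℝ}
    (h0 : On ν q fun ω => ε ≤ g ω) :
    ∀ᶠ a in (U : Filter A), ε * (ν q).toReal ≤ ∫ ω in q, f a ω ∂ν := by
  have h1 : ∫ ω in q, ε ∂ν ≤ ∫ ω in q, g ω ∂ν :=
    setIntegral_mono_on_ae (wlp_const (ν := ν) ε q)
      (wlp_int (ν := ν) h.meas h.nonneg h.le_one q) hq h0
  have h2 : ∫ ω in q, ε ∂ν = ε * (ν q).toReal := by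
    rw [setIntegral_const, smul_eq_mul, mul_comm]
    rfl
  filter_upwards [h.int q hq] with a ha
  rw [ha, ← h2]
  exact h1

end RNP
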