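import Pool.Agent.RNP.LscA
import Pool.Agent.RNP.WLp

/-! # Lower semicontinuity of the limit metric (package C14)

(problem MP_9bfcae_gt, Part II)

`I a V W` is the infimum of the metric `m a` on `V × W`, `D x y` and `J V W` are the weak limits of `(m a).d x y` and
`I a V W` along the normal ultrafilter.
* `J_mono`: if `V' ⊆ V` and `W' ⊆ W` on `q` then `I a V W ≤ I a V' W'` on `q` for all `a` (`IsI.max` for the pair `V'`,
  `W'` with `k = I a V W`, and `IsI.le`), so `J V W ≤ J V' W'` on `q` (`IsWL.mono`).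
* `J_le`: `J V W ≤ D x y` almost everywhere on `mem x V ∩ mem y W` (`IsI.le`, `IsWL.mono` with
  `q = mem x V ∩ mem y W`).
* `lscB`. Let `r < D x y` on `q`. Choose a rational `δ > 0` and replace `q` by a smaller condition with
  `r + 2 δ < D x y` on `q`. Choose `bT` (`boxT`), and for every `a` (by `lscA`) sets `c a i` and boxes `e a i`, `e' a i`.
  By `NF.fin` and `NF.all` there are `e i`, `e' i` with `e a i = e i`, `e' a i = e' i` for all `i`, for `U`-almost all `a`.
  Let `E a N := q \ ⋃ i < N, c a i`; `(ν (E a N)).toReal → 0` as `N → ∞` for every `a`. By `NF.real` and `NF.all` there is a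
  sequence `k N` with `(ν (E a N)).toReal = k N` for all `N`, for `U`-almost all `a`; so `k N → 0`. Choose `N` with
  `k N < δ (ν q).toReal`. Let `g` be the weak limit of the indicator functions of `E a N` (`exists_wl`); `∫_q g = k N`, so
  `q1 := {ω ∈ q | g ω < δ}` has positive measure (otherwise `g ≥ δ` almost everywhere on `q` and
  `∫_q g ≥ δ ν(q)`). For a set `j ⊆ {0, .., N-1}` let `q_j` be the set of all `ω ∈ q1` with
  `j = {i < N | ω ∈ mem x (bT (e i)) ∩ mem y (bT (e' i))}`; finitely many measurable sets, one of them has positive measure: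
  `p := q_j`. Let `V`, `W` be the names of the finite intersections of the `bT (e i)`, `bT (e' i)`, `i ∈ j` (`S.finInter`). Then
  `x ∈ V`, `y ∈ W` on `p`. For `U`-almost all `a`, almost everywhere on `p`: if `ω ∉ E a N` then `ω ∈ c a i` for some
  `i < N`, hence (choice of `c a i`) `ω ∈ mem x (bT (e i))`, `ω ∈ mem y (bT (e' i))`, so `i ∈ j`, and
  `(m a).d x y ≤ I a (bT (e i)) (bT (e' i)) + δ ≤ I a V W + δ` (monotonicity as in `J_mono`, `V ⊆ bT (e i)` almost everywhere). If
  `ω ∈ E a N` then `(m a).d x y ≤ 1 = indicator`. So `(m a).d x y ≤ I a V W + indicator + δ` on `p`, and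
  `IsWL.add` gives `D x y ≤ J V W + g + δ < J V W + 2 δ` on `p`. With `r + 2 δ < D x y` on `p`: `r < J V W`. -/

set_option autoImplicit false

namespace RNP

open MeasureTheory Cardinal

variable {Ω : Type} [MeasurableSpace Ω] {ν : Measure Ω} [IsFiniteMeasure ν] {X T : Type}
  {S : BSp ν X T} {κ : Cardinal.{0}} {U : Ultrafilter (Pk κ (CF S))}
  {m : ∀ a : Pk κ (CF S), SM S a.1} {I : Pk κ (CF S) → T → T → Ω → ℝ} {D : X → X → Ω → ℝ}
  {J : T → T → Ω → ℝ}

omit [IsFiniteMeasure ν] in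
private theorem isF_d (x y : X) : IsF (fun a : Pk κ (CF S) => (m a).d x y) :=
  ⟨fun a => (m a).meas x y, fun a ω => (m a).nonneg x y ω, fun a ω => (m a).le_one x y ω⟩

omit [IsFiniteMeasure ν] in
private theorem isF_I (hI : ∀ a V W, IsI (m a) V W (I a V W)) (V W : T) :
    IsF (fun a : Pk κ (CF S) => I a V W) :=
  ⟨fun a => (hI a V W).meas, fun a ω => (hI a V W).nonneg ω, fun a ω => (hI a V W).le_one ω⟩

omit [IsFiniteMeasure ν] in
private theorem I_mono (hI : ∀ a V W, IsI (m a) V W (I a V W)) {V V' W W' : T} {q : Set Ω}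
    (hV : ∀ x, On ν q fun ω => ω ∈ S.mem x V' → ω ∈ S.mem x V)
    (hW : ∀ x, On ν q fun ω => ω ∈ S.mem x W' → ω ∈ S.mem x W) (a : Pk κ (CF S)) :
    On ν q fun ω => I a V W ω ≤ I a V' W' ω := by
  refine (hI a V' W').max q (I a V W) (hI a V W).le_one fun x y => ?_
  filter_upwards [(hI a V W).le x y, hV x, hW y] with ω h1 h2 h3 hq hx hy
  exact h1 (h2 hq hx) (h3 hq hy)

theorem J_mono (hI : ∀ a V W, IsI (m a) V W (I a V W))
    (hJ : ∀ V W, IsWL ν U (fun a => I a V W) (J V W)) {V V' W W' : T} {q : Set Ω}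
    (hq : MeasurableSet q) (hV : ∀ x, On ν q fun ω => ω ∈ S.mem x V' → ω ∈ S.mem x V)
    (hW : ∀ x, On ν q fun ω => ω ∈ S.mem x W' → ω ∈ S.mem x W) :
    On ν q fun ω => J V W ω ≤ J V' W' ω :=
  IsWL.mono (isF_I hI V W) (isF_I hI V' W') (hJ V W) (hJ V' W') hq
    (Filter.Eventually.of_forall fun a => I_mono hI hV hW a)

theorem J_le (hI : ∀ a V W, IsI (m a) V W (I a V W))
    (hD : ∀ x y, IsWL ν U (fun a => (m a).d x y) (D x y))
    (hJ : ∀ V W, IsWL ν U (fun a => I a V W) (J V W)) (x y : X) (V W : T) :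
    ∀ᵐ ω ∂ν, ω ∈ S.mem x V → ω ∈ S.mem y W → J V W ω ≤ D x y ω := by
  have h := IsWL.mono (q := S.mem x V ∩ S.mem y W) (isF_I hI V W) (isF_d x y) (hJ V W) (hD x y)
    ((S.meas x V).inter (S.meas y W)) (Filter.Eventually.of_forall fun a => by
      filter_upwards [(hI a V W).le x y] with ω h1 h2
      exact h1 h2.1 h2.2)
  filter_upwards [h] with ω h1 hx hy
  exact h1 ⟨hx, hy⟩

omit [IsFiniteMeasure ν] in
/-- a set of positive measure which is covered by countably many sets meets one of them in a set of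
positive measure -/
private theorem pos_cover {ι : Type} [Countable ι] {q : Set Ω} (hq : Pos ν q) (A : ι → Set Ω)
    (hA : ∀ i, MeasurableSet (A i)) (hcov : On ν q fun ω => ∃ i, ω ∈ A i) :
    ∃ i, Pos ν (q ∩ A i) := by
  by_contra hcon
  push Not at hcon
  have h0 : ∀ i, ν (q ∩ A i) = 0 := by
    intro i
    by_contra h
    exact hcon i ⟨hq.1.inter (hA i), h⟩
  apply hq.2
  have h1 : ν (⋃ i, q ∩ A i) = 0 := measure_iUnion_null h0
  have h2 : ∀ᵐ ω ∂ν, ω ∉ q := by
    have h3 : ∀ᵐ ω ∂ν, ω ∉ ⋃ i, q ∩ A i := measure_eq_zero_iff_ae_notMem.mp h1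
    filter_upwards [h3, hcov] with ω h4 h5 h6
    obtain ⟨i, hi⟩ := h5 h6
    exact h4 (Set.mem_iUnion.mpr ⟨i, h6, hi⟩)
  exact measure_eq_zero_iff_ae_notMem.mpr h2

theorem lscB (hκ : ℵ₀ < κ) (hU : IsNF κ (CF S) U) (hI : ∀ a V W, IsI (m a) V W (I a V W))
    (hD : ∀ x y, IsWL ν U (fun a => (m a).d x y) (D x y))
    (hJ : ∀ V W, IsWL ν U (fun a => I a V W) (J V W)) (x y : X) (r : ℝ) {q : Set Ω}
    (hq : Pos ν q) (h : On ν q fun ω => r < D x y ω) :
    ∃ p ⊆ q, Pos ν p ∧ ∃ V W, On ν p fun ω => ω ∈ S.mem x V ∧ ω ∈ S.mem y W ∧ r < J V W ω := by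
  classical
  -- the number `δ`
  obtain ⟨n, hn⟩ := pos_cover (ι := ℕ) hq (fun n => {ω | r + 2 * (1 / ((n : ℝ) + 1)) < D x y ω})
    (fun n => measurableSet_lt measurable_const (hD x y).meas) (by
      filter_upwards [h] with ω h1 h2
      obtain ⟨n, hn⟩ := exists_nat_one_div_lt (half_pos (sub_pos.mpr (h1 h2)))
      exact ⟨n, show r + 2 * (1 / ((n : ℝ) + 1)) < D x y ω by linarith⟩)
  set δ : ℝ := 1 / ((n : ℝ) + 1) with hδdef
  have hδ : 0 < δ := by positivity
  set q0 : Set Ω := q ∩ {ω | r + 2 * δ < D x y ω} with hq0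
  -- boxes
  choose bT hbT using fun e : Finset (CF S × ℚ × Bool) => boxT (ν := ν) (S := S) e
  choose c e e' hc he he' hcov hce using
    fun a : Pk κ (CF S) => lscA (m a) hbT (hI a) x y hδ
  choose e0 he0 using fun i => NF.fin hκ hU (fun a => e a i) (fun a => he a i)
  choose e1 he1 using fun i => NF.fin hκ hU (fun a => e' a i) (fun a => he' a i)
  have hE0 := NF.all hκ hU he0
  have hE1 := NF.all hκ hU he1
  -- the exceptional sets
  let E : Pk κ (CF S) → ℕ → Set Ω := fun a N => q0 \ ⋃ i ∈ Finset.range N, c a i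
  have hEm : ∀ a N, MeasurableSet (E a N) := fun a N =>
    hn.1.diff (Finset.measurableSet_biUnion _ fun i _ => hc a i)
  have hElim : ∀ a, Filter.Tendsto (fun N => (ν (E a N)).toReal) Filter.atTop (nhds 0) := by
    intro a
    have hanti : Antitone (E a) := by
      intro N M hNM
      refine Set.sdiff_subset_sdiff_right (Set.biUnion_subset_biUnion_left fun i hi => ?_)
      exact Finset.mem_coe.mpr (Finset.range_subset_range.mpr hNM (Finset.mem_coe.mp hi))
    have h1 : Filter.Tendsto (fun N => ν (E a N)) Filter.atTop (nhds (ν (⋂ N, E a N))) :=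
      tendsto_measure_iInter_atTop (fun N => (hEm a N).nullMeasurableSet) hanti
        ⟨0, measure_ne_top ν _⟩
    have h2 : ν (⋂ N, E a N) = 0 := by
      rw [measure_eq_zero_iff_ae_notMem]
      filter_upwards [hcov a] with ω hω hmem
      obtain ⟨i, hi⟩ := hω
      have h3 := Set.mem_iInter.mp hmem (i + 1)
      exact h3.2 (Set.mem_biUnion (Finset.mem_coe.mpr (Finset.mem_range.mpr (Nat.lt_succ_self i))) hi)
    rw [h2] at h1
    have h4 := (ENNReal.tendsto_toReal ENNReal.zero_ne_top).comp h1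
    rw [ENNReal.toReal_zero] at h4
    exact h4
  choose k hk using fun N => NF.real hκ hU fun a => (ν (E a N)).toReal
  have hkall := NF.all hκ hU hk
  obtain ⟨a0, ha0⟩ := hkall.exists
  have hk0 : Filter.Tendsto k Filter.atTop (nhds 0) := by
    have := hElim a0
    refine this.congr fun N => ?_
    exact ha0 N
  have hq0pos : 0 < (ν q0).toReal := ENNReal.toReal_pos hn.2 (measure_ne_top ν _)
  obtain ⟨N, hN⟩ := (hk0.eventually_lt_const (mul_pos hδ hq0pos)).exists
  -- the weak limit of the indicator functions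
  let f2 : Pk κ (CF S) → Ω → ℝ := fun a => (E a N).indicator fun _ => (1 : ℝ)
  have hf2 : IsF f2 := by
    refine ⟨fun a => measurable_const.indicator (hEm a N), fun a ω => ?_, fun a ω => ?_⟩
    · exact Set.indicator_nonneg (fun _ _ => zero_le_one) ω
    · exact Set.indicator_le_self' (fun _ _ => zero_le_one) ω
  obtain ⟨g, hg⟩ := exists_wl ν hκ hU hf2
  -- the condition `q1`
  have hq1 : Pos ν (q0 ∩ {ω | g ω < δ}) := by
    refine ⟨hn.1.inter (measurableSet_lt hg.meas measurable_const), fun h0 => ?_⟩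
    have h1 : On ν q0 fun ω => δ ≤ g ω := by
      filter_upwards [measure_eq_zero_iff_ae_notMem.mp h0] with ω h2 h3
      by_contra h4
      exact h2 ⟨h3, not_le.mp h4⟩
    obtain ⟨a, ha1, ha2⟩ := ((IsWL.lower hf2 hg hn.1 h1).and (hk N)).exists
    have h5 : ∫ ω in q0, f2 a ω ∂ν = (ν (E a N)).toReal := by
      have : (fun ω => f2 a ω) = (E a N).indicator fun _ => (1 : ℝ) := rfl
      rw [this, integral_indicator_const _ (hEm a N), smul_eq_mul, mul_one, Measure.real,
        Measure.restrict_apply (hEm a N), Set.inter_eq_self_of_subset_left Set.sdiff_subset]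
    rw [h5, ha2] at ha1
    exact absurd hN (not_lt.mpr ha1)
  -- the condition `p`
  let A : ℕ → Set Ω := fun i => S.mem x (bT (e0 i)) ∩ S.mem y (bT (e1 i))
  have hA : ∀ i, MeasurableSet (A i) := fun i => (S.meas _ _).inter (S.meas _ _)
  obtain ⟨j, hj⟩ := pos_cover (ι := Finset ℕ) hq1
    (fun j => ⋂ i ∈ Finset.range N, {ω | i ∈ j ↔ ω ∈ A i})
    (fun j => Finset.measurableSet_biInter _ fun i _ => by
      by_cases hij : i ∈ j
      · have h1 : {ω | i ∈ j ↔ ω ∈ A i} = A i := by
          ext ω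
          exact ⟨fun h => h.mp hij, fun h => ⟨fun _ => h, fun _ => hij⟩⟩
        rw [h1]
        exact hA i
      · have h1 : {ω | i ∈ j ↔ ω ∈ A i} = (A i)ᶜ := by
          ext ω
          exact ⟨fun h h2 => hij (h.mpr h2), fun h => ⟨fun h2 => absurd h2 hij,
            fun h2 => absurd h2 h⟩⟩
        rw [h1]
        exact (hA i).compl)
    (Filter.Eventually.of_forall fun ω _ =>
      ⟨(Finset.range N).filter fun i => ω ∈ A i, by
        simp only [Set.mem_iInter, Set.mem_ofPred_eq, Finset.mem_filter]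
        intro i hi
        exact ⟨fun h => h.2, fun h => ⟨hi, h⟩⟩⟩)
  set p : Set Ω := (q0 ∩ {ω | g ω < δ}) ∩ ⋂ i ∈ Finset.range N, {ω | i ∈ j ↔ ω ∈ A i} with hp
  have hpj : ∀ ω ∈ p, ∀ i < N, (i ∈ j ↔ ω ∈ A i) := by
    intro ω hω i hi
    exact Set.mem_iInter₂.mp hω.2 i (Finset.mem_range.mpr hi)
  obtain ⟨V, hV⟩ := S.finInter (j ∩ Finset.range N) fun i => bT (e0 i)
  obtain ⟨W, hW⟩ := S.finInter (j ∩ Finset.range N) fun i => bT (e1 i)
  refine ⟨p, fun ω hω => hω.1.1.1, hj, V, W, ?_⟩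
  -- the inequality for almost all `a`
  have hle : ∀ᶠ a in (U : Filter (Pk κ (CF S))), On ν p fun ω =>
      (m a).d x y ω ≤ I a V W ω + f2 a ω + δ := by
    filter_upwards [hE0, hE1] with a ha0 ha1
    have hmono : ∀ i ∈ j ∩ Finset.range N, ∀ᵐ ω ∂ν,
        I a (bT (e0 i)) (bT (e1 i)) ω ≤ I a V W ω := by
      intro i hi
      have := I_mono (q := Set.univ) hI (V := bT (e0 i)) (W := bT (e1 i)) (V' := V) (W' := W)
        (fun x => by
          filter_upwards [hV x] with ω h1 _ h2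
          exact h1.mp h2 i hi)
        (fun x => by
          filter_upwards [hW x] with ω h1 _ h2
          exact h1.mp h2 i hi) a
      filter_upwards [this] with ω h1
      exact h1 trivial
    have hmono' : ∀ᵐ ω ∂ν, ∀ i ∈ j ∩ Finset.range N,
        I a (bT (e0 i)) (bT (e1 i)) ω ≤ I a V W ω := by
      rw [Filter.eventually_all_finset]
      exact hmono
    filter_upwards [hmono', ae_all_iff.mpr (hce a)] with ω h1 h2 hω
    by_cases hωE : ω ∈ E a N
    · have h3 : f2 a ω = 1 := Set.indicator_of_mem hωE _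
      have h4 := (m a).le_one x y ω
      have h5 := (hI a V W).nonneg ω
      rw [h3]
      linarith
    · have h3 : f2 a ω = 0 := Set.indicator_of_notMem hωE _
      have h4 : ω ∈ ⋃ i ∈ Finset.range N, c a i := by
        by_contra h5
        exact hωE ⟨hω.1.1, h5⟩
      obtain ⟨i, hi, hic⟩ := Set.mem_iUnion₂.mp h4
      obtain ⟨h5, h6, h7⟩ := h2 i hic
      rw [ha0 i] at h5 h7
      rw [ha1 i] at h6 h7
      have hij : i ∈ j := (hpj ω hω i (Finset.mem_range.mp hi)).mpr ⟨h5, h6⟩
      have h8 := h1 i (Finset.mem_inter.mpr ⟨hij, hi⟩)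
      rw [h3]
      linarith
  have hfin := IsWL.add (isF_d x y) (isF_I hI V W) hf2 (hD x y) (hJ V W) hg δ hj.1 hle
  filter_upwards [hfin, hV x, hW y] with ω h1 h2 h3 hω
  have h4 := h1 hω
  have h5 : r + 2 * δ < D x y ω := hω.1.1.2
  have h6 : g ω < δ := hω.1.2
  refine ⟨h2.mpr fun i hi => ?_, h3.mpr fun i hi => ?_, by linarith⟩
  · have hi' := Finset.mem_inter.mp hi
    exact ((hpj ω hω i (Finset.mem_range.mp hi'.2)).mp hi'.1).1
  · have hi' := Finset.mem_inter.mp hi
    exact ((hpj ω hω i (Finset.mem_range.mp hi'.2)).mp hi'.1).2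

end RNP
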