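import Pool.Agent.RNP.Defs

/-! # Normal ultrafilters (package C10)

(problem MP_9bfcae_gt, Part II)

* `NF.inter`: `complete` for `I = ℕ` (`#ℕ = ℵ₀ < κ`). `NF.all`: the same for eventual statements
  and a countable index type (`Countable ι`: `#ι ≤ ℵ₀`).
* `NF.real`: a real function is constant on a set in `U`. The sets `{a | |f a| ≤ n}` have union
  everything, so one of them is in `U` (otherwise the intersection of the complements, the empty
  set, is in `U`). Let `c := sSup {r : ℝ | {a | r ≤ f a} ∈ U}` (nonempty, bounded above). For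
  every `n`,
  `{a | c - 1/(n+1) < f a ≤ c + 1/(n+1)} ∈ U` (`Ultrafilter.mem_or_compl_mem`); intersect.
* `NF.ctb`: a function to a countable type is constant on a set in `U` (the union of the countably
  many fibres is everything).
* `NF.fin`: let `e a` be a finite set of triples with first components in `a`. By `NF.ctb` its
  number of
  elements is a constant `n` for `U`-almost all `a`. List the elements of `e a` (`Finset.toList` or
  `Finset.equivFin`): `t i a`, `i < n`. For every `i < n` the first component is a regressive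
  function, so it is constant by `normal`, the other components are constant by `NF.ctb`
  (`ℚ × Bool` is countable). So `e a`, the set of the `t i a`, is constant. -/

set_option autoImplicit false

namespace RNP

open Cardinal

variable {κ : Cardinal.{0}} {Λ : Type} {U : Ultrafilter (Pk κ Λ)}

theorem NF.inter (hκ : ℵ₀ < κ) (hU : IsNF κ Λ U) (s : ℕ → Set (Pk κ Λ)) (h : ∀ n, s n ∈ U) :
    ⋂ n, s n ∈ U := by
  exact hU.complete ℕ s (by rw [Cardinal.mk_nat]; exact hκ) h

theorem NF.all (hκ : ℵ₀ < κ) (hU : IsNF κ Λ U) {ι : Type} [Countable ι]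
    {p : ι → Pk κ Λ → Prop} (h : ∀ i, ∀ᶠ a in (U : Filter (Pk κ Λ)), p i a) :
    ∀ᶠ a in (U : Filter (Pk κ Λ)), ∀ i, p i a := by
  have h1 := hU.complete ι (fun i => {a | p i a}) (lt_of_le_of_lt Cardinal.mk_le_aleph0 hκ) h
  filter_upwards [h1] with a ha i
  exact Set.mem_iInter.1 ha i

private theorem un (hκ : ℵ₀ < κ) (hU : IsNF κ Λ U) {ι : Type} [Countable ι]
    {p : ι → Pk κ Λ → Prop} (h : ∀ a, ∃ i, p i a) :
    ∃ i, ∀ᶠ a in (U : Filter (Pk κ Λ)), p i a := by
  by_contra hc
  have h1 : ∀ i, ∀ᶠ a in (U : Filter (Pk κ Λ)), ¬ p i a := fun i =>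
    Ultrafilter.eventually_not.2 fun h2 => hc ⟨i, h2⟩
  obtain ⟨a, ha⟩ := (NF.all hκ hU h1).exists
  obtain ⟨i, hi⟩ := h a
  exact ha i hi

private theorem ctb' (hκ : ℵ₀ < κ) (hU : IsNF κ Λ U) {C : Type} [Countable C]
    (f : Pk κ Λ → C) : ∃ c, ∀ᶠ a in (U : Filter (Pk κ Λ)), f a = c :=
  un hκ hU (p := fun c a => f a = c) fun a => ⟨f a, rfl⟩

theorem NF.real (hκ : ℵ₀ < κ) (hU : IsNF κ Λ U) (f : Pk κ Λ → ℝ) :
    ∃ c, ∀ᶠ a in (U : Filter (Pk κ Λ)), f a = c := by
  classical
  have h1 : ∀ q : ℚ, ∃ b : Bool, ∀ᶠ a in (U : Filter (Pk κ Λ)), decide ((q : ℝ) < f a) = b :=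
    fun q => ctb' hκ hU _
  choose b hb using h1
  have h2 := NF.all hκ hU hb
  obtain ⟨a0, h0⟩ := h2.exists
  refine ⟨f a0, ?_⟩
  filter_upwards [h2] with a ha
  have key : ∀ q : ℚ, (q : ℝ) < f a ↔ (q : ℝ) < f a0 := by
    intro q
    have h3 := (ha q).trans (h0 q).symm
    simpa using h3
  rcases lt_trichotomy (f a) (f a0) with h3 | h3 | h3
  · obtain ⟨q, h4, h5⟩ := exists_rat_btwn h3
    exact absurd ((key q).2 h5) (not_lt.2 h4.le)
  · exact h3
  · obtain ⟨q, h4, h5⟩ := exists_rat_btwn h3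
    exact absurd ((key q).1 h5) (not_lt.2 h4.le)

theorem NF.ctb (hκ : ℵ₀ < κ) (hU : IsNF κ Λ U) {C : Type} [Countable C] (f : Pk κ Λ → C) :
    ∃ c, ∀ᶠ a in (U : Filter (Pk κ Λ)), f a = c := by
  exact ctb' hκ hU f

theorem NF.fin (hκ : ℵ₀ < κ) (hU : IsNF κ Λ U) (e : Pk κ Λ → Finset (Λ × ℚ × Bool))
    (he : ∀ a, ∀ t ∈ e a, t.1 ∈ a.1) : ∃ e0, ∀ᶠ a in (U : Filter (Pk κ Λ)), e a = e0 := by
  classical
  have key : ∀ n : ℕ, ∀ e : Pk κ Λ → Finset (Λ × ℚ × Bool), (∀ a, ∀ t ∈ e a, t.1 ∈ a.1) →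
      (∀ᶠ a in (U : Filter (Pk κ Λ)), (e a).card = n) →
      ∃ e0, ∀ᶠ a in (U : Filter (Pk κ Λ)), e a = e0 := by
    intro n
    induction n with
    | zero =>
      intro e he hn
      exact ⟨∅, hn.mono fun a ha => Finset.card_eq_zero.1 ha⟩
    | succ n ih =>
      intro e he hn
      obtain ⟨a1, ha1⟩ := hn.exists
      have hne : ∀ a, ∃ t : Λ × ℚ × Bool, (e a).card = n + 1 → t ∈ e a := by
        intro a
        by_cases h : (e a).card = n + 1
        · obtain ⟨t, ht⟩ := Finset.card_pos.1 (by omega : 0 < (e a).card)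
          exact ⟨t, fun _ => ht⟩
        · obtain ⟨t, ht⟩ := Finset.card_pos.1 (by omega : 0 < (e a1).card)
          exact ⟨t, fun h' => absurd h' h⟩
      choose t ht using hne
      have h1 : {a | (t a).1 ∈ a.1} ∈ U := by
        filter_upwards [hn] with a ha
        exact he a _ (ht a ha)
      obtain ⟨x, hx⟩ := hU.normal (fun a => (t a).1) h1
      obtain ⟨y, hy⟩ := NF.ctb hκ hU (fun a => (t a).2)
      have h2 : ∀ᶠ a in (U : Filter (Pk κ Λ)), ((e a).erase (t a)).card = n := by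
        filter_upwards [hn] with a ha
        rw [Finset.card_erase_of_mem (ht a ha), ha]
        rfl
      obtain ⟨e0, he0⟩ := ih (fun a => (e a).erase (t a))
        (fun a s hs => he a s (Finset.mem_of_mem_erase hs)) h2
      refine ⟨insert (x, y) e0, ?_⟩
      filter_upwards [hn, hx, hy, he0] with a h3 h4 h5 h6
      have h7 : t a = (x, y) := Prod.ext h4 h5
      rw [← h6, ← h7]
      exact (Finset.insert_erase (ht a h3)).symm
  obtain ⟨n, hn⟩ := NF.ctb hκ hU (fun a => (e a).card)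
  exact key n e he hn

end RNP
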