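import Pool.Agent.RNP.DdB
import Pool.Agent.RNP.DdC

/-! # Small metrics from the model (package W18)

(problem MP_9bfcae_gt, Part II)

Take `dN`, `dd` from `exists_dd` and `d x y ω := max 0 (min ((dd x y).1 ω) 1)`.
* `meas`, `nonneg`, `le_one`: clear. `symm`, `tri` from `dd_symm`, `dd_tri`, `dd_nonneg`
  (`min (u + v) 1 ≤ min u 1 + min v 1` for `u, v ≥ 0`). `sep`: `max 0 (min t 1) = 0` and `t ≥ 0` give `t = 0`; `dd_sep`.
* `ext`: if `x` and `y` are in the same open sets on `q` then by `cf_ext` (`Box.lean`) `f x = f y` on `q` for all `f`, so the condition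
  `cd hq` is in `ec a x y` (`RO.mem_iInf`, `RVI.mem_cl`, the sets `{ω ∈ p → f x ω = f y ω}` are measurable), and `dd_zero`, `on_cd`.
* `lsc`: `(r : ℝ) < max 0 (min t 1)`. If `r < 0`: the empty boxes (`bx ∅ x = univ`). If `r ≥ 0`: then `r < t` and `r < 1` on `q`; `dd_lsc`;
  `r < dd x' y'` and `r < 1` give `r < max 0 (min .. 1)` (`r < 1` because `q` has positive measure).
* `frag`: `dd_frg`; the open set is given by `boxT` for the box `e`; `dd x y < ε` and `0 < ε` give `max 0 (min (dd x y) 1) < ε`. -/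

set_option autoImplicit false

namespace RNP

open MeasureTheory STP STP.BSet RVI
open CPI (F TV tv kn)

variable {Ω : Type} [MeasurableSpace Ω] {μ : Measure Ω} [IsProbabilityMeasure μ] {X T : Type}
  {p : Ps μ} {S : BSp (nu p) X T}

private theorem smx_tri {u s t : ℝ} (h : u ≤ s + t) (hs : 0 ≤ s) (ht : 0 ≤ t) :
    max 0 (min u 1) ≤ max 0 (min s 1) + max 0 (min t 1) := by
  simp only [max_def, min_def]
  split_ifs <;> linarith

private theorem smx_zero {t : ℝ} (ht : 0 ≤ t) (h : max 0 (min t 1) = 0) : t = 0 := by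
  by_contra hn
  have h1 : 0 < t := lt_of_le_of_ne ht (Ne.symm hn)
  have h2 : 0 < max 0 (min t 1) := lt_max_of_lt_right (lt_min h1 one_pos)
  exact h2.ne' h

theorem exists_sm (a : Set (CF S))
    (h : F p fun G => RNC.IsRN (EG G) (NG.mk G (RVI.RN μ)) (NG.mk G (RVI.lN μ))
      (NG.mk G (RVI.sN μ)) (NG.mk G (nr μ (cR 0))) (NG.mk G (al (mq a))) (NG.mk G (al (kb a)))
      (NG.mk G (mr a))) : Nonempty (SM S a) := by
  classical
  obtain ⟨dN, dd, hd⟩ := exists_dd a h
  refine ⟨{
    d := fun x y ω => max 0 (min ((dd x y).1 ω) 1)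
    meas := fun x y => measurable_const.max ((dd x y).2.min measurable_const)
    nonneg := fun x y ω => le_max_left _ _
    le_one := fun x y ω => max_le zero_le_one (min_le_right _ _)
    ext := ?_
    symm := ?_
    tri := ?_
    sep := ?_
    lsc := ?_
    frag := ?_ }⟩
  · intro x y q hq hU
    have h1 : cd hq ∈ ec a x y := by
      refine RO.mem_iInf.2 fun f => ?_
      have hE : MeasurableSet {ω | f.1.f x ω = f.1.f y ω} :=
        measurableSet_eq_fun (f.1.meas x) (f.1.meas y)
      have hM : MeasurableSet {ω | ω ∈ p.1 → f.1.f x ω = f.1.f y ω} := by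
        have h2 : {ω | ω ∈ p.1 → f.1.f x ω = f.1.f y ω} =
            p.1ᶜ ∪ {ω | f.1.f x ω = f.1.f y ω} := by
          ext ω
          exact imp_iff_not_or
        rw [h2]
        exact p.2.1.compl.union hE
      refine (mem_cl_ae hM.nullMeasurableSet).2 ?_
      have h3 := (on_cd hq).2 (cf_ext f.1 hU)
      filter_upwards [h3] with ω h4 h5 _
      exact h4 h5
    have h2 := (on_cd hq).1 (dd_zero hd x y (cd_le hq) h1)
    filter_upwards [h2] with ω h3 h4
    rw [h3 h4, min_eq_left zero_le_one, max_self]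
  · intro x y
    filter_upwards [dd_symm hd x y] with ω h1
    rw [h1]
  · intro x y z
    filter_upwards [dd_tri hd x y z, dd_nonneg hd x y, dd_nonneg hd y z] with ω h1 h2 h3
    exact smx_tri h1 h2 h3
  · intro f hf x y
    filter_upwards [dd_sep hd hf x y, dd_nonneg hd x y] with ω h1 h2 h3
    exact h1 (smx_zero h2 h3)
  · intro x y r q hq hr
    rcases lt_or_ge (r : ℝ) 0 with hr0 | hr0
    · refine ⟨q, Set.Subset.rfl, hq, ∅, ∅, fun t ht => absurd ht (Finset.notMem_empty t),
        fun t ht => absurd ht (Finset.notMem_empty t), ?_, fun x' y' => ?_⟩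
      · exact Filter.Eventually.of_forall fun ω _ =>
          ⟨fun t ht => absurd ht (Finset.notMem_empty t),
            fun t ht => absurd ht (Finset.notMem_empty t)⟩
      · exact Filter.Eventually.of_forall fun ω _ _ _ => lt_max_of_lt_left hr0
    · have hr1 : (r : ℝ) < 1 := by
        by_contra hn
        rw [not_lt] at hn
        refine hq.2 (measure_eq_zero_iff_ae_notMem.2 ?_)
        filter_upwards [hr] with ω h1 h2
        have h3 := h1 h2
        have h4 : max 0 (min ((dd x y).1 ω) 1) ≤ 1 := max_le zero_le_one (min_le_right _ _)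
        linarith
      have h1 : On (nu p) q fun ω => (r : ℝ) < (dd x y).1 ω := by
        filter_upwards [hr] with ω h1 h2
        rcases lt_max_iff.1 (h1 h2) with h3 | h3
        · exact absurd h3 (not_lt.2 hr0)
        · exact (lt_min_iff.1 h3).1
      obtain ⟨q1, hsub, hpos, e, e', h2, h3⟩ := dd_lsc hd x y r hq h1
      refine ⟨q1, hsub, hpos, e.1, e'.1, e.2, e'.2, h2, fun x' y' => ?_⟩
      filter_upwards [h3 x' y'] with ω h4 h5 h6 h7
      exact lt_max_of_lt_right (lt_min (h4 h5 h6 h7) hr1)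
  · intro W ε x0 q hε hq hW
    obtain ⟨q1, hsub, hpos, e, x1, h1, h2⟩ := dd_frg hd W ε x0 hε hq hW
    obtain ⟨U, hU⟩ := boxT (S := S) e.1
    refine ⟨q1, hsub, hpos, U, x1, ?_, fun x y => ?_⟩
    · filter_upwards [h1, hU x1] with ω h3 h4 h5
      exact ⟨h4.2 (h3 h5).1, (h3 h5).2⟩
    · filter_upwards [h2 x y, hU x, hU y] with ω h3 h4 h5 h6 h7 h8 h9 h10
      exact max_lt hε ((min_le_left _ _).trans_lt (h3 h6 (h4.1 h7) (h5.1 h8) h9 h10))

end RNP
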