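import Pool.Agent.RNP.ImA

/-! # Sets of size at most the continuum (package W13)

(problem MP_9bfcae_gt, Part II)

`E` is a nonempty type, `rr e` (`e : E`) are real random variables which are pairwise different almost everywhere. In
every `NG G` there is a function with domain `R` which takes all `kn e` as values. Fix `e0 : E` and let
`ρ f e := cl μ {ω | f ω = rr e ω}` for `e ≠ e0` and `ρ f e0 := (⨆ e : {e // e ≠ e0}, ρ f e)ᶜ`. The relation `g := rt (nr μ) (fun e => kn e) ρ`.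
`Ex2`: for different `e`, `e'` the truth value of `kn e = kn e'` is `⊥` (`kn_dsc`); for equal ones: if `f = f'` then `ρ f e = ρ f' e` below this truth value
(`RVI.eq_nr`; for the complement of the supremum: `c ⊓ ρ f e ≤ ρ f' e` for all `e ≠ e0` in both directions). `RVI.rt_val` computes `Val`.
* `IsFun g R`: pairs: `RVI.rt_pair`. Total: for `x ∈ R`, `x = nr f` (`RVI.mem_RN`); the statement `∃ y, Val g (nr f) y` has a truth value and is
  true because `⨆ e, ρ f e = ⊤` (`F.top`, `F.loc`, `RO.mem_iSup`; `⨆ e, ρ f e ≥ (⨆ e ≠ e0, ρ f e) ⊔ (..)ᶜ`). Unique values: the statement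
  `∀ y y', Val g x y → Val g x y' → y = y'` for `x = nr f`: the values are in `al kn` (`RVI.rt_val_mem`); by `F.top`, `F_all_al`-type reduction to `y = kn e`, `y' = kn e'` with
  `e ≠ e'`: `ρ f e ⊓ ρ f e' = ⊥`: for `e, e' ≠ e0` it is `≤ cl μ {ω | rr e ω = rr e' ω} = ⊥`; for `e' = e0` by the definition.
* onto: `Val g (nr (rr e)) (kn e)` for `e ≠ e0`: truth value `cl μ univ = ⊤`. For `e0`: `Val g (nr (rr e0)) (kn e0)`: `ρ (rr e0) e0 = ⊤` because
  `ρ (rr e0) e = cl μ {rr e0 = rr e} = ⊥` for `e ≠ e0`. For an arbitrary element of `al kn` use `RVI.st_all`. -/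

set_option autoImplicit false

namespace RNP

open MeasureTheory STP STP.BSet RVI
open CPI (F TV tv kn)

variable {Ω : Type} [MeasurableSpace Ω] {μ : Measure Ω} [IsProbabilityMeasure μ]

private theorem rr_le {E : Type} {rr : E → RR Ω}
    (hrr : ∀ e e', e ≠ e' → μ {ω | (rr e).1 ω = (rr e').1 ω} = 0) (e e' : E) :
    BSet.eq (nr μ (rr e)) (nr μ (rr e')) ≤
      BSet.eq (kn (id e) : BSet (RO (Ps μ))) (kn (id e')) := by
  by_cases h : e = e'
  · subst h
    exact le_top.trans_eq (BSet.eq_refl _).symm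
  · rw [eq_nr, (cl_eq_bot (measurableSet_eq_fun (rr e).2 (rr e').2).nullMeasurableSet).2
      (hrr e e' h)]
    exact bot_le

/-- the partial function `nr (rr e) ↦ kn e` -/
private noncomputable def g0 {E : Type} (μ : Measure Ω) (rr : E → RR Ω) : BSet (RO (Ps μ)) :=
  gr (fun e : E => nr μ (rr e)) (fun e : E => (kn e : BSet (RO (Ps μ)))) id

/-- the total function -/
private noncomputable def f0 {E : Type} (μ : Measure Ω) [IsProbabilityMeasure μ] (rr : E → RR Ω)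
    (e0 : E) : BSet (RO (Ps μ)) :=
  rt (nr μ) (fun e : E => (kn e : BSet (RO (Ps μ)))) fun a c => tv fun G =>
    Val (EG G) (NG.mk G (g0 μ rr)) (NG.mk G (nr μ a)) (NG.mk G (kn c)) ∨
      ((∀ z, ¬ Val (EG G) (NG.mk G (g0 μ rr)) (NG.mk G (nr μ a)) z) ∧
        NG.mk G (kn c) = NG.mk G (kn e0))

private theorem f0_val {E : Type} (rr : E → RR Ω) (e0 : E) (G : Ult (RO (Ps μ))) (x y : NG G) :
    Val (EG G) (NG.mk G (f0 μ rr e0)) x y ↔
      EG G x (NG.mk G (al (nr μ))) ∧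
      EG G y (NG.mk G (al fun e : E => (kn e : BSet (RO (Ps μ))))) ∧
        (Val (EG G) (NG.mk G (g0 μ rr)) x y ∨
          ((∀ z, ¬ Val (EG G) (NG.mk G (g0 μ rr)) x z) ∧ y = NG.mk G (kn e0))) :=
  rt_sep (nr μ) (fun e : E => (kn e : BSet (RO (Ps μ))))
    (fun G x y => Val (EG G) (NG.mk G (g0 μ rr)) x y ∨
      ((∀ z, ¬ Val (EG G) (NG.mk G (g0 μ rr)) x z) ∧ y = NG.mk G (kn e0))) G x y

theorem isSm {E : Type} [Nonempty E] (rr : E → RR Ω)
    (hrr : ∀ e e', e ≠ e' → μ {ω | (rr e).1 ω = (rr e').1 ω} = 0) (G : Ult (RO (Ps μ))) :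
    RNC.IsSm (EG G) (NG.mk G (RVI.RN μ))
      (NG.mk G (al fun e : E => (kn e : BSet (RO (Ps μ))))) := by
  obtain ⟨e0⟩ := ‹Nonempty E›
  have hg : ∀ G : Ult (RO (Ps μ)), IsFun (EG G) (NG.mk G (g0 μ rr))
      (NG.mk G (al fun e : E => nr μ (rr e))) := fun G => gr_fun (rr_le hrr) G
  refine ⟨NG.mk G (f0 μ rr e0), ⟨?_, ?_, ?_⟩, ?_⟩
  · intro z hz
    obtain ⟨x, y, hx, -, hxy⟩ := rt_pair _ _ _ G z hz
    exact ⟨x, y, hx, hxy⟩
  · intro x hx
    by_cases h : ∃ z, Val (EG G) (NG.mk G (g0 μ rr)) x z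
    · obtain ⟨z, hz⟩ := h
      exact ⟨z, (f0_val rr e0 G x z).2 ⟨hx, gr_to _ _ _ G x z hz, Or.inl hz⟩⟩
    · push Not at h
      exact ⟨NG.mk G (kn e0), (f0_val rr e0 G x _).2 ⟨hx, al_mem _ G e0, Or.inr ⟨h, rfl⟩⟩⟩
  · intro x y z hy hz
    rw [f0_val] at hy hz
    rcases hy.2.2 with h1 | ⟨h1, h1'⟩
    · rcases hz.2.2 with h2 | ⟨h2, h2'⟩
      · exact (hg G).2.2 x y z h1 h2
      · exact absurd h1 (h2 y)
    · rcases hz.2.2 with h2 | ⟨h2, h2'⟩
      · exact absurd h2 (h1 z)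
      · rw [h1', h2']
  · refine st_all (fun e : E => (kn e : BSet (RO (Ps μ)))) (fun _ => ⊤)
      (fun G b => ∃ r, Val (EG G) (NG.mk G (f0 μ rr e0)) r b) (fun e G _ => ?_) G
    refine ⟨NG.mk G (nr μ (rr e)), (f0_val rr e0 G _ _).2 ⟨al_mem _ G _, al_mem _ G e,
      Or.inl ?_⟩⟩
    exact (gr_val (rr_le hrr) G e _).2 rfl

end RNP
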