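import Pool.Agent.RNP.Core
import Pool.Agent.RNP.ICdB
import Pool.Agent.RNP.ImB
import Pool.Agent.RNP.ImC
import Pool.Agent.RNP.Sml
import Pool.Agent.RNP.SmX
import Pool.Agent.RNP.BkB
import Pool.Agent.RNP.BkC

/-! # The positive statement for full families of names (package W22)

(problem MP_9bfcae_gt, Part II)

`exists_bcd` gives `S : BCd (nu p) X C` with `S.hv = ihv nx nb h`. The ultrafilter `U` of the supercompact cardinal `κ` for the type
`CF S.sp`. For every `a : Pk κ (CF S.sp)` the hypothesis `h4` for `Y = al (mq a)`, `D = al (kb a)`, `m = mr a`: `im_sp`, `im_hd`, `im_im` and `isSm` for `E = Ea a.1`: `#(Ea a.1) ≤ #K`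
(`a.1` has fewer than `κ = #K` elements, `κ` is uncountable; the type of the finite sets of triples in `a × ℚ × Bool` has at most
`max (#a) ℵ₀` elements: `Cardinal.mk_finset_of_infinite`, or finite), so there is an injection `j : Ea a.1 → K` and `rr ∘ j` is as required; `Ea a.1` is nonempty (`∅`). So
`p` forces `IsRN` of the image space (`F.all`-instantiation and `F.imp`, or argue in every `NG G` with `RO.up p ∈ G.s`), and `exists_sm` gives a small metric `m a`. `core` gives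
`D` with `IsBig S.sp D`; `bk_met`, `bk_lsc`, `bk_frg`. -/

set_option autoImplicit false

namespace RNP

open MeasureTheory STP STP.BSet RVI Cardinal
open CPI (F TV tv kn)

variable {Ω : Type} [MeasurableSpace Ω] {μ : Measure Ω} [IsProbabilityMeasure μ] {X C : Type}
  {p : Ps μ} {nx : X → BSet (RO (Ps μ))} {nb : C → BSet (RO (Ps μ))} {h : BSet (RO (Ps μ))}

private theorem card_Ea {Y T : Type} {ν : Measure Ω} {S : BSp ν Y T} {κ : Cardinal.{0}}
    (hκ : ℵ₀ < κ) (a : Pk κ (CF S)) :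
    #{e : Finset (CF S × ℚ × Bool) // ∀ t ∈ e, t.1 ∈ a.1} < κ := by
  classical
  have h1 : #{t : CF S × ℚ × Bool // t.1 ∈ a.1} < κ := by
    have h2 : #{t : CF S × ℚ × Bool // t.1 ∈ a.1} ≤ #(a.1 × (ℚ × Bool)) := by
      refine Cardinal.mk_le_of_injective
        (f := fun t : {t : CF S × ℚ × Bool // t.1 ∈ a.1} => (⟨t.1.1, t.2⟩, t.1.2)) ?_
      rintro ⟨⟨f, r⟩, ht⟩ ⟨⟨f', r'⟩, ht'⟩ h
      simp only [Prod.mk.injEq, Subtype.mk.injEq] at h
      obtain ⟨h3, h4⟩ := h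
      subst h3
      subst h4
      rfl
    refine h2.trans_lt ?_
    rw [Cardinal.mk_prod, Cardinal.lift_id, Cardinal.lift_id]
    exact Cardinal.mul_lt_of_lt hκ.le a.2 (Cardinal.mk_le_aleph0.trans_lt hκ)
  have h2 : #{e : Finset (CF S × ℚ × Bool) // ∀ t ∈ e, t.1 ∈ a.1} ≤
      #(Finset {t : CF S × ℚ × Bool // t.1 ∈ a.1}) := by
    refine Cardinal.mk_le_of_injective
      (f := fun e : {e : Finset (CF S × ℚ × Bool) // ∀ t ∈ e, t.1 ∈ a.1} =>
        e.1.subtype fun t => t.1 ∈ a.1) ?_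
    intro e e' h
    have h3 := Finset.subtype_map_of_mem e.2
    have h4 := Finset.subtype_map_of_mem e'.2
    refine Subtype.ext ?_
    rw [← h3, ← h4]
    exact congrArg _ h
  refine h2.trans_lt ?_
  rcases finite_or_infinite {t : CF S × ℚ × Bool // t.1 ∈ a.1} with hf | hf
  · exact (Cardinal.lt_aleph0_of_finite _).trans hκ
  · rw [Cardinal.mk_finset_of_infinite]
    exact h1

theorem pos_main {κ : Cardinal.{0}} (hκ : Supercompact κ) {K : Type} (hK : #K = κ)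
    (rr : K → RR Ω) (hrr : ∀ i j, i ≠ j → μ {ω | (rr i).1 ω = (rr j).1 ω} = 0)
    (h1 : F p fun G => CPI.CSp (EG G) (NG.mk G (al nx)) (NG.mk G (al nb)) (NG.mk G h))
    (h2 : F p fun G => CPI.CHd (EG G) (NG.mk G (al nx)) (NG.mk G (al nb)) (NG.mk G h))
    (h3 : F p fun G => CPI.CCpt (EG G) (NG.mk G (al nx)) (NG.mk G (al nb)) (NG.mk G h))
    (h4 : F p fun G => ∀ Y D m, CPI.CSp (EG G) Y D m → CPI.CHd (EG G) Y D m →
      RNC.IsIm (EG G) (NG.mk G (al nx)) (NG.mk G (al nb)) (NG.mk G h) Y D m →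
      RNC.IsSm (EG G) (NG.mk G (RVI.RN μ)) D →
      RNC.IsRN (EG G) (NG.mk G (RVI.RN μ)) (NG.mk G (RVI.lN μ)) (NG.mk G (RVI.sN μ))
        (NG.mk G (nr μ (cR 0))) Y D m) :
    F p fun G => RNC.IsRN (EG G) (NG.mk G (RVI.RN μ)) (NG.mk G (RVI.lN μ))
      (NG.mk G (RVI.sN μ)) (NG.mk G (nr μ (cR 0))) (NG.mk G (al nx)) (NG.mk G (al nb))
      (NG.mk G h) := by
  obtain ⟨S, hS⟩ := exists_bcd h1 h2 h3
  obtain ⟨hκ0, hκ1⟩ := hκ
  obtain ⟨U, hU⟩ := hκ1 (CF S.sp)
  have hm : ∀ a : Pk κ (CF S.sp), Nonempty (SM S.sp a.1) := by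
    intro a
    refine exists_sm a.1 ?_
    intro G hG
    have hcard : #(Ea a.1) ≤ #K := hK ▸ (card_Ea hκ0 a).le
    obtain ⟨j⟩ := hcard
    haveI : Nonempty (Ea a.1) := ⟨⟨∅, fun t ht => absurd ht (Finset.notMem_empty t)⟩⟩
    have hsm := isSm (μ := μ) (fun e : Ea a.1 => rr (j e))
      (fun e e' he => hrr _ _ fun hj => he (j.injective hj)) G
    exact h4 G hG _ _ _ (im_sp a.1 G hG) (im_hd a.1 G hG) (im_im hS a.1 G hG) hsm
  obtain ⟨D, hD⟩ := core S.sp hκ0 hU fun a => (hm a).some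
  intro G hG
  exact ⟨NG.mk G (dMn p nx hD.meas), bk_met hS hD h2 G hG, bk_lsc hS hD G hG,
    bk_frg hS hD G hG⟩

end RNP
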