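import Pool.Agent.RNP.Fr
import Pool.Agent.RVI.FdD

/-! # The real line of the model (package W04)

(problem MP_9bfcae_gt, Part II)

`R = RVI.RN μ = al (nr μ)`, the names of the measurable functions, `l = lN μ`. The facts of `RVI/FdA.lean`, `FdD.lean`:
`mem_RN` (the elements of `R` in `NG G` are exactly the `nr f`), `nr_eq`, `nr_lt` (truth values are
`cl μ {ω | f ω = g ω}`, `cl μ {ω | f ω < g ω}`), `rn_irrefl`, `rn_trans`, `rn_total`, `rn_complete`. The conjuncts of `CPI.IsRL`: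
* nonempty: `nr (cR 0)`. `Val l x y → x ∈ R ∧ y ∈ R`: `RVI.rt_val_mem`. Irreflexive, transitive, total: from these facts (the
  arguments of a pair in `l` are in `R`).
* no end points: for `x = nr f` take `nr (f - 1)`, `nr (f + 1)`; the truth values are `cl μ univ = ⊤` (`RVI.cl_univ`).
* countable dense set: `D := al (fun q : ℚ => nr μ (cR q))`. `D ⊆ R`: `RVI.st_all`. Countable: `w := oN` (`RVI.oN_om`), the function
  `gr nn (fun n : ℕ => nr μ (cR ((Encodable.decode n : Option ℚ).getD 0)))` composed as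
  `gr nn (fun q : ℚ => nr μ (cR q)) (fun n => (Encodable.decode n).getD 0)` (`RVI.gr_fun`, `gr_val`; the names `nn` are discrete: `RVI.nn_dsc`).
  Dense: the statement `∀ x y, Val l x y → ∃ d, d ∈ D ∧ Val l x d ∧ Val l d y` has a truth value, so prove it by `F.top`, `F.all`,
  `F.imp`, `F.loc`: if `q` forces `Val l (nr f) (nr g)` then `f < g` almost everywhere on `q` (`F_lt`), and for some
  rational `c` the set `q ∩ {f < c < g}` has positive measure; it forces `f < c < g`. (For names `X`, `Y` with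
  `Val l X Y` use that they are in `R = al (nr μ)`, which is full: `RVI.full_nr`, `RVI.Full`.)
* suprema: `RVI.rn_complete`. -/

set_option autoImplicit false

namespace RNP

open MeasureTheory STP STP.BSet RVI
open CPI (F TV tv kn)

variable {Ω : Type} [MeasurableSpace Ω] {μ : Measure Ω} [IsProbabilityMeasure μ]

/-- the countable dense set -/
private noncomputable def nq (μ : Measure Ω) (q : ℚ) : BSet (RO (Ps μ)) := nr μ (cR (q : ℝ))

/-- an enumeration of the rational numbers -/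
private noncomputable def dq (n : ℕ) : ℚ := (Encodable.decode n : Option ℚ).getD 0

omit [IsProbabilityMeasure μ] in
private theorem dq_ext (a a' : ℕ) :
    BSet.eq (nn a : BSet (RO (Ps μ))) (nn a') ≤ BSet.eq (nq μ (dq a)) (nq μ (dq a')) := by
  by_cases h : a = a'
  · subst h
    rw [BSet.eq_refl (nq μ (dq a))]
    exact le_top
  · rw [nn_dsc a a' h]
    exact bot_le

private theorem nq_mem (G : Ult (RO (Ps μ))) (z : NG G)
    (hz : EG G z (NG.mk G (al (nq μ)))) : EG G z (NG.mk G (RVI.RN μ)) :=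
  st_all (nq μ) (fun _ => ⊤) (fun G z => EG G z (NG.mk G (RVI.RN μ)))
    (fun q G _ => (mem_RN G).2 ⟨cR (q : ℝ), rfl⟩) G z hz

private theorem nq_cnt (G : Ult (RO (Ps μ))) : CPI.IsCnt (EG G) (NG.mk G (al (nq μ))) := by
  refine ⟨NG.mk G oN, NG.mk G (gr nn (nq μ) dq), oN_om G, gr_fun dq_ext G, fun y hy => ?_⟩
  refine st_all (nq μ) (fun _ => ⊤) (fun G y => ∃ n, EG G n (NG.mk G oN) ∧
    Val (EG G) (NG.mk G (gr nn (nq μ) dq)) n y) (fun q G _ => ?_) G y hy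
  refine ⟨NG.mk G (nn (Encodable.encode q)), al_mem nn G _, ?_⟩
  rw [gr_val dq_ext]
  unfold dq
  rw [Encodable.encodek]
  rfl

private theorem nq_dense (G : Ult (RO (Ps μ))) (f g : RR Ω)
    (h : Val (EG G) (NG.mk G (RVI.lN μ)) (NG.mk G (nr μ f)) (NG.mk G (nr μ g))) :
    ∃ d, EG G d (NG.mk G (al (nq μ))) ∧ (Val (EG G) (NG.mk G (RVI.lN μ)) (NG.mk G (nr μ f)) d ∧
      Val (EG G) (NG.mk G (RVI.lN μ)) d (NG.mk G (nr μ g))) := by
  have h1 : ∀ q : ℚ, MeasurableSet {ω | f.1 ω < (cR (Ω := Ω) (q : ℝ)).1 ω} := fun q =>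
    measurableSet_lt f.2 (cR (q : ℝ)).2
  have h2 : ∀ q : ℚ, MeasurableSet {ω | (cR (Ω := Ω) (q : ℝ)).1 ω < g.1 ω} := fun q =>
    measurableSet_lt (cR (q : ℝ)).2 g.2
  refine (st_bex (nq μ) (fun _ => ⊤)
    (fun G d => Val (EG G) (NG.mk G (RVI.lN μ)) (NG.mk G (nr μ f)) d ∧
      Val (EG G) (NG.mk G (RVI.lN μ)) d (NG.mk G (nr μ g)))
    (fun q => cl μ {ω | f.1 ω < (cR (Ω := Ω) (q : ℝ)).1 ω} ⊓
      cl μ {ω | (cR (Ω := Ω) (q : ℝ)).1 ω < g.1 ω})
    (fun q G => by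
      unfold nq
      rw [nr_lt, nr_lt, CPI.inf_mem]) G).2 ?_
  rw [nr_lt] at h
  have h3 : (⨆ q : ℚ, (⊤ ⊓ (cl μ {ω | f.1 ω < (cR (Ω := Ω) (q : ℝ)).1 ω} ⊓
      cl μ {ω | (cR (Ω := Ω) (q : ℝ)).1 ω < g.1 ω}))) = cl μ {ω | f.1 ω < g.1 ω} := by
    have h4 : {ω | f.1 ω < g.1 ω} = ⋃ q : ℚ, ({ω | f.1 ω < (cR (Ω := Ω) (q : ℝ)).1 ω} ∩
        {ω | (cR (Ω := Ω) (q : ℝ)).1 ω < g.1 ω}) := by
      ext ω
      simp only [Set.mem_iUnion, Set.mem_inter_iff, Set.mem_ofPred_eq]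
      constructor
      · intro h
        obtain ⟨q, hq, hq'⟩ := exists_rat_btwn h
        exact ⟨q, hq, hq'⟩
      · rintro ⟨q, hq, hq'⟩
        exact lt_trans hq hq'
    rw [h4, cl_iUnion fun q => ((h1 q).inter (h2 q)).nullMeasurableSet]
    refine iSup_congr fun q => ?_
    rw [top_inf_eq, cl_inter (h1 q).nullMeasurableSet (h2 q).nullMeasurableSet]
  rw [h3]
  exact h

private theorem raa_top {G : Ult (RO (Ps μ))} {B : Set Ω} (h : ∀ ω, ω ∈ B) : cl μ B ∈ G.s := by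
  rw [Set.eq_univ_of_forall h, cl_univ]
  exact G.top

theorem isRL (G : Ult (RO (Ps μ))) :
    CPI.IsRL (EG G) (NG.mk G (RVI.RN μ)) (NG.mk G (RVI.lN μ)) := by
  have hmem : ∀ x y, Val (EG G) (NG.mk G (RVI.lN μ)) x y →
      EG G x (NG.mk G (RVI.RN μ)) ∧ EG G y (NG.mk G (RVI.RN μ)) := fun x y h => rt_val_mem h
  refine ⟨⟨NG.mk G (nr μ (cR 0)), (mem_RN G).2 ⟨_, rfl⟩⟩, hmem, ?_, ?_, rn_total G, ?_, ?_, ?_⟩
  · intro x h
    exact rn_irrefl G x (hmem x x h).1 h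
  · intro x y z h h'
    exact rn_trans G x y z (hmem x y h).1 (hmem x y h).2 (hmem y z h').2 h h'
  · intro x hx
    obtain ⟨f, rfl⟩ := (mem_RN G).1 hx
    refine ⟨⟨NG.mk G (nr μ ⟨fun ω => f.1 ω - 1, f.2.sub_const 1⟩), ?_⟩,
      ⟨NG.mk G (nr μ ⟨fun ω => f.1 ω + 1, f.2.add_const 1⟩), ?_⟩⟩
    · rw [nr_lt]
      refine raa_top fun ω => ?_
      change f.1 ω - 1 < f.1 ω
      linarith
    · rw [nr_lt]
      refine raa_top fun ω => ?_
      change f.1 ω < f.1 ω + 1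
      linarith
  · refine ⟨NG.mk G (al (nq μ)), fun z hz => nq_mem G z hz, nq_cnt G, fun x y h => ?_⟩
    obtain ⟨hx, hy⟩ := hmem x y h
    obtain ⟨f, rfl⟩ := (mem_RN G).1 hx
    obtain ⟨g, rfl⟩ := (mem_RN G).1 hy
    obtain ⟨d, h1, h2, h3⟩ := nq_dense G f g h
    exact ⟨d, h1, h2, h3⟩
  · intro A hA hne hb
    exact rn_complete G A hA hne hb

end RNP
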