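import Pool.Agent.RNP.Ops

/-! # Regularity (package C04)

(problem MP_9bfcae_gt, Part II)

`reg`: compact Hausdorff spaces are regular. Let `x ∈ U` on `q`. Let `I` be the type of all triples
`(V, W, c)` with `c ⊆ q` measurable, `x ∈ V` on `c`, and `V`, `W` disjoint on `c` (for all `z`:
`On ν c fun ω => ¬ (ω ∈ mem z V ∧ ω ∈ mem z W)`), together with one more element (use `Option I`). The open sets of the
cover: `U` for `none`; for `(V, W, c)` the name `W' = c ∩ W` (`S.cap`). The cover condition of `cpt`: let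
`z` be a point and `r ⊆ q` a condition. If `r ∩ mem z U` has positive measure take `s` := this set and
`none`. Otherwise `x ∈ U` and `z ∉ U` almost everywhere on `r`, so `haus x z U` gives `s ⊆ r` and `V`, `W`
with `x ∈ V`, `z ∈ W` on `s` and `V`, `W` disjoint on `s`; take `(V, W, s)` and `s`.
So there are `r ⊆ q` and a finite `J` such that for all `z` almost all `ω ∈ r` have `z ∈ U` or `z ∈ c ∩ W`
for some `(V, W, c) ∈ J`. Let `W'` be the finite union of the sets `c ∩ W` (`S.finUnion`) and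
`V'` the finite intersection of the sets `(c ∩ V) ∪ (cᶜ ∩ everything)` (`S.cap`, `S.cup`, `S.top`, `S.finInter`; for
`none` everything). Then `x ∈ V'` on `r` (on `q`), `V'` and `W'` are disjoint, and `z ∈ U` or `z ∈ W'`. -/

set_option autoImplicit false

namespace RNP

open MeasureTheory

variable {Ω : Type} [MeasurableSpace Ω] {ν : Measure Ω} {X T : Type} (S : BSp ν X T)

theorem BSp.reg {x : X} {U : T} {q : Set Ω} (hq : Pos ν q)
    (hx : On ν q fun ω => ω ∈ S.mem x U) :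
    ∃ r ⊆ q, Pos ν r ∧ ∃ V W, On ν r (fun ω => ω ∈ S.mem x V) ∧
      ∀ z, On ν r fun ω => ¬ (ω ∈ S.mem z V ∧ ω ∈ S.mem z W) ∧ (ω ∈ S.mem z U ∨ ω ∈ S.mem z W) := by
  classical
  obtain ⟨E, hE⟩ := S.top
  let I0 : Type := {t : T × T × Set Ω // MeasurableSet t.2.2 ∧
    On ν t.2.2 (fun ω => ω ∈ S.mem x t.1) ∧
    ∀ z, On ν t.2.2 fun ω => ¬ (ω ∈ S.mem z t.1 ∧ ω ∈ S.mem z t.2.1)}
  have hV : ∀ t : I0, ∃ V', ∀ z, ∀ᵐ ω ∂ν,
      (ω ∈ S.mem z V' ↔ (ω ∈ t.1.2.2 → ω ∈ S.mem z t.1.1)) := by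
    intro t
    obtain ⟨A, hA⟩ := S.cap t.2.1 t.1.1
    obtain ⟨B, hB⟩ := S.cap t.2.1.compl E
    obtain ⟨V', hV'⟩ := S.cup A B
    refine ⟨V', fun z => ?_⟩
    filter_upwards [hA z, hB z, hV' z, hE z] with ω h1 h2 h3 h4
    rw [h3, h1, h2]
    constructor
    · rintro (h | h) h'
      · exact h.2
      · exact absurd h' h.1
    · intro h
      by_cases h' : ω ∈ t.1.2.2
      · exact Or.inl ⟨h', h h'⟩
      · exact Or.inr ⟨h', h4⟩
  have hW : ∀ t : I0, ∃ W', ∀ z, ∀ᵐ ω ∂ν,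
      (ω ∈ S.mem z W' ↔ ω ∈ t.1.2.2 ∧ ω ∈ S.mem z t.1.2.1) := fun t => S.cap t.2.1 t.1.2.1
  choose V' hV' using hV
  choose W' hW' using hW
  obtain ⟨r, hrq, hr, J, hJ⟩ := S.cpt (Option I0) (fun i => i.elim U W') q hq (by
    intro z r0 hr0q hr0
    by_cases h : ν (r0 ∩ S.mem z U) = 0
    · have h1 : On ν r0 (fun ω => ω ∈ S.mem x U ∧ ω ∉ S.mem z U) := by
        have h2 : ∀ᵐ ω ∂ν, ω ∉ r0 ∩ S.mem z U := measure_eq_zero_iff_ae_notMem.1 h
        filter_upwards [hx, h2] with ω h3 h4 h5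
        exact ⟨h3 (hr0q h5), fun h6 => h4 ⟨h5, h6⟩⟩
      obtain ⟨s, hs, hsp, V, W, h3, h4⟩ := S.haus x z U r0 hr0 h1
      have h5 : On ν s (fun ω => ω ∈ S.mem x V) := by
        filter_upwards [h3] with ω h6 h7 using (h6 h7).1
      obtain ⟨t, ht⟩ : ∃ t : I0, t.1 = (V, W, s) := ⟨⟨(V, W, s), hsp.1, h5, h4⟩, rfl⟩
      refine ⟨s, hs, hsp, some t, ?_⟩
      have h6 := hW' t z
      rw [ht] at h6
      filter_upwards [h3, h6] with ω h7 h8 h9
      exact h8.2 ⟨h9, (h7 h9).2⟩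
    · exact ⟨r0 ∩ S.mem z U, Set.inter_subset_left, ⟨hr0.1.inter (S.meas z U), h⟩, none,
        Filter.Eventually.of_forall fun ω h1 => h1.2⟩)
  obtain ⟨Vf, hVf⟩ := S.finInter (Finset.eraseNone J) V'
  obtain ⟨Wf, hWf⟩ := S.finUnion (Finset.eraseNone J) W'
  refine ⟨r, hrq, hr, Vf, Wf, ?_, fun z => ?_⟩
  · have h1 : ∀ᵐ ω ∂ν, ∀ t ∈ Finset.eraseNone J, ω ∈ S.mem x (V' t) := by
      rw [Filter.eventually_all_finset]
      intro t _
      filter_upwards [hV' t x, t.2.2.1] with ω h2 h3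
      exact h2.2 h3
    filter_upwards [h1, hVf x] with ω h2 h3 _
    exact h3.2 h2
  · have h1 : ∀ᵐ ω ∂ν, ∀ t ∈ Finset.eraseNone J,
        ¬ (ω ∈ S.mem z (V' t) ∧ ω ∈ S.mem z (W' t)) := by
      rw [Filter.eventually_all_finset]
      intro t _
      filter_upwards [hV' t z, hW' t z, t.2.2.2 z] with ω h2 h3 h4 h5
      have h6 := h3.1 h5.2
      exact h4 h6.1 ⟨h2.1 h5.1 h6.1, h6.2⟩
    filter_upwards [h1, hVf z, hWf z, hJ z] with ω h2 h3 h4 h5 h6
    refine ⟨fun h7 => ?_, ?_⟩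
    · obtain ⟨t, ht, h8⟩ := h4.1 h7.2
      exact h2 t ht ⟨h3.1 h7.1 t ht, h8⟩
    · obtain ⟨i, hi, h7⟩ := h5 h6
      cases i with
      | none => exact Or.inl h7
      | some t => exact Or.inr (h4.2 ⟨t, Finset.mem_eraseNone.2 hi, h7⟩)

end RNP
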