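import Mathlib

/-! # Supercompact cardinals (definitions)

(problem MP_9bfcae_gt, Part II of the independence of Q1; no sorry in this file) -/

set_option autoImplicit false

namespace RNP

open Cardinal

/-- `P_κ(X)`: the subsets of `X` with fewer than `κ` elements -/
abbrev Pk (κ : Cardinal.{0}) (X : Type) : Type := {s : Set X // #s < κ}

/-- `U` is a normal fine `κ`-complete ultrafilter on `P_κ(X)` -/
structure IsNF (κ : Cardinal.{0}) (X : Type) (U : Ultrafilter (Pk κ X)) : Prop where
  complete : ∀ (I : Type) (s : I → Set (Pk κ X)), #I < κ → (∀ i, s i ∈ U) → ⋂ i, s i ∈ U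
  fine : ∀ x : X, {a : Pk κ X | x ∈ a.1} ∈ U
  normal : ∀ g : Pk κ X → X, {a | g a ∈ a.1} ∈ U → ∃ x, {a | g a = x} ∈ U

/-- `κ` is a supercompact cardinal (in the universe of the types in `Type`) -/
def Supercompact (κ : Cardinal.{0}) : Prop :=
  Cardinal.aleph0 < κ ∧ ∀ X : Type, ∃ U : Ultrafilter (Pk κ X), IsNF κ X U

end RNP
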