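import Pool.Agent.RNP.Im0
import Pool.Agent.RNP.Fr

/-! # Equality of names of points (package W14)

(problem MP_9bfcae_gt, Part II)

* `same_of_eq`: `q ≤ p` forces `nx x = nx y`. For every code `b` the sets `S.hv x b` and `S.hv y b`
  (`= ihv nx nb h ..`) agree almost everywhere on
  `q` (`F_ts`/`F_imp_ts`, `F.subst`). Let `U` be open. If `x ∈ U`, `y ∉ U` on a condition `r ⊆ q`
  then `IsOp` gives `r' ⊆ r` and `b` with
  `x ∈ b` on `r'` and `z ∈ b → z ∈ U` on `r'`; `y ∈ b` on `r'`, so `y ∈ U` on `r'`: contradiction.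
  By symmetry.
* `eq_of_same`: otherwise (`F.exists_no`) some `r ≤ q` forces `nx x ≠ nx y`; `CPI.CHd` gives
  (`F_ex_al` twice) `r' ≤ r` and codes `b`, `c` such that
  `r'` forces `nx x ∈ b`, `nx y ∈ c`, and no point of `al nx` is in both. The set
  `fun z => S.hv z b` is open (`op_base`, file
  `CdA.lean`), so `ω ∈ S.hv y b` almost everywhere on `r'`, and `r'` forces `nx y ∈ b` and
  `nx y ∈ c`: contradiction. -/

set_option autoImplicit false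

namespace RNP

open MeasureTheory STP STP.BSet RVI
open CPI (F TV tv kn)

variable {Ω : Type} [MeasurableSpace Ω] {μ : Measure Ω} [IsProbabilityMeasure μ] {X C : Type}
  {p : Ps μ} {S : BCd (nu p) X C} {nx : X → BSet (RO (Ps μ))} {nb : C → BSet (RO (Ps μ))}
  {h : BSet (RO (Ps μ))}

/-- the codes agree -/
private theorem same_code {q : Ps μ} {x y : X}
    (hxy : F q fun G => NG.mk G (nx x) = NG.mk G (nx y)) (b : C) :
    ∀ᵐ ω ∂μ, ω ∈ q.1 → ω ∈ ihv nx nb h x b → ω ∈ ihv nx nb h y b := by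
  refine (F_imp_ts (S := fun G => Val (EG G) (NG.mk G h) (NG.mk G (nx x)) (NG.mk G (nb b)))
    (T := fun G => Val (EG G) (NG.mk G h) (NG.mk G (nx y)) (NG.mk G (nb b)))).1 ?_
  intro G hG h1
  have h2 := hxy G hG
  rw [h2] at h1
  exact h1

private theorem same_half (hS : S.hv = ihv nx nb h) {q : Ps μ} (hq : q ≤ p) {x y : X}
    (hxy : F q fun G => NG.mk G (nx x) = NG.mk G (nx y)) (U : {u // IsOp S u}) :
    On (nu p) q.1 fun ω => (ω ∈ U.1 x → ω ∈ U.1 y) := by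
  by_contra hcon
  rw [On, ae_iff] at hcon
  have hA : MeasurableSet (q.1 ∩ (U.1 x ∩ (U.1 y)ᶜ)) :=
    q.2.1.inter ((U.2.1 x).inter (U.2.1 y).compl)
  have hpos : Pos (nu p) (q.1 ∩ (U.1 x ∩ (U.1 y)ᶜ)) := by
    refine ⟨hA, fun h0 => hcon (measure_mono_null (fun ω hω => ?_) h0)⟩
    have h1 : ¬ (ω ∈ q.1 → ω ∈ U.1 x → ω ∈ U.1 y) := hω
    push Not at h1
    exact ⟨h1.1, h1.2.1, h1.2.2⟩
  obtain ⟨r, hr, hr', b, h1, h2⟩ := U.2.2 x _ hpos
    (Filter.Eventually.of_forall fun ω hω => hω.2.1)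
  have h3 : On (nu p) q.1 fun ω => ω ∈ S.hv x b → ω ∈ S.hv y b := by
    rw [hS]
    exact (on_of_le hq).2 (same_code hxy b)
  refine hr'.2 ?_
  have h4 : ∀ᵐ ω ∂(nu p), ω ∉ r := by
    filter_upwards [h1, h2 y, h3] with ω e1 e2 e3 hω
    exact (hr hω).2.2 (e2 hω (e3 (hr hω).1 (e1 hω)))
  rw [ae_iff] at h4
  simpa using h4

theorem same_of_eq (hS : S.hv = ihv nx nb h) {q : Ps μ} (hq : q ≤ p) {x y : X}
    (hxy : F q fun G => NG.mk G (nx x) = NG.mk G (nx y)) (U : {u // IsOp S u}) :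
    On (nu p) q.1 fun ω => (ω ∈ S.sp.mem x U ↔ ω ∈ S.sp.mem y U) := by
  have h1 := same_half hS hq hxy U
  have h2 := same_half hS hq (x := y) (y := x) (fun G hG => (hxy G hG).symm) U
  filter_upwards [h1, h2] with ω e1 e2 hω
  exact ⟨e1 hω, e2 hω⟩

theorem eq_of_same (hS : S.hv = ihv nx nb h)
    (h2 : F p fun G => CPI.CHd (EG G) (NG.mk G (al nx)) (NG.mk G (al nb)) (NG.mk G h))
    {q : Ps μ} (hq : q ≤ p) {x y : X}
    (hxy : ∀ U, On (nu p) q.1 fun ω => (ω ∈ S.sp.mem x U ↔ ω ∈ S.sp.mem y U)) :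
    F q fun G => NG.mk G (nx x) = NG.mk G (nx y) := by
  by_contra hcon
  obtain ⟨r, hr, hne⟩ := F.exists_no hcon
  have h3 : F r fun G => ∃ b, EG G b (NG.mk G (al nb)) ∧ ∃ c, EG G c (NG.mk G (al nb)) ∧
      (Val (EG G) (NG.mk G h) (NG.mk G (nx x)) b ∧ Val (EG G) (NG.mk G h) (NG.mk G (nx y)) c ∧
        ∀ z, EG G z (NG.mk G (al nx)) →
          ¬ (Val (EG G) (NG.mk G h) z b ∧ Val (EG G) (NG.mk G h) z c)) := by
    intro G hG
    obtain ⟨b, c, e1, e2, e3⟩ := F.mono (hr.trans hq) h2 G hG (NG.mk G (nx x)) (NG.mk G (nx y))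
      (al_mem nx G x) (al_mem nx G y) (hne G hG)
    exact ⟨b, e1, c, e2, e3⟩
  obtain ⟨r1, hr1, b, h4⟩ := F_ex_al.1 h3 r le_rfl
  obtain ⟨r2, hr2, c, h5⟩ := F_ex_al.1 h4 r1 le_rfl
  have h6 : F r2 fun G => Val (EG G) (NG.mk G h) (NG.mk G (nx x)) (NG.mk G (nb b)) :=
    fun G hG => (h5 G hG).1
  have h7 : ∀ᵐ ω ∂μ, ω ∈ r2.1 → ω ∈ ihv nx nb h x b := F_ts.1 h6
  have hrq : r2 ≤ q := hr2.trans (hr1.trans hr)
  have h8 : ∀ᵐ ω ∂μ, ω ∈ q.1 → (ω ∈ S.hv x b ↔ ω ∈ S.hv y b) :=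
    (on_of_le hq).1 (hxy ⟨_, op_base S b⟩)
  have h9 : F r2 fun G => Val (EG G) (NG.mk G h) (NG.mk G (nx y)) (NG.mk G (nb b)) := by
    refine F_ts.2 ?_
    filter_upwards [h7, h8] with ω e1 e2 hω
    rw [hS] at e2
    exact (e2 (hrq hω)).1 (e1 hω)
  exact F.not_false (p := r2) fun G hG =>
    (h5 G hG).2.2 (NG.mk G (nx y)) (al_mem nx G y) ⟨h9 G hG, (h5 G hG).2.1⟩

end RNP
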