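import Pool.Agent.RNP.Step

/-! # The Cantor scheme (package C18)

(problem MP_9bfcae_gt, Part II)

`IsSch`: a scheme of names of open sets `A s`, `W s`, `V s` for the nodes `s` of the binary tree
(children
`b :: s`), on the condition `p`: `A (b :: s) ⊆ V s`; `V s` is disjoint from `W s`; `A s ∪ W s` is
everything (the
closed set `F s` := complement of `W s` satisfies `V s ⊆ F s ⊆ A s`); `V s` meets `L`; `J (A
(false :: s)) (A (true :: s)) ≥ ε'`.
* `exists_sch`: recursion on the list: `V []` := everything (`S.top`), `A [] := V []`, `W []` :=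
  empty (`S.empty`), and `step`
  (chosen for every name `V` with `On ν p fun ω => ω ∈ M V`; recursion in the subtype of these
  names).
* `IsSch.nest`: `F s ⊆ F t` if `s` extends `t`: by induction on the list: `z ∉ W (b :: s)` gives
  `z ∈ A (b :: s)`, so `z ∈ V s`
  and `z ∉ W s`.
* `IsSch.ne`: `F t` is not empty: `V t` meets `L`, `hM2` gives a point in `V t`. -/

set_option autoImplicit false

namespace RNP

open MeasureTheory

variable {Ω : Type} [MeasurableSpace Ω] {ν : Measure Ω} [IsFiniteMeasure ν] {X T : Type}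

/-- a Cantor scheme on the condition `p` -/
structure IsSch (S : BSp ν X T) (J : T → T → Ω → ℝ) (M : T → Set Ω) (p : Set Ω) (ε' : ℝ)
    (A W V : List Bool → T) : Prop where
  sub : ∀ s b z, On ν p fun ω => ω ∈ S.mem z (A (b :: s)) → ω ∈ S.mem z (V s)
  disj : ∀ s z, On ν p fun ω => ¬ (ω ∈ S.mem z (V s) ∧ ω ∈ S.mem z (W s))
  cov : ∀ s z, On ν p fun ω => ω ∈ S.mem z (A s) ∨ ω ∈ S.mem z (W s)
  meets : ∀ s, On ν p fun ω => ω ∈ M (V s)
  far : ∀ s, On ν p fun ω => ε' ≤ J (A (false :: s)) (A (true :: s)) ω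

theorem exists_sch (S : BSp ν X T) {D : X → X → Ω → ℝ} {J : T → T → Ω → ℝ} {M : T → Set Ω}
    {p : Set Ω} {ε ε' : ℝ}
    (hJm : ∀ V V' W W' (q : Set Ω), MeasurableSet q →
      (∀ x, On ν q fun ω => ω ∈ S.mem x V' → ω ∈ S.mem x V) →
      (∀ x, On ν q fun ω => ω ∈ S.mem x W' → ω ∈ S.mem x W) →
      On ν q fun ω => J V W ω ≤ J V' W' ω)
    (hJme : ∀ V W, Measurable (J V W))
    (hlsc : ∀ x y (r : ℝ) (q : Set Ω), Pos ν q → On ν q (fun ω => r < D x y ω) →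
      ∃ p ⊆ q, Pos ν p ∧ ∃ V W, On ν p fun ω => ω ∈ S.mem x V ∧ ω ∈ S.mem y W ∧ r < J V W ω)
    (hM : ∀ U, MeasurableSet (M U)) (hp : Pos ν p) (hε : ε' < ε)
    (hM0 : ∀ U, (∀ x, ∀ᵐ ω ∂ν, ω ∈ S.mem x U) → On ν p fun ω => ω ∈ M U)
    (hM1 : ∀ U V q, Pos ν q → (∀ x, On ν q fun ω => ω ∈ S.mem x U → ω ∈ S.mem x V) →
      On ν q fun ω => ω ∈ M U → ω ∈ M V)
    (hM2 : ∀ U, ∀ q ⊆ p, Pos ν q → On ν q (fun ω => ω ∈ M U) → ∃ r ⊆ q, Pos ν r ∧ ∃ x y,
      On ν r (fun ω => ω ∈ S.mem x U ∧ ω ∈ S.mem y U ∧ ε ≤ D x y ω) ∧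
      ∀ V, On ν r fun ω => (ω ∈ S.mem x V → ω ∈ M V) ∧ (ω ∈ S.mem y V → ω ∈ M V)) :
    ∃ A W V : List Bool → T, IsSch S J M p ε' A W V := by
  obtain ⟨V0, hV0⟩ := S.top
  obtain ⟨W0, hW0⟩ := S.empty
  choose fA fW fV h1 h2 h3 using fun V : {V : T // On ν p fun ω => ω ∈ M V} =>
    step S hJm hJme hlsc hM hp hε hM1 hM2 V.2
  let vv : List Bool → {V : T // On ν p fun ω => ω ∈ M V} := fun s =>
    List.rec ⟨V0, hM0 V0 hV0⟩ (fun b _ v => ⟨fV v b, h2 v b⟩) s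
  let aa : List Bool → T := fun s => List.casesOn s V0 fun b s => fA (vv s) b
  let ww : List Bool → T := fun s => List.casesOn s W0 fun b s => fW (vv s) b
  refine ⟨aa, ww, fun s => (vv s).1, ⟨?_, ?_, ?_, fun s => (vv s).2, fun s => h3 (vv s)⟩⟩
  · intro s b z
    filter_upwards [h1 (vv s) b z] with ω hω h
    exact (hω h).1
  · intro s z
    rcases s with _ | ⟨b, s⟩
    · filter_upwards [hW0 z] with ω hω _ h
      exact hω h.2
    · filter_upwards [h1 (vv s) b z] with ω hω h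
      exact (hω h).2.1
  · intro s z
    rcases s with _ | ⟨b, s⟩
    · filter_upwards [hV0 z] with ω hω _
      exact Or.inl hω
    · filter_upwards [h1 (vv s) b z] with ω hω h
      exact (hω h).2.2

variable {S : BSp ν X T} {J : T → T → Ω → ℝ} {M : T → Set Ω} {p : Set Ω} {ε' : ℝ}
  {A W V : List Bool → T}

theorem IsSch.nest (h : IsSch S J M p ε' A W V) {s t : List Bool} (hst : t <:+ s) (z : X) :
    On ν p fun ω => ω ∉ S.mem z (W s) → ω ∉ S.mem z (W t) := by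
  obtain ⟨l, rfl⟩ := hst
  induction l with
  | nil => exact Filter.Eventually.of_forall fun ω _ h1 => h1
  | cons b l ih =>
    filter_upwards [ih, h.cov (b :: (l ++ t)) z, h.sub (l ++ t) b z, h.disj (l ++ t) z]
      with ω e1 e2 e3 e4 hω h1
    exact e1 hω fun h2 => e4 hω ⟨e3 hω ((e2 hω).resolve_right h1), h2⟩

theorem IsSch.ne (h : IsSch S J M p ε' A W V) {D : X → X → Ω → ℝ} {ε : ℝ}
    (hM2 : ∀ U, ∀ q ⊆ p, Pos ν q → On ν q (fun ω => ω ∈ M U) → ∃ r ⊆ q, Pos ν r ∧ ∃ x y,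
      On ν r (fun ω => ω ∈ S.mem x U ∧ ω ∈ S.mem y U ∧ ε ≤ D x y ω) ∧
      ∀ V, On ν r fun ω => (ω ∈ S.mem x V → ω ∈ M V) ∧ (ω ∈ S.mem y V → ω ∈ M V))
    (t : List Bool) {q : Set Ω} (hq : q ⊆ p) (hq' : Pos ν q) :
    ∃ r ⊆ q, Pos ν r ∧ ∃ x, On ν r fun ω => ω ∉ S.mem x (W t) := by
  obtain ⟨r, hr, hr', x, y, h1, -⟩ := hM2 (V t) q hq hq' (by
    filter_upwards [h.meets t] with ω h1 h2
    exact h1 (hq h2))
  refine ⟨r, hr, hr', x, ?_⟩
  filter_upwards [h1, h.disj t x] with ω e1 e2 hω h3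
  exact e2 (hq (hr hω)) ⟨(e1 hω).1, h3⟩

end RNP
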