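import Pool.Agent.RNP.CdB

/-! # The Boolean valued space of a coded space

(problem MP_9bfcae_gt, Part II; assembly, no sorry in this file) -/

set_option autoImplicit false

namespace RNP

open MeasureTheory

variable {Ω : Type} [MeasurableSpace Ω] {ν : Measure Ω} [IsFiniteMeasure ν] {X C : Type}

/-- the Boolean valued space given by a coded space: the names of open sets are the functions `u` with
`IsOp S u` -/
def BCd.sp (S : BCd ν X C) : BSp ν X {u : X → Set Ω // IsOp S u} where
  mem x U := U.1 x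
  meas x U := U.2.1 x
  top := ⟨⟨_, op_top S⟩, fun _ => Filter.Eventually.of_forall fun _ => trivial⟩
  inter U V := ⟨⟨_, op_inter U.2 V.2⟩, fun _ => Filter.Eventually.of_forall fun _ => Iff.rfl⟩
  join I c U hc := by
    obtain ⟨w, hw, h1, h2⟩ := op_join c (fun i => (U i).1) hc fun i => (U i).2
    exact ⟨⟨w, hw⟩, h1, h2⟩
  haus x y U q hq h := by
    obtain ⟨r, hr, hr', v, w, hv, hw, h1, h2⟩ := op_haus U.2 hq h
    exact ⟨r, hr, hr', ⟨v, hv⟩, ⟨w, hw⟩, h1, h2⟩
  cpt I U q hq h := op_cpt (fun i => (U i).1) (fun i => (U i).2) hq h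

end RNP
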