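import Pool.Agent.RNP.Maxp
import Pool.Agent.RNP.Interp

/-! # One step of the Cantor scheme (package C17)

(problem MP_9bfcae_gt, Part II)

`M U` is the truth value of `U meets L`. Let `V` meet `L` on `p`. There are names `A b`, `W b`, `V' b` (`b : Bool`)
such that on `p`: `A b ⊆ V`, `V' b` and `W b` are disjoint, `A b ∪ W b` is everything (so the closed set
`K \ W b` contains `V' b` and is contained in `A b`), `V' b` meets `L`, and `J (A false) (A true) ≥ ε'`.
Proof. By `S.maxp` with `ι = Bool × Fin 3` (`(b, 0) ↦ A b`, `(b, 1) ↦ W b`, `(b, 2) ↦ V' b`) it is enough to find such names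
on a condition below an arbitrary condition `q ⊆ p` (apply `maxp` to the set `p`). The statement is extensional: for `J` use
`hJm` in both directions, for `M` use `hM1`. It is local: `On` is (countable unions). Given `q ⊆ p`: by `hM2` there
are `r ⊆ q` and `x`, `y` with `x ∈ V`, `y ∈ V`, `ε ≤ D x y` on `r`, and `x ∈ V'' → ω ∈ M V''`, `y ∈ V'' → ω ∈ M V''` for all
`V''`. By `hlsc` (with `ε' < ε`) there are `r1 ⊆ r` and `B0`, `B1` with `x ∈ B0`, `y ∈ B1`, `ε' < J B0 B1` on `r1`. Let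
`A false := B0 ∩ V`, `A true := B1 ∩ V` (`S.inter`). By `S.reg` for `x ∈ A false` and then for `y ∈ A true` there are
`r3 ⊆ r1` and `V' b`, `W b` with `x ∈ V' false`, `y ∈ V' true` on `r3` and `¬ (z ∈ V' b ∧ z ∈ W b)`, `z ∈ A b ∨ z ∈ W b`.
`V' b` meets `L` on `r3` since it contains `x` (or `y`). `J (A false) (A true) ≥ J B0 B1 > ε'` by `hJm`. -/

set_option autoImplicit false

namespace RNP

open MeasureTheory

variable {Ω : Type} [MeasurableSpace Ω] {ν : Measure Ω} [IsFiniteMeasure ν] {X T : Type}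

omit [IsFiniteMeasure ν] in
private theorem on_mono {q r : Set Ω} {F : Ω → Prop} (h : On ν q F) (hr : r ⊆ q) : On ν r F := by
  filter_upwards [h] with ω h1 h2
  exact h1 (hr h2)

omit [IsFiniteMeasure ν] in
private theorem on_null {q : Set Ω} {F : Ω → Prop} (h : ν q = 0) : On ν q F := by
  filter_upwards [measure_eq_zero_iff_ae_notMem.1 h] with ω h1 h2
  exact absurd h2 h1

omit [IsFiniteMeasure ν] in
private theorem on_cover {F : Ω → Prop} {q : Set Ω} {c : ℕ → Set Ω}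
    (hcov : On ν q fun ω => ∃ i, ω ∈ c i) (h : ∀ i, ν (c i) ≠ 0 → On ν (c i) F) : On ν q F := by
  have h2 : ∀ᵐ ω ∂ν, ∀ i, ω ∈ c i → F ω := by
    rw [ae_all_iff]
    intro i
    by_cases hi : ν (c i) = 0
    · exact on_null hi
    · exact h i hi
  filter_upwards [h2, hcov] with ω h3 h4 hω
  obtain ⟨i, hi⟩ := h4 hω
  exact h3 i hi

theorem step (S : BSp ν X T) {D : X → X → Ω → ℝ} {J : T → T → Ω → ℝ} {M : T → Set Ω}
    {p : Set Ω} {ε ε' : ℝ}
    (hJm : ∀ V V' W W' (q : Set Ω), MeasurableSet q →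
      (∀ x, On ν q fun ω => ω ∈ S.mem x V' → ω ∈ S.mem x V) →
      (∀ x, On ν q fun ω => ω ∈ S.mem x W' → ω ∈ S.mem x W) →
      On ν q fun ω => J V W ω ≤ J V' W' ω)
    (hJme : ∀ V W, Measurable (J V W))
    (hlsc : ∀ x y (r : ℝ) (q : Set Ω), Pos ν q → On ν q (fun ω => r < D x y ω) →
      ∃ p ⊆ q, Pos ν p ∧ ∃ V W, On ν p fun ω => ω ∈ S.mem x V ∧ ω ∈ S.mem y W ∧ r < J V W ω)
    (hM : ∀ U, MeasurableSet (M U)) (hp : Pos ν p) (hε : ε' < ε)
    (hM1 : ∀ U V q, Pos ν q → (∀ x, On ν q fun ω => ω ∈ S.mem x U → ω ∈ S.mem x V) →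
      On ν q fun ω => ω ∈ M U → ω ∈ M V)
    (hM2 : ∀ U, ∀ q ⊆ p, Pos ν q → On ν q (fun ω => ω ∈ M U) → ∃ r ⊆ q, Pos ν r ∧ ∃ x y,
      On ν r (fun ω => ω ∈ S.mem x U ∧ ω ∈ S.mem y U ∧ ε ≤ D x y ω) ∧
      ∀ V, On ν r fun ω => (ω ∈ S.mem x V → ω ∈ M V) ∧ (ω ∈ S.mem y V → ω ∈ M V))
    {V : T} (hV : On ν p fun ω => ω ∈ M V) :
    ∃ A W V' : Bool → T,
      (∀ b z, On ν p fun ω => (ω ∈ S.mem z (A b) → ω ∈ S.mem z V) ∧
        ¬ (ω ∈ S.mem z (V' b) ∧ ω ∈ S.mem z (W b)) ∧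
        (ω ∈ S.mem z (A b) ∨ ω ∈ S.mem z (W b))) ∧
      (∀ b, On ν p fun ω => ω ∈ M (V' b)) ∧
      On ν p fun ω => ε' ≤ J (A false) (A true) ω := by
  obtain ⟨O, hO1, hO2, hO3⟩ := S.maxp (ι := Bool × Fin 3) (fun q O =>
      (∀ b z, On ν q fun ω => (ω ∈ S.mem z (O (b, 0)) → ω ∈ S.mem z V) ∧
        ¬ (ω ∈ S.mem z (O (b, 2)) ∧ ω ∈ S.mem z (O (b, 1))) ∧
        (ω ∈ S.mem z (O (b, 0)) ∨ ω ∈ S.mem z (O (b, 1)))) ∧
      (∀ b, On ν q fun ω => ω ∈ M (O (b, 2))) ∧
      On ν q fun ω => ε' ≤ J (O (false, 0)) (O (true, 0)) ω)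
    (by
      rintro q U1 V1 hq h ⟨h1, h2, h3⟩
      refine ⟨fun b z => ?_, fun b => ?_, ?_⟩
      · filter_upwards [h (b, 0) z, h (b, 1) z, h (b, 2) z, h1 b z] with ω e1 e2 e3 e4 hω
        rw [← e1 hω, ← e2 hω, ← e3 hω]
        exact e4 hω
      · by_cases h0 : ν q = 0
        · exact on_null h0
        · have h4 := hM1 (U1 (b, 2)) (V1 (b, 2)) q ⟨hq, h0⟩ fun x => by
            filter_upwards [h (b, 2) x] with ω e1 hω
            exact (e1 hω).1
          filter_upwards [h4, h2 b] with ω e1 e2 hω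
          exact e1 hω (e2 hω)
      · have h4 := hJm (U1 (false, 0)) (V1 (false, 0)) (U1 (true, 0)) (V1 (true, 0)) q hq
          (fun x => by
            filter_upwards [h (false, 0) x] with ω e1 hω
            exact (e1 hω).2)
          (fun x => by
            filter_upwards [h (true, 0) x] with ω e1 hω
            exact (e1 hω).2)
        filter_upwards [h4, h3] with ω e1 e2 hω
        exact (e2 hω).trans (e1 hω))
    (by
      intro q U1 c _ _ _ hcov h1
      exact ⟨fun b z => on_cover hcov fun i hi => (h1 i hi).1 b z,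
        fun b => on_cover hcov fun i hi => (h1 i hi).2.1 b,
        on_cover hcov fun i hi => (h1 i hi).2.2⟩)
    hp.1
    (by
      intro q hqp hq
      obtain ⟨r, hrq, hr, x, y, h1, h2⟩ := hM2 V q hqp hq (on_mono hV hqp)
      obtain ⟨r1, hr1, hr1p, B0, B1, h3⟩ := hlsc x y ε' r hr (by
        filter_upwards [h1] with ω e1 hω
        exact hε.trans_le (e1 hω).2.2)
      obtain ⟨A0, hA0⟩ := S.inter B0 V
      obtain ⟨A1, hA1⟩ := S.inter B1 V
      obtain ⟨r2, hr2, hr2p, V0, W0, h4, h5⟩ := S.reg (x := x) (U := A0) hr1p (by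
        filter_upwards [hA0 x, h1, h3] with ω e1 e2 e3 hω
        exact e1.2 ⟨(e3 hω).1, (e2 (hr1 hω)).1⟩)
      obtain ⟨r3, hr3, hr3p, V1, W1, h6, h7⟩ := S.reg (x := y) (U := A1) hr2p (by
        filter_upwards [hA1 y, h1, h3] with ω e1 e2 e3 hω
        exact e1.2 ⟨(e3 (hr2 hω)).2.1, (e2 (hr1 (hr2 hω))).2.1⟩)
      refine ⟨r3, hr3.trans (hr2.trans (hr1.trans hrq)), hr3p,
        fun k => (if k.1 then ![A1, W1, V1] else ![A0, W0, V0]) k.2, ?_, ?_, ?_⟩
      · intro b z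
        cases b
        · filter_upwards [hA0 z, h5 z] with ω e1 e2 hω
          exact ⟨fun e3 => (e1.1 e3).2, (e2 (hr3 hω)).1, (e2 (hr3 hω)).2⟩
        · filter_upwards [hA1 z, h7 z] with ω e1 e2 hω
          exact ⟨fun e3 => (e1.1 e3).2, (e2 hω).1, (e2 hω).2⟩
      · intro b
        cases b
        · filter_upwards [h4, h2 V0] with ω e1 e2 hω
          exact (e2 (hr1 (hr2 (hr3 hω)))).1 (e1 (hr3 hω))
        · filter_upwards [h6, h2 V1] with ω e1 e2 hω
          exact (e2 (hr1 (hr2 (hr3 hω)))).2 (e1 hω)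
      · have h8 := hJm B0 A0 B1 A1 r3 hr3p.1
          (fun z => by
            filter_upwards [hA0 z] with ω e1 _ e2
            exact (e1.1 e2).1)
          (fun z => by
            filter_upwards [hA1 z] with ω e1 _ e2
            exact (e1.1 e2).1)
        filter_upwards [h8, h3] with ω e1 e2 hω
        exact (e2 (hr2 (hr3 hω))).2.2.le.trans (e1 hω))
  exact ⟨fun b => O (b, 0), fun b => O (b, 1), fun b => O (b, 2), hO1, hO2, hO3⟩

end RNP
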