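import Pool.Agent.CPI.Lang
import Pool.Agent.CPI.Coded

/-! # Radon-Nikodym compact spaces inside a structure `(N, E)`

(problem MP_9bfcae_gt; definitions, no sorry in this file)

Every definition quantifies over the elements of `N` only. `Sub`, `IsOP`, `Val`, `IsFun` are the
notions of `STP/Lang.lean`: inclusion, ordered pair, `(x, y) ∈ f`, function with domain `a`. `IsTop`,
`IsHd`, `IsCpt`, `IsRL` are the notions of `CPI/Lang.lean`: topology, Hausdorff, compact, `(R, l)` is
isomorphic to the ordered set of the real numbers. `Ap E f x y z`: `f (x, y) = z`. -/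

universe v

namespace RNT

open STP CPI

section

variable {N : Type v} (E : N → N → Prop)

/-- `(R, l, s)` is (isomorphic to) the ordered additive group of the real numbers: `(R, l)` is the
ordered set of the real numbers, and `s` is a function from `R × R` to `R` which makes `R` an ordered
abelian group -/
def IsRG (R l s : N) : Prop :=
  IsRL E R l ∧
  (∀ x y z, Ap E s x y z → E x R ∧ E y R ∧ E z R) ∧
  (∀ x y, E x R → E y R → ∃ z, E z R ∧ Ap E s x y z) ∧
  (∀ x y z z', Ap E s x y z → Ap E s x y z' → z = z') ∧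
  (∀ x y z, Ap E s x y z → Ap E s y x z) ∧
  (∀ x y z u v w, Ap E s x y u → Ap E s u z w → Ap E s y z v → Ap E s x v w) ∧
  (∃ o, E o R ∧ (∀ x, E x R → Ap E s x o x) ∧ ∀ x, E x R → ∃ y, E y R ∧ Ap E s x y o) ∧
  ∀ x y z u v, Val E l x y → Ap E s x z u → Ap E s y z v → Val E l u v

/-- `o` is the number `0` -/
def IsZ (s o : N) : Prop := Ap E s o o o

/-- `d` is a metric on the set `X` with values in `R` -/
def IsMet (R l s X d : N) : Prop :=
  (∀ x y, E x X → E y X → ∃ r, E r R ∧ Ap E d x y r) ∧
  (∀ x y r r', E x X → E y X → Ap E d x y r → Ap E d x y r' → r = r') ∧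
  (∀ x y o, E x X → E y X → IsZ E s o → (Ap E d x y o ↔ x = y)) ∧
  (∀ x y r, E x X → E y X → Ap E d x y r → Ap E d y x r) ∧
  ∀ x y z t u v w, E x X → E y X → E z X → Ap E d x y u → Ap E d y z v → Ap E d x z t →
    Ap E s u v w → ¬ Val E l w t

/-- `d` is lower semicontinuous on `X × X`: the set of all `(x, y)` with `r < d (x, y)` is open for
all `r` -/
def IsLsc (R l X τ d : N) : Prop :=
  ∀ x y r t, E x X → E y X → E r R → Ap E d x y t → Val E l r t →
    ∃ U V, E U τ ∧ E V τ ∧ E x U ∧ E y V ∧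
      ∀ x' y' t', E x' U → E y' V → Ap E d x' y' t' → Val E l r t'

/-- `d` fragments `X`: every nonempty `L ⊆ X` has for every `e > 0` a nonempty relatively open subset
in which all distances are less than `e` -/
def IsFrag (R l s X τ d : N) : Prop :=
  ∀ L e o, Sub E L X → (∃ x, E x L) → IsZ E s o → E e R → Val E l o e →
    ∃ U, E U τ ∧ (∃ x, E x U ∧ E x L) ∧
      ∀ x y t, E x U → E x L → E y U → E y L → Ap E d x y t → Val E l t e

/-- `(X, τ)` is a compact Hausdorff space -/
def IsCH (X τ : N) : Prop := IsTop E X τ ∧ IsHd E X τ ∧ IsCpt E X τ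

/-- the compact space `(X, τ)` is Radon-Nikodym compact: there is a lower semicontinuous metric which
fragments it -/
def IsRN (R l s X τ : N) : Prop :=
  ∃ d, IsMet E R l s X d ∧ IsLsc E R l X τ d ∧ IsFrag E R l s X τ d

/-- the space `(Y, σ)` is a continuous image of the space `(X, τ)` -/
def IsIm (X τ Y σ : N) : Prop :=
  ∃ h, IsFun E h X ∧ (∀ x y, Val E h x y → E y Y) ∧ (∀ y, E y Y → ∃ x, Val E h x y) ∧
    ∀ O, E O σ → ∃ U, E U τ ∧ ∀ x, E x U ↔ ∃ y, E y O ∧ Val E h x y

/-- the weight of the space `(Y, σ)` is at most the continuum: there are a base `B` and a function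
from a subset of `R` onto `B` -/
def WtC (R Y σ : N) : Prop :=
  ∃ B f, Sub E B σ ∧ (∀ O y, E O σ → E y O → ∃ b, E b B ∧ E y b ∧ Sub E b O) ∧
    (∀ r b b', Val E f r b → Val E f r b' → b = b') ∧ ∀ b, E b B → ∃ r, E r R ∧ Val E f r b

/-- All compact Hausdorff spaces all of whose continuous images of weight at most the continuum are
Radon-Nikodym compact are Radon-Nikodym compact. -/
def RefRN : Prop :=
  ∃ R l s, IsRG E R l s ∧ ∀ X τ, IsCH E X τ →
    (∀ Y σ, IsCH E Y σ → IsIm E X τ Y σ → WtC E R Y σ → IsRN E R l s Y σ) → IsRN E R l s X τ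

/-- There is a continuous image `(X, τ)` of a Radon-Nikodym compact space `(Z, ρ)` which is not
Radon-Nikodym compact, although all its continuous images of weight at most the continuum are
Radon-Nikodym compact. -/
def NonRefRN : Prop :=
  ∃ R l s, IsRG E R l s ∧ ∃ X τ Z ρ, IsCH E X τ ∧ IsCH E Z ρ ∧ IsRN E R l s Z ρ ∧
    IsIm E Z ρ X τ ∧
    (∀ Y σ, IsCH E Y σ → IsIm E X τ Y σ → WtC E R Y σ → IsRN E R l s Y σ) ∧
    ¬ IsRN E R l s X τ

end

end RNT
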