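import Pool.Agent.RNP.Lang
import Pool.Agent.CPI.BTv

/-! # Truth values of the notions of `RNC/Lang.lean`

(problem MP_9bfcae_gt, Part II; no sorry in this file) -/

set_option synthInstance.maxHeartbeats 4000000
set_option synthInstance.maxSize 100000

universe u

namespace RNP

open STP STP.BSet CPI RNC

variable {P : Type u} [PartialOrder P] (a b c d e f g h x y z : BSet (RO P))

instance : TV fun G => IsRA (EG G) (NG.mk G a) (NG.mk G b) (NG.mk G c) (NG.mk G d) := by
  unfold IsRA
  infer_instance

instance : TV fun G => IsMet (EG G) (NG.mk G a) (NG.mk G b) (NG.mk G c) (NG.mk G d) (NG.mk G e)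
    (NG.mk G f) := by
  unfold IsMet
  infer_instance

instance : TV fun G => IsLsc (EG G) (NG.mk G a) (NG.mk G b) (NG.mk G c) (NG.mk G d) (NG.mk G e)
    (NG.mk G f) := by
  unfold IsLsc
  infer_instance

instance : TV fun G => IsFrg (EG G) (NG.mk G a) (NG.mk G b) (NG.mk G c) (NG.mk G d) (NG.mk G e)
    (NG.mk G f) (NG.mk G g) := by
  unfold IsFrg
  infer_instance

instance : TV fun G => IsRN (EG G) (NG.mk G a) (NG.mk G b) (NG.mk G c) (NG.mk G d) (NG.mk G e)
    (NG.mk G f) (NG.mk G g) := by
  unfold IsRN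
  infer_instance

instance : TV fun G => IsCM (EG G) (NG.mk G a) (NG.mk G b) (NG.mk G c) (NG.mk G d) (NG.mk G e)
    (NG.mk G f) (NG.mk G g) := by
  unfold IsCM
  infer_instance

instance : TV fun G => IsIm (EG G) (NG.mk G a) (NG.mk G b) (NG.mk G c) (NG.mk G d) (NG.mk G e)
    (NG.mk G f) := by
  unfold IsIm
  infer_instance

instance : TV fun G => IsSm (EG G) (NG.mk G a) (NG.mk G b) := by
  unfold IsSm
  infer_instance

end RNP
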