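import Pool.Agent.RNP.Defs
import Pool.Agent.RNP.TvN
import Pool.Agent.RVI.Fd0
import Pool.Agent.CPI.Nam

/-! # From the model to Boolean valued compact spaces (definitions)

(problem MP_9bfcae_gt, Part II; no sorry in this file)

`p` is a condition of the measure algebra of the probability space `(Ω, μ)`. Statements forced below
`p` are translated into statements about the measure `nu p := μ.restrict p`.
* `ts S`: a measurable set which represents the truth value of the statement `S`.
* `cd hq`: the condition `q ∩ p` given by a set `q` with `Pos (nu p) q`.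
* `BCd ν X C`: Boolean valued compact Hausdorff spaces with a base: `hv x b` is the truth value of: the
  point `x` is in the basic open set with the code `b`.
* `ec`, `mq`, `mr`, `gm`: the image of the space under a family `a` of continuous functions. The points
  are named by `mq a x`, `mq a x = mq a y` if and only if `f x = f y` for all `f ∈ a` (on `p`); the basic
  open sets are the boxes `e` over `a` (`Ea a`), with the names `kn e`; `mr a` is the membership relation,
  `gm a` is the canonical map. -/

set_option autoImplicit false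

namespace RNP

open MeasureTheory STP STP.BSet RVI
open CPI (F TV tv kn)

section

variable {Ω : Type} [MeasurableSpace Ω] {μ : Measure Ω} [IsProbabilityMeasure μ]

/-- the restriction of the measure to a condition -/
noncomputable abbrev nu (p : Ps μ) : Measure Ω := μ.restrict p.1

/-- a measurable set which represents the truth value of a statement -/
noncomputable def ts (S : Ult (RO (Ps μ)) → Prop) [TV S] : Set Ω := rp (tv S)

/-- the condition below `p` given by a set which is a condition for the restricted measure -/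
def cd {p : Ps μ} {q : Set Ω} (hq : Pos (nu p) q) : Ps μ :=
  ⟨q ∩ p.1, hq.1.inter p.2.1, by
    have h := hq.2
    rw [Measure.restrict_apply hq.1] at h
    exact pos_iff_ne_zero.2 h⟩

end

section

variable {Ω : Type} [MeasurableSpace Ω]

/-- Boolean valued compact Hausdorff spaces with a base: `X` is a set of names of points, `C` is a set
of names of codes of basic open sets -/
structure BCd (ν : Measure Ω) (X C : Type) where
  /-- the truth value of: `x` is in the basic open set with the code `b` -/
  hv : X → C → Set Ω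
  meas : ∀ x b, MeasurableSet (hv x b)
  cover : ∀ x q, Pos ν q → ∃ r ⊆ q, Pos ν r ∧ ∃ b, On ν r fun ω => ω ∈ hv x b
  dir : ∀ x b b' q, Pos ν q → On ν q (fun ω => ω ∈ hv x b ∧ ω ∈ hv x b') →
    ∃ r ⊆ q, Pos ν r ∧ ∃ c, On ν r (fun ω => ω ∈ hv x c) ∧
      ∀ z, On ν r fun ω => ω ∈ hv z c → ω ∈ hv z b ∧ ω ∈ hv z b'
  haus : ∀ x y b q, Pos ν q → On ν q (fun ω => ω ∈ hv x b ∧ ω ∉ hv y b) →
    ∃ r ⊆ q, Pos ν r ∧ ∃ c c', On ν r (fun ω => ω ∈ hv x c ∧ ω ∈ hv y c') ∧
      ∀ z, On ν r fun ω => ¬ (ω ∈ hv z c ∧ ω ∈ hv z c')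
  cpt : ∀ (o : C → Set Ω) q, (∀ b, MeasurableSet (o b)) → Pos ν q →
    (∀ x, ∀ r ⊆ q, Pos ν r → ∃ s ⊆ r, Pos ν s ∧ ∃ b, On ν s fun ω => ω ∈ o b ∧ ω ∈ hv x b) →
    ∃ r ⊆ q, Pos ν r ∧ ∃ J : Finset C, (∀ b ∈ J, On ν r fun ω => ω ∈ o b) ∧
      ∀ x, On ν r fun ω => ∃ b ∈ J, ω ∈ hv x b

/-- `u` is (a name of) an open set: `u x` is the truth value of `x ∈ u` -/
def IsOp {ν : Measure Ω} {X C : Type} (S : BCd ν X C) (u : X → Set Ω) : Prop :=
  (∀ x, MeasurableSet (u x)) ∧ ∀ x q, Pos ν q → On ν q (fun ω => ω ∈ u x) →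
    ∃ r ⊆ q, Pos ν r ∧ ∃ b, On ν r (fun ω => ω ∈ S.hv x b) ∧
      ∀ z, On ν r fun ω => ω ∈ S.hv z b → ω ∈ u z

end

end RNP
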