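import Pool.Agent.RNP.NF

/-! # Weak limits along a normal ultrafilter: existence (package C11)

(problem MP_9bfcae_gt, Part II)

`IsWL ν U f g`: `g` is the weak limit of the functions `f a` along `U`: for every measurable set `b`
the integral of `f a` over `b` is equal to the integral of `g` over `b`, for `U`-almost all `a`.
`exists_wl`: for measurable `b` let `φ b` be the constant value of `∫ ω in b, f a ω ∂ν` (`NF.real`). For countably many
`b` there is one `a` which computes all `φ b` (`NF.all`; an eventual statement holds for some `a`,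
`Filter.Eventually.exists`). So `φ` is countably additive on disjoint sequences of measurable sets (for this `a`:
`MeasureTheory.integral_iUnion`, or `hasSum_integral_iUnion`), `0 ≤ φ b ≤ (ν b).toReal`, `φ ∅ = 0`. Define a measure `ρ`
by `Measure.ofMeasurable (fun b _ => ENNReal.ofReal (φ b))`; `ρ ≤ ν`, so `ρ ≪ ν`, and by Radon-Nikodym
(`Measure.withDensity_rnDeriv_eq`) `ρ = ν.withDensity (ρ.rnDeriv ν)`, the density is `≤ 1` almost everywhere (since
`ρ ≤ ν`: `ae_le_of_forall_setLIntegral_le_of_sigmaFinite` or `Measure.rnDeriv_le_one_of_le`). Put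
`g ω := min (ρ.rnDeriv ν ω).toReal 1`; then `∫ ω in b, g ω ∂ν = φ b`. -/

set_option autoImplicit false

namespace RNP

open MeasureTheory Cardinal

variable {Ω : Type} [MeasurableSpace Ω]

/-- a family of measurable functions with values in `[0, 1]` -/
structure IsF {A : Type} (f : A → Ω → ℝ) : Prop where
  meas : ∀ a, Measurable (f a)
  nonneg : ∀ a ω, 0 ≤ f a ω
  le_one : ∀ a ω, f a ω ≤ 1

/-- `g` is the weak limit of the functions `f a` along `U` -/
structure IsWL {A : Type} (ν : Measure Ω) (U : Ultrafilter A) (f : A → Ω → ℝ) (g : Ω → ℝ) :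
    Prop where
  meas : Measurable g
  nonneg : ∀ ω, 0 ≤ g ω
  le_one : ∀ ω, g ω ≤ 1
  int : ∀ b, MeasurableSet b → ∀ᶠ a in (U : Filter A), ∫ ω in b, f a ω ∂ν = ∫ ω in b, g ω ∂ν

private theorem wl_meas (ν : Measure Ω) [IsFiniteMeasure ν] {h : Ω → ℝ} (hm : Measurable h)
    (h0 : ∀ ω, 0 ≤ h ω) (b : Set Ω) (hb : MeasurableSet b) :
    ∫ ω in b, h ω ∂ν = ((ν.withDensity fun ω => ENNReal.ofReal (h ω)) b).toReal := by
  rw [withDensity_apply _ hb,
    integral_eq_lintegral_of_nonneg_ae (Filter.Eventually.of_forall h0) hm.aestronglyMeasurable]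

private theorem wl_le (ν : Measure Ω) [IsFiniteMeasure ν] {h : Ω → ℝ}
    (h1 : ∀ ω, h ω ≤ 1) (b : Set Ω) :
    (ν.withDensity fun ω => ENNReal.ofReal (h ω)) b ≤ ν b := by
  have h2 : (ν.withDensity fun ω => ENNReal.ofReal (h ω)) ≤ ν.withDensity 1 := by
    apply withDensity_mono
    refine Filter.Eventually.of_forall fun ω => ?_
    exact ENNReal.ofReal_le_one.2 (h1 ω)
  rw [withDensity_one] at h2
  exact h2 b

theorem exists_wl (ν : Measure Ω) [IsFiniteMeasure ν] {κ : Cardinal.{0}} {Λ : Type}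
    {U : Ultrafilter (Pk κ Λ)} (hκ : ℵ₀ < κ) (hU : IsNF κ Λ U) {f : Pk κ Λ → Ω → ℝ}
    (hf : IsF f) : ∃ g, IsWL ν U f g := by
  classical
  set μ : Pk κ Λ → Measure Ω := fun a => ν.withDensity fun ω => ENNReal.ofReal (f a ω) with hμ
  have hle : ∀ a b, μ a b ≤ ν b := fun a b => wl_le ν (hf.le_one a) b
  have hex : ∀ b : Set Ω, ∃ c : ENNReal, ∀ᶠ a in (U : Filter (Pk κ Λ)), μ a b = c := by
    intro b
    obtain ⟨c, hc⟩ := NF.real hκ hU fun a => (μ a b).toReal
    refine ⟨ENNReal.ofReal c, hc.mono fun a ha => ?_⟩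
    rw [← ha, ENNReal.ofReal_toReal]
    exact ne_top_of_le_ne_top (measure_ne_top ν b) (hle a b)
  choose φ hφ using hex
  have m0 : φ ∅ = 0 := by
    obtain ⟨a, ha⟩ := (hφ ∅).exists
    rw [← ha, measure_empty]
  have mU : ∀ ⦃s : ℕ → Set Ω⦄ (hs : ∀ i, MeasurableSet (s i)),
      Pairwise (Function.onFun Disjoint s) → φ (⋃ i, s i) = ∑' i, φ (s i) := by
    intro s hs hd
    have h1 := NF.all hκ hU (p := fun i a => μ a (s i) = φ (s i)) fun i => hφ (s i)
    obtain ⟨a, ha, hb⟩ := ((hφ (⋃ i, s i)).and h1).exists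
    rw [← ha, measure_iUnion hd hs]
    exact tsum_congr hb
  set ρ : Measure Ω := Measure.ofMeasurable (fun b _ => φ b) m0 mU with hρ
  have hρa : ∀ b, MeasurableSet b → ρ b = φ b := by
    intro b hb
    rw [hρ, Measure.ofMeasurable_apply b hb]
  have hρν : ρ ≤ ν := by
    rw [Measure.le_iff]
    intro b hb
    rw [hρa b hb]
    obtain ⟨a, ha⟩ := (hφ b).exists
    rw [← ha]
    exact hle a b
  have : IsFiniteMeasure ρ := isFiniteMeasure_of_le ν hρν
  have hac : ρ ≪ ν := Measure.absolutelyContinuous_of_le hρν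
  have hone : ρ.rnDeriv ν ≤ᵐ[ν] 1 := Measure.rnDeriv_le_one_of_le hρν
  refine ⟨fun ω => min (ρ.rnDeriv ν ω).toReal 1, ?_, ?_, ?_, ?_⟩
  · exact ((Measure.measurable_rnDeriv ρ ν).ennreal_toReal).min measurable_const
  · intro ω
    exact le_min ENNReal.toReal_nonneg zero_le_one
  · intro ω
    exact min_le_right _ _
  · intro b hb
    have h1 : ∫ ω in b, min (ρ.rnDeriv ν ω).toReal 1 ∂ν = (φ b).toReal := by
      have h2 : ∫ ω in b, min (ρ.rnDeriv ν ω).toReal 1 ∂ν =
          ∫ ω in b, (ρ.rnDeriv ν ω).toReal ∂ν := by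
        apply setIntegral_congr_ae hb
        filter_upwards [hone] with ω hω _
        apply min_eq_left
        have := ENNReal.toReal_mono ENNReal.one_ne_top hω
        simpa using this
      rw [h2, Measure.setIntegral_toReal_rnDeriv hac b, Measure.real, hρa b hb]
    rw [h1]
    filter_upwards [hφ b] with a ha
    rw [wl_meas ν (hf.meas a) (hf.nonneg a) b hb, ← ha]

end RNP
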